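import Pool.Agent.Work.CB2.Interface

/-!
# The example: a tetrahedral complex with convex union
-/

open scoped BigOperators
open Finset

noncomputable section

namespace Pool.CB

/-! ### Combinatorial data -/

/-- The tetrahedra of the example. -/
def g_tt : Fin 16 → Finset (Fin 12) :=
  ![{0, 4, 5, 6}, {0, 3, 5, 6}, {0, 1, 4, 6}, {0, 2, 4, 5}, {0, 7, 8, 9}, {0, 3, 8, 9},
    {0, 1, 7, 9}, {0, 2, 7, 8}, {0, 1, 4, 7}, {0, 2, 4, 7}, {0, 2, 5, 8}, {0, 3, 5, 8},
    {0, 3, 6, 9}, {0, 1, 6, 10}, {0, 1, 10, 11}, {0, 1, 9, 11}]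

theorem g_tetF : tetF = Finset.univ.image g_tt := by decide +kernel

theorem g_mem {t : Finset (Fin 12)} : t ∈ tetF ↔ ∃ a, g_tt a = t := by
  rw [g_tetF]; simp

/-- Separating planes: for two tetrahedra, a pair of vertices spanning the plane. -/
def g_tab : Fin 16 → Fin 16 → Fin 12 × Fin 12 := ![
![(0, 0), (5, 6), (6, 4), (4, 5), (1, 2), (1, 2), (1, 2), (1, 2), (1, 4), (1, 4), (2, 5), (2, 5),
    (3, 6), (1, 11), (1, 9), (1, 2)],
![(6, 5), (0, 0), (6, 2), (5, 8), (1, 7), (1, 2), (1, 7), (2, 8), (2, 7), (2, 7), (5, 8), (5, 3),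
    (3, 6), (1, 11), (1, 9), (1, 7)],
![(4, 6), (2, 6), (0, 0), (4, 5), (2, 5), (2, 5), (1, 2), (2, 5), (1, 4), (4, 5), (2, 5), (2, 5),
    (2, 6), (1, 11), (1, 9), (1, 2)],
![(5, 4), (3, 5), (4, 11), (0, 0), (1, 7), (7, 3), (1, 7), (1, 2), (4, 7), (4, 2), (2, 5), (5, 6),
    (3, 6), (1, 11), (1, 9), (1, 7)],
![(2, 1), (2, 1), (2, 1), (2, 1), (0, 0), (9, 8), (7, 9), (8, 7), (2, 7), (2, 7), (8, 2), (8, 2),
    (9, 3), (1, 11), (1, 11), (1, 9)],
![(4, 1), (2, 1), (2, 11), (5, 2), (8, 9), (0, 0), (2, 9), (5, 8), (2, 7), (2, 7), (5, 8), (3, 8),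
    (9, 3), (1, 11), (1, 11), (1, 9)],
![(2, 10), (2, 10), (2, 1), (2, 10), (9, 7), (9, 2), (0, 0), (7, 10), (7, 1), (7, 10), (2, 10),
    (2, 10), (9, 2), (1, 11), (1, 11), (1, 9)],
![(3, 4), (3, 4), (4, 1), (2, 1), (7, 8), (8, 3), (7, 9), (0, 0), (4, 7), (2, 7), (8, 2), (8, 4),
    (3, 6), (1, 11), (1, 9), (1, 9)],
![(2, 4), (3, 5), (4, 1), (2, 4), (7, 2), (5, 6), (1, 7), (7, 2), (0, 0), (7, 4), (0, 0), (5, 6),
    (3, 6), (1, 11), (1, 9), (1, 8)],
![(3, 4), (3, 5), (4, 1), (2, 4), (1, 7), (5, 6), (1, 7), (7, 2), (4, 7), (0, 0), (0, 0), (5, 6),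
    (3, 6), (1, 11), (1, 9), (1, 8)],
![(5, 4), (3, 5), (4, 11), (5, 2), (7, 8), (8, 3), (7, 9), (2, 8), (4, 7), (2, 7), (0, 0), (8, 5),
    (3, 6), (1, 11), (1, 9), (1, 9)],
![(5, 2), (3, 5), (2, 11), (5, 2), (2, 8), (8, 3), (2, 9), (2, 8), (2, 7), (2, 7), (5, 8), (0, 0),
    (3, 6), (1, 11), (1, 9), (1, 9)],
![(6, 5), (6, 3), (6, 2), (5, 8), (5, 9), (3, 9), (2, 9), (5, 8), (2, 7), (2, 7), (5, 8), (0, 0),
    (0, 0), (1, 11), (2, 7), (1, 9)],
![(4, 6), (2, 6), (1, 6), (4, 5), (2, 5), (2, 5), (1, 2), (2, 5), (1, 4), (4, 5), (2, 5), (2, 5),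
    (2, 6), (0, 0), (1, 9), (1, 2)],
![(2, 4), (2, 4), (0, 0), (2, 4), (2, 6), (2, 4), (0, 0), (2, 6), (0, 0), (4, 6), (2, 4), (2, 4),
    (2, 4), (1, 10), (0, 0), (1, 6)],
![(2, 10), (2, 10), (2, 1), (2, 10), (9, 7), (9, 2), (1, 10), (7, 10), (7, 1), (7, 10), (2, 10),
    (2, 10), (9, 2), (2, 1), (1, 11), (0, 0)]]

/-- The conditions on a separating plane. -/
def g_sepP (w : ℤ) (i j : Fin 12) (s t : Finset (Fin 12)) : Prop :=
  (∀ p ∈ s, 0 ≤ dI w i j p) ∧ (∀ p ∈ t, dI w i j p ≤ 0) ∧ ∀ p ∈ s, dI w i j p = 0 → p ∈ t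

instance (w : ℤ) (i j : Fin 12) (s t : Finset (Fin 12)) : Decidable (g_sepP w i j s t) := by
  unfold g_sepP; infer_instance

/-- The conditions on a plane through all vertices but one. -/
def g_indP (w : ℤ) (t : Finset (Fin 12)) (i : Fin 12) : Prop :=
  ∃ j ∈ t, ∃ k ∈ t, dI w j k i ≠ 0 ∧ ∀ q ∈ t, q ≠ i → dI w j k q = 0

instance (w : ℤ) (t : Finset (Fin 12)) (i : Fin 12) : Decidable (g_indP w t i) := by
  unfold g_indP; infer_instance

theorem g_sep44 : ∀ a b : Fin 16, a ≠ b →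
    g_sepP 44 (g_tab a b).1 (g_tab a b).2 (g_tt a) (g_tt b) ∨
      g_sepP 44 (g_tab b a).1 (g_tab b a).2 (g_tt b) (g_tt a) := by decide +kernel

theorem g_sep45 : ∀ a b : Fin 16, a ≠ b →
    g_sepP 45 (g_tab a b).1 (g_tab a b).2 (g_tt a) (g_tt b) ∨
      g_sepP 45 (g_tab b a).1 (g_tab b a).2 (g_tt b) (g_tt a) := by decide +kernel

theorem g_ind44 : ∀ a : Fin 16, ∀ i ∈ g_tt a, i ≠ 0 → g_indP 44 (g_tt a) i := by decide +kernel

theorem g_ind45 : ∀ a : Fin 16, ∀ i ∈ g_tt a, i ≠ 0 → g_indP 45 (g_tt a) i := by decide +kernel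

theorem g_card4 : ∀ a : Fin 16, (g_tt a).card = 4 := by decide +kernel

theorem g_inj44 : ∀ i j : Fin 12, posI 44 i = posI 44 j → i = j := by decide +kernel

theorem g_inj45 : ∀ i j : Fin 12, posI 45 i = posI 45 j → i = j := by decide +kernel

theorem g_z (w : ℤ) : ∀ i : Fin 12, i ≠ 0 → posI w i 2 = 1 := by
  intro i hi
  fin_cases i <;> first | exact absurd rfl hi | rfl

/-! ### Geometry -/

/-- The determinant. -/
def g_d (a b x : E3) : ℝ :=
  a 0 * (b 1 * x 2 - b 2 * x 1) - a 1 * (b 0 * x 2 - b 2 * x 0) + a 2 * (b 0 * x 1 - b 1 * x 0)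

/-- The determinant as a functional. -/
def g_lin (a b : E3) : E3 →ₗ[ℝ] ℝ where
  toFun x := g_d a b x
  map_add' x y := by simp only [g_d, Pi.add_apply]; ring
  map_smul' c x := by simp only [g_d, Pi.smul_apply, smul_eq_mul, RingHom.id_apply]; ring

theorem g_lin_pt (w : ℤ) (i j k : Fin 12) :
    g_lin (pt w i) (pt w j) (pt w k) = (dI w i j k : ℝ) := by
  show g_d (pt w i) (pt w j) (pt w k) = _
  simp only [g_d, dI, pt]
  push_cast
  ring

theorem g_pt_inj {w : ℤ} (hw : w = 44 ∨ w = 45) : Function.Injective (pt w) := by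
  intro i j hij
  have h1 : posI w i = posI w j := by
    funext k
    have := congrFun hij k
    simp only [pt] at this
    exact_mod_cast this
  rcases hw with rfl | rfl
  · exact g_inj44 i j h1
  · exact g_inj45 i j h1

/-- Two hulls separated by a functional. -/
theorem g_meet {S T : Finset E3} (l : E3 →ₗ[ℝ] ℝ) (h1 : ∀ p ∈ S, 0 ≤ l p) (h2 : ∀ p ∈ T, l p ≤ 0)
    (h3 : ∀ p ∈ S, l p = 0 → p ∈ T) :
    convexHull ℝ (S : Set E3) ∩ convexHull ℝ (T : Set E3)
      = convexHull ℝ ((S : Set E3) ∩ T) := by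
  apply Set.Subset.antisymm
  · rintro x ⟨hx1, hx2⟩
    have hl : l x ≤ 0 := by
      have hsub : convexHull ℝ (T : Set E3) ⊆ {x | l x ≤ 0} :=
        convexHull_min (fun p hp => h2 p hp) (convex_halfSpace_le l.isLinear 0)
      exact hsub hx2
    rw [Finset.mem_convexHull'] at hx1
    obtain ⟨c, hc0, hc1, hcx⟩ := hx1
    have hsum : ∑ y ∈ S, c y * l y ≤ 0 := by
      rw [← hcx, map_sum] at hl
      simpa only [map_smul, smul_eq_mul] using hl
    have hzero : ∀ y ∈ S, c y * l y = 0 := by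
      have h4 : ∀ y ∈ S, 0 ≤ c y * l y := fun y hy => mul_nonneg (hc0 y hy) (h1 y hy)
      have h5 : ∑ y ∈ S, c y * l y = 0 := le_antisymm hsum (Finset.sum_nonneg h4)
      exact (Finset.sum_eq_zero_iff_of_nonneg h4).1 h5
    have hnot : ∀ y ∈ S, y ∉ S ∩ T → c y = 0 := by
      intro y hy hyT
      rcases mul_eq_zero.1 (hzero y hy) with h6 | h6
      · exact h6
      · exact absurd (Finset.mem_inter.2 ⟨hy, h3 y hy h6⟩) hyT
    rw [← Finset.coe_inter, Finset.mem_convexHull']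
    refine ⟨c, fun y hy => hc0 y (Finset.mem_inter.1 hy).1, ?_, ?_⟩
    · rw [← hc1]
      exact Finset.sum_subset Finset.inter_subset_left hnot
    · rw [← hcx]
      exact Finset.sum_subset Finset.inter_subset_left (fun y hy hy' => by
        rw [hnot y hy hy', zero_smul])
  · exact Set.subset_inter (convexHull_mono Set.inter_subset_left)
      (convexHull_mono Set.inter_subset_right)

/-- Affine independence from functionals. -/
theorem g_indep {S : Finset E3} (h : ∀ p ∈ S, ∃ (l : E3 →ₗ[ℝ] ℝ) (c : ℝ),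
    (∀ q ∈ S, q ≠ p → l q + c = 0) ∧ l p + c ≠ 0) :
    AffineIndependent ℝ (fun p : S => (p : E3)) := by
  rw [affineIndependent_iff]
  intro s W hW0 hW1 e he
  obtain ⟨l, c, h1, h2⟩ := h e e.2
  have h3 : ∑ i ∈ s, W i * (l (i : E3) + c) = 0 := by
    have h4 : ∑ i ∈ s, W i * l (i : E3) = 0 := by
      have h5 := congrArg l hW1
      rw [map_sum, map_zero] at h5
      simpa only [map_smul, smul_eq_mul] using h5
    simp only [mul_add, Finset.sum_add_distrib, ← Finset.sum_mul, hW0, zero_mul, add_zero]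
    exact h4
  rw [Finset.sum_eq_single_of_mem e he] at h3
  · rcases mul_eq_zero.1 h3 with h4 | h4
    · exact h4
    · exact absurd h4 h2
  · intro b _ hb
    rw [h1 b b.2 (fun h6 => hb (Subtype.ext h6)), mul_zero]

theorem g_card_image {w : ℤ} (hw : w = 44 ∨ w = 45) (a : Fin 16) :
    ((g_tt a).image (pt w)).card = 4 := by
  rw [Finset.card_image_of_injective _ (g_pt_inj hw), g_card4]

theorem g_indep_image {w : ℤ} (hw : w = 44 ∨ w = 45) (a : Fin 16) :
    AffineIndependent ℝ (fun p : ((g_tt a).image (pt w) : Finset E3) => (p : E3)) := by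
  apply g_indep
  intro p hp
  obtain ⟨i, hi, rfl⟩ := Finset.mem_image.1 hp
  by_cases hi0 : i = 0
  · subst hi0
    refine ⟨LinearMap.proj 2, -1, ?_, ?_⟩
    · intro q hq hq0
      obtain ⟨j, hj, rfl⟩ := Finset.mem_image.1 hq
      have hj0 : j ≠ 0 := by rintro rfl; exact hq0 rfl
      have := g_z w j hj0
      simp [pt, this]
    · simp [pt, posI]
  · have hP : g_indP w (g_tt a) i := by
      rcases hw with rfl | rfl
      · exact g_ind44 a i hi hi0
      · exact g_ind45 a i hi hi0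
    obtain ⟨j, _, k, _, h1, h2⟩ := hP
    refine ⟨g_lin (pt w j) (pt w k), 0, ?_, ?_⟩
    · intro q hq hq0
      obtain ⟨m, hm, rfl⟩ := Finset.mem_image.1 hq
      rw [g_lin_pt, h2 m hm (by rintro rfl; exact hq0 rfl)]
      simp
    · rw [g_lin_pt, add_zero]
      exact_mod_cast h1

theorem g_meet_sep {w : ℤ} (a b : Fin 16) (i j : Fin 12) (hP : g_sepP w i j (g_tt a) (g_tt b)) :
    convexHull ℝ (((g_tt a).image (pt w) : Finset E3) : Set E3)
      ∩ convexHull ℝ (((g_tt b).image (pt w) : Finset E3) : Set E3)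
      = convexHull ℝ ((((g_tt a).image (pt w) : Finset E3) : Set E3)
        ∩ ((g_tt b).image (pt w) : Finset E3)) := by
  refine g_meet (g_lin (pt w i) (pt w j)) ?_ ?_ ?_
  · intro p hp
    obtain ⟨k, hk, rfl⟩ := Finset.mem_image.1 hp
    rw [g_lin_pt]
    exact_mod_cast hP.1 k hk
  · intro p hp
    obtain ⟨k, hk, rfl⟩ := Finset.mem_image.1 hp
    rw [g_lin_pt]
    exact_mod_cast hP.2.1 k hk
  · intro p hp hp0
    obtain ⟨k, hk, rfl⟩ := Finset.mem_image.1 hp
    rw [g_lin_pt] at hp0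
    exact Finset.mem_image_of_mem _ (hP.2.2 k hk (by exact_mod_cast hp0))

theorem g_meet_image {w : ℤ} (hw : w = 44 ∨ w = 45) (a b : Fin 16) :
    convexHull ℝ (((g_tt a).image (pt w) : Finset E3) : Set E3)
      ∩ convexHull ℝ (((g_tt b).image (pt w) : Finset E3) : Set E3)
      = convexHull ℝ ((((g_tt a).image (pt w) : Finset E3) : Set E3)
        ∩ ((g_tt b).image (pt w) : Finset E3)) := by
  by_cases hab : a = b
  · subst hab
    rw [Set.inter_self, Set.inter_self]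
  · have hP : g_sepP w (g_tab a b).1 (g_tab a b).2 (g_tt a) (g_tt b) ∨
        g_sepP w (g_tab b a).1 (g_tab b a).2 (g_tt b) (g_tt a) := by
      rcases hw with rfl | rfl
      · exact g_sep44 a b hab
      · exact g_sep45 a b hab
    rcases hP with hP | hP
    · exact g_meet_sep a b _ _ hP
    · rw [Set.inter_comm, g_meet_sep b a _ _ hP, Set.inter_comm]

theorem g_mem_image {w : ℤ} {t : Finset E3} (ht : t ∈ tetF.image (fun t => t.image (pt w))) :
    ∃ a, t = (g_tt a).image (pt w) := by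
  obtain ⟨s, hs, rfl⟩ := Finset.mem_image.1 ht
  obtain ⟨a, rfl⟩ := g_mem.1 hs
  exact ⟨a, rfl⟩

/-- The example as a complex. -/
def g_cx (w : ℤ) (hw : w = 44 ∨ w = 45) : TetComplex where
  tets := tetF.image (fun t => t.image (pt w))
  card_eq t ht := by
    obtain ⟨a, rfl⟩ := g_mem_image ht
    exact g_card_image hw a
  indep t ht := by
    obtain ⟨a, rfl⟩ := g_mem_image ht
    exact g_indep_image hw a
  meet s hs t ht := by
    obtain ⟨a, rfl⟩ := g_mem_image hs
    obtain ⟨b, rfl⟩ := g_mem_image ht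
    exact g_meet_image hw a b

theorem g_complex {w : ℤ} (hw : w = 44 ∨ w = 45) :
    ∃ Δ : TetComplex, Δ.tets = tetF.image (fun t => t.image (pt w)) := ⟨g_cx w hw, rfl⟩

/-! ### The union is a pyramid -/

/-- The points of the union. -/
def g_in (w : ℤ) (x : E3) : Prop :=
  ∃ t ∈ tetF.image (fun t => t.image (pt w)), x ∈ convexHull ℝ ((t : Finset E3) : Set E3)

theorem g_leaf (w : ℤ) (a b c : Fin 12) (hmem : ({0, a, b, c} : Finset (Fin 12)) ∈ tetF)
    (ha : posI w a 2 = 1) (hb : posI w b 2 = 1) (hc : posI w c 2 = 1) (hD : 0 < dI w a b c)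
    (x : E3) (hz : x 2 ≤ 1) (h1 : 0 ≤ g_d x (pt w b) (pt w c)) (h2 : 0 ≤ g_d (pt w a) x (pt w c))
    (h3 : 0 ≤ g_d (pt w a) (pt w b) x) : g_in w x := by
  refine ⟨_, Finset.mem_image_of_mem _ hmem, ?_⟩
  set H := convexHull ℝ ((({0, a, b, c} : Finset (Fin 12)).image (pt w) : Finset E3) : Set E3)
    with hH
  have hm : ∀ i ∈ ({0, a, b, c} : Finset (Fin 12)), pt w i ∈ H := fun i hi =>
    subset_convexHull ℝ _ (Finset.mem_coe.2 (Finset.mem_image_of_mem _ hi))
  have hD' : (0 : ℝ) < g_d (pt w a) (pt w b) (pt w c) := by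
    have := g_lin_pt w a b c
    have h4 : g_d (pt w a) (pt w b) (pt w c) = (dI w a b c : ℝ) := this
    rw [h4]
    exact_mod_cast hD
  set D := g_d (pt w a) (pt w b) (pt w c) with hDdef
  have ha' : pt w a 2 = 1 := by simp [pt, ha]
  have hb' : pt w b 2 = 1 := by simp [pt, hb]
  have hc' : pt w c 2 = 1 := by simp [pt, hc]
  have h0 : pt w 0 = 0 := by
    funext k
    fin_cases k <;> simp [pt, posI]
  have hsum : g_d x (pt w b) (pt w c) + g_d (pt w a) x (pt w c) + g_d (pt w a) (pt w b) x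
      = x 2 * D := by
    simp only [hDdef, g_d, ha', hb', hc']
    ring
  have hx : x = (1 - x 2) • pt w 0 + (g_d x (pt w b) (pt w c) / D) • pt w a
      + (g_d (pt w a) x (pt w c) / D) • pt w b + (g_d (pt w a) (pt w b) x / D) • pt w c := by
    have h5 : D • x = (g_d x (pt w b) (pt w c)) • pt w a
        + (g_d (pt w a) x (pt w c)) • pt w b + (g_d (pt w a) (pt w b) x) • pt w c := by
      funext k
      simp only [Pi.smul_apply, Pi.add_apply, smul_eq_mul]
      fin_cases k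
      · simp only [hDdef, g_d, ha', hb', hc', Fin.zero_eta]
        ring
      · simp only [hDdef, g_d, ha', hb', hc', Fin.mk_one]
        ring
      · simp only [hDdef, g_d, ha', hb', hc', Fin.reduceFinMk]
        ring
    have h6 : x = D⁻¹ • (D • x) := by rw [smul_smul, inv_mul_cancel₀ hD'.ne', one_smul]
    rw [h0, smul_zero, zero_add]
    calc x = D⁻¹ • (D • x) := h6
      _ = _ := by
        rw [h5, smul_add, smul_add, smul_smul, smul_smul, smul_smul, div_eq_inv_mul, div_eq_inv_mul,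
          div_eq_inv_mul]
  have hconv : Convex ℝ H := convex_convexHull ℝ _
  have hfin := hconv.sum_mem (t := (Finset.univ : Finset (Fin 4)))
    (w := ![1 - x 2, g_d x (pt w b) (pt w c) / D, g_d (pt w a) x (pt w c) / D,
      g_d (pt w a) (pt w b) x / D]) (z := ![pt w 0, pt w a, pt w b, pt w c]) ?_ ?_ ?_
  · rw [Fin.sum_univ_four] at hfin
    rw [hx]
    exact hfin
  · intro i _
    fin_cases i
    · exact sub_nonneg.2 hz
    · exact div_nonneg h1 hD'.le
    · exact div_nonneg h2 hD'.le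
    · exact div_nonneg h3 hD'.le
  · rw [Fin.sum_univ_four]
    show (1 - x 2) + g_d x (pt w b) (pt w c) / D + g_d (pt w a) x (pt w c) / D
      + g_d (pt w a) (pt w b) x / D = 1
    rw [add_assoc, add_assoc, ← add_div, ← add_div, ← add_assoc, hsum,
      mul_div_assoc, div_self hD'.ne']
    ring
  · intro i _
    fin_cases i
    · exact hm 0 (by simp)
    · exact hm a (by simp)
    · exact hm b (by simp)
    · exact hm c (by simp)

theorem g_l44_0 (x : E3) (hz : x 2 ≤ 1) (h1 : 0 ≤ -(154 * x 0) + 28 * x 1 + 4620 * x 2)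
    (h2 : 0 ≤ 160 * x 0 - 40 * x 1 - 3000 * x 2) (h3 : 0 ≤ -(6 * x 0) + 12 * x 1 + 60 * x 2) :
    g_in 44 x :=
  g_leaf 44 4 5 6 (by decide) rfl rfl rfl (by decide) x hz
    (h1.trans_eq (by simp [g_d, pt, posI]; ring)) (h2.trans_eq (by simp [g_d, pt, posI]; ring))
    (h3.trans_eq (by simp [g_d, pt, posI]; ring))

theorem g_l44_1 (x : E3) (hz : x 2 ≤ 1) (h1 : 0 ≤ 154 * x 0 - 28 * x 1 - 4620 * x 2)
    (h2 : 0 ≤ 11 * x 0 + 12 * x 1 - 484 * x 2) (h3 : 0 ≤ -(165 * x 0) + 16 * x 1 + 7260 * x 2) :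
    g_in 44 x :=
  g_leaf 44 3 6 5 (by decide) rfl rfl rfl (by decide) x hz
    (h1.trans_eq (by simp [g_d, pt, posI]; ring)) (h2.trans_eq (by simp [g_d, pt, posI]; ring))
    (h3.trans_eq (by simp [g_d, pt, posI]; ring))

theorem g_l44_2 (x : E3) (hz : x 2 ≤ 1) (h1 : 0 ≤ -(160 * x 0) + 40 * x 1 + 3000 * x 2)
    (h2 : 0 ≤ 165 * x 0 - 60 * x 1) (h3 : 0 ≤ -(5 * x 0) + 20 * x 1) :
    g_in 44 x :=
  g_leaf 44 1 4 6 (by decide) rfl rfl rfl (by decide) x hz
    (h1.trans_eq (by simp [g_d, pt, posI]; ring)) (h2.trans_eq (by simp [g_d, pt, posI]; ring))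
    (h3.trans_eq (by simp [g_d, pt, posI]; ring))

theorem g_l44_3 (x : E3) (hz : x 2 ≤ 1) (h1 : 0 ≤ 6 * x 0 - 12 * x 1 - 60 * x 2)
    (h2 : 0 ≤ 5 * x 0 + x 1 - 105 * x 2) (h3 : 0 ≤ -(11 * x 0) + 11 * x 1 + 231 * x 2) :
    g_in 44 x :=
  g_leaf 44 2 5 4 (by decide) rfl rfl rfl (by decide) x hz
    (h1.trans_eq (by simp [g_d, pt, posI]; ring)) (h2.trans_eq (by simp [g_d, pt, posI]; ring))
    (h3.trans_eq (by simp [g_d, pt, posI]; ring))

theorem g_l44_4 (x : E3) (hz : x 2 ≤ 1) (h1 : 0 ≤ -(154 * x 0) - 28 * x 1 + 4620 * x 2)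
    (h2 : 0 ≤ -(6 * x 0) - 12 * x 1 + 60 * x 2) (h3 : 0 ≤ 160 * x 0 + 40 * x 1 - 3000 * x 2) :
    g_in 44 x :=
  g_leaf 44 7 9 8 (by decide) rfl rfl rfl (by decide) x hz
    (h1.trans_eq (by simp [g_d, pt, posI]; ring)) (h2.trans_eq (by simp [g_d, pt, posI]; ring))
    (h3.trans_eq (by simp [g_d, pt, posI]; ring))

theorem g_l44_5 (x : E3) (hz : x 2 ≤ 1) (h1 : 0 ≤ 154 * x 0 + 28 * x 1 - 4620 * x 2)
    (h2 : 0 ≤ -(165 * x 0) - 16 * x 1 + 7260 * x 2) (h3 : 0 ≤ 11 * x 0 - 12 * x 1 - 484 * x 2) :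
    g_in 44 x :=
  g_leaf 44 3 8 9 (by decide) rfl rfl rfl (by decide) x hz
    (h1.trans_eq (by simp [g_d, pt, posI]; ring)) (h2.trans_eq (by simp [g_d, pt, posI]; ring))
    (h3.trans_eq (by simp [g_d, pt, posI]; ring))

theorem g_l44_6 (x : E3) (hz : x 2 ≤ 1) (h1 : 0 ≤ -(160 * x 0) - 40 * x 1 + 3000 * x 2)
    (h2 : 0 ≤ -(5 * x 0) - 20 * x 1) (h3 : 0 ≤ 165 * x 0 + 60 * x 1) :
    g_in 44 x :=
  g_leaf 44 1 9 7 (by decide) rfl rfl rfl (by decide) x hz
    (h1.trans_eq (by simp [g_d, pt, posI]; ring)) (h2.trans_eq (by simp [g_d, pt, posI]; ring))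
    (h3.trans_eq (by simp [g_d, pt, posI]; ring))

theorem g_l44_7 (x : E3) (hz : x 2 ≤ 1) (h1 : 0 ≤ 6 * x 0 + 12 * x 1 - 60 * x 2)
    (h2 : 0 ≤ -(11 * x 0) - 11 * x 1 + 231 * x 2) (h3 : 0 ≤ 5 * x 0 - x 1 - 105 * x 2) :
    g_in 44 x :=
  g_leaf 44 2 7 8 (by decide) rfl rfl rfl (by decide) x hz
    (h1.trans_eq (by simp [g_d, pt, posI]; ring)) (h2.trans_eq (by simp [g_d, pt, posI]; ring))
    (h3.trans_eq (by simp [g_d, pt, posI]; ring))

theorem g_l44_8 (x : E3) (hz : x 2 ≤ 1) (h1 : 0 ≤ -(10 * x 0) + 200 * x 2)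
    (h2 : 0 ≤ 5 * x 0 - 20 * x 1) (h3 : 0 ≤ 5 * x 0 + 20 * x 1) :
    g_in 44 x :=
  g_leaf 44 1 7 4 (by decide) rfl rfl rfl (by decide) x hz
    (h1.trans_eq (by simp [g_d, pt, posI]; ring)) (h2.trans_eq (by simp [g_d, pt, posI]; ring))
    (h3.trans_eq (by simp [g_d, pt, posI]; ring))

theorem g_l44_9 (x : E3) (hz : x 2 ≤ 1) (h1 : 0 ≤ 10 * x 0 - 200 * x 2)
    (h2 : 0 ≤ -(5 * x 0) + x 1 + 105 * x 2) (h3 : 0 ≤ -(5 * x 0) - x 1 + 105 * x 2) :
    g_in 44 x :=
  g_leaf 44 2 4 7 (by decide) rfl rfl rfl (by decide) x hz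
    (h1.trans_eq (by simp [g_d, pt, posI]; ring)) (h2.trans_eq (by simp [g_d, pt, posI]; ring))
    (h3.trans_eq (by simp [g_d, pt, posI]; ring))

theorem g_l44_10 (x : E3) (hz : x 2 ≤ 1) (h1 : 0 ≤ -(22 * x 0) + 704 * x 2)
    (h2 : 0 ≤ 11 * x 0 - 11 * x 1 - 231 * x 2) (h3 : 0 ≤ 11 * x 0 + 11 * x 1 - 231 * x 2) :
    g_in 44 x :=
  g_leaf 44 2 8 5 (by decide) rfl rfl rfl (by decide) x hz
    (h1.trans_eq (by simp [g_d, pt, posI]; ring)) (h2.trans_eq (by simp [g_d, pt, posI]; ring))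
    (h3.trans_eq (by simp [g_d, pt, posI]; ring))

theorem g_l44_11 (x : E3) (hz : x 2 ≤ 1) (h1 : 0 ≤ 22 * x 0 - 704 * x 2)
    (h2 : 0 ≤ -(11 * x 0) + 12 * x 1 + 484 * x 2) (h3 : 0 ≤ -(11 * x 0) - 12 * x 1 + 484 * x 2) :
    g_in 44 x :=
  g_leaf 44 3 5 8 (by decide) rfl rfl rfl (by decide) x hz
    (h1.trans_eq (by simp [g_d, pt, posI]; ring)) (h2.trans_eq (by simp [g_d, pt, posI]; ring))
    (h3.trans_eq (by simp [g_d, pt, posI]; ring))

theorem g_l44_12 (x : E3) (hz : x 2 ≤ 1) (h1 : 0 ≤ -(330 * x 0) + 19800 * x 2)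
    (h2 : 0 ≤ 165 * x 0 - 16 * x 1 - 7260 * x 2) (h3 : 0 ≤ 165 * x 0 + 16 * x 1 - 7260 * x 2) :
    g_in 44 x :=
  g_leaf 44 3 9 6 (by decide) rfl rfl rfl (by decide) x hz
    (h1.trans_eq (by simp [g_d, pt, posI]; ring)) (h2.trans_eq (by simp [g_d, pt, posI]; ring))
    (h3.trans_eq (by simp [g_d, pt, posI]; ring))

theorem g_l44_13 (x : E3) (hz : x 2 ≤ 1) (h1 : 0 ≤ -(120 * x 1) + 19800 * x 2)
    (h2 : 0 ≤ 165 * x 0 + 60 * x 1) (h3 : 0 ≤ -(165 * x 0) + 60 * x 1) :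
    g_in 44 x :=
  g_leaf 44 1 6 10 (by decide) rfl rfl rfl (by decide) x hz
    (h1.trans_eq (by simp [g_d, pt, posI]; ring)) (h2.trans_eq (by simp [g_d, pt, posI]; ring))
    (h3.trans_eq (by simp [g_d, pt, posI]; ring))

theorem g_l44_14 (x : E3) (hz : x 2 ≤ 1) (h1 : 0 ≤ 330 * x 0 + 19800 * x 2)
    (h2 : 0 ≤ -(165 * x 0) + 60 * x 1) (h3 : 0 ≤ -(165 * x 0) - 60 * x 1) :
    g_in 44 x :=
  g_leaf 44 1 10 11 (by decide) rfl rfl rfl (by decide) x hz
    (h1.trans_eq (by simp [g_d, pt, posI]; ring)) (h2.trans_eq (by simp [g_d, pt, posI]; ring))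
    (h3.trans_eq (by simp [g_d, pt, posI]; ring))

theorem g_l44_15 (x : E3) (hz : x 2 ≤ 1) (h1 : 0 ≤ 120 * x 1 + 19800 * x 2)
    (h2 : 0 ≤ -(165 * x 0) - 60 * x 1) (h3 : 0 ≤ 165 * x 0 - 60 * x 1) :
    g_in 44 x :=
  g_leaf 44 1 11 9 (by decide) rfl rfl rfl (by decide) x hz
    (h1.trans_eq (by simp [g_d, pt, posI]; ring)) (h2.trans_eq (by simp [g_d, pt, posI]; ring))
    (h3.trans_eq (by simp [g_d, pt, posI]; ring))

theorem g_cover44 (x : E3) (h0 : -(60 * x 2) ≤ x 0) (h1 : x 0 ≤ 60 * x 2)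
    (h2 : -(165 * x 2) ≤ x 1) (h3 : x 1 ≤ 165 * x 2) (hz : x 2 ≤ 1) : g_in 44 x := by
  rcases le_total 0 (11 * x 0 - 4 * x 1) with g0 | g0
  · rcases le_total 0 (11 * x 0 + 4 * x 1) with g1 | g1
    · rcases le_total 0 (x 0 - 20 * x 2) with g2 | g2
      · rcases le_total 0 (4 * x 0 - x 1 - 75 * x 2) with g3 | g3
        · rcases le_total 0 (4 * x 0 + x 1 - 75 * x 2) with g4 | g4
          · rcases le_total 0 (x 0 - 32 * x 2) with g5 | g5
            · rcases le_total 0 (11 * x 0 - 2 * x 1 - 330 * x 2) with g6 | g6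
              · rcases le_total 0 (11 * x 0 + 2 * x 1 - 330 * x 2) with g7 | g7
                · rcases le_total 0 (165 * x 0 - 16 * x 1 - 7260 * x 2) with g8 | g8
                  · rcases le_total 0 (165 * x 0 + 16 * x 1 - 7260 * x 2) with g9 | g9
                    · exact g_l44_12 x hz (by linarith) (by linarith) (by linarith)
                    · exact g_l44_5 x hz (by linarith) (by linarith) (by linarith)
                  · rcases le_total 0 (11 * x 0 + 12 * x 1 - 484 * x 2) with g9 | g9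
                    · exact g_l44_1 x hz (by linarith) (by linarith) (by linarith)
                    · rcases le_total 0 (11 * x 0 - 12 * x 1 - 484 * x 2) with g10 | g10
                      · exact g_l44_5 x hz (by linarith) (by linarith) (by linarith)
                      · exact g_l44_11 x hz (by linarith) (by linarith) (by linarith)
                · exact g_l44_4 x hz (by linarith) (by linarith) (by linarith)
              · exact g_l44_0 x hz (by linarith) (by linarith) (by linarith)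
            · rcases le_total 0 (x 0 - 2 * x 1 - 10 * x 2) with g6 | g6
              · rcases le_total 0 (x 0 + 2 * x 1 - 10 * x 2) with g7 | g7
                · rcases le_total 0 (x 0 - x 1 - 21 * x 2) with g8 | g8
                  · rcases le_total 0 (5 * x 0 - x 1 - 105 * x 2) with g9 | g9
                    · rcases le_total 0 (x 0 + x 1 - 21 * x 2) with g10 | g10
                      · exact g_l44_10 x hz (by linarith) (by linarith) (by linarith)
                      · exact g_l44_7 x hz (by linarith) (by linarith) (by linarith)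
                    · exact g_l44_9 x hz (by linarith) (by linarith) (by linarith)
                  · rcases le_total 0 (5 * x 0 + x 1 - 105 * x 2) with g9 | g9
                    · exact g_l44_3 x hz (by linarith) (by linarith) (by linarith)
                    · exact g_l44_9 x hz (by linarith) (by linarith) (by linarith)
                · exact g_l44_4 x hz (by linarith) (by linarith) (by linarith)
              · exact g_l44_0 x hz (by linarith) (by linarith) (by linarith)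
          · exact g_l44_6 x hz (by linarith) (by linarith) (by linarith)
        · exact g_l44_2 x hz (by linarith) (by linarith) (by linarith)
      · rcases le_total 0 (x 0 - 4 * x 1) with g3 | g3
        · rcases le_total 0 (x 0 + 4 * x 1) with g4 | g4
          · exact g_l44_8 x hz (by linarith) (by linarith) (by linarith)
          · exact g_l44_6 x hz (by linarith) (by linarith) (by linarith)
        · exact g_l44_2 x hz (by linarith) (by linarith) (by linarith)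
    · exact g_l44_15 x hz (by linarith) (by linarith) (by linarith)
  · rcases le_total 0 (11 * x 0 + 4 * x 1) with g1 | g1
    · exact g_l44_13 x hz (by linarith) (by linarith) (by linarith)
    · exact g_l44_14 x hz (by linarith) (by linarith) (by linarith)

theorem g_l45_0 (x : E3) (hz : x 2 ≤ 1) (h1 : 0 ≤ -(154 * x 0) + 28 * x 1 + 4620 * x 2)
    (h2 : 0 ≤ 160 * x 0 - 40 * x 1 - 3000 * x 2) (h3 : 0 ≤ -(6 * x 0) + 12 * x 1 + 60 * x 2) :
    g_in 45 x :=
  g_leaf 45 4 5 6 (by decide) rfl rfl rfl (by decide) x hz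
    (h1.trans_eq (by simp [g_d, pt, posI]; ring)) (h2.trans_eq (by simp [g_d, pt, posI]; ring))
    (h3.trans_eq (by simp [g_d, pt, posI]; ring))

theorem g_l45_1 (x : E3) (hz : x 2 ≤ 1) (h1 : 0 ≤ 154 * x 0 - 28 * x 1 - 4620 * x 2)
    (h2 : 0 ≤ 11 * x 0 + 13 * x 1 - 495 * x 2) (h3 : 0 ≤ -(165 * x 0) + 15 * x 1 + 7425 * x 2) :
    g_in 45 x :=
  g_leaf 45 3 6 5 (by decide) rfl rfl rfl (by decide) x hz
    (h1.trans_eq (by simp [g_d, pt, posI]; ring)) (h2.trans_eq (by simp [g_d, pt, posI]; ring))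
    (h3.trans_eq (by simp [g_d, pt, posI]; ring))

theorem g_l45_2 (x : E3) (hz : x 2 ≤ 1) (h1 : 0 ≤ -(160 * x 0) + 40 * x 1 + 3000 * x 2)
    (h2 : 0 ≤ 165 * x 0 - 60 * x 1) (h3 : 0 ≤ -(5 * x 0) + 20 * x 1) :
    g_in 45 x :=
  g_leaf 45 1 4 6 (by decide) rfl rfl rfl (by decide) x hz
    (h1.trans_eq (by simp [g_d, pt, posI]; ring)) (h2.trans_eq (by simp [g_d, pt, posI]; ring))
    (h3.trans_eq (by simp [g_d, pt, posI]; ring))

theorem g_l45_3 (x : E3) (hz : x 2 ≤ 1) (h1 : 0 ≤ 6 * x 0 - 12 * x 1 - 60 * x 2)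
    (h2 : 0 ≤ 5 * x 0 + x 1 - 105 * x 2) (h3 : 0 ≤ -(11 * x 0) + 11 * x 1 + 231 * x 2) :
    g_in 45 x :=
  g_leaf 45 2 5 4 (by decide) rfl rfl rfl (by decide) x hz
    (h1.trans_eq (by simp [g_d, pt, posI]; ring)) (h2.trans_eq (by simp [g_d, pt, posI]; ring))
    (h3.trans_eq (by simp [g_d, pt, posI]; ring))

theorem g_l45_4 (x : E3) (hz : x 2 ≤ 1) (h1 : 0 ≤ -(154 * x 0) - 28 * x 1 + 4620 * x 2)
    (h2 : 0 ≤ -(6 * x 0) - 12 * x 1 + 60 * x 2) (h3 : 0 ≤ 160 * x 0 + 40 * x 1 - 3000 * x 2) :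
    g_in 45 x :=
  g_leaf 45 7 9 8 (by decide) rfl rfl rfl (by decide) x hz
    (h1.trans_eq (by simp [g_d, pt, posI]; ring)) (h2.trans_eq (by simp [g_d, pt, posI]; ring))
    (h3.trans_eq (by simp [g_d, pt, posI]; ring))

theorem g_l45_5 (x : E3) (hz : x 2 ≤ 1) (h1 : 0 ≤ 154 * x 0 + 28 * x 1 - 4620 * x 2)
    (h2 : 0 ≤ -(165 * x 0) - 15 * x 1 + 7425 * x 2) (h3 : 0 ≤ 11 * x 0 - 13 * x 1 - 495 * x 2) :
    g_in 45 x :=
  g_leaf 45 3 8 9 (by decide) rfl rfl rfl (by decide) x hz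
    (h1.trans_eq (by simp [g_d, pt, posI]; ring)) (h2.trans_eq (by simp [g_d, pt, posI]; ring))
    (h3.trans_eq (by simp [g_d, pt, posI]; ring))

theorem g_l45_6 (x : E3) (hz : x 2 ≤ 1) (h1 : 0 ≤ -(160 * x 0) - 40 * x 1 + 3000 * x 2)
    (h2 : 0 ≤ -(5 * x 0) - 20 * x 1) (h3 : 0 ≤ 165 * x 0 + 60 * x 1) :
    g_in 45 x :=
  g_leaf 45 1 9 7 (by decide) rfl rfl rfl (by decide) x hz
    (h1.trans_eq (by simp [g_d, pt, posI]; ring)) (h2.trans_eq (by simp [g_d, pt, posI]; ring))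
    (h3.trans_eq (by simp [g_d, pt, posI]; ring))

theorem g_l45_7 (x : E3) (hz : x 2 ≤ 1) (h1 : 0 ≤ 6 * x 0 + 12 * x 1 - 60 * x 2)
    (h2 : 0 ≤ -(11 * x 0) - 11 * x 1 + 231 * x 2) (h3 : 0 ≤ 5 * x 0 - x 1 - 105 * x 2) :
    g_in 45 x :=
  g_leaf 45 2 7 8 (by decide) rfl rfl rfl (by decide) x hz
    (h1.trans_eq (by simp [g_d, pt, posI]; ring)) (h2.trans_eq (by simp [g_d, pt, posI]; ring))
    (h3.trans_eq (by simp [g_d, pt, posI]; ring))

theorem g_l45_8 (x : E3) (hz : x 2 ≤ 1) (h1 : 0 ≤ -(10 * x 0) + 200 * x 2)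
    (h2 : 0 ≤ 5 * x 0 - 20 * x 1) (h3 : 0 ≤ 5 * x 0 + 20 * x 1) :
    g_in 45 x :=
  g_leaf 45 1 7 4 (by decide) rfl rfl rfl (by decide) x hz
    (h1.trans_eq (by simp [g_d, pt, posI]; ring)) (h2.trans_eq (by simp [g_d, pt, posI]; ring))
    (h3.trans_eq (by simp [g_d, pt, posI]; ring))

theorem g_l45_9 (x : E3) (hz : x 2 ≤ 1) (h1 : 0 ≤ 10 * x 0 - 200 * x 2)
    (h2 : 0 ≤ -(5 * x 0) + x 1 + 105 * x 2) (h3 : 0 ≤ -(5 * x 0) - x 1 + 105 * x 2) :
    g_in 45 x :=
  g_leaf 45 2 4 7 (by decide) rfl rfl rfl (by decide) x hz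
    (h1.trans_eq (by simp [g_d, pt, posI]; ring)) (h2.trans_eq (by simp [g_d, pt, posI]; ring))
    (h3.trans_eq (by simp [g_d, pt, posI]; ring))

theorem g_l45_10 (x : E3) (hz : x 2 ≤ 1) (h1 : 0 ≤ -(22 * x 0) + 704 * x 2)
    (h2 : 0 ≤ 11 * x 0 - 11 * x 1 - 231 * x 2) (h3 : 0 ≤ 11 * x 0 + 11 * x 1 - 231 * x 2) :
    g_in 45 x :=
  g_leaf 45 2 8 5 (by decide) rfl rfl rfl (by decide) x hz
    (h1.trans_eq (by simp [g_d, pt, posI]; ring)) (h2.trans_eq (by simp [g_d, pt, posI]; ring))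
    (h3.trans_eq (by simp [g_d, pt, posI]; ring))

theorem g_l45_11 (x : E3) (hz : x 2 ≤ 1) (h1 : 0 ≤ 22 * x 0 - 704 * x 2)
    (h2 : 0 ≤ -(11 * x 0) + 13 * x 1 + 495 * x 2) (h3 : 0 ≤ -(11 * x 0) - 13 * x 1 + 495 * x 2) :
    g_in 45 x :=
  g_leaf 45 3 5 8 (by decide) rfl rfl rfl (by decide) x hz
    (h1.trans_eq (by simp [g_d, pt, posI]; ring)) (h2.trans_eq (by simp [g_d, pt, posI]; ring))
    (h3.trans_eq (by simp [g_d, pt, posI]; ring))

theorem g_l45_12 (x : E3) (hz : x 2 ≤ 1) (h1 : 0 ≤ -(330 * x 0) + 19800 * x 2)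
    (h2 : 0 ≤ 165 * x 0 - 15 * x 1 - 7425 * x 2) (h3 : 0 ≤ 165 * x 0 + 15 * x 1 - 7425 * x 2) :
    g_in 45 x :=
  g_leaf 45 3 9 6 (by decide) rfl rfl rfl (by decide) x hz
    (h1.trans_eq (by simp [g_d, pt, posI]; ring)) (h2.trans_eq (by simp [g_d, pt, posI]; ring))
    (h3.trans_eq (by simp [g_d, pt, posI]; ring))

theorem g_l45_13 (x : E3) (hz : x 2 ≤ 1) (h1 : 0 ≤ -(120 * x 1) + 19800 * x 2)
    (h2 : 0 ≤ 165 * x 0 + 60 * x 1) (h3 : 0 ≤ -(165 * x 0) + 60 * x 1) :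
    g_in 45 x :=
  g_leaf 45 1 6 10 (by decide) rfl rfl rfl (by decide) x hz
    (h1.trans_eq (by simp [g_d, pt, posI]; ring)) (h2.trans_eq (by simp [g_d, pt, posI]; ring))
    (h3.trans_eq (by simp [g_d, pt, posI]; ring))

theorem g_l45_14 (x : E3) (hz : x 2 ≤ 1) (h1 : 0 ≤ 330 * x 0 + 19800 * x 2)
    (h2 : 0 ≤ -(165 * x 0) + 60 * x 1) (h3 : 0 ≤ -(165 * x 0) - 60 * x 1) :
    g_in 45 x :=
  g_leaf 45 1 10 11 (by decide) rfl rfl rfl (by decide) x hz
    (h1.trans_eq (by simp [g_d, pt, posI]; ring)) (h2.trans_eq (by simp [g_d, pt, posI]; ring))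
    (h3.trans_eq (by simp [g_d, pt, posI]; ring))

theorem g_l45_15 (x : E3) (hz : x 2 ≤ 1) (h1 : 0 ≤ 120 * x 1 + 19800 * x 2)
    (h2 : 0 ≤ -(165 * x 0) - 60 * x 1) (h3 : 0 ≤ 165 * x 0 - 60 * x 1) :
    g_in 45 x :=
  g_leaf 45 1 11 9 (by decide) rfl rfl rfl (by decide) x hz
    (h1.trans_eq (by simp [g_d, pt, posI]; ring)) (h2.trans_eq (by simp [g_d, pt, posI]; ring))
    (h3.trans_eq (by simp [g_d, pt, posI]; ring))

theorem g_cover45 (x : E3) (h0 : -(60 * x 2) ≤ x 0) (h1 : x 0 ≤ 60 * x 2)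
    (h2 : -(165 * x 2) ≤ x 1) (h3 : x 1 ≤ 165 * x 2) (hz : x 2 ≤ 1) : g_in 45 x := by
  rcases le_total 0 (11 * x 0 - 4 * x 1) with g0 | g0
  · rcases le_total 0 (11 * x 0 + 4 * x 1) with g1 | g1
    · rcases le_total 0 (x 0 - 20 * x 2) with g2 | g2
      · rcases le_total 0 (4 * x 0 - x 1 - 75 * x 2) with g3 | g3
        · rcases le_total 0 (4 * x 0 + x 1 - 75 * x 2) with g4 | g4
          · rcases le_total 0 (x 0 - 32 * x 2) with g5 | g5
            · rcases le_total 0 (11 * x 0 - 2 * x 1 - 330 * x 2) with g6 | g6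
              · rcases le_total 0 (11 * x 0 + 2 * x 1 - 330 * x 2) with g7 | g7
                · rcases le_total 0 (11 * x 0 - x 1 - 495 * x 2) with g8 | g8
                  · rcases le_total 0 (11 * x 0 + x 1 - 495 * x 2) with g9 | g9
                    · exact g_l45_12 x hz (by linarith) (by linarith) (by linarith)
                    · exact g_l45_5 x hz (by linarith) (by linarith) (by linarith)
                  · rcases le_total 0 (11 * x 0 + 13 * x 1 - 495 * x 2) with g9 | g9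
                    · exact g_l45_1 x hz (by linarith) (by linarith) (by linarith)
                    · rcases le_total 0 (11 * x 0 - 13 * x 1 - 495 * x 2) with g10 | g10
                      · exact g_l45_5 x hz (by linarith) (by linarith) (by linarith)
                      · exact g_l45_11 x hz (by linarith) (by linarith) (by linarith)
                · exact g_l45_4 x hz (by linarith) (by linarith) (by linarith)
              · exact g_l45_0 x hz (by linarith) (by linarith) (by linarith)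
            · rcases le_total 0 (x 0 - 2 * x 1 - 10 * x 2) with g6 | g6
              · rcases le_total 0 (x 0 + 2 * x 1 - 10 * x 2) with g7 | g7
                · rcases le_total 0 (x 0 - x 1 - 21 * x 2) with g8 | g8
                  · rcases le_total 0 (5 * x 0 - x 1 - 105 * x 2) with g9 | g9
                    · rcases le_total 0 (x 0 + x 1 - 21 * x 2) with g10 | g10
                      · exact g_l45_10 x hz (by linarith) (by linarith) (by linarith)
                      · exact g_l45_7 x hz (by linarith) (by linarith) (by linarith)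
                    · exact g_l45_9 x hz (by linarith) (by linarith) (by linarith)
                  · rcases le_total 0 (5 * x 0 + x 1 - 105 * x 2) with g9 | g9
                    · exact g_l45_3 x hz (by linarith) (by linarith) (by linarith)
                    · exact g_l45_9 x hz (by linarith) (by linarith) (by linarith)
                · exact g_l45_4 x hz (by linarith) (by linarith) (by linarith)
              · exact g_l45_0 x hz (by linarith) (by linarith) (by linarith)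
          · exact g_l45_6 x hz (by linarith) (by linarith) (by linarith)
        · exact g_l45_2 x hz (by linarith) (by linarith) (by linarith)
      · rcases le_total 0 (x 0 - 4 * x 1) with g3 | g3
        · rcases le_total 0 (x 0 + 4 * x 1) with g4 | g4
          · exact g_l45_8 x hz (by linarith) (by linarith) (by linarith)
          · exact g_l45_6 x hz (by linarith) (by linarith) (by linarith)
        · exact g_l45_2 x hz (by linarith) (by linarith) (by linarith)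
    · exact g_l45_15 x hz (by linarith) (by linarith) (by linarith)
  · rcases le_total 0 (11 * x 0 + 4 * x 1) with g1 | g1
    · exact g_l45_13 x hz (by linarith) (by linarith) (by linarith)
    · exact g_l45_14 x hz (by linarith) (by linarith) (by linarith)
/-- The pyramid. -/
def g_K : Set E3 := {x | -(60 * x 2) ≤ x 0 ∧ x 0 ≤ 60 * x 2 ∧ -(165 * x 2) ≤ x 1 ∧
  x 1 ≤ 165 * x 2 ∧ x 2 ≤ 1}

theorem g_K_convex : Convex ℝ g_K := by
  rintro x ⟨h1, h2, h3, h4, h5⟩ y ⟨k1, k2, k3, k4, k5⟩ a b ha hb hab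
  refine ⟨?_, ?_, ?_, ?_, ?_⟩ <;> simp only [Pi.add_apply, Pi.smul_apply, smul_eq_mul]
  · nlinarith [mul_le_mul_of_nonneg_left h1 ha, mul_le_mul_of_nonneg_left k1 hb]
  · nlinarith [mul_le_mul_of_nonneg_left h2 ha, mul_le_mul_of_nonneg_left k2 hb]
  · nlinarith [mul_le_mul_of_nonneg_left h3 ha, mul_le_mul_of_nonneg_left k3 hb]
  · nlinarith [mul_le_mul_of_nonneg_left h4 ha, mul_le_mul_of_nonneg_left k4 hb]
  · nlinarith [mul_le_mul_of_nonneg_left h5 ha, mul_le_mul_of_nonneg_left k5 hb]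

theorem g_pt_K {w : ℤ} (hw : w = 44 ∨ w = 45) (i : Fin 12) : pt w i ∈ g_K := by
  rcases hw with rfl | rfl <;> fin_cases i <;>
    refine ⟨?_, ?_, ?_, ?_, ?_⟩ <;> simp [pt, posI] <;> norm_num

theorem g_space {w : ℤ} (hw : w = 44 ∨ w = 45) {Δ : TetComplex}
    (hΔ : Δ.tets = tetF.image (fun t => t.image (pt w))) : Δ.space = g_K := by
  ext x
  constructor
  · rintro ⟨t, ht, hx⟩
    rw [hΔ] at ht
    obtain ⟨s, _, rfl⟩ := Finset.mem_image.1 ht
    refine convexHull_min ?_ g_K_convex hx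
    intro p hp
    obtain ⟨i, _, rfl⟩ := Finset.mem_image.1 (Finset.mem_coe.1 hp)
    exact g_pt_K hw i
  · rintro ⟨h1, h2, h3, h4, h5⟩
    have : g_in w x := by
      rcases hw with rfl | rfl
      · exact g_cover44 x h1 h2 h3 h4 h5
      · exact g_cover45 x h1 h2 h3 h4 h5
    obtain ⟨t, ht, hx⟩ := this
    exact ⟨t, by rw [hΔ]; exact ht, hx⟩

/-! ### The relations of Euler -/

theorem g_FF {Q P : Type*} [DecidableEq Q] [DecidableEq P] (f : Q → P) (hf : Function.Injective f)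
    (T : Finset (Finset Q)) (j : ℕ) :
    FF (T.image (fun t => t.image f)) j = (FF T j).image (fun t => t.image f) := by
  ext s
  rw [mem_FF, Finset.mem_image]
  constructor
  · rintro ⟨⟨t, ht, hst⟩, hc⟩
    obtain ⟨t', ht', rfl⟩ := Finset.mem_image.1 ht
    obtain ⟨s', hs', rfl⟩ := Finset.subset_image_iff.1 hst
    refine ⟨s', mem_FF.2 ⟨⟨t', ht', hs'⟩, ?_⟩, rfl⟩
    rw [← hc, Finset.card_image_of_injective _ hf]
  · rintro ⟨s', hs', rfl⟩
    obtain ⟨⟨t, ht, hst⟩, hc⟩ := mem_FF.1 hs'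
    exact ⟨⟨t.image f, Finset.mem_image_of_mem _ ht, Finset.image_subset_image hst⟩, by
      rw [Finset.card_image_of_injective _ hf, hc]⟩

theorem g_image_inj {Q P : Type*} [DecidableEq Q] [DecidableEq P] {f : Q → P}
    (hf : Function.Injective f) : Function.Injective (fun t : Finset Q => t.image f) :=
  Finset.image_injective hf

/-- The boundary triangles of the example. -/
def g_B : Finset (Finset (Fin 12)) :=
  (FF tetF 3).filter (fun g => (tetF.filter (fun t => g ⊆ t)).card = 1)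

theorem g_F1 : (FF tetF 1).card = 12 := by decide +kernel

theorem g_F2 : (FF tetF 2).card = 37 := by decide +kernel

theorem g_F3 : (FF tetF 3).card = 42 := by decide +kernel

theorem g_F4 : (FF tetF 4).card = 16 := by decide +kernel

theorem g_Bc : g_B.card = 20 := by decide +kernel

theorem g_Bv : ∀ i : Fin 12, ∃ g ∈ g_B, i ∈ g := by decide +kernel

theorem g_bd {w : ℤ} (hw : w = 44 ∨ w = 45) {Δ : TetComplex}
    (hΔ : Δ.tets = tetF.image (fun t => t.image (pt w))) :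
    Δ.bdFaces = ((g_B.image (fun t => t.image (pt w)) : Finset (Finset E3)) : Set (Finset E3)) := by
  have hinj := g_pt_inj hw
  ext f
  rw [Finset.mem_coe, Finset.mem_image]
  have hcard : ∀ s : Finset (Fin 12),
      Δ.tets.filter (fun t => s.image (pt w) ⊆ t)
        = (tetF.filter (fun t => s ⊆ t)).image (fun t => t.image (pt w)) := by
    intro s
    rw [hΔ]
    ext t
    simp only [Finset.mem_filter, Finset.mem_image]
    constructor
    · rintro ⟨⟨t', ht', rfl⟩, hs⟩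
      exact ⟨t', ⟨ht', (Finset.image_subset_image_iff hinj).1 hs⟩, rfl⟩
    · rintro ⟨t', ⟨ht', hs⟩, rfl⟩
      exact ⟨⟨t', ht', rfl⟩, Finset.image_subset_image hs⟩
  constructor
  · rintro ⟨hf, t, ⟨ht, hft⟩, huniq⟩
    rw [faces_eq, Finset.mem_coe, hΔ, g_FF _ hinj, Finset.mem_image] at hf
    obtain ⟨s, hs, rfl⟩ := hf
    refine ⟨s, Finset.mem_filter.2 ⟨hs, ?_⟩, rfl⟩
    rw [← Finset.card_image_of_injective _ (g_image_inj hinj), ← hcard, Finset.card_eq_one]
    refine ⟨t, ?_⟩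
    ext t'
    rw [Finset.mem_filter, Finset.mem_singleton]
    exact ⟨fun hh => huniq t' hh, fun hh => by rw [hh]; exact ⟨ht, hft⟩⟩
  · rintro ⟨s, hs, rfl⟩
    obtain ⟨hs1, hs2⟩ := Finset.mem_filter.1 hs
    rw [← Finset.card_image_of_injective _ (g_image_inj hinj), ← hcard, Finset.card_eq_one] at hs2
    obtain ⟨t, ht⟩ := hs2
    have hmem : t ∈ Δ.tets.filter (fun t => s.image (pt w) ⊆ t) := by rw [ht]; simp
    refine ⟨?_, t, Finset.mem_filter.1 hmem, fun t' ht' => ?_⟩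
    · rw [faces_eq, Finset.mem_coe, hΔ, g_FF _ hinj]
      exact Finset.mem_image_of_mem _ hs1
    · have : t' ∈ Δ.tets.filter (fun t => s.image (pt w) ⊆ t) := Finset.mem_filter.2 ht'
      rw [ht, Finset.mem_singleton] at this
      exact this

theorem g_euler {w : ℤ} (hw : w = 44 ∨ w = 45) {Δ : TetComplex}
    (hΔ : Δ.tets = tetF.image (fun t => t.image (pt w))) : Δ.EulerBall := by
  have hinj := g_pt_inj hw
  have hF : ∀ j, (Δ.faces j).ncard = (FF tetF j).card := by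
    intro j
    rw [faces_eq, Set.ncard_coe_finset, hΔ, g_FF _ hinj,
      Finset.card_image_of_injective _ (g_image_inj hinj)]
  have hB : Δ.bdFaces.ncard = 20 := by
    rw [g_bd hw hΔ, Set.ncard_coe_finset, Finset.card_image_of_injective _ (g_image_inj hinj), g_Bc]
  have hV : Δ.bdVertices = ((Finset.univ.image (pt w) : Finset E3) : Set E3) := by
    ext v
    rw [Finset.mem_coe, Finset.mem_image]
    constructor
    · rintro ⟨f, hf, hv⟩
      rw [g_bd hw hΔ, Finset.mem_coe, Finset.mem_image] at hf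
      obtain ⟨s, _, rfl⟩ := hf
      obtain ⟨i, _, rfl⟩ := Finset.mem_image.1 hv
      exact ⟨i, Finset.mem_univ _, rfl⟩
    · rintro ⟨i, _, rfl⟩
      obtain ⟨g, hg, hi⟩ := g_Bv i
      refine ⟨g.image (pt w), ?_, Finset.mem_image_of_mem _ hi⟩
      rw [g_bd hw hΔ, Finset.mem_coe]
      exact Finset.mem_image_of_mem _ hg
  have hV' : Δ.bdVertices.ncard = 12 := by
    rw [hV, Set.ncard_coe_finset, Finset.card_image_of_injective _ hinj, Finset.card_univ,
      Fintype.card_fin]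
  constructor
  · rw [hF, hF, hF, hF, g_F1, g_F2, g_F3, g_F4]
    norm_num
  · rw [hB, hV']
    norm_num

theorem blk_G : Stmt_G := by
  intro w hw
  refine ⟨g_pt_inj hw, ?_⟩
  obtain ⟨Δ, hΔ⟩ := g_complex hw
  refine ⟨Δ, hΔ, ?_, g_euler hw hΔ⟩
  rw [g_space hw hΔ]
  exact g_K_convex

end Pool.CB
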