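import Pool.Agent.Work.CB2.LO

/-! # Block LS: the stresses of degree two in the link of the apex (generated certificates) -/

open scoped BigOperators
open Finset

noncomputable section

namespace Pool.CB

namespace LS

/-- the inner edges of the link of the apex -/
def innL : List (Fin 12 × Fin 12) :=
  [(1, 4), (1, 6), (1, 7), (1, 9), (1, 10), (1, 11), (2, 4), (2, 5), (2, 7), (2, 8), (3, 5), (3, 6), (3, 8), (3, 9), (4, 5), (4, 6), (4, 7), (5, 6), (5, 8), (7, 8), (7, 9), (8, 9)]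

/-- one of the two opposite vertices of an inner edge -/
def na : Fin 12 → Fin 12 → Fin 12 :=
  ![![0, 0, 0, 0, 0, 0, 0, 0, 0, 0, 0, 0],
    ![0, 0, 0, 0, 6, 0, 4, 4, 0, 7, 6, 9],
    ![0, 0, 0, 0, 5, 4, 0, 4, 5, 0, 0, 0],
    ![0, 0, 0, 0, 0, 6, 5, 0, 5, 6, 0, 0],
    ![0, 6, 5, 0, 0, 2, 1, 1, 0, 0, 0, 0],
    ![0, 0, 4, 6, 2, 0, 3, 0, 2, 0, 0, 0],
    ![0, 4, 0, 5, 1, 3, 0, 0, 0, 0, 0, 0],
    ![0, 4, 4, 0, 1, 0, 0, 0, 2, 1, 0, 0],
    ![0, 0, 5, 5, 0, 2, 0, 2, 0, 3, 0, 0],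
    ![0, 7, 0, 6, 0, 0, 0, 1, 3, 0, 0, 0],
    ![0, 6, 0, 0, 0, 0, 0, 0, 0, 0, 0, 0],
    ![0, 9, 0, 0, 0, 0, 0, 0, 0, 0, 0, 0]]

/-- the other one -/
def nb' : Fin 12 → Fin 12 → Fin 12 :=
  ![![0, 0, 0, 0, 0, 0, 0, 0, 0, 0, 0, 0],
    ![0, 0, 0, 0, 7, 0, 10, 9, 0, 11, 11, 10],
    ![0, 0, 0, 0, 7, 8, 0, 8, 7, 0, 0, 0],
    ![0, 0, 0, 0, 0, 8, 9, 0, 9, 8, 0, 0],
    ![0, 7, 7, 0, 0, 6, 5, 2, 0, 0, 0, 0],
    ![0, 0, 8, 8, 6, 0, 4, 0, 3, 0, 0, 0],
    ![0, 10, 0, 9, 5, 4, 0, 0, 0, 0, 0, 0],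
    ![0, 9, 8, 0, 2, 0, 0, 0, 9, 8, 0, 0],
    ![0, 0, 7, 9, 0, 3, 0, 9, 0, 7, 0, 0],
    ![0, 11, 0, 8, 0, 0, 0, 8, 7, 0, 0, 0],
    ![0, 11, 0, 0, 0, 0, 0, 0, 0, 0, 0, 0],
    ![0, 10, 0, 0, 0, 0, 0, 0, 0, 0, 0, 0]]

theorem mem_inn (p q : Fin 12) :
    InnG tetF ({0, p, q} : Finset (Fin 12)) ↔ ((p, q) ∈ innL ∨ (q, p) ∈ innL) := by
  have h1 : ∀ f : Finset (Fin 12), InnG tetF f ↔
      (((∃ t ∈ tetF, f ⊆ t) ∧ f.card = 3) ∧ 1 < (tetF.filter (fun t => f ⊆ t)).card) := by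
    intro f
    unfold InnG
    rw [mem_FF, Finset.one_lt_card]
    refine and_congr_right fun _ => ?_
    constructor
    · rintro ⟨s, hs, t, ht, hst, h1, h2⟩
      exact ⟨s, Finset.mem_filter.2 ⟨hs, h1⟩, t, Finset.mem_filter.2 ⟨ht, h2⟩, hst⟩
    · rintro ⟨s, hs, t, ht, hst⟩
      rw [Finset.mem_filter] at hs ht
      exact ⟨s, hs.1, t, ht.1, hst, hs.2, ht.2⟩
  rw [h1]
  revert p q
  decide +kernel

theorem mem_tet : ∀ p q : Fin 12, ((p, q) ∈ innL ∨ (q, p) ∈ innL) →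
    ∀ a, (({0, p, q, a} : Finset (Fin 12)) ∈ tetF ↔ (a = na p q ∨ a = nb' p q)) := by
  decide +kernel

theorem na_ne : ∀ p q : Fin 12, ((p, q) ∈ innL ∨ (q, p) ∈ innL) → na p q ≠ nb' p q := by
  decide +kernel

theorem coef_eq (d : Fin 12 → Fin 12 → Fin 12 → ℝ) {p q : Fin 12}
    (h : (p, q) ∈ innL ∨ (q, p) ∈ innL) :
    coefG tetF 0 d p q =
      d (na p q) q (nb' p q) / (2 * |d p q (na p q)| * d p q (nb' p q)) +
      d (nb' p q) q (na p q) / (2 * |d p q (nb' p q)| * d p q (na p q)) := by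
  have hm := mem_tet p q h
  have hne := na_ne p q h
  unfold coefG
  rw [LO.VV_tetF, Finset.sum_eq_add (na p q) (nb' p q) hne]
  · congr 1
    · rw [Finset.sum_eq_single (nb' p q)]
      · rw [if_pos ⟨hne, (hm _).2 (Or.inl rfl), (hm _).2 (Or.inr rfl)⟩]
      · intro b _ hb
        rw [if_neg]
        rintro ⟨h1, h2, h3⟩
        rcases (hm b).1 h3 with rfl | rfl
        · exact h1 rfl
        · exact hb rfl
      · intro h1
        exact absurd (Finset.mem_univ _) h1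
    · rw [Finset.sum_eq_single (na p q)]
      · rw [if_pos ⟨hne.symm, (hm _).2 (Or.inr rfl), (hm _).2 (Or.inl rfl)⟩]
      · intro b _ hb
        rw [if_neg]
        rintro ⟨h1, h2, h3⟩
        rcases (hm b).1 h3 with rfl | rfl
        · exact hb rfl
        · exact h1 rfl
      · intro h1
        exact absurd (Finset.mem_univ _) h1
  · intro c _ hc
    refine Finset.sum_eq_zero fun b _ => ?_
    rw [if_neg]
    rintro ⟨h1, h2, h3⟩
    rcases (hm c).1 h2 with h4 | h4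
    · exact hc.1 h4
    · exact hc.2 h4
  · intro h1
    exact absurd (Finset.mem_univ _) h1
  · intro h1
    exact absurd (Finset.mem_univ _) h1

theorem cval {n1 n2 x y C L : ℤ} (hx : x ≠ 0) (hy : y ≠ 0) (hL : L ≠ 0)
    (h : (n1 * |y| * x + n2 * |x| * y) * L = C * (2 * |x| * |y| * x * y)) :
    (n1 : ℝ) / (2 * |(x : ℝ)| * y) + n2 / (2 * |(y : ℝ)| * x) = C / L := by
  have h' : ((n1 : ℝ) * |(y : ℝ)| * x + n2 * |(x : ℝ)| * y) * L
      = C * (2 * |(x : ℝ)| * |(y : ℝ)| * x * y) := by exact_mod_cast h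
  have hx' : (x : ℝ) ≠ 0 := by exact_mod_cast hx
  have hy' : (y : ℝ) ≠ 0 := by exact_mod_cast hy
  have hL' : (L : ℝ) ≠ 0 := by exact_mod_cast hL
  have hX : |(x : ℝ)| ≠ 0 := abs_ne_zero.2 hx'
  have hY : |(y : ℝ)| ≠ 0 := abs_ne_zero.2 hy'
  rw [div_add_div _ _ (by positivity) (by positivity), div_eq_div_iff (by positivity) hL']
  linear_combination 2 * h'

/-- the certificate for the coefficients -/
def Cert (w L : ℤ) (C : Fin 12 → Fin 12 → ℤ) : Prop :=
  L ≠ 0 ∧ ∀ p q : Fin 12, ((p, q) ∈ innL ∨ (q, p) ∈ innL) →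
    dI w p q (na p q) ≠ 0 ∧ dI w p q (nb' p q) ≠ 0 ∧
    (dI w (na p q) q (nb' p q) * |dI w p q (nb' p q)| * dI w p q (na p q) +
      dI w (nb' p q) q (na p q) * |dI w p q (na p q)| * dI w p q (nb' p q)) * L =
      C p q * (2 * |dI w p q (na p q)| * |dI w p q (nb' p q)| * dI w p q (na p q) *
        dI w p q (nb' p q))

/-- the space -/
abbrev Sp (w : ℤ) : Submodule ℝ (Fin 12 → Fin 12 → ℝ) :=
  SigmaG tetF 0 (fun a b c => (dI w a b c : ℝ)) (pt w)

theorem coef_val {w L : ℤ} {C : Fin 12 → Fin 12 → ℤ} (hC : Cert w L C) {p q : Fin 12}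
    (h : (p, q) ∈ innL ∨ (q, p) ∈ innL) :
    coefG tetF 0 (fun a b c => (dI w a b c : ℝ)) p q = C p q / L := by
  rw [coef_eq _ h]
  obtain ⟨h1, h2, h3⟩ := hC.2 p q h
  exact cval h1 h2 hC.1 h3

theorem Z {w : ℤ} {s : Fin 12 → Fin 12 → ℝ} (h : s ∈ Sp w) (p q : Fin 12)
    (hpq : ¬ ((p, q) ∈ innL ∨ (q, p) ∈ innL)) : s p q = 0 :=
  h.2.1 p q fun hm => hpq ((mem_inn p q).1 hm)

theorem sy {w : ℤ} {s : Fin 12 → Fin 12 → ℝ} (h : s ∈ Sp w) (p q : Fin 12) :
    s q p = s p q := h.1 q p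

theorem E {w L : ℤ} {C : Fin 12 → Fin 12 → ℤ} (hC : Cert w L C)
    {s : Fin 12 → Fin 12 → ℝ} (h : s ∈ Sp w) (p : Fin 12)
    (j : Fin 3) : ∑ q, s p q * ((C p q * posI w q j : ℤ) : ℝ) = 0 := by
  have h1 := congrFun (h.2.2.2 p) j
  rw [LO.VV_tetF, Finset.sum_apply] at h1
  have h2 : ∀ q, s p q * ((C p q * posI w q j : ℤ) : ℝ) = (L : ℝ) *
      ((s p q * coefG tetF 0 (fun a b c => (dI w a b c : ℝ)) p q) • pt w q) j := by
    intro q
    rw [Pi.smul_apply, smul_eq_mul]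
    by_cases hpq : (p, q) ∈ innL ∨ (q, p) ∈ innL
    · rw [coef_val hC hpq]
      have hL : (L : ℝ) ≠ 0 := by exact_mod_cast hC.1
      unfold pt
      push_cast
      field_simp
    · rw [Z h p q hpq]
      simp
  simp only [h2]
  rw [← Finset.mul_sum, h1, Pi.zero_apply, mul_zero]

theorem ext0 {w : ℤ} {s : Fin 12 → Fin 12 → ℝ} (h : s ∈ Sp w)
    (h0 : ∀ e ∈ innL, s e.1 e.2 = 0) : s = 0 := by
  ext p q
  by_cases hpq : (p, q) ∈ innL ∨ (q, p) ∈ innL
  · rcases hpq with hpq | hpq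
    · exact h0 _ hpq
    · have h1 : s q p = 0 := h0 _ hpq
      rw [sy h q p, h1]
      rfl
  · exact Z h p q hpq

/-- the coefficients for `w = 44`, times `1494108000` -/
def C44 : Fin 12 → Fin 12 → ℤ :=
  ![![0, 0, 0, 0, 0, 0, 0, 0, 0, 0, 0, 0],
    ![0, 0, 0, 0, -996072, 0, 482944, -996072, 0, 482944, 150920, 150920],
    ![0, 0, 0, 0, 271656000, 24696000, 0, 271656000, 24696000, 0, 0, 0],
    ![0, 0, 0, 0, 0, 1617000, 1212750, 0, 1617000, 1212750, 0, 0],
    ![0, 8964648, -99607200, 0, 0, 18676350, 1369599, 78440670, 0, 0, 0, 0],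
    ![0, 0, 4116000, 4735500, 4851000, 0, 1666500, 0, 5916750, 0, 0, 0],
    ![0, 90552, 0, -236775, 17787, -84150, 0, 0, 0, 0, 0, 0],
    ![0, 8964648, -99607200, 0, 78440670, 0, 0, 0, 18676350, 1369599, 0, 0],
    ![0, 0, 4116000, 4735500, 0, 5916750, 0, 4851000, 0, 1666500, 0, 0],
    ![0, 90552, 0, -236775, 0, 0, 0, 17787, -84150, 0, 0, 0],
    ![0, 0, 0, 0, 0, 0, 0, 0, 0, 0, 0, 0],
    ![0, 0, 0, 0, 0, 0, 0, 0, 0, 0, 0, 0]]

theorem cert44 : Cert 44 1494108000 C44 := by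
  unfold Cert
  decide +kernel

theorem E44_1_0 {s : Fin 12 → Fin 12 → ℝ} (h : s ∈ Sp 44) :
    s 1 4 * (-19921440) +
    s 1 6 * 28976640 +
    s 1 7 * (-19921440) +
    s 1 9 * 28976640 +
    s 1 10 * (-9055200) +
    s 1 11 * (-9055200) = 0 := by
  have e := E cert44 h 1 0
  rw [LO.sum12] at e
  rw [Z h 1 0 (by decide), Z h 1 1 (by decide), Z h 1 2 (by decide), Z h 1 3 (by decide), Z h 1 5 (by decide), Z h 1 8 (by decide)] at e
  have c4 : ((C44 1 4 * posI 44 4 0 : ℤ) : ℝ) = (-19921440) := by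
    have h0 : C44 1 4 * posI 44 4 0 = (-19921440) := by decide +kernel
    rw [h0]; norm_num
  have c6 : ((C44 1 6 * posI 44 6 0 : ℤ) : ℝ) = 28976640 := by
    have h0 : C44 1 6 * posI 44 6 0 = 28976640 := by decide +kernel
    rw [h0]; norm_num
  have c7 : ((C44 1 7 * posI 44 7 0 : ℤ) : ℝ) = (-19921440) := by
    have h0 : C44 1 7 * posI 44 7 0 = (-19921440) := by decide +kernel
    rw [h0]; norm_num
  have c9 : ((C44 1 9 * posI 44 9 0 : ℤ) : ℝ) = 28976640 := by
    have h0 : C44 1 9 * posI 44 9 0 = 28976640 := by decide +kernel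
    rw [h0]; norm_num
  have c10 : ((C44 1 10 * posI 44 10 0 : ℤ) : ℝ) = (-9055200) := by
    have h0 : C44 1 10 * posI 44 10 0 = (-9055200) := by decide +kernel
    rw [h0]; norm_num
  have c11 : ((C44 1 11 * posI 44 11 0 : ℤ) : ℝ) = (-9055200) := by
    have h0 : C44 1 11 * posI 44 11 0 = (-9055200) := by decide +kernel
    rw [h0]; norm_num
  rw [c4, c6, c7, c9, c10, c11] at e
  linear_combination e

theorem E44_1_1 {s : Fin 12 → Fin 12 → ℝ} (h : s ∈ Sp 44) :
    s 1 4 * (-4980360) +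
    s 1 6 * 79685760 +
    s 1 7 * 4980360 +
    s 1 9 * (-79685760) +
    s 1 10 * 24901800 +
    s 1 11 * (-24901800) = 0 := by
  have e := E cert44 h 1 1
  rw [LO.sum12] at e
  rw [Z h 1 0 (by decide), Z h 1 1 (by decide), Z h 1 2 (by decide), Z h 1 3 (by decide), Z h 1 5 (by decide), Z h 1 8 (by decide)] at e
  have c4 : ((C44 1 4 * posI 44 4 1 : ℤ) : ℝ) = (-4980360) := by
    have h0 : C44 1 4 * posI 44 4 1 = (-4980360) := by decide +kernel
    rw [h0]; norm_num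
  have c6 : ((C44 1 6 * posI 44 6 1 : ℤ) : ℝ) = 79685760 := by
    have h0 : C44 1 6 * posI 44 6 1 = 79685760 := by decide +kernel
    rw [h0]; norm_num
  have c7 : ((C44 1 7 * posI 44 7 1 : ℤ) : ℝ) = 4980360 := by
    have h0 : C44 1 7 * posI 44 7 1 = 4980360 := by decide +kernel
    rw [h0]; norm_num
  have c9 : ((C44 1 9 * posI 44 9 1 : ℤ) : ℝ) = (-79685760) := by
    have h0 : C44 1 9 * posI 44 9 1 = (-79685760) := by decide +kernel
    rw [h0]; norm_num
  have c10 : ((C44 1 10 * posI 44 10 1 : ℤ) : ℝ) = 24901800 := by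
    have h0 : C44 1 10 * posI 44 10 1 = 24901800 := by decide +kernel
    rw [h0]; norm_num
  have c11 : ((C44 1 11 * posI 44 11 1 : ℤ) : ℝ) = (-24901800) := by
    have h0 : C44 1 11 * posI 44 11 1 = (-24901800) := by decide +kernel
    rw [h0]; norm_num
  rw [c4, c6, c7, c9, c10, c11] at e
  linear_combination e

theorem E44_1_2 {s : Fin 12 → Fin 12 → ℝ} (h : s ∈ Sp 44) :
    s 1 4 * (-996072) +
    s 1 6 * 482944 +
    s 1 7 * (-996072) +
    s 1 9 * 482944 +
    s 1 10 * 150920 +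
    s 1 11 * 150920 = 0 := by
  have e := E cert44 h 1 2
  rw [LO.sum12] at e
  rw [Z h 1 0 (by decide), Z h 1 1 (by decide), Z h 1 2 (by decide), Z h 1 3 (by decide), Z h 1 5 (by decide), Z h 1 8 (by decide)] at e
  have c4 : ((C44 1 4 * posI 44 4 2 : ℤ) : ℝ) = (-996072) := by
    have h0 : C44 1 4 * posI 44 4 2 = (-996072) := by decide +kernel
    rw [h0]; norm_num
  have c6 : ((C44 1 6 * posI 44 6 2 : ℤ) : ℝ) = 482944 := by
    have h0 : C44 1 6 * posI 44 6 2 = 482944 := by decide +kernel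
    rw [h0]; norm_num
  have c7 : ((C44 1 7 * posI 44 7 2 : ℤ) : ℝ) = (-996072) := by
    have h0 : C44 1 7 * posI 44 7 2 = (-996072) := by decide +kernel
    rw [h0]; norm_num
  have c9 : ((C44 1 9 * posI 44 9 2 : ℤ) : ℝ) = 482944 := by
    have h0 : C44 1 9 * posI 44 9 2 = 482944 := by decide +kernel
    rw [h0]; norm_num
  have c10 : ((C44 1 10 * posI 44 10 2 : ℤ) : ℝ) = 150920 := by
    have h0 : C44 1 10 * posI 44 10 2 = 150920 := by decide +kernel
    rw [h0]; norm_num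
  have c11 : ((C44 1 11 * posI 44 11 2 : ℤ) : ℝ) = 150920 := by
    have h0 : C44 1 11 * posI 44 11 2 = 150920 := by decide +kernel
    rw [h0]; norm_num
  rw [c4, c6, c7, c9, c10, c11] at e
  linear_combination e

theorem E44_2_0 {s : Fin 12 → Fin 12 → ℝ} (h : s ∈ Sp 44) :
    s 2 4 * 5433120000 +
    s 2 5 * 790272000 +
    s 2 7 * 5433120000 +
    s 2 8 * 790272000 = 0 := by
  have e := E cert44 h 2 0
  rw [LO.sum12] at e
  rw [Z h 2 0 (by decide), Z h 2 1 (by decide), Z h 2 2 (by decide), Z h 2 3 (by decide), Z h 2 6 (by decide), Z h 2 9 (by decide), Z h 2 10 (by decide), Z h 2 11 (by decide)] at e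
  have c4 : ((C44 2 4 * posI 44 4 0 : ℤ) : ℝ) = 5433120000 := by
    have h0 : C44 2 4 * posI 44 4 0 = 5433120000 := by decide +kernel
    rw [h0]; norm_num
  have c5 : ((C44 2 5 * posI 44 5 0 : ℤ) : ℝ) = 790272000 := by
    have h0 : C44 2 5 * posI 44 5 0 = 790272000 := by decide +kernel
    rw [h0]; norm_num
  have c7 : ((C44 2 7 * posI 44 7 0 : ℤ) : ℝ) = 5433120000 := by
    have h0 : C44 2 7 * posI 44 7 0 = 5433120000 := by decide +kernel
    rw [h0]; norm_num
  have c8 : ((C44 2 8 * posI 44 8 0 : ℤ) : ℝ) = 790272000 := by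
    have h0 : C44 2 8 * posI 44 8 0 = 790272000 := by decide +kernel
    rw [h0]; norm_num
  rw [c4, c5, c7, c8] at e
  linear_combination e

theorem E44_2_1 {s : Fin 12 → Fin 12 → ℝ} (h : s ∈ Sp 44) :
    s 2 4 * 1358280000 +
    s 2 5 * 271656000 +
    s 2 7 * (-1358280000) +
    s 2 8 * (-271656000) = 0 := by
  have e := E cert44 h 2 1
  rw [LO.sum12] at e
  rw [Z h 2 0 (by decide), Z h 2 1 (by decide), Z h 2 2 (by decide), Z h 2 3 (by decide), Z h 2 6 (by decide), Z h 2 9 (by decide), Z h 2 10 (by decide), Z h 2 11 (by decide)] at e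
  have c4 : ((C44 2 4 * posI 44 4 1 : ℤ) : ℝ) = 1358280000 := by
    have h0 : C44 2 4 * posI 44 4 1 = 1358280000 := by decide +kernel
    rw [h0]; norm_num
  have c5 : ((C44 2 5 * posI 44 5 1 : ℤ) : ℝ) = 271656000 := by
    have h0 : C44 2 5 * posI 44 5 1 = 271656000 := by decide +kernel
    rw [h0]; norm_num
  have c7 : ((C44 2 7 * posI 44 7 1 : ℤ) : ℝ) = (-1358280000) := by
    have h0 : C44 2 7 * posI 44 7 1 = (-1358280000) := by decide +kernel
    rw [h0]; norm_num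
  have c8 : ((C44 2 8 * posI 44 8 1 : ℤ) : ℝ) = (-271656000) := by
    have h0 : C44 2 8 * posI 44 8 1 = (-271656000) := by decide +kernel
    rw [h0]; norm_num
  rw [c4, c5, c7, c8] at e
  linear_combination e

theorem E44_2_2 {s : Fin 12 → Fin 12 → ℝ} (h : s ∈ Sp 44) :
    s 2 4 * 271656000 +
    s 2 5 * 24696000 +
    s 2 7 * 271656000 +
    s 2 8 * 24696000 = 0 := by
  have e := E cert44 h 2 2
  rw [LO.sum12] at e
  rw [Z h 2 0 (by decide), Z h 2 1 (by decide), Z h 2 2 (by decide), Z h 2 3 (by decide), Z h 2 6 (by decide), Z h 2 9 (by decide), Z h 2 10 (by decide), Z h 2 11 (by decide)] at e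
  have c4 : ((C44 2 4 * posI 44 4 2 : ℤ) : ℝ) = 271656000 := by
    have h0 : C44 2 4 * posI 44 4 2 = 271656000 := by decide +kernel
    rw [h0]; norm_num
  have c5 : ((C44 2 5 * posI 44 5 2 : ℤ) : ℝ) = 24696000 := by
    have h0 : C44 2 5 * posI 44 5 2 = 24696000 := by decide +kernel
    rw [h0]; norm_num
  have c7 : ((C44 2 7 * posI 44 7 2 : ℤ) : ℝ) = 271656000 := by
    have h0 : C44 2 7 * posI 44 7 2 = 271656000 := by decide +kernel
    rw [h0]; norm_num
  have c8 : ((C44 2 8 * posI 44 8 2 : ℤ) : ℝ) = 24696000 := by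
    have h0 : C44 2 8 * posI 44 8 2 = 24696000 := by decide +kernel
    rw [h0]; norm_num
  rw [c4, c5, c7, c8] at e
  linear_combination e

theorem E44_3_0 {s : Fin 12 → Fin 12 → ℝ} (h : s ∈ Sp 44) :
    s 3 5 * 51744000 +
    s 3 6 * 72765000 +
    s 3 8 * 51744000 +
    s 3 9 * 72765000 = 0 := by
  have e := E cert44 h 3 0
  rw [LO.sum12] at e
  rw [Z h 3 0 (by decide), Z h 3 1 (by decide), Z h 3 2 (by decide), Z h 3 3 (by decide), Z h 3 4 (by decide), Z h 3 7 (by decide), Z h 3 10 (by decide), Z h 3 11 (by decide)] at e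
  have c5 : ((C44 3 5 * posI 44 5 0 : ℤ) : ℝ) = 51744000 := by
    have h0 : C44 3 5 * posI 44 5 0 = 51744000 := by decide +kernel
    rw [h0]; norm_num
  have c6 : ((C44 3 6 * posI 44 6 0 : ℤ) : ℝ) = 72765000 := by
    have h0 : C44 3 6 * posI 44 6 0 = 72765000 := by decide +kernel
    rw [h0]; norm_num
  have c8 : ((C44 3 8 * posI 44 8 0 : ℤ) : ℝ) = 51744000 := by
    have h0 : C44 3 8 * posI 44 8 0 = 51744000 := by decide +kernel
    rw [h0]; norm_num
  have c9 : ((C44 3 9 * posI 44 9 0 : ℤ) : ℝ) = 72765000 := by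
    have h0 : C44 3 9 * posI 44 9 0 = 72765000 := by decide +kernel
    rw [h0]; norm_num
  rw [c5, c6, c8, c9] at e
  linear_combination e

theorem E44_3_1 {s : Fin 12 → Fin 12 → ℝ} (h : s ∈ Sp 44) :
    s 3 5 * 17787000 +
    s 3 6 * 200103750 +
    s 3 8 * (-17787000) +
    s 3 9 * (-200103750) = 0 := by
  have e := E cert44 h 3 1
  rw [LO.sum12] at e
  rw [Z h 3 0 (by decide), Z h 3 1 (by decide), Z h 3 2 (by decide), Z h 3 3 (by decide), Z h 3 4 (by decide), Z h 3 7 (by decide), Z h 3 10 (by decide), Z h 3 11 (by decide)] at e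
  have c5 : ((C44 3 5 * posI 44 5 1 : ℤ) : ℝ) = 17787000 := by
    have h0 : C44 3 5 * posI 44 5 1 = 17787000 := by decide +kernel
    rw [h0]; norm_num
  have c6 : ((C44 3 6 * posI 44 6 1 : ℤ) : ℝ) = 200103750 := by
    have h0 : C44 3 6 * posI 44 6 1 = 200103750 := by decide +kernel
    rw [h0]; norm_num
  have c8 : ((C44 3 8 * posI 44 8 1 : ℤ) : ℝ) = (-17787000) := by
    have h0 : C44 3 8 * posI 44 8 1 = (-17787000) := by decide +kernel
    rw [h0]; norm_num
  have c9 : ((C44 3 9 * posI 44 9 1 : ℤ) : ℝ) = (-200103750) := by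
    have h0 : C44 3 9 * posI 44 9 1 = (-200103750) := by decide +kernel
    rw [h0]; norm_num
  rw [c5, c6, c8, c9] at e
  linear_combination e

theorem E44_3_2 {s : Fin 12 → Fin 12 → ℝ} (h : s ∈ Sp 44) :
    s 3 5 * 1617000 +
    s 3 6 * 1212750 +
    s 3 8 * 1617000 +
    s 3 9 * 1212750 = 0 := by
  have e := E cert44 h 3 2
  rw [LO.sum12] at e
  rw [Z h 3 0 (by decide), Z h 3 1 (by decide), Z h 3 2 (by decide), Z h 3 3 (by decide), Z h 3 4 (by decide), Z h 3 7 (by decide), Z h 3 10 (by decide), Z h 3 11 (by decide)] at e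
  have c5 : ((C44 3 5 * posI 44 5 2 : ℤ) : ℝ) = 1617000 := by
    have h0 : C44 3 5 * posI 44 5 2 = 1617000 := by decide +kernel
    rw [h0]; norm_num
  have c6 : ((C44 3 6 * posI 44 6 2 : ℤ) : ℝ) = 1212750 := by
    have h0 : C44 3 6 * posI 44 6 2 = 1212750 := by decide +kernel
    rw [h0]; norm_num
  have c8 : ((C44 3 8 * posI 44 8 2 : ℤ) : ℝ) = 1617000 := by
    have h0 : C44 3 8 * posI 44 8 2 = 1617000 := by decide +kernel
    rw [h0]; norm_num
  have c9 : ((C44 3 9 * posI 44 9 2 : ℤ) : ℝ) = 1212750 := by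
    have h0 : C44 3 9 * posI 44 9 2 = 1212750 := by decide +kernel
    rw [h0]; norm_num
  rw [c5, c6, c8, c9] at e
  linear_combination e

theorem E44_4_0 {s : Fin 12 → Fin 12 → ℝ} (h : s ∈ Sp 44) :
    s 1 4 * 0 +
    s 2 4 * (-2091751200) +
    s 4 5 * 597643200 +
    s 4 6 * 82175940 +
    s 4 7 * 1568813400 = 0 := by
  have e := E cert44 h 4 0
  rw [LO.sum12] at e
  rw [Z h 4 0 (by decide), Z h 4 3 (by decide), Z h 4 4 (by decide), Z h 4 8 (by decide), Z h 4 9 (by decide), Z h 4 10 (by decide), Z h 4 11 (by decide)] at e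
  rw [sy h 1 4, sy h 2 4] at e
  have c1 : ((C44 4 1 * posI 44 1 0 : ℤ) : ℝ) = 0 := by
    have h0 : C44 4 1 * posI 44 1 0 = 0 := by decide +kernel
    rw [h0]; norm_num
  have c2 : ((C44 4 2 * posI 44 2 0 : ℤ) : ℝ) = (-2091751200) := by
    have h0 : C44 4 2 * posI 44 2 0 = (-2091751200) := by decide +kernel
    rw [h0]; norm_num
  have c5 : ((C44 4 5 * posI 44 5 0 : ℤ) : ℝ) = 597643200 := by
    have h0 : C44 4 5 * posI 44 5 0 = 597643200 := by decide +kernel
    rw [h0]; norm_num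
  have c6 : ((C44 4 6 * posI 44 6 0 : ℤ) : ℝ) = 82175940 := by
    have h0 : C44 4 6 * posI 44 6 0 = 82175940 := by decide +kernel
    rw [h0]; norm_num
  have c7 : ((C44 4 7 * posI 44 7 0 : ℤ) : ℝ) = 1568813400 := by
    have h0 : C44 4 7 * posI 44 7 0 = 1568813400 := by decide +kernel
    rw [h0]; norm_num
  rw [c1, c2, c5, c6, c7] at e
  linear_combination e

theorem E44_4_1 {s : Fin 12 → Fin 12 → ℝ} (h : s ∈ Sp 44) :
    s 1 4 * 0 +
    s 2 4 * 0 +
    s 4 5 * 205439850 +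
    s 4 6 * 225983835 +
    s 4 7 * (-392203350) = 0 := by
  have e := E cert44 h 4 1
  rw [LO.sum12] at e
  rw [Z h 4 0 (by decide), Z h 4 3 (by decide), Z h 4 4 (by decide), Z h 4 8 (by decide), Z h 4 9 (by decide), Z h 4 10 (by decide), Z h 4 11 (by decide)] at e
  rw [sy h 1 4, sy h 2 4] at e
  have c1 : ((C44 4 1 * posI 44 1 1 : ℤ) : ℝ) = 0 := by
    have h0 : C44 4 1 * posI 44 1 1 = 0 := by decide +kernel
    rw [h0]; norm_num
  have c2 : ((C44 4 2 * posI 44 2 1 : ℤ) : ℝ) = 0 := by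
    have h0 : C44 4 2 * posI 44 2 1 = 0 := by decide +kernel
    rw [h0]; norm_num
  have c5 : ((C44 4 5 * posI 44 5 1 : ℤ) : ℝ) = 205439850 := by
    have h0 : C44 4 5 * posI 44 5 1 = 205439850 := by decide +kernel
    rw [h0]; norm_num
  have c6 : ((C44 4 6 * posI 44 6 1 : ℤ) : ℝ) = 225983835 := by
    have h0 : C44 4 6 * posI 44 6 1 = 225983835 := by decide +kernel
    rw [h0]; norm_num
  have c7 : ((C44 4 7 * posI 44 7 1 : ℤ) : ℝ) = (-392203350) := by
    have h0 : C44 4 7 * posI 44 7 1 = (-392203350) := by decide +kernel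
    rw [h0]; norm_num
  rw [c1, c2, c5, c6, c7] at e
  linear_combination e

theorem E44_4_2 {s : Fin 12 → Fin 12 → ℝ} (h : s ∈ Sp 44) :
    s 1 4 * 8964648 +
    s 2 4 * (-99607200) +
    s 4 5 * 18676350 +
    s 4 6 * 1369599 +
    s 4 7 * 78440670 = 0 := by
  have e := E cert44 h 4 2
  rw [LO.sum12] at e
  rw [Z h 4 0 (by decide), Z h 4 3 (by decide), Z h 4 4 (by decide), Z h 4 8 (by decide), Z h 4 9 (by decide), Z h 4 10 (by decide), Z h 4 11 (by decide)] at e
  rw [sy h 1 4, sy h 2 4] at e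
  have c1 : ((C44 4 1 * posI 44 1 2 : ℤ) : ℝ) = 8964648 := by
    have h0 : C44 4 1 * posI 44 1 2 = 8964648 := by decide +kernel
    rw [h0]; norm_num
  have c2 : ((C44 4 2 * posI 44 2 2 : ℤ) : ℝ) = (-99607200) := by
    have h0 : C44 4 2 * posI 44 2 2 = (-99607200) := by decide +kernel
    rw [h0]; norm_num
  have c5 : ((C44 4 5 * posI 44 5 2 : ℤ) : ℝ) = 18676350 := by
    have h0 : C44 4 5 * posI 44 5 2 = 18676350 := by decide +kernel
    rw [h0]; norm_num
  have c6 : ((C44 4 6 * posI 44 6 2 : ℤ) : ℝ) = 1369599 := by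
    have h0 : C44 4 6 * posI 44 6 2 = 1369599 := by decide +kernel
    rw [h0]; norm_num
  have c7 : ((C44 4 7 * posI 44 7 2 : ℤ) : ℝ) = 78440670 := by
    have h0 : C44 4 7 * posI 44 7 2 = 78440670 := by decide +kernel
    rw [h0]; norm_num
  rw [c1, c2, c5, c6, c7] at e
  linear_combination e

theorem E44_5_0 {s : Fin 12 → Fin 12 → ℝ} (h : s ∈ Sp 44) :
    s 2 5 * 86436000 +
    s 3 5 * 208362000 +
    s 4 5 * 97020000 +
    s 5 6 * 99990000 +
    s 5 8 * 189336000 = 0 := by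
  have e := E cert44 h 5 0
  rw [LO.sum12] at e
  rw [Z h 5 0 (by decide), Z h 5 1 (by decide), Z h 5 5 (by decide), Z h 5 7 (by decide), Z h 5 9 (by decide), Z h 5 10 (by decide), Z h 5 11 (by decide)] at e
  rw [sy h 2 5, sy h 3 5, sy h 4 5] at e
  have c2 : ((C44 5 2 * posI 44 2 0 : ℤ) : ℝ) = 86436000 := by
    have h0 : C44 5 2 * posI 44 2 0 = 86436000 := by decide +kernel
    rw [h0]; norm_num
  have c3 : ((C44 5 3 * posI 44 3 0 : ℤ) : ℝ) = 208362000 := by
    have h0 : C44 5 3 * posI 44 3 0 = 208362000 := by decide +kernel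
    rw [h0]; norm_num
  have c4 : ((C44 5 4 * posI 44 4 0 : ℤ) : ℝ) = 97020000 := by
    have h0 : C44 5 4 * posI 44 4 0 = 97020000 := by decide +kernel
    rw [h0]; norm_num
  have c6 : ((C44 5 6 * posI 44 6 0 : ℤ) : ℝ) = 99990000 := by
    have h0 : C44 5 6 * posI 44 6 0 = 99990000 := by decide +kernel
    rw [h0]; norm_num
  have c8 : ((C44 5 8 * posI 44 8 0 : ℤ) : ℝ) = 189336000 := by
    have h0 : C44 5 8 * posI 44 8 0 = 189336000 := by decide +kernel
    rw [h0]; norm_num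
  rw [c2, c3, c4, c6, c8] at e
  linear_combination e

theorem E44_5_1 {s : Fin 12 → Fin 12 → ℝ} (h : s ∈ Sp 44) :
    s 2 5 * 0 +
    s 3 5 * 0 +
    s 4 5 * 24255000 +
    s 5 6 * 274972500 +
    s 5 8 * (-65084250) = 0 := by
  have e := E cert44 h 5 1
  rw [LO.sum12] at e
  rw [Z h 5 0 (by decide), Z h 5 1 (by decide), Z h 5 5 (by decide), Z h 5 7 (by decide), Z h 5 9 (by decide), Z h 5 10 (by decide), Z h 5 11 (by decide)] at e
  rw [sy h 2 5, sy h 3 5, sy h 4 5] at e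
  have c2 : ((C44 5 2 * posI 44 2 1 : ℤ) : ℝ) = 0 := by
    have h0 : C44 5 2 * posI 44 2 1 = 0 := by decide +kernel
    rw [h0]; norm_num
  have c3 : ((C44 5 3 * posI 44 3 1 : ℤ) : ℝ) = 0 := by
    have h0 : C44 5 3 * posI 44 3 1 = 0 := by decide +kernel
    rw [h0]; norm_num
  have c4 : ((C44 5 4 * posI 44 4 1 : ℤ) : ℝ) = 24255000 := by
    have h0 : C44 5 4 * posI 44 4 1 = 24255000 := by decide +kernel
    rw [h0]; norm_num
  have c6 : ((C44 5 6 * posI 44 6 1 : ℤ) : ℝ) = 274972500 := by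
    have h0 : C44 5 6 * posI 44 6 1 = 274972500 := by decide +kernel
    rw [h0]; norm_num
  have c8 : ((C44 5 8 * posI 44 8 1 : ℤ) : ℝ) = (-65084250) := by
    have h0 : C44 5 8 * posI 44 8 1 = (-65084250) := by decide +kernel
    rw [h0]; norm_num
  rw [c2, c3, c4, c6, c8] at e
  linear_combination e

theorem E44_5_2 {s : Fin 12 → Fin 12 → ℝ} (h : s ∈ Sp 44) :
    s 2 5 * 4116000 +
    s 3 5 * 4735500 +
    s 4 5 * 4851000 +
    s 5 6 * 1666500 +
    s 5 8 * 5916750 = 0 := by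
  have e := E cert44 h 5 2
  rw [LO.sum12] at e
  rw [Z h 5 0 (by decide), Z h 5 1 (by decide), Z h 5 5 (by decide), Z h 5 7 (by decide), Z h 5 9 (by decide), Z h 5 10 (by decide), Z h 5 11 (by decide)] at e
  rw [sy h 2 5, sy h 3 5, sy h 4 5] at e
  have c2 : ((C44 5 2 * posI 44 2 2 : ℤ) : ℝ) = 4116000 := by
    have h0 : C44 5 2 * posI 44 2 2 = 4116000 := by decide +kernel
    rw [h0]; norm_num
  have c3 : ((C44 5 3 * posI 44 3 2 : ℤ) : ℝ) = 4735500 := by
    have h0 : C44 5 3 * posI 44 3 2 = 4735500 := by decide +kernel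
    rw [h0]; norm_num
  have c4 : ((C44 5 4 * posI 44 4 2 : ℤ) : ℝ) = 4851000 := by
    have h0 : C44 5 4 * posI 44 4 2 = 4851000 := by decide +kernel
    rw [h0]; norm_num
  have c6 : ((C44 5 6 * posI 44 6 2 : ℤ) : ℝ) = 1666500 := by
    have h0 : C44 5 6 * posI 44 6 2 = 1666500 := by decide +kernel
    rw [h0]; norm_num
  have c8 : ((C44 5 8 * posI 44 8 2 : ℤ) : ℝ) = 5916750 := by
    have h0 : C44 5 8 * posI 44 8 2 = 5916750 := by decide +kernel
    rw [h0]; norm_num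
  rw [c2, c3, c4, c6, c8] at e
  linear_combination e

theorem E44_6_0 {s : Fin 12 → Fin 12 → ℝ} (h : s ∈ Sp 44) :
    s 1 6 * 0 +
    s 3 6 * (-10418100) +
    s 4 6 * 355740 +
    s 5 6 * (-2692800) = 0 := by
  have e := E cert44 h 6 0
  rw [LO.sum12] at e
  rw [Z h 6 0 (by decide), Z h 6 2 (by decide), Z h 6 6 (by decide), Z h 6 7 (by decide), Z h 6 8 (by decide), Z h 6 9 (by decide), Z h 6 10 (by decide), Z h 6 11 (by decide)] at e
  rw [sy h 1 6, sy h 3 6, sy h 4 6, sy h 5 6] at e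
  have c1 : ((C44 6 1 * posI 44 1 0 : ℤ) : ℝ) = 0 := by
    have h0 : C44 6 1 * posI 44 1 0 = 0 := by decide +kernel
    rw [h0]; norm_num
  have c3 : ((C44 6 3 * posI 44 3 0 : ℤ) : ℝ) = (-10418100) := by
    have h0 : C44 6 3 * posI 44 3 0 = (-10418100) := by decide +kernel
    rw [h0]; norm_num
  have c4 : ((C44 6 4 * posI 44 4 0 : ℤ) : ℝ) = 355740 := by
    have h0 : C44 6 4 * posI 44 4 0 = 355740 := by decide +kernel
    rw [h0]; norm_num
  have c5 : ((C44 6 5 * posI 44 5 0 : ℤ) : ℝ) = (-2692800) := by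
    have h0 : C44 6 5 * posI 44 5 0 = (-2692800) := by decide +kernel
    rw [h0]; norm_num
  rw [c1, c3, c4, c5] at e
  linear_combination e

theorem E44_6_1 {s : Fin 12 → Fin 12 → ℝ} (h : s ∈ Sp 44) :
    s 1 6 * 0 +
    s 3 6 * 0 +
    s 4 6 * 88935 +
    s 5 6 * (-925650) = 0 := by
  have e := E cert44 h 6 1
  rw [LO.sum12] at e
  rw [Z h 6 0 (by decide), Z h 6 2 (by decide), Z h 6 6 (by decide), Z h 6 7 (by decide), Z h 6 8 (by decide), Z h 6 9 (by decide), Z h 6 10 (by decide), Z h 6 11 (by decide)] at e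
  rw [sy h 1 6, sy h 3 6, sy h 4 6, sy h 5 6] at e
  have c1 : ((C44 6 1 * posI 44 1 1 : ℤ) : ℝ) = 0 := by
    have h0 : C44 6 1 * posI 44 1 1 = 0 := by decide +kernel
    rw [h0]; norm_num
  have c3 : ((C44 6 3 * posI 44 3 1 : ℤ) : ℝ) = 0 := by
    have h0 : C44 6 3 * posI 44 3 1 = 0 := by decide +kernel
    rw [h0]; norm_num
  have c4 : ((C44 6 4 * posI 44 4 1 : ℤ) : ℝ) = 88935 := by
    have h0 : C44 6 4 * posI 44 4 1 = 88935 := by decide +kernel
    rw [h0]; norm_num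
  have c5 : ((C44 6 5 * posI 44 5 1 : ℤ) : ℝ) = (-925650) := by
    have h0 : C44 6 5 * posI 44 5 1 = (-925650) := by decide +kernel
    rw [h0]; norm_num
  rw [c1, c3, c4, c5] at e
  linear_combination e

theorem E44_6_2 {s : Fin 12 → Fin 12 → ℝ} (h : s ∈ Sp 44) :
    s 1 6 * 90552 +
    s 3 6 * (-236775) +
    s 4 6 * 17787 +
    s 5 6 * (-84150) = 0 := by
  have e := E cert44 h 6 2
  rw [LO.sum12] at e
  rw [Z h 6 0 (by decide), Z h 6 2 (by decide), Z h 6 6 (by decide), Z h 6 7 (by decide), Z h 6 8 (by decide), Z h 6 9 (by decide), Z h 6 10 (by decide), Z h 6 11 (by decide)] at e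
  rw [sy h 1 6, sy h 3 6, sy h 4 6, sy h 5 6] at e
  have c1 : ((C44 6 1 * posI 44 1 2 : ℤ) : ℝ) = 90552 := by
    have h0 : C44 6 1 * posI 44 1 2 = 90552 := by decide +kernel
    rw [h0]; norm_num
  have c3 : ((C44 6 3 * posI 44 3 2 : ℤ) : ℝ) = (-236775) := by
    have h0 : C44 6 3 * posI 44 3 2 = (-236775) := by decide +kernel
    rw [h0]; norm_num
  have c4 : ((C44 6 4 * posI 44 4 2 : ℤ) : ℝ) = 17787 := by
    have h0 : C44 6 4 * posI 44 4 2 = 17787 := by decide +kernel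
    rw [h0]; norm_num
  have c5 : ((C44 6 5 * posI 44 5 2 : ℤ) : ℝ) = (-84150) := by
    have h0 : C44 6 5 * posI 44 5 2 = (-84150) := by decide +kernel
    rw [h0]; norm_num
  rw [c1, c3, c4, c5] at e
  linear_combination e

theorem E44_7_0 {s : Fin 12 → Fin 12 → ℝ} (h : s ∈ Sp 44) :
    s 1 7 * 0 +
    s 2 7 * (-2091751200) +
    s 4 7 * 1568813400 +
    s 7 8 * 597643200 +
    s 7 9 * 82175940 = 0 := by
  have e := E cert44 h 7 0
  rw [LO.sum12] at e
  rw [Z h 7 0 (by decide), Z h 7 3 (by decide), Z h 7 5 (by decide), Z h 7 6 (by decide), Z h 7 7 (by decide), Z h 7 10 (by decide), Z h 7 11 (by decide)] at e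
  rw [sy h 1 7, sy h 2 7, sy h 4 7] at e
  have c1 : ((C44 7 1 * posI 44 1 0 : ℤ) : ℝ) = 0 := by
    have h0 : C44 7 1 * posI 44 1 0 = 0 := by decide +kernel
    rw [h0]; norm_num
  have c2 : ((C44 7 2 * posI 44 2 0 : ℤ) : ℝ) = (-2091751200) := by
    have h0 : C44 7 2 * posI 44 2 0 = (-2091751200) := by decide +kernel
    rw [h0]; norm_num
  have c4 : ((C44 7 4 * posI 44 4 0 : ℤ) : ℝ) = 1568813400 := by
    have h0 : C44 7 4 * posI 44 4 0 = 1568813400 := by decide +kernel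
    rw [h0]; norm_num
  have c8 : ((C44 7 8 * posI 44 8 0 : ℤ) : ℝ) = 597643200 := by
    have h0 : C44 7 8 * posI 44 8 0 = 597643200 := by decide +kernel
    rw [h0]; norm_num
  have c9 : ((C44 7 9 * posI 44 9 0 : ℤ) : ℝ) = 82175940 := by
    have h0 : C44 7 9 * posI 44 9 0 = 82175940 := by decide +kernel
    rw [h0]; norm_num
  rw [c1, c2, c4, c8, c9] at e
  linear_combination e

theorem E44_7_1 {s : Fin 12 → Fin 12 → ℝ} (h : s ∈ Sp 44) :
    s 1 7 * 0 +
    s 2 7 * 0 +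
    s 4 7 * 392203350 +
    s 7 8 * (-205439850) +
    s 7 9 * (-225983835) = 0 := by
  have e := E cert44 h 7 1
  rw [LO.sum12] at e
  rw [Z h 7 0 (by decide), Z h 7 3 (by decide), Z h 7 5 (by decide), Z h 7 6 (by decide), Z h 7 7 (by decide), Z h 7 10 (by decide), Z h 7 11 (by decide)] at e
  rw [sy h 1 7, sy h 2 7, sy h 4 7] at e
  have c1 : ((C44 7 1 * posI 44 1 1 : ℤ) : ℝ) = 0 := by
    have h0 : C44 7 1 * posI 44 1 1 = 0 := by decide +kernel
    rw [h0]; norm_num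
  have c2 : ((C44 7 2 * posI 44 2 1 : ℤ) : ℝ) = 0 := by
    have h0 : C44 7 2 * posI 44 2 1 = 0 := by decide +kernel
    rw [h0]; norm_num
  have c4 : ((C44 7 4 * posI 44 4 1 : ℤ) : ℝ) = 392203350 := by
    have h0 : C44 7 4 * posI 44 4 1 = 392203350 := by decide +kernel
    rw [h0]; norm_num
  have c8 : ((C44 7 8 * posI 44 8 1 : ℤ) : ℝ) = (-205439850) := by
    have h0 : C44 7 8 * posI 44 8 1 = (-205439850) := by decide +kernel
    rw [h0]; norm_num
  have c9 : ((C44 7 9 * posI 44 9 1 : ℤ) : ℝ) = (-225983835) := by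
    have h0 : C44 7 9 * posI 44 9 1 = (-225983835) := by decide +kernel
    rw [h0]; norm_num
  rw [c1, c2, c4, c8, c9] at e
  linear_combination e

theorem E44_7_2 {s : Fin 12 → Fin 12 → ℝ} (h : s ∈ Sp 44) :
    s 1 7 * 8964648 +
    s 2 7 * (-99607200) +
    s 4 7 * 78440670 +
    s 7 8 * 18676350 +
    s 7 9 * 1369599 = 0 := by
  have e := E cert44 h 7 2
  rw [LO.sum12] at e
  rw [Z h 7 0 (by decide), Z h 7 3 (by decide), Z h 7 5 (by decide), Z h 7 6 (by decide), Z h 7 7 (by decide), Z h 7 10 (by decide), Z h 7 11 (by decide)] at e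
  rw [sy h 1 7, sy h 2 7, sy h 4 7] at e
  have c1 : ((C44 7 1 * posI 44 1 2 : ℤ) : ℝ) = 8964648 := by
    have h0 : C44 7 1 * posI 44 1 2 = 8964648 := by decide +kernel
    rw [h0]; norm_num
  have c2 : ((C44 7 2 * posI 44 2 2 : ℤ) : ℝ) = (-99607200) := by
    have h0 : C44 7 2 * posI 44 2 2 = (-99607200) := by decide +kernel
    rw [h0]; norm_num
  have c4 : ((C44 7 4 * posI 44 4 2 : ℤ) : ℝ) = 78440670 := by
    have h0 : C44 7 4 * posI 44 4 2 = 78440670 := by decide +kernel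
    rw [h0]; norm_num
  have c8 : ((C44 7 8 * posI 44 8 2 : ℤ) : ℝ) = 18676350 := by
    have h0 : C44 7 8 * posI 44 8 2 = 18676350 := by decide +kernel
    rw [h0]; norm_num
  have c9 : ((C44 7 9 * posI 44 9 2 : ℤ) : ℝ) = 1369599 := by
    have h0 : C44 7 9 * posI 44 9 2 = 1369599 := by decide +kernel
    rw [h0]; norm_num
  rw [c1, c2, c4, c8, c9] at e
  linear_combination e

theorem E44_8_0 {s : Fin 12 → Fin 12 → ℝ} (h : s ∈ Sp 44) :
    s 2 8 * 86436000 +
    s 3 8 * 208362000 +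
    s 5 8 * 189336000 +
    s 7 8 * 97020000 +
    s 8 9 * 99990000 = 0 := by
  have e := E cert44 h 8 0
  rw [LO.sum12] at e
  rw [Z h 8 0 (by decide), Z h 8 1 (by decide), Z h 8 4 (by decide), Z h 8 6 (by decide), Z h 8 8 (by decide), Z h 8 10 (by decide), Z h 8 11 (by decide)] at e
  rw [sy h 2 8, sy h 3 8, sy h 5 8, sy h 7 8] at e
  have c2 : ((C44 8 2 * posI 44 2 0 : ℤ) : ℝ) = 86436000 := by
    have h0 : C44 8 2 * posI 44 2 0 = 86436000 := by decide +kernel
    rw [h0]; norm_num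
  have c3 : ((C44 8 3 * posI 44 3 0 : ℤ) : ℝ) = 208362000 := by
    have h0 : C44 8 3 * posI 44 3 0 = 208362000 := by decide +kernel
    rw [h0]; norm_num
  have c5 : ((C44 8 5 * posI 44 5 0 : ℤ) : ℝ) = 189336000 := by
    have h0 : C44 8 5 * posI 44 5 0 = 189336000 := by decide +kernel
    rw [h0]; norm_num
  have c7 : ((C44 8 7 * posI 44 7 0 : ℤ) : ℝ) = 97020000 := by
    have h0 : C44 8 7 * posI 44 7 0 = 97020000 := by decide +kernel
    rw [h0]; norm_num
  have c9 : ((C44 8 9 * posI 44 9 0 : ℤ) : ℝ) = 99990000 := by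
    have h0 : C44 8 9 * posI 44 9 0 = 99990000 := by decide +kernel
    rw [h0]; norm_num
  rw [c2, c3, c5, c7, c9] at e
  linear_combination e

theorem E44_8_1 {s : Fin 12 → Fin 12 → ℝ} (h : s ∈ Sp 44) :
    s 2 8 * 0 +
    s 3 8 * 0 +
    s 5 8 * 65084250 +
    s 7 8 * (-24255000) +
    s 8 9 * (-274972500) = 0 := by
  have e := E cert44 h 8 1
  rw [LO.sum12] at e
  rw [Z h 8 0 (by decide), Z h 8 1 (by decide), Z h 8 4 (by decide), Z h 8 6 (by decide), Z h 8 8 (by decide), Z h 8 10 (by decide), Z h 8 11 (by decide)] at e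
  rw [sy h 2 8, sy h 3 8, sy h 5 8, sy h 7 8] at e
  have c2 : ((C44 8 2 * posI 44 2 1 : ℤ) : ℝ) = 0 := by
    have h0 : C44 8 2 * posI 44 2 1 = 0 := by decide +kernel
    rw [h0]; norm_num
  have c3 : ((C44 8 3 * posI 44 3 1 : ℤ) : ℝ) = 0 := by
    have h0 : C44 8 3 * posI 44 3 1 = 0 := by decide +kernel
    rw [h0]; norm_num
  have c5 : ((C44 8 5 * posI 44 5 1 : ℤ) : ℝ) = 65084250 := by
    have h0 : C44 8 5 * posI 44 5 1 = 65084250 := by decide +kernel
    rw [h0]; norm_num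
  have c7 : ((C44 8 7 * posI 44 7 1 : ℤ) : ℝ) = (-24255000) := by
    have h0 : C44 8 7 * posI 44 7 1 = (-24255000) := by decide +kernel
    rw [h0]; norm_num
  have c9 : ((C44 8 9 * posI 44 9 1 : ℤ) : ℝ) = (-274972500) := by
    have h0 : C44 8 9 * posI 44 9 1 = (-274972500) := by decide +kernel
    rw [h0]; norm_num
  rw [c2, c3, c5, c7, c9] at e
  linear_combination e

theorem E44_8_2 {s : Fin 12 → Fin 12 → ℝ} (h : s ∈ Sp 44) :
    s 2 8 * 4116000 +
    s 3 8 * 4735500 +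
    s 5 8 * 5916750 +
    s 7 8 * 4851000 +
    s 8 9 * 1666500 = 0 := by
  have e := E cert44 h 8 2
  rw [LO.sum12] at e
  rw [Z h 8 0 (by decide), Z h 8 1 (by decide), Z h 8 4 (by decide), Z h 8 6 (by decide), Z h 8 8 (by decide), Z h 8 10 (by decide), Z h 8 11 (by decide)] at e
  rw [sy h 2 8, sy h 3 8, sy h 5 8, sy h 7 8] at e
  have c2 : ((C44 8 2 * posI 44 2 2 : ℤ) : ℝ) = 4116000 := by
    have h0 : C44 8 2 * posI 44 2 2 = 4116000 := by decide +kernel
    rw [h0]; norm_num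
  have c3 : ((C44 8 3 * posI 44 3 2 : ℤ) : ℝ) = 4735500 := by
    have h0 : C44 8 3 * posI 44 3 2 = 4735500 := by decide +kernel
    rw [h0]; norm_num
  have c5 : ((C44 8 5 * posI 44 5 2 : ℤ) : ℝ) = 5916750 := by
    have h0 : C44 8 5 * posI 44 5 2 = 5916750 := by decide +kernel
    rw [h0]; norm_num
  have c7 : ((C44 8 7 * posI 44 7 2 : ℤ) : ℝ) = 4851000 := by
    have h0 : C44 8 7 * posI 44 7 2 = 4851000 := by decide +kernel
    rw [h0]; norm_num
  have c9 : ((C44 8 9 * posI 44 9 2 : ℤ) : ℝ) = 1666500 := by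
    have h0 : C44 8 9 * posI 44 9 2 = 1666500 := by decide +kernel
    rw [h0]; norm_num
  rw [c2, c3, c5, c7, c9] at e
  linear_combination e

theorem E44_9_0 {s : Fin 12 → Fin 12 → ℝ} (h : s ∈ Sp 44) :
    s 1 9 * 0 +
    s 3 9 * (-10418100) +
    s 7 9 * 355740 +
    s 8 9 * (-2692800) = 0 := by
  have e := E cert44 h 9 0
  rw [LO.sum12] at e
  rw [Z h 9 0 (by decide), Z h 9 2 (by decide), Z h 9 4 (by decide), Z h 9 5 (by decide), Z h 9 6 (by decide), Z h 9 9 (by decide), Z h 9 10 (by decide), Z h 9 11 (by decide)] at e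
  rw [sy h 1 9, sy h 3 9, sy h 7 9, sy h 8 9] at e
  have c1 : ((C44 9 1 * posI 44 1 0 : ℤ) : ℝ) = 0 := by
    have h0 : C44 9 1 * posI 44 1 0 = 0 := by decide +kernel
    rw [h0]; norm_num
  have c3 : ((C44 9 3 * posI 44 3 0 : ℤ) : ℝ) = (-10418100) := by
    have h0 : C44 9 3 * posI 44 3 0 = (-10418100) := by decide +kernel
    rw [h0]; norm_num
  have c7 : ((C44 9 7 * posI 44 7 0 : ℤ) : ℝ) = 355740 := by
    have h0 : C44 9 7 * posI 44 7 0 = 355740 := by decide +kernel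
    rw [h0]; norm_num
  have c8 : ((C44 9 8 * posI 44 8 0 : ℤ) : ℝ) = (-2692800) := by
    have h0 : C44 9 8 * posI 44 8 0 = (-2692800) := by decide +kernel
    rw [h0]; norm_num
  rw [c1, c3, c7, c8] at e
  linear_combination e

theorem E44_9_1 {s : Fin 12 → Fin 12 → ℝ} (h : s ∈ Sp 44) :
    s 1 9 * 0 +
    s 3 9 * 0 +
    s 7 9 * (-88935) +
    s 8 9 * 925650 = 0 := by
  have e := E cert44 h 9 1
  rw [LO.sum12] at e
  rw [Z h 9 0 (by decide), Z h 9 2 (by decide), Z h 9 4 (by decide), Z h 9 5 (by decide), Z h 9 6 (by decide), Z h 9 9 (by decide), Z h 9 10 (by decide), Z h 9 11 (by decide)] at e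
  rw [sy h 1 9, sy h 3 9, sy h 7 9, sy h 8 9] at e
  have c1 : ((C44 9 1 * posI 44 1 1 : ℤ) : ℝ) = 0 := by
    have h0 : C44 9 1 * posI 44 1 1 = 0 := by decide +kernel
    rw [h0]; norm_num
  have c3 : ((C44 9 3 * posI 44 3 1 : ℤ) : ℝ) = 0 := by
    have h0 : C44 9 3 * posI 44 3 1 = 0 := by decide +kernel
    rw [h0]; norm_num
  have c7 : ((C44 9 7 * posI 44 7 1 : ℤ) : ℝ) = (-88935) := by
    have h0 : C44 9 7 * posI 44 7 1 = (-88935) := by decide +kernel
    rw [h0]; norm_num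
  have c8 : ((C44 9 8 * posI 44 8 1 : ℤ) : ℝ) = 925650 := by
    have h0 : C44 9 8 * posI 44 8 1 = 925650 := by decide +kernel
    rw [h0]; norm_num
  rw [c1, c3, c7, c8] at e
  linear_combination e

theorem E44_9_2 {s : Fin 12 → Fin 12 → ℝ} (h : s ∈ Sp 44) :
    s 1 9 * 90552 +
    s 3 9 * (-236775) +
    s 7 9 * 17787 +
    s 8 9 * (-84150) = 0 := by
  have e := E cert44 h 9 2
  rw [LO.sum12] at e
  rw [Z h 9 0 (by decide), Z h 9 2 (by decide), Z h 9 4 (by decide), Z h 9 5 (by decide), Z h 9 6 (by decide), Z h 9 9 (by decide), Z h 9 10 (by decide), Z h 9 11 (by decide)] at e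
  rw [sy h 1 9, sy h 3 9, sy h 7 9, sy h 8 9] at e
  have c1 : ((C44 9 1 * posI 44 1 2 : ℤ) : ℝ) = 90552 := by
    have h0 : C44 9 1 * posI 44 1 2 = 90552 := by decide +kernel
    rw [h0]; norm_num
  have c3 : ((C44 9 3 * posI 44 3 2 : ℤ) : ℝ) = (-236775) := by
    have h0 : C44 9 3 * posI 44 3 2 = (-236775) := by decide +kernel
    rw [h0]; norm_num
  have c7 : ((C44 9 7 * posI 44 7 2 : ℤ) : ℝ) = 17787 := by
    have h0 : C44 9 7 * posI 44 7 2 = 17787 := by decide +kernel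
    rw [h0]; norm_num
  have c8 : ((C44 9 8 * posI 44 8 2 : ℤ) : ℝ) = (-84150) := by
    have h0 : C44 9 8 * posI 44 8 2 = (-84150) := by decide +kernel
    rw [h0]; norm_num
  rw [c1, c3, c7, c8] at e
  linear_combination e

theorem inj44 {s : Fin 12 → Fin 12 → ℝ} (h : s ∈ Sp 44)  :
    s = 0 := by
  have t_4_5_6 : s 4 5 + s 5 6 + s 4 6 = 0 := by
    rw [← sy h 4 6]; exact h.2.2.1 4 5 6 (by decide)
  have t_3_5_6 : s 3 5 + s 5 6 + s 3 6 = 0 := by
    rw [← sy h 3 6]; exact h.2.2.1 3 5 6 (by decide)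
  have t_1_4_6 : s 1 4 + s 4 6 + s 1 6 = 0 := by
    rw [← sy h 1 6]; exact h.2.2.1 1 4 6 (by decide)
  have t_7_8_9 : s 7 8 + s 8 9 + s 7 9 = 0 := by
    rw [← sy h 7 9]; exact h.2.2.1 7 8 9 (by decide)
  have t_3_8_9 : s 3 8 + s 8 9 + s 3 9 = 0 := by
    rw [← sy h 3 9]; exact h.2.2.1 3 8 9 (by decide)
  have t_1_7_9 : s 1 7 + s 7 9 + s 1 9 = 0 := by
    rw [← sy h 1 9]; exact h.2.2.1 1 7 9 (by decide)
  have t_2_7_8 : s 2 7 + s 7 8 + s 2 8 = 0 := by
    rw [← sy h 2 8]; exact h.2.2.1 2 7 8 (by decide)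
  have t_1_4_7 : s 1 4 + s 4 7 + s 1 7 = 0 := by
    rw [← sy h 1 7]; exact h.2.2.1 1 4 7 (by decide)
  have t_2_4_7 : s 2 4 + s 4 7 + s 2 7 = 0 := by
    rw [← sy h 2 7]; exact h.2.2.1 2 4 7 (by decide)
  have t_2_5_8 : s 2 5 + s 5 8 + s 2 8 = 0 := by
    rw [← sy h 2 8]; exact h.2.2.1 2 5 8 (by decide)
  have t_3_5_8 : s 3 5 + s 5 8 + s 3 8 = 0 := by
    rw [← sy h 3 8]; exact h.2.2.1 3 5 8 (by decide)
  have t_3_6_9 : s 3 6 + s 6 9 + s 3 9 = 0 := by
    rw [← sy h 3 9]; exact h.2.2.1 3 6 9 (by decide)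
  rw [Z h 6 9 (by decide)] at t_3_6_9
  have t_1_6_10 : s 1 6 + s 6 10 + s 1 10 = 0 := by
    rw [← sy h 1 10]; exact h.2.2.1 1 6 10 (by decide)
  rw [Z h 6 10 (by decide)] at t_1_6_10
  have t_1_10_11 : s 1 10 + s 10 11 + s 1 11 = 0 := by
    rw [← sy h 1 11]; exact h.2.2.1 1 10 11 (by decide)
  rw [Z h 10 11 (by decide)] at t_1_10_11
  have t_1_9_11 : s 1 9 + s 9 11 + s 1 11 = 0 := by
    rw [← sy h 1 11]; exact h.2.2.1 1 9 11 (by decide)
  rw [Z h 9 11 (by decide)] at t_1_9_11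
  have e_1_0 := E44_1_0 h
  have e_1_1 := E44_1_1 h
  have e_2_0 := E44_2_0 h
  have e_2_1 := E44_2_1 h
  have e_3_1 := E44_3_1 h
  have e_4_0 := E44_4_0 h
  have e_5_0 := E44_5_0 h
  have x_1_4 : s 1 4 = 0 := by
    linear_combination (9382/9) * t_4_5_6 +
      (-10493/9) * t_3_5_6 +
      (-31775/36) * t_1_4_6 +
      (7952/9) * t_7_8_9 +
      (-7952/9) * t_3_8_9 +
      (-7952/9) * t_1_7_9 +
      (-7952/9) * t_2_7_8 +
      (3257513/216) * t_1_4_7 +
      (-2598533/216) * t_2_4_7 +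
      (-30506/27) * t_2_5_8 +
      (120974/135) * t_3_5_8 +
      (18445/18) * t_3_6_9 +
      (-23483881/1188) * t_1_6_10 +
      (6922393/264) * t_1_10_11 +
      (-5871094/297) * t_1_9_11 +
      (95833/134469720) * e_1_0 +
      (-1/119528640) * e_1_1 +
      (4183/2177280000) * e_2_0 +
      (-1061/582120000) * e_2_1 +
      (1/1417500) * e_3_1 +
      (-523/268939440) * e_4_0 +
      (1/810000) * e_5_0
  have x_1_6 : s 1 6 = 0 := by
    linear_combination (9382/99) * t_4_5_6 +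
      (-10493/99) * t_3_5_6 +
      (-31775/396) * t_1_4_6 +
      (7952/99) * t_7_8_9 +
      (-7952/99) * t_3_8_9 +
      (-7952/99) * t_1_7_9 +
      (-7952/99) * t_2_7_8 +
      (3257513/2376) * t_1_4_7 +
      (-2598533/2376) * t_2_4_7 +
      (-30506/297) * t_2_5_8 +
      (120974/1485) * t_3_5_8 +
      (18445/198) * t_3_6_9 +
      (-23481181/13068) * t_1_6_10 +
      (6921193/2904) * t_1_10_11 +
      (-5868934/3267) * t_1_9_11 +
      (766691/11833335360) * e_1_0 +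
      (1/119528640) * e_1_1 +
      (4183/23950080000) * e_2_0 +
      (-1061/6403320000) * e_2_1 +
      (1/15592500) * e_3_1 +
      (-523/2958333840) * e_4_0 +
      (1/8910000) * e_5_0
  have x_1_7 : s 1 7 = 0 := by
    linear_combination (-9382/9) * t_4_5_6 +
      (10493/9) * t_3_5_6 +
      (31775/36) * t_1_4_6 +
      (-7952/9) * t_7_8_9 +
      (7952/9) * t_3_8_9 +
      (7952/9) * t_1_7_9 +
      (7952/9) * t_2_7_8 +
      (-3257513/216) * t_1_4_7 +
      (2598533/216) * t_2_4_7 +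
      (30506/27) * t_2_5_8 +
      (-120974/135) * t_3_5_8 +
      (-18445/18) * t_3_6_9 +
      (23485609/1188) * t_1_6_10 +
      (-6922897/264) * t_1_10_11 +
      (5871526/297) * t_1_9_11 +
      (-383359/537878880) * e_1_0 +
      (1/119528640) * e_1_1 +
      (-4183/2177280000) * e_2_0 +
      (1061/582120000) * e_2_1 +
      (-1/1417500) * e_3_1 +
      (523/268939440) * e_4_0 +
      (-1/810000) * e_5_0
  have x_1_9 : s 1 9 = 0 := by
    linear_combination (-9382/99) * t_4_5_6 +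
      (10493/99) * t_3_5_6 +
      (31775/396) * t_1_4_6 +
      (-7952/99) * t_7_8_9 +
      (7952/99) * t_3_8_9 +
      (7952/99) * t_1_7_9 +
      (7952/99) * t_2_7_8 +
      (-3257513/2376) * t_1_4_7 +
      (2598533/2376) * t_2_4_7 +
      (30506/297) * t_2_5_8 +
      (-120974/1485) * t_3_5_8 +
      (-18445/198) * t_3_6_9 +
      (23494249/13068) * t_1_6_10 +
      (-6924097/2904) * t_1_10_11 +
      (5872201/3267) * t_1_9_11 +
      (-766691/11833335360) * e_1_0 +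
      (-1/119528640) * e_1_1 +
      (-4183/23950080000) * e_2_0 +
      (1061/6403320000) * e_2_1 +
      (-1/15592500) * e_3_1 +
      (523/2958333840) * e_4_0 +
      (-1/8910000) * e_5_0
  have x_1_10 : s 1 10 = 0 := by
    linear_combination (-9382/99) * t_4_5_6 +
      (10493/99) * t_3_5_6 +
      (31775/396) * t_1_4_6 +
      (-7952/99) * t_7_8_9 +
      (7952/99) * t_3_8_9 +
      (7952/99) * t_1_7_9 +
      (7952/99) * t_2_7_8 +
      (-3257513/2376) * t_1_4_7 +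
      (2598533/2376) * t_2_4_7 +
      (30506/297) * t_2_5_8 +
      (-120974/1485) * t_3_5_8 +
      (-18445/198) * t_3_6_9 +
      (23494249/13068) * t_1_6_10 +
      (-6921193/2904) * t_1_10_11 +
      (5868934/3267) * t_1_9_11 +
      (-766691/11833335360) * e_1_0 +
      (-1/119528640) * e_1_1 +
      (-4183/23950080000) * e_2_0 +
      (1061/6403320000) * e_2_1 +
      (-1/15592500) * e_3_1 +
      (523/2958333840) * e_4_0 +
      (-1/8910000) * e_5_0
  have x_1_11 : s 1 11 = 0 := by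
    linear_combination (9382/99) * t_4_5_6 +
      (-10493/99) * t_3_5_6 +
      (-31775/396) * t_1_4_6 +
      (7952/99) * t_7_8_9 +
      (-7952/99) * t_3_8_9 +
      (-7952/99) * t_1_7_9 +
      (-7952/99) * t_2_7_8 +
      (3257513/2376) * t_1_4_7 +
      (-2598533/2376) * t_2_4_7 +
      (-30506/297) * t_2_5_8 +
      (120974/1485) * t_3_5_8 +
      (18445/198) * t_3_6_9 +
      (-23494249/13068) * t_1_6_10 +
      (6924097/2904) * t_1_10_11 +
      (-5868934/3267) * t_1_9_11 +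
      (766691/11833335360) * e_1_0 +
      (1/119528640) * e_1_1 +
      (4183/23950080000) * e_2_0 +
      (-1061/6403320000) * e_2_1 +
      (1/15592500) * e_3_1 +
      (-523/2958333840) * e_4_0 +
      (1/8910000) * e_5_0
  have x_2_4 : s 2 4 = 0 := by
    linear_combination (4661/15) * t_4_5_6 +
      (-10433/30) * t_3_5_6 +
      (-3946/15) * t_1_4_6 +
      (3946/15) * t_7_8_9 +
      (-3946/15) * t_3_8_9 +
      (-3946/15) * t_1_7_9 +
      (-3946/15) * t_2_7_8 +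
      (3236723/720) * t_1_4_7 +
      (-2581523/720) * t_2_4_7 +
      (-15163/45) * t_2_5_8 +
      (60037/225) * t_3_5_8 +
      (3665/12) * t_3_6_9 +
      (-2917097/495) * t_1_6_10 +
      (6878903/880) * t_1_10_11 +
      (-2917097/495) * t_1_9_11 +
      (609463/2868687360) * e_1_0 +
      (203617/355622400000) * e_2_0 +
      (-2459/4527600000) * e_2_1 +
      (1/4725000) * e_3_1 +
      (-13/22411620) * e_4_0 +
      (1/2700000) * e_5_0
  have x_2_5 : s 2 5 = 0 := by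
    linear_combination (-4661/3) * t_4_5_6 +
      (10433/6) * t_3_5_6 +
      (3946/3) * t_1_4_6 +
      (-3946/3) * t_7_8_9 +
      (3946/3) * t_3_8_9 +
      (3946/3) * t_1_7_9 +
      (3946/3) * t_2_7_8 +
      (-809147/36) * t_1_4_7 +
      (645347/36) * t_2_4_7 +
      (15163/9) * t_2_5_8 +
      (-60037/45) * t_3_5_8 +
      (-18325/12) * t_3_6_9 +
      (2916962/99) * t_1_6_10 +
      (-1719647/44) * t_1_10_11 +
      (2916962/99) * t_1_9_11 +
      (-152359/143434368) * e_1_0 +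
      (-50893/17781120000) * e_2_0 +
      (3691/1358280000) * e_2_1 +
      (-1/945000) * e_3_1 +
      (13/4482324) * e_4_0 +
      (-1/540000) * e_5_0
  have x_2_7 : s 2 7 = 0 := by
    linear_combination (-4661/15) * t_4_5_6 +
      (10433/30) * t_3_5_6 +
      (3946/15) * t_1_4_6 +
      (-3946/15) * t_7_8_9 +
      (3946/15) * t_3_8_9 +
      (3946/15) * t_1_7_9 +
      (3946/15) * t_2_7_8 +
      (-3237443/720) * t_1_4_7 +
      (2582243/720) * t_2_4_7 +
      (15163/45) * t_2_5_8 +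
      (-60037/225) * t_3_5_8 +
      (-3665/12) * t_3_6_9 +
      (2917817/495) * t_1_6_10 +
      (-6880583/880) * t_1_10_11 +
      (2917817/495) * t_1_9_11 +
      (-609607/2868687360) * e_1_0 +
      (-203617/355622400000) * e_2_0 +
      (2459/4527600000) * e_2_1 +
      (-1/4725000) * e_3_1 +
      (13/22411620) * e_4_0 +
      (-1/2700000) * e_5_0
  have x_2_8 : s 2 8 = 0 := by
    linear_combination (4661/3) * t_4_5_6 +
      (-10433/6) * t_3_5_6 +
      (-3946/3) * t_1_4_6 +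
      (3946/3) * t_7_8_9 +
      (-3946/3) * t_3_8_9 +
      (-3946/3) * t_1_7_9 +
      (-3946/3) * t_2_7_8 +
      (1618789/72) * t_1_4_7 +
      (-1291189/72) * t_2_4_7 +
      (-15163/9) * t_2_5_8 +
      (60037/45) * t_3_5_8 +
      (18325/12) * t_3_6_9 +
      (-2917952/99) * t_1_6_10 +
      (3440449/88) * t_1_10_11 +
      (-2917952/99) * t_1_9_11 +
      (304817/286868736) * e_1_0 +
      (101831/35562240000) * e_2_0 +
      (-3691/1358280000) * e_2_1 +
      (1/945000) * e_3_1 +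
      (-13/4482324) * e_4_0 +
      (1/540000) * e_5_0
  have x_3_5 : s 3 5 = 0 := by
    linear_combination (52332/451) * t_4_5_6 +
      (-58998/451) * t_3_5_6 +
      (-44247/451) * t_1_4_6 +
      (44247/451) * t_7_8_9 +
      (-44247/451) * t_3_8_9 +
      (-44247/451) * t_1_7_9 +
      (-44247/451) * t_2_7_8 +
      (12206427/7216) * t_1_4_7 +
      (-9736827/7216) * t_2_4_7 +
      (-57525/451) * t_2_5_8 +
      (224513/2255) * t_3_5_8 +
      (103245/902) * t_3_6_9 +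
      (-11011758/4961) * t_1_6_10 +
      (233680503/79376) * t_1_10_11 +
      (-11011758/4961) * t_1_9_11 +
      (766565/9583540736) * e_1_0 +
      (85297/396014080000) * e_2_0 +
      (-81/396880000) * e_2_1 +
      (149/1823167500) * e_3_1 +
      (-1/4583964) * e_4_0 +
      (1/6765000) * e_5_0
  have x_3_6 : s 3 6 = 0 := by
    linear_combination (-69776/6765) * t_4_5_6 +
      (78664/6765) * t_3_5_6 +
      (58996/6765) * t_1_4_6 +
      (-58996/6765) * t_7_8_9 +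
      (58996/6765) * t_3_8_9 +
      (58996/6765) * t_1_7_9 +
      (58996/6765) * t_2_7_8 +
      (-6090811/40590) * t_1_4_7 +
      (4856011/40590) * t_2_4_7 +
      (229198/20295) * t_2_5_8 +
      (-893542/101475) * t_3_5_8 +
      (-26179/2706) * t_3_6_9 +
      (43947812/223245) * t_1_6_10 +
      (-12953311/49610) * t_1_10_11 +
      (43947812/223245) * t_1_9_11 +
      (-1147367/161722249920) * e_1_0 +
      (-382709/20048212800000) * e_2_0 +
      (9/496100000) * e_2_1 +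
      (-391/82042537500) * e_3_1 +
      (1/51569595) * e_4_0 +
      (-1/76106250) * e_5_0
  have x_3_8 : s 3 8 = 0 := by
    linear_combination (-52332/451) * t_4_5_6 +
      (58998/451) * t_3_5_6 +
      (44247/451) * t_1_4_6 +
      (-44247/451) * t_7_8_9 +
      (44247/451) * t_3_8_9 +
      (44247/451) * t_1_7_9 +
      (44247/451) * t_2_7_8 +
      (-12156817/7216) * t_1_4_7 +
      (9687217/7216) * t_2_4_7 +
      (57074/451) * t_2_5_8 +
      (-222258/2255) * t_3_5_8 +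
      (-103245/902) * t_3_6_9 +
      (10962148/4961) * t_1_6_10 +
      (-232638693/79376) * t_1_10_11 +
      (10962148/4961) * t_1_9_11 +
      (-2289773/28750622208) * e_1_0 +
      (-763163/3564126720000) * e_2_0 +
      (81/396880000) * e_2_1 +
      (-149/1823167500) * e_3_1 +
      (1/4583964) * e_4_0 +
      (-1/6765000) * e_5_0
  have x_3_9 : s 3 9 = 0 := by
    linear_combination (69776/6765) * t_4_5_6 +
      (-78664/6765) * t_3_5_6 +
      (-58996/6765) * t_1_4_6 +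
      (58996/6765) * t_7_8_9 +
      (-58996/6765) * t_3_8_9 +
      (-58996/6765) * t_1_7_9 +
      (-58996/6765) * t_2_7_8 +
      (6090811/40590) * t_1_4_7 +
      (-4856011/40590) * t_2_4_7 +
      (-229198/20295) * t_2_5_8 +
      (893542/101475) * t_3_5_8 +
      (28885/2706) * t_3_6_9 +
      (-43947812/223245) * t_1_6_10 +
      (12953311/49610) * t_1_10_11 +
      (-43947812/223245) * t_1_9_11 +
      (1147367/161722249920) * e_1_0 +
      (382709/20048212800000) * e_2_0 +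
      (-9/496100000) * e_2_1 +
      (391/82042537500) * e_3_1 +
      (-1/51569595) * e_4_0 +
      (1/76106250) * e_5_0
  have x_4_5 : s 4 5 = 0 := by
    linear_combination (18659/15) * t_4_5_6 +
      (-20881/15) * t_3_5_6 +
      (-15799/15) * t_1_4_6 +
      (15799/15) * t_7_8_9 +
      (-15799/15) * t_3_8_9 +
      (-15799/15) * t_1_7_9 +
      (-15799/15) * t_2_7_8 +
      (12955397/720) * t_1_4_7 +
      (-10334597/720) * t_2_4_7 +
      (-60697/45) * t_2_5_8 +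
      (240373/225) * t_3_5_8 +
      (3668/3) * t_3_6_9 +
      (-11675678/495) * t_1_6_10 +
      (27532897/880) * t_1_10_11 +
      (-11675678/495) * t_1_9_11 +
      (348487/409812480) * e_1_0 +
      (116449/50803200000) * e_2_0 +
      (-4219/1940400000) * e_2_1 +
      (1/1181250) * e_3_1 +
      (-13/5602905) * e_4_0 +
      (1/675000) * e_5_0
  have x_4_6 : s 4 6 = 0 := by
    linear_combination (-37528/33) * t_4_5_6 +
      (41972/33) * t_3_5_6 +
      (31808/33) * t_1_4_6 +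
      (-31808/33) * t_7_8_9 +
      (31808/33) * t_3_8_9 +
      (31808/33) * t_1_7_9 +
      (31808/33) * t_2_7_8 +
      (-3257513/198) * t_1_4_7 +
      (2598533/198) * t_2_4_7 +
      (122024/99) * t_2_5_8 +
      (-483896/495) * t_3_5_8 +
      (-36890/33) * t_3_6_9 +
      (23483656/1089) * t_1_6_10 +
      (-6922293/242) * t_1_10_11 +
      (23483656/1089) * t_1_9_11 +
      (-12517/16099776) * e_1_0 +
      (-4183/1995840000) * e_2_0 +
      (1061/533610000) * e_2_1 +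
      (-1/1299375) * e_3_1 +
      (523/246527820) * e_4_0 +
      (-1/742500) * e_5_0
  have x_4_7 : s 4 7 = 0 := by
    linear_combination (1) * t_1_4_7 +
      (-16/11) * t_1_6_10 +
      (21/11) * t_1_10_11 +
      (-16/11) * t_1_9_11 +
      (1/19921440) * e_1_0
  have x_5_6 : s 5 6 = 0 := by
    linear_combination (-17444/165) * t_4_5_6 +
      (19831/165) * t_3_5_6 +
      (14749/165) * t_1_4_6 +
      (-14749/165) * t_7_8_9 +
      (14749/165) * t_3_8_9 +
      (14749/165) * t_1_7_9 +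
      (14749/165) * t_2_7_8 +
      (-12208847/7920) * t_1_4_7 +
      (9739247/7920) * t_2_4_7 +
      (57547/495) * t_2_5_8 +
      (-224623/2475) * t_3_5_8 +
      (-3458/33) * t_3_6_9 +
      (11014178/5445) * t_1_6_10 +
      (-25970147/9680) * t_1_10_11 +
      (11014178/5445) * t_1_9_11 +
      (-328597/4507937280) * e_1_0 +
      (-109699/558835200000) * e_2_0 +
      (9/48400000) * e_2_1 +
      (-1/12993750) * e_3_1 +
      (1/5031180) * e_4_0 +
      (-1/7425000) * e_5_0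
  have x_5_8 : s 5 8 = 0 := by
    linear_combination (-55/8) * t_1_4_7 +
      (55/8) * t_2_4_7 +
      (1) * t_2_5_8 +
      (10) * t_1_6_10 +
      (-105/8) * t_1_10_11 +
      (10) * t_1_9_11 +
      (-1/2897664) * e_1_0 +
      (-1/790272000) * e_2_0
  have x_7_8 : s 7 8 = 0 := by
    linear_combination (-18644/15) * t_4_5_6 +
      (20866/15) * t_3_5_6 +
      (15784/15) * t_1_4_6 +
      (-15784/15) * t_7_8_9 +
      (15784/15) * t_3_8_9 +
      (15784/15) * t_1_7_9 +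
      (15799/15) * t_2_7_8 +
      (-12950447/720) * t_1_4_7 +
      (10329647/720) * t_2_4_7 +
      (60652/45) * t_2_5_8 +
      (-240148/225) * t_3_5_8 +
      (-3665/3) * t_3_6_9 +
      (11671943/495) * t_1_6_10 +
      (-27523907/880) * t_1_10_11 +
      (11671943/495) * t_1_9_11 +
      (-2438563/2868687360) * e_1_0 +
      (-814693/355622400000) * e_2_0 +
      (4219/1940400000) * e_2_1 +
      (-1/1181250) * e_3_1 +
      (13/5602905) * e_4_0 +
      (-1/675000) * e_5_0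
  have x_7_9 : s 7 9 = 0 := by
    linear_combination (37528/33) * t_4_5_6 +
      (-41972/33) * t_3_5_6 +
      (-31775/33) * t_1_4_6 +
      (31808/33) * t_7_8_9 +
      (-31808/33) * t_3_8_9 +
      (-31775/33) * t_1_7_9 +
      (-31808/33) * t_2_7_8 +
      (3257513/198) * t_1_4_7 +
      (-2598533/198) * t_2_4_7 +
      (-122024/99) * t_2_5_8 +
      (483896/495) * t_3_5_8 +
      (36890/33) * t_3_6_9 +
      (-23486329/1089) * t_1_6_10 +
      (6922997/242) * t_1_10_11 +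
      (-23486329/1089) * t_1_9_11 +
      (3066863/3944445120) * e_1_0 +
      (4183/1995840000) * e_2_0 +
      (-1061/533610000) * e_2_1 +
      (1/1299375) * e_3_1 +
      (-523/246527820) * e_4_0 +
      (1/742500) * e_5_0
  have x_8_9 : s 8 9 = 0 := by
    linear_combination (17444/165) * t_4_5_6 +
      (-19666/165) * t_3_5_6 +
      (-14749/165) * t_1_4_6 +
      (14749/165) * t_7_8_9 +
      (-14584/165) * t_3_8_9 +
      (-14749/165) * t_1_7_9 +
      (-14749/165) * t_2_7_8 +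
      (12154397/7920) * t_1_4_7 +
      (-9684797/7920) * t_2_4_7 +
      (-57052/495) * t_2_5_8 +
      (222148/2475) * t_3_5_8 +
      (3425/33) * t_3_6_9 +
      (-10959728/5445) * t_1_6_10 +
      (25843097/9680) * t_1_10_11 +
      (-10959728/5445) * t_1_9_11 +
      (2289289/31555560960) * e_1_0 +
      (762943/3911846400000) * e_2_0 +
      (-9/48400000) * e_2_1 +
      (1/12993750) * e_3_1 +
      (-1/5031180) * e_4_0 +
      (1/7425000) * e_5_0
  apply ext0 h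
  intro e he
  simp only [innL, List.mem_cons, List.not_mem_nil, or_false] at he
  rcases he with rfl | rfl | rfl | rfl | rfl | rfl | rfl | rfl | rfl | rfl | rfl | rfl | rfl | rfl | rfl | rfl | rfl | rfl | rfl | rfl | rfl | rfl
  · exact x_1_4
  · exact x_1_6
  · exact x_1_7
  · exact x_1_9
  · exact x_1_10
  · exact x_1_11
  · exact x_2_4
  · exact x_2_5
  · exact x_2_7
  · exact x_2_8
  · exact x_3_5
  · exact x_3_6
  · exact x_3_8
  · exact x_3_9
  · exact x_4_5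
  · exact x_4_6
  · exact x_4_7
  · exact x_5_6
  · exact x_5_8
  · exact x_7_8
  · exact x_7_9
  · exact x_8_9

/-- the coefficients for `w = 45`, times `396396000` -/
def C45 : Fin 12 → Fin 12 → ℤ :=
  ![![0, 0, 0, 0, 0, 0, 0, 0, 0, 0, 0, 0],
    ![0, 0, 0, 0, -264264, 0, 128128, -264264, 0, 128128, 40040, 40040],
    ![0, 0, 0, 0, 72072000, 6552000, 0, 72072000, 6552000, 0, 0, 0],
    ![0, 0, 0, 0, 0, 369600, 320320, 0, 369600, 320320, 0, 0],
    ![0, 2378376, -26426400, 0, 0, 4954950, 363363, 20810790, 0, 0, 0, 0],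
    ![0, 0, 1092000, 1188000, 1287000, 0, 429000, 0, 1512000, 0, 0, 0],
    ![0, 24024, 0, -68640, 4719, -21450, 0, 0, 0, 0, 0, 0],
    ![0, 2378376, -26426400, 0, 20810790, 0, 0, 0, 4954950, 363363, 0, 0],
    ![0, 0, 1092000, 1188000, 0, 1512000, 0, 1287000, 0, 429000, 0, 0],
    ![0, 24024, 0, -68640, 0, 0, 0, 4719, -21450, 0, 0, 0],
    ![0, 0, 0, 0, 0, 0, 0, 0, 0, 0, 0, 0],
    ![0, 0, 0, 0, 0, 0, 0, 0, 0, 0, 0, 0]]

theorem cert45 : Cert 45 396396000 C45 := by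
  unfold Cert
  decide +kernel

theorem E45_1_0 {s : Fin 12 → Fin 12 → ℝ} (h : s ∈ Sp 45) :
    s 1 4 * (-5285280) +
    s 1 6 * 7687680 +
    s 1 7 * (-5285280) +
    s 1 9 * 7687680 +
    s 1 10 * (-2402400) +
    s 1 11 * (-2402400) = 0 := by
  have e := E cert45 h 1 0
  rw [LO.sum12] at e
  rw [Z h 1 0 (by decide), Z h 1 1 (by decide), Z h 1 2 (by decide), Z h 1 3 (by decide), Z h 1 5 (by decide), Z h 1 8 (by decide)] at e
  have c4 : ((C45 1 4 * posI 45 4 0 : ℤ) : ℝ) = (-5285280) := by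
    have h0 : C45 1 4 * posI 45 4 0 = (-5285280) := by decide +kernel
    rw [h0]; norm_num
  have c6 : ((C45 1 6 * posI 45 6 0 : ℤ) : ℝ) = 7687680 := by
    have h0 : C45 1 6 * posI 45 6 0 = 7687680 := by decide +kernel
    rw [h0]; norm_num
  have c7 : ((C45 1 7 * posI 45 7 0 : ℤ) : ℝ) = (-5285280) := by
    have h0 : C45 1 7 * posI 45 7 0 = (-5285280) := by decide +kernel
    rw [h0]; norm_num
  have c9 : ((C45 1 9 * posI 45 9 0 : ℤ) : ℝ) = 7687680 := by
    have h0 : C45 1 9 * posI 45 9 0 = 7687680 := by decide +kernel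
    rw [h0]; norm_num
  have c10 : ((C45 1 10 * posI 45 10 0 : ℤ) : ℝ) = (-2402400) := by
    have h0 : C45 1 10 * posI 45 10 0 = (-2402400) := by decide +kernel
    rw [h0]; norm_num
  have c11 : ((C45 1 11 * posI 45 11 0 : ℤ) : ℝ) = (-2402400) := by
    have h0 : C45 1 11 * posI 45 11 0 = (-2402400) := by decide +kernel
    rw [h0]; norm_num
  rw [c4, c6, c7, c9, c10, c11] at e
  linear_combination e

theorem E45_1_1 {s : Fin 12 → Fin 12 → ℝ} (h : s ∈ Sp 45) :
    s 1 4 * (-1321320) +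
    s 1 6 * 21141120 +
    s 1 7 * 1321320 +
    s 1 9 * (-21141120) +
    s 1 10 * 6606600 +
    s 1 11 * (-6606600) = 0 := by
  have e := E cert45 h 1 1
  rw [LO.sum12] at e
  rw [Z h 1 0 (by decide), Z h 1 1 (by decide), Z h 1 2 (by decide), Z h 1 3 (by decide), Z h 1 5 (by decide), Z h 1 8 (by decide)] at e
  have c4 : ((C45 1 4 * posI 45 4 1 : ℤ) : ℝ) = (-1321320) := by
    have h0 : C45 1 4 * posI 45 4 1 = (-1321320) := by decide +kernel
    rw [h0]; norm_num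
  have c6 : ((C45 1 6 * posI 45 6 1 : ℤ) : ℝ) = 21141120 := by
    have h0 : C45 1 6 * posI 45 6 1 = 21141120 := by decide +kernel
    rw [h0]; norm_num
  have c7 : ((C45 1 7 * posI 45 7 1 : ℤ) : ℝ) = 1321320 := by
    have h0 : C45 1 7 * posI 45 7 1 = 1321320 := by decide +kernel
    rw [h0]; norm_num
  have c9 : ((C45 1 9 * posI 45 9 1 : ℤ) : ℝ) = (-21141120) := by
    have h0 : C45 1 9 * posI 45 9 1 = (-21141120) := by decide +kernel
    rw [h0]; norm_num
  have c10 : ((C45 1 10 * posI 45 10 1 : ℤ) : ℝ) = 6606600 := by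
    have h0 : C45 1 10 * posI 45 10 1 = 6606600 := by decide +kernel
    rw [h0]; norm_num
  have c11 : ((C45 1 11 * posI 45 11 1 : ℤ) : ℝ) = (-6606600) := by
    have h0 : C45 1 11 * posI 45 11 1 = (-6606600) := by decide +kernel
    rw [h0]; norm_num
  rw [c4, c6, c7, c9, c10, c11] at e
  linear_combination e

theorem E45_1_2 {s : Fin 12 → Fin 12 → ℝ} (h : s ∈ Sp 45) :
    s 1 4 * (-264264) +
    s 1 6 * 128128 +
    s 1 7 * (-264264) +
    s 1 9 * 128128 +
    s 1 10 * 40040 +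
    s 1 11 * 40040 = 0 := by
  have e := E cert45 h 1 2
  rw [LO.sum12] at e
  rw [Z h 1 0 (by decide), Z h 1 1 (by decide), Z h 1 2 (by decide), Z h 1 3 (by decide), Z h 1 5 (by decide), Z h 1 8 (by decide)] at e
  have c4 : ((C45 1 4 * posI 45 4 2 : ℤ) : ℝ) = (-264264) := by
    have h0 : C45 1 4 * posI 45 4 2 = (-264264) := by decide +kernel
    rw [h0]; norm_num
  have c6 : ((C45 1 6 * posI 45 6 2 : ℤ) : ℝ) = 128128 := by
    have h0 : C45 1 6 * posI 45 6 2 = 128128 := by decide +kernel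
    rw [h0]; norm_num
  have c7 : ((C45 1 7 * posI 45 7 2 : ℤ) : ℝ) = (-264264) := by
    have h0 : C45 1 7 * posI 45 7 2 = (-264264) := by decide +kernel
    rw [h0]; norm_num
  have c9 : ((C45 1 9 * posI 45 9 2 : ℤ) : ℝ) = 128128 := by
    have h0 : C45 1 9 * posI 45 9 2 = 128128 := by decide +kernel
    rw [h0]; norm_num
  have c10 : ((C45 1 10 * posI 45 10 2 : ℤ) : ℝ) = 40040 := by
    have h0 : C45 1 10 * posI 45 10 2 = 40040 := by decide +kernel
    rw [h0]; norm_num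
  have c11 : ((C45 1 11 * posI 45 11 2 : ℤ) : ℝ) = 40040 := by
    have h0 : C45 1 11 * posI 45 11 2 = 40040 := by decide +kernel
    rw [h0]; norm_num
  rw [c4, c6, c7, c9, c10, c11] at e
  linear_combination e

theorem E45_2_0 {s : Fin 12 → Fin 12 → ℝ} (h : s ∈ Sp 45) :
    s 2 4 * 1441440000 +
    s 2 5 * 209664000 +
    s 2 7 * 1441440000 +
    s 2 8 * 209664000 = 0 := by
  have e := E cert45 h 2 0
  rw [LO.sum12] at e
  rw [Z h 2 0 (by decide), Z h 2 1 (by decide), Z h 2 2 (by decide), Z h 2 3 (by decide), Z h 2 6 (by decide), Z h 2 9 (by decide), Z h 2 10 (by decide), Z h 2 11 (by decide)] at e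
  have c4 : ((C45 2 4 * posI 45 4 0 : ℤ) : ℝ) = 1441440000 := by
    have h0 : C45 2 4 * posI 45 4 0 = 1441440000 := by decide +kernel
    rw [h0]; norm_num
  have c5 : ((C45 2 5 * posI 45 5 0 : ℤ) : ℝ) = 209664000 := by
    have h0 : C45 2 5 * posI 45 5 0 = 209664000 := by decide +kernel
    rw [h0]; norm_num
  have c7 : ((C45 2 7 * posI 45 7 0 : ℤ) : ℝ) = 1441440000 := by
    have h0 : C45 2 7 * posI 45 7 0 = 1441440000 := by decide +kernel
    rw [h0]; norm_num
  have c8 : ((C45 2 8 * posI 45 8 0 : ℤ) : ℝ) = 209664000 := by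
    have h0 : C45 2 8 * posI 45 8 0 = 209664000 := by decide +kernel
    rw [h0]; norm_num
  rw [c4, c5, c7, c8] at e
  linear_combination e

theorem E45_2_1 {s : Fin 12 → Fin 12 → ℝ} (h : s ∈ Sp 45) :
    s 2 4 * 360360000 +
    s 2 5 * 72072000 +
    s 2 7 * (-360360000) +
    s 2 8 * (-72072000) = 0 := by
  have e := E cert45 h 2 1
  rw [LO.sum12] at e
  rw [Z h 2 0 (by decide), Z h 2 1 (by decide), Z h 2 2 (by decide), Z h 2 3 (by decide), Z h 2 6 (by decide), Z h 2 9 (by decide), Z h 2 10 (by decide), Z h 2 11 (by decide)] at e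
  have c4 : ((C45 2 4 * posI 45 4 1 : ℤ) : ℝ) = 360360000 := by
    have h0 : C45 2 4 * posI 45 4 1 = 360360000 := by decide +kernel
    rw [h0]; norm_num
  have c5 : ((C45 2 5 * posI 45 5 1 : ℤ) : ℝ) = 72072000 := by
    have h0 : C45 2 5 * posI 45 5 1 = 72072000 := by decide +kernel
    rw [h0]; norm_num
  have c7 : ((C45 2 7 * posI 45 7 1 : ℤ) : ℝ) = (-360360000) := by
    have h0 : C45 2 7 * posI 45 7 1 = (-360360000) := by decide +kernel
    rw [h0]; norm_num
  have c8 : ((C45 2 8 * posI 45 8 1 : ℤ) : ℝ) = (-72072000) := by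
    have h0 : C45 2 8 * posI 45 8 1 = (-72072000) := by decide +kernel
    rw [h0]; norm_num
  rw [c4, c5, c7, c8] at e
  linear_combination e

theorem E45_2_2 {s : Fin 12 → Fin 12 → ℝ} (h : s ∈ Sp 45) :
    s 2 4 * 72072000 +
    s 2 5 * 6552000 +
    s 2 7 * 72072000 +
    s 2 8 * 6552000 = 0 := by
  have e := E cert45 h 2 2
  rw [LO.sum12] at e
  rw [Z h 2 0 (by decide), Z h 2 1 (by decide), Z h 2 2 (by decide), Z h 2 3 (by decide), Z h 2 6 (by decide), Z h 2 9 (by decide), Z h 2 10 (by decide), Z h 2 11 (by decide)] at e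
  have c4 : ((C45 2 4 * posI 45 4 2 : ℤ) : ℝ) = 72072000 := by
    have h0 : C45 2 4 * posI 45 4 2 = 72072000 := by decide +kernel
    rw [h0]; norm_num
  have c5 : ((C45 2 5 * posI 45 5 2 : ℤ) : ℝ) = 6552000 := by
    have h0 : C45 2 5 * posI 45 5 2 = 6552000 := by decide +kernel
    rw [h0]; norm_num
  have c7 : ((C45 2 7 * posI 45 7 2 : ℤ) : ℝ) = 72072000 := by
    have h0 : C45 2 7 * posI 45 7 2 = 72072000 := by decide +kernel
    rw [h0]; norm_num
  have c8 : ((C45 2 8 * posI 45 8 2 : ℤ) : ℝ) = 6552000 := by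
    have h0 : C45 2 8 * posI 45 8 2 = 6552000 := by decide +kernel
    rw [h0]; norm_num
  rw [c4, c5, c7, c8] at e
  linear_combination e

theorem E45_3_0 {s : Fin 12 → Fin 12 → ℝ} (h : s ∈ Sp 45) :
    s 3 5 * 11827200 +
    s 3 6 * 19219200 +
    s 3 8 * 11827200 +
    s 3 9 * 19219200 = 0 := by
  have e := E cert45 h 3 0
  rw [LO.sum12] at e
  rw [Z h 3 0 (by decide), Z h 3 1 (by decide), Z h 3 2 (by decide), Z h 3 3 (by decide), Z h 3 4 (by decide), Z h 3 7 (by decide), Z h 3 10 (by decide), Z h 3 11 (by decide)] at e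
  have c5 : ((C45 3 5 * posI 45 5 0 : ℤ) : ℝ) = 11827200 := by
    have h0 : C45 3 5 * posI 45 5 0 = 11827200 := by decide +kernel
    rw [h0]; norm_num
  have c6 : ((C45 3 6 * posI 45 6 0 : ℤ) : ℝ) = 19219200 := by
    have h0 : C45 3 6 * posI 45 6 0 = 19219200 := by decide +kernel
    rw [h0]; norm_num
  have c8 : ((C45 3 8 * posI 45 8 0 : ℤ) : ℝ) = 11827200 := by
    have h0 : C45 3 8 * posI 45 8 0 = 11827200 := by decide +kernel
    rw [h0]; norm_num
  have c9 : ((C45 3 9 * posI 45 9 0 : ℤ) : ℝ) = 19219200 := by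
    have h0 : C45 3 9 * posI 45 9 0 = 19219200 := by decide +kernel
    rw [h0]; norm_num
  rw [c5, c6, c8, c9] at e
  linear_combination e

theorem E45_3_1 {s : Fin 12 → Fin 12 → ℝ} (h : s ∈ Sp 45) :
    s 3 5 * 4065600 +
    s 3 6 * 52852800 +
    s 3 8 * (-4065600) +
    s 3 9 * (-52852800) = 0 := by
  have e := E cert45 h 3 1
  rw [LO.sum12] at e
  rw [Z h 3 0 (by decide), Z h 3 1 (by decide), Z h 3 2 (by decide), Z h 3 3 (by decide), Z h 3 4 (by decide), Z h 3 7 (by decide), Z h 3 10 (by decide), Z h 3 11 (by decide)] at e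
  have c5 : ((C45 3 5 * posI 45 5 1 : ℤ) : ℝ) = 4065600 := by
    have h0 : C45 3 5 * posI 45 5 1 = 4065600 := by decide +kernel
    rw [h0]; norm_num
  have c6 : ((C45 3 6 * posI 45 6 1 : ℤ) : ℝ) = 52852800 := by
    have h0 : C45 3 6 * posI 45 6 1 = 52852800 := by decide +kernel
    rw [h0]; norm_num
  have c8 : ((C45 3 8 * posI 45 8 1 : ℤ) : ℝ) = (-4065600) := by
    have h0 : C45 3 8 * posI 45 8 1 = (-4065600) := by decide +kernel
    rw [h0]; norm_num
  have c9 : ((C45 3 9 * posI 45 9 1 : ℤ) : ℝ) = (-52852800) := by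
    have h0 : C45 3 9 * posI 45 9 1 = (-52852800) := by decide +kernel
    rw [h0]; norm_num
  rw [c5, c6, c8, c9] at e
  linear_combination e

theorem E45_3_2 {s : Fin 12 → Fin 12 → ℝ} (h : s ∈ Sp 45) :
    s 3 5 * 369600 +
    s 3 6 * 320320 +
    s 3 8 * 369600 +
    s 3 9 * 320320 = 0 := by
  have e := E cert45 h 3 2
  rw [LO.sum12] at e
  rw [Z h 3 0 (by decide), Z h 3 1 (by decide), Z h 3 2 (by decide), Z h 3 3 (by decide), Z h 3 4 (by decide), Z h 3 7 (by decide), Z h 3 10 (by decide), Z h 3 11 (by decide)] at e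
  have c5 : ((C45 3 5 * posI 45 5 2 : ℤ) : ℝ) = 369600 := by
    have h0 : C45 3 5 * posI 45 5 2 = 369600 := by decide +kernel
    rw [h0]; norm_num
  have c6 : ((C45 3 6 * posI 45 6 2 : ℤ) : ℝ) = 320320 := by
    have h0 : C45 3 6 * posI 45 6 2 = 320320 := by decide +kernel
    rw [h0]; norm_num
  have c8 : ((C45 3 8 * posI 45 8 2 : ℤ) : ℝ) = 369600 := by
    have h0 : C45 3 8 * posI 45 8 2 = 369600 := by decide +kernel
    rw [h0]; norm_num
  have c9 : ((C45 3 9 * posI 45 9 2 : ℤ) : ℝ) = 320320 := by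
    have h0 : C45 3 9 * posI 45 9 2 = 320320 := by decide +kernel
    rw [h0]; norm_num
  rw [c5, c6, c8, c9] at e
  linear_combination e

theorem E45_4_0 {s : Fin 12 → Fin 12 → ℝ} (h : s ∈ Sp 45) :
    s 1 4 * 0 +
    s 2 4 * (-554954400) +
    s 4 5 * 158558400 +
    s 4 6 * 21801780 +
    s 4 7 * 416215800 = 0 := by
  have e := E cert45 h 4 0
  rw [LO.sum12] at e
  rw [Z h 4 0 (by decide), Z h 4 3 (by decide), Z h 4 4 (by decide), Z h 4 8 (by decide), Z h 4 9 (by decide), Z h 4 10 (by decide), Z h 4 11 (by decide)] at e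
  rw [sy h 1 4, sy h 2 4] at e
  have c1 : ((C45 4 1 * posI 45 1 0 : ℤ) : ℝ) = 0 := by
    have h0 : C45 4 1 * posI 45 1 0 = 0 := by decide +kernel
    rw [h0]; norm_num
  have c2 : ((C45 4 2 * posI 45 2 0 : ℤ) : ℝ) = (-554954400) := by
    have h0 : C45 4 2 * posI 45 2 0 = (-554954400) := by decide +kernel
    rw [h0]; norm_num
  have c5 : ((C45 4 5 * posI 45 5 0 : ℤ) : ℝ) = 158558400 := by
    have h0 : C45 4 5 * posI 45 5 0 = 158558400 := by decide +kernel
    rw [h0]; norm_num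
  have c6 : ((C45 4 6 * posI 45 6 0 : ℤ) : ℝ) = 21801780 := by
    have h0 : C45 4 6 * posI 45 6 0 = 21801780 := by decide +kernel
    rw [h0]; norm_num
  have c7 : ((C45 4 7 * posI 45 7 0 : ℤ) : ℝ) = 416215800 := by
    have h0 : C45 4 7 * posI 45 7 0 = 416215800 := by decide +kernel
    rw [h0]; norm_num
  rw [c1, c2, c5, c6, c7] at e
  linear_combination e

theorem E45_4_1 {s : Fin 12 → Fin 12 → ℝ} (h : s ∈ Sp 45) :
    s 1 4 * 0 +
    s 2 4 * 0 +
    s 4 5 * 54504450 +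
    s 4 6 * 59954895 +
    s 4 7 * (-104053950) = 0 := by
  have e := E cert45 h 4 1
  rw [LO.sum12] at e
  rw [Z h 4 0 (by decide), Z h 4 3 (by decide), Z h 4 4 (by decide), Z h 4 8 (by decide), Z h 4 9 (by decide), Z h 4 10 (by decide), Z h 4 11 (by decide)] at e
  rw [sy h 1 4, sy h 2 4] at e
  have c1 : ((C45 4 1 * posI 45 1 1 : ℤ) : ℝ) = 0 := by
    have h0 : C45 4 1 * posI 45 1 1 = 0 := by decide +kernel
    rw [h0]; norm_num
  have c2 : ((C45 4 2 * posI 45 2 1 : ℤ) : ℝ) = 0 := by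
    have h0 : C45 4 2 * posI 45 2 1 = 0 := by decide +kernel
    rw [h0]; norm_num
  have c5 : ((C45 4 5 * posI 45 5 1 : ℤ) : ℝ) = 54504450 := by
    have h0 : C45 4 5 * posI 45 5 1 = 54504450 := by decide +kernel
    rw [h0]; norm_num
  have c6 : ((C45 4 6 * posI 45 6 1 : ℤ) : ℝ) = 59954895 := by
    have h0 : C45 4 6 * posI 45 6 1 = 59954895 := by decide +kernel
    rw [h0]; norm_num
  have c7 : ((C45 4 7 * posI 45 7 1 : ℤ) : ℝ) = (-104053950) := by
    have h0 : C45 4 7 * posI 45 7 1 = (-104053950) := by decide +kernel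
    rw [h0]; norm_num
  rw [c1, c2, c5, c6, c7] at e
  linear_combination e

theorem E45_4_2 {s : Fin 12 → Fin 12 → ℝ} (h : s ∈ Sp 45) :
    s 1 4 * 2378376 +
    s 2 4 * (-26426400) +
    s 4 5 * 4954950 +
    s 4 6 * 363363 +
    s 4 7 * 20810790 = 0 := by
  have e := E cert45 h 4 2
  rw [LO.sum12] at e
  rw [Z h 4 0 (by decide), Z h 4 3 (by decide), Z h 4 4 (by decide), Z h 4 8 (by decide), Z h 4 9 (by decide), Z h 4 10 (by decide), Z h 4 11 (by decide)] at e
  rw [sy h 1 4, sy h 2 4] at e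
  have c1 : ((C45 4 1 * posI 45 1 2 : ℤ) : ℝ) = 2378376 := by
    have h0 : C45 4 1 * posI 45 1 2 = 2378376 := by decide +kernel
    rw [h0]; norm_num
  have c2 : ((C45 4 2 * posI 45 2 2 : ℤ) : ℝ) = (-26426400) := by
    have h0 : C45 4 2 * posI 45 2 2 = (-26426400) := by decide +kernel
    rw [h0]; norm_num
  have c5 : ((C45 4 5 * posI 45 5 2 : ℤ) : ℝ) = 4954950 := by
    have h0 : C45 4 5 * posI 45 5 2 = 4954950 := by decide +kernel
    rw [h0]; norm_num
  have c6 : ((C45 4 6 * posI 45 6 2 : ℤ) : ℝ) = 363363 := by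
    have h0 : C45 4 6 * posI 45 6 2 = 363363 := by decide +kernel
    rw [h0]; norm_num
  have c7 : ((C45 4 7 * posI 45 7 2 : ℤ) : ℝ) = 20810790 := by
    have h0 : C45 4 7 * posI 45 7 2 = 20810790 := by decide +kernel
    rw [h0]; norm_num
  rw [c1, c2, c5, c6, c7] at e
  linear_combination e

theorem E45_5_0 {s : Fin 12 → Fin 12 → ℝ} (h : s ∈ Sp 45) :
    s 2 5 * 22932000 +
    s 3 5 * 53460000 +
    s 4 5 * 25740000 +
    s 5 6 * 25740000 +
    s 5 8 * 48384000 = 0 := by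
  have e := E cert45 h 5 0
  rw [LO.sum12] at e
  rw [Z h 5 0 (by decide), Z h 5 1 (by decide), Z h 5 5 (by decide), Z h 5 7 (by decide), Z h 5 9 (by decide), Z h 5 10 (by decide), Z h 5 11 (by decide)] at e
  rw [sy h 2 5, sy h 3 5, sy h 4 5] at e
  have c2 : ((C45 5 2 * posI 45 2 0 : ℤ) : ℝ) = 22932000 := by
    have h0 : C45 5 2 * posI 45 2 0 = 22932000 := by decide +kernel
    rw [h0]; norm_num
  have c3 : ((C45 5 3 * posI 45 3 0 : ℤ) : ℝ) = 53460000 := by
    have h0 : C45 5 3 * posI 45 3 0 = 53460000 := by decide +kernel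
    rw [h0]; norm_num
  have c4 : ((C45 5 4 * posI 45 4 0 : ℤ) : ℝ) = 25740000 := by
    have h0 : C45 5 4 * posI 45 4 0 = 25740000 := by decide +kernel
    rw [h0]; norm_num
  have c6 : ((C45 5 6 * posI 45 6 0 : ℤ) : ℝ) = 25740000 := by
    have h0 : C45 5 6 * posI 45 6 0 = 25740000 := by decide +kernel
    rw [h0]; norm_num
  have c8 : ((C45 5 8 * posI 45 8 0 : ℤ) : ℝ) = 48384000 := by
    have h0 : C45 5 8 * posI 45 8 0 = 48384000 := by decide +kernel
    rw [h0]; norm_num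
  rw [c2, c3, c4, c6, c8] at e
  linear_combination e

theorem E45_5_1 {s : Fin 12 → Fin 12 → ℝ} (h : s ∈ Sp 45) :
    s 2 5 * 0 +
    s 3 5 * 0 +
    s 4 5 * 6435000 +
    s 5 6 * 70785000 +
    s 5 8 * (-16632000) = 0 := by
  have e := E cert45 h 5 1
  rw [LO.sum12] at e
  rw [Z h 5 0 (by decide), Z h 5 1 (by decide), Z h 5 5 (by decide), Z h 5 7 (by decide), Z h 5 9 (by decide), Z h 5 10 (by decide), Z h 5 11 (by decide)] at e
  rw [sy h 2 5, sy h 3 5, sy h 4 5] at e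
  have c2 : ((C45 5 2 * posI 45 2 1 : ℤ) : ℝ) = 0 := by
    have h0 : C45 5 2 * posI 45 2 1 = 0 := by decide +kernel
    rw [h0]; norm_num
  have c3 : ((C45 5 3 * posI 45 3 1 : ℤ) : ℝ) = 0 := by
    have h0 : C45 5 3 * posI 45 3 1 = 0 := by decide +kernel
    rw [h0]; norm_num
  have c4 : ((C45 5 4 * posI 45 4 1 : ℤ) : ℝ) = 6435000 := by
    have h0 : C45 5 4 * posI 45 4 1 = 6435000 := by decide +kernel
    rw [h0]; norm_num
  have c6 : ((C45 5 6 * posI 45 6 1 : ℤ) : ℝ) = 70785000 := by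
    have h0 : C45 5 6 * posI 45 6 1 = 70785000 := by decide +kernel
    rw [h0]; norm_num
  have c8 : ((C45 5 8 * posI 45 8 1 : ℤ) : ℝ) = (-16632000) := by
    have h0 : C45 5 8 * posI 45 8 1 = (-16632000) := by decide +kernel
    rw [h0]; norm_num
  rw [c2, c3, c4, c6, c8] at e
  linear_combination e

theorem E45_5_2 {s : Fin 12 → Fin 12 → ℝ} (h : s ∈ Sp 45) :
    s 2 5 * 1092000 +
    s 3 5 * 1188000 +
    s 4 5 * 1287000 +
    s 5 6 * 429000 +
    s 5 8 * 1512000 = 0 := by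
  have e := E cert45 h 5 2
  rw [LO.sum12] at e
  rw [Z h 5 0 (by decide), Z h 5 1 (by decide), Z h 5 5 (by decide), Z h 5 7 (by decide), Z h 5 9 (by decide), Z h 5 10 (by decide), Z h 5 11 (by decide)] at e
  rw [sy h 2 5, sy h 3 5, sy h 4 5] at e
  have c2 : ((C45 5 2 * posI 45 2 2 : ℤ) : ℝ) = 1092000 := by
    have h0 : C45 5 2 * posI 45 2 2 = 1092000 := by decide +kernel
    rw [h0]; norm_num
  have c3 : ((C45 5 3 * posI 45 3 2 : ℤ) : ℝ) = 1188000 := by
    have h0 : C45 5 3 * posI 45 3 2 = 1188000 := by decide +kernel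
    rw [h0]; norm_num
  have c4 : ((C45 5 4 * posI 45 4 2 : ℤ) : ℝ) = 1287000 := by
    have h0 : C45 5 4 * posI 45 4 2 = 1287000 := by decide +kernel
    rw [h0]; norm_num
  have c6 : ((C45 5 6 * posI 45 6 2 : ℤ) : ℝ) = 429000 := by
    have h0 : C45 5 6 * posI 45 6 2 = 429000 := by decide +kernel
    rw [h0]; norm_num
  have c8 : ((C45 5 8 * posI 45 8 2 : ℤ) : ℝ) = 1512000 := by
    have h0 : C45 5 8 * posI 45 8 2 = 1512000 := by decide +kernel
    rw [h0]; norm_num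
  rw [c2, c3, c4, c6, c8] at e
  linear_combination e

theorem E45_6_0 {s : Fin 12 → Fin 12 → ℝ} (h : s ∈ Sp 45) :
    s 1 6 * 0 +
    s 3 6 * (-3088800) +
    s 4 6 * 94380 +
    s 5 6 * (-686400) = 0 := by
  have e := E cert45 h 6 0
  rw [LO.sum12] at e
  rw [Z h 6 0 (by decide), Z h 6 2 (by decide), Z h 6 6 (by decide), Z h 6 7 (by decide), Z h 6 8 (by decide), Z h 6 9 (by decide), Z h 6 10 (by decide), Z h 6 11 (by decide)] at e
  rw [sy h 1 6, sy h 3 6, sy h 4 6, sy h 5 6] at e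
  have c1 : ((C45 6 1 * posI 45 1 0 : ℤ) : ℝ) = 0 := by
    have h0 : C45 6 1 * posI 45 1 0 = 0 := by decide +kernel
    rw [h0]; norm_num
  have c3 : ((C45 6 3 * posI 45 3 0 : ℤ) : ℝ) = (-3088800) := by
    have h0 : C45 6 3 * posI 45 3 0 = (-3088800) := by decide +kernel
    rw [h0]; norm_num
  have c4 : ((C45 6 4 * posI 45 4 0 : ℤ) : ℝ) = 94380 := by
    have h0 : C45 6 4 * posI 45 4 0 = 94380 := by decide +kernel
    rw [h0]; norm_num
  have c5 : ((C45 6 5 * posI 45 5 0 : ℤ) : ℝ) = (-686400) := by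
    have h0 : C45 6 5 * posI 45 5 0 = (-686400) := by decide +kernel
    rw [h0]; norm_num
  rw [c1, c3, c4, c5] at e
  linear_combination e

theorem E45_6_1 {s : Fin 12 → Fin 12 → ℝ} (h : s ∈ Sp 45) :
    s 1 6 * 0 +
    s 3 6 * 0 +
    s 4 6 * 23595 +
    s 5 6 * (-235950) = 0 := by
  have e := E cert45 h 6 1
  rw [LO.sum12] at e
  rw [Z h 6 0 (by decide), Z h 6 2 (by decide), Z h 6 6 (by decide), Z h 6 7 (by decide), Z h 6 8 (by decide), Z h 6 9 (by decide), Z h 6 10 (by decide), Z h 6 11 (by decide)] at e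
  rw [sy h 1 6, sy h 3 6, sy h 4 6, sy h 5 6] at e
  have c1 : ((C45 6 1 * posI 45 1 1 : ℤ) : ℝ) = 0 := by
    have h0 : C45 6 1 * posI 45 1 1 = 0 := by decide +kernel
    rw [h0]; norm_num
  have c3 : ((C45 6 3 * posI 45 3 1 : ℤ) : ℝ) = 0 := by
    have h0 : C45 6 3 * posI 45 3 1 = 0 := by decide +kernel
    rw [h0]; norm_num
  have c4 : ((C45 6 4 * posI 45 4 1 : ℤ) : ℝ) = 23595 := by
    have h0 : C45 6 4 * posI 45 4 1 = 23595 := by decide +kernel
    rw [h0]; norm_num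
  have c5 : ((C45 6 5 * posI 45 5 1 : ℤ) : ℝ) = (-235950) := by
    have h0 : C45 6 5 * posI 45 5 1 = (-235950) := by decide +kernel
    rw [h0]; norm_num
  rw [c1, c3, c4, c5] at e
  linear_combination e

theorem E45_6_2 {s : Fin 12 → Fin 12 → ℝ} (h : s ∈ Sp 45) :
    s 1 6 * 24024 +
    s 3 6 * (-68640) +
    s 4 6 * 4719 +
    s 5 6 * (-21450) = 0 := by
  have e := E cert45 h 6 2
  rw [LO.sum12] at e
  rw [Z h 6 0 (by decide), Z h 6 2 (by decide), Z h 6 6 (by decide), Z h 6 7 (by decide), Z h 6 8 (by decide), Z h 6 9 (by decide), Z h 6 10 (by decide), Z h 6 11 (by decide)] at e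
  rw [sy h 1 6, sy h 3 6, sy h 4 6, sy h 5 6] at e
  have c1 : ((C45 6 1 * posI 45 1 2 : ℤ) : ℝ) = 24024 := by
    have h0 : C45 6 1 * posI 45 1 2 = 24024 := by decide +kernel
    rw [h0]; norm_num
  have c3 : ((C45 6 3 * posI 45 3 2 : ℤ) : ℝ) = (-68640) := by
    have h0 : C45 6 3 * posI 45 3 2 = (-68640) := by decide +kernel
    rw [h0]; norm_num
  have c4 : ((C45 6 4 * posI 45 4 2 : ℤ) : ℝ) = 4719 := by
    have h0 : C45 6 4 * posI 45 4 2 = 4719 := by decide +kernel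
    rw [h0]; norm_num
  have c5 : ((C45 6 5 * posI 45 5 2 : ℤ) : ℝ) = (-21450) := by
    have h0 : C45 6 5 * posI 45 5 2 = (-21450) := by decide +kernel
    rw [h0]; norm_num
  rw [c1, c3, c4, c5] at e
  linear_combination e

theorem E45_7_0 {s : Fin 12 → Fin 12 → ℝ} (h : s ∈ Sp 45) :
    s 1 7 * 0 +
    s 2 7 * (-554954400) +
    s 4 7 * 416215800 +
    s 7 8 * 158558400 +
    s 7 9 * 21801780 = 0 := by
  have e := E cert45 h 7 0
  rw [LO.sum12] at e
  rw [Z h 7 0 (by decide), Z h 7 3 (by decide), Z h 7 5 (by decide), Z h 7 6 (by decide), Z h 7 7 (by decide), Z h 7 10 (by decide), Z h 7 11 (by decide)] at e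
  rw [sy h 1 7, sy h 2 7, sy h 4 7] at e
  have c1 : ((C45 7 1 * posI 45 1 0 : ℤ) : ℝ) = 0 := by
    have h0 : C45 7 1 * posI 45 1 0 = 0 := by decide +kernel
    rw [h0]; norm_num
  have c2 : ((C45 7 2 * posI 45 2 0 : ℤ) : ℝ) = (-554954400) := by
    have h0 : C45 7 2 * posI 45 2 0 = (-554954400) := by decide +kernel
    rw [h0]; norm_num
  have c4 : ((C45 7 4 * posI 45 4 0 : ℤ) : ℝ) = 416215800 := by
    have h0 : C45 7 4 * posI 45 4 0 = 416215800 := by decide +kernel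
    rw [h0]; norm_num
  have c8 : ((C45 7 8 * posI 45 8 0 : ℤ) : ℝ) = 158558400 := by
    have h0 : C45 7 8 * posI 45 8 0 = 158558400 := by decide +kernel
    rw [h0]; norm_num
  have c9 : ((C45 7 9 * posI 45 9 0 : ℤ) : ℝ) = 21801780 := by
    have h0 : C45 7 9 * posI 45 9 0 = 21801780 := by decide +kernel
    rw [h0]; norm_num
  rw [c1, c2, c4, c8, c9] at e
  linear_combination e

theorem E45_7_1 {s : Fin 12 → Fin 12 → ℝ} (h : s ∈ Sp 45) :
    s 1 7 * 0 +
    s 2 7 * 0 +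
    s 4 7 * 104053950 +
    s 7 8 * (-54504450) +
    s 7 9 * (-59954895) = 0 := by
  have e := E cert45 h 7 1
  rw [LO.sum12] at e
  rw [Z h 7 0 (by decide), Z h 7 3 (by decide), Z h 7 5 (by decide), Z h 7 6 (by decide), Z h 7 7 (by decide), Z h 7 10 (by decide), Z h 7 11 (by decide)] at e
  rw [sy h 1 7, sy h 2 7, sy h 4 7] at e
  have c1 : ((C45 7 1 * posI 45 1 1 : ℤ) : ℝ) = 0 := by
    have h0 : C45 7 1 * posI 45 1 1 = 0 := by decide +kernel
    rw [h0]; norm_num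
  have c2 : ((C45 7 2 * posI 45 2 1 : ℤ) : ℝ) = 0 := by
    have h0 : C45 7 2 * posI 45 2 1 = 0 := by decide +kernel
    rw [h0]; norm_num
  have c4 : ((C45 7 4 * posI 45 4 1 : ℤ) : ℝ) = 104053950 := by
    have h0 : C45 7 4 * posI 45 4 1 = 104053950 := by decide +kernel
    rw [h0]; norm_num
  have c8 : ((C45 7 8 * posI 45 8 1 : ℤ) : ℝ) = (-54504450) := by
    have h0 : C45 7 8 * posI 45 8 1 = (-54504450) := by decide +kernel
    rw [h0]; norm_num
  have c9 : ((C45 7 9 * posI 45 9 1 : ℤ) : ℝ) = (-59954895) := by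
    have h0 : C45 7 9 * posI 45 9 1 = (-59954895) := by decide +kernel
    rw [h0]; norm_num
  rw [c1, c2, c4, c8, c9] at e
  linear_combination e

theorem E45_7_2 {s : Fin 12 → Fin 12 → ℝ} (h : s ∈ Sp 45) :
    s 1 7 * 2378376 +
    s 2 7 * (-26426400) +
    s 4 7 * 20810790 +
    s 7 8 * 4954950 +
    s 7 9 * 363363 = 0 := by
  have e := E cert45 h 7 2
  rw [LO.sum12] at e
  rw [Z h 7 0 (by decide), Z h 7 3 (by decide), Z h 7 5 (by decide), Z h 7 6 (by decide), Z h 7 7 (by decide), Z h 7 10 (by decide), Z h 7 11 (by decide)] at e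
  rw [sy h 1 7, sy h 2 7, sy h 4 7] at e
  have c1 : ((C45 7 1 * posI 45 1 2 : ℤ) : ℝ) = 2378376 := by
    have h0 : C45 7 1 * posI 45 1 2 = 2378376 := by decide +kernel
    rw [h0]; norm_num
  have c2 : ((C45 7 2 * posI 45 2 2 : ℤ) : ℝ) = (-26426400) := by
    have h0 : C45 7 2 * posI 45 2 2 = (-26426400) := by decide +kernel
    rw [h0]; norm_num
  have c4 : ((C45 7 4 * posI 45 4 2 : ℤ) : ℝ) = 20810790 := by
    have h0 : C45 7 4 * posI 45 4 2 = 20810790 := by decide +kernel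
    rw [h0]; norm_num
  have c8 : ((C45 7 8 * posI 45 8 2 : ℤ) : ℝ) = 4954950 := by
    have h0 : C45 7 8 * posI 45 8 2 = 4954950 := by decide +kernel
    rw [h0]; norm_num
  have c9 : ((C45 7 9 * posI 45 9 2 : ℤ) : ℝ) = 363363 := by
    have h0 : C45 7 9 * posI 45 9 2 = 363363 := by decide +kernel
    rw [h0]; norm_num
  rw [c1, c2, c4, c8, c9] at e
  linear_combination e

theorem E45_8_0 {s : Fin 12 → Fin 12 → ℝ} (h : s ∈ Sp 45) :
    s 2 8 * 22932000 +
    s 3 8 * 53460000 +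
    s 5 8 * 48384000 +
    s 7 8 * 25740000 +
    s 8 9 * 25740000 = 0 := by
  have e := E cert45 h 8 0
  rw [LO.sum12] at e
  rw [Z h 8 0 (by decide), Z h 8 1 (by decide), Z h 8 4 (by decide), Z h 8 6 (by decide), Z h 8 8 (by decide), Z h 8 10 (by decide), Z h 8 11 (by decide)] at e
  rw [sy h 2 8, sy h 3 8, sy h 5 8, sy h 7 8] at e
  have c2 : ((C45 8 2 * posI 45 2 0 : ℤ) : ℝ) = 22932000 := by
    have h0 : C45 8 2 * posI 45 2 0 = 22932000 := by decide +kernel
    rw [h0]; norm_num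
  have c3 : ((C45 8 3 * posI 45 3 0 : ℤ) : ℝ) = 53460000 := by
    have h0 : C45 8 3 * posI 45 3 0 = 53460000 := by decide +kernel
    rw [h0]; norm_num
  have c5 : ((C45 8 5 * posI 45 5 0 : ℤ) : ℝ) = 48384000 := by
    have h0 : C45 8 5 * posI 45 5 0 = 48384000 := by decide +kernel
    rw [h0]; norm_num
  have c7 : ((C45 8 7 * posI 45 7 0 : ℤ) : ℝ) = 25740000 := by
    have h0 : C45 8 7 * posI 45 7 0 = 25740000 := by decide +kernel
    rw [h0]; norm_num
  have c9 : ((C45 8 9 * posI 45 9 0 : ℤ) : ℝ) = 25740000 := by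
    have h0 : C45 8 9 * posI 45 9 0 = 25740000 := by decide +kernel
    rw [h0]; norm_num
  rw [c2, c3, c5, c7, c9] at e
  linear_combination e

theorem E45_8_1 {s : Fin 12 → Fin 12 → ℝ} (h : s ∈ Sp 45) :
    s 2 8 * 0 +
    s 3 8 * 0 +
    s 5 8 * 16632000 +
    s 7 8 * (-6435000) +
    s 8 9 * (-70785000) = 0 := by
  have e := E cert45 h 8 1
  rw [LO.sum12] at e
  rw [Z h 8 0 (by decide), Z h 8 1 (by decide), Z h 8 4 (by decide), Z h 8 6 (by decide), Z h 8 8 (by decide), Z h 8 10 (by decide), Z h 8 11 (by decide)] at e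
  rw [sy h 2 8, sy h 3 8, sy h 5 8, sy h 7 8] at e
  have c2 : ((C45 8 2 * posI 45 2 1 : ℤ) : ℝ) = 0 := by
    have h0 : C45 8 2 * posI 45 2 1 = 0 := by decide +kernel
    rw [h0]; norm_num
  have c3 : ((C45 8 3 * posI 45 3 1 : ℤ) : ℝ) = 0 := by
    have h0 : C45 8 3 * posI 45 3 1 = 0 := by decide +kernel
    rw [h0]; norm_num
  have c5 : ((C45 8 5 * posI 45 5 1 : ℤ) : ℝ) = 16632000 := by
    have h0 : C45 8 5 * posI 45 5 1 = 16632000 := by decide +kernel
    rw [h0]; norm_num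
  have c7 : ((C45 8 7 * posI 45 7 1 : ℤ) : ℝ) = (-6435000) := by
    have h0 : C45 8 7 * posI 45 7 1 = (-6435000) := by decide +kernel
    rw [h0]; norm_num
  have c9 : ((C45 8 9 * posI 45 9 1 : ℤ) : ℝ) = (-70785000) := by
    have h0 : C45 8 9 * posI 45 9 1 = (-70785000) := by decide +kernel
    rw [h0]; norm_num
  rw [c2, c3, c5, c7, c9] at e
  linear_combination e

theorem E45_8_2 {s : Fin 12 → Fin 12 → ℝ} (h : s ∈ Sp 45) :
    s 2 8 * 1092000 +
    s 3 8 * 1188000 +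
    s 5 8 * 1512000 +
    s 7 8 * 1287000 +
    s 8 9 * 429000 = 0 := by
  have e := E cert45 h 8 2
  rw [LO.sum12] at e
  rw [Z h 8 0 (by decide), Z h 8 1 (by decide), Z h 8 4 (by decide), Z h 8 6 (by decide), Z h 8 8 (by decide), Z h 8 10 (by decide), Z h 8 11 (by decide)] at e
  rw [sy h 2 8, sy h 3 8, sy h 5 8, sy h 7 8] at e
  have c2 : ((C45 8 2 * posI 45 2 2 : ℤ) : ℝ) = 1092000 := by
    have h0 : C45 8 2 * posI 45 2 2 = 1092000 := by decide +kernel
    rw [h0]; norm_num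
  have c3 : ((C45 8 3 * posI 45 3 2 : ℤ) : ℝ) = 1188000 := by
    have h0 : C45 8 3 * posI 45 3 2 = 1188000 := by decide +kernel
    rw [h0]; norm_num
  have c5 : ((C45 8 5 * posI 45 5 2 : ℤ) : ℝ) = 1512000 := by
    have h0 : C45 8 5 * posI 45 5 2 = 1512000 := by decide +kernel
    rw [h0]; norm_num
  have c7 : ((C45 8 7 * posI 45 7 2 : ℤ) : ℝ) = 1287000 := by
    have h0 : C45 8 7 * posI 45 7 2 = 1287000 := by decide +kernel
    rw [h0]; norm_num
  have c9 : ((C45 8 9 * posI 45 9 2 : ℤ) : ℝ) = 429000 := by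
    have h0 : C45 8 9 * posI 45 9 2 = 429000 := by decide +kernel
    rw [h0]; norm_num
  rw [c2, c3, c5, c7, c9] at e
  linear_combination e

theorem E45_9_0 {s : Fin 12 → Fin 12 → ℝ} (h : s ∈ Sp 45) :
    s 1 9 * 0 +
    s 3 9 * (-3088800) +
    s 7 9 * 94380 +
    s 8 9 * (-686400) = 0 := by
  have e := E cert45 h 9 0
  rw [LO.sum12] at e
  rw [Z h 9 0 (by decide), Z h 9 2 (by decide), Z h 9 4 (by decide), Z h 9 5 (by decide), Z h 9 6 (by decide), Z h 9 9 (by decide), Z h 9 10 (by decide), Z h 9 11 (by decide)] at e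
  rw [sy h 1 9, sy h 3 9, sy h 7 9, sy h 8 9] at e
  have c1 : ((C45 9 1 * posI 45 1 0 : ℤ) : ℝ) = 0 := by
    have h0 : C45 9 1 * posI 45 1 0 = 0 := by decide +kernel
    rw [h0]; norm_num
  have c3 : ((C45 9 3 * posI 45 3 0 : ℤ) : ℝ) = (-3088800) := by
    have h0 : C45 9 3 * posI 45 3 0 = (-3088800) := by decide +kernel
    rw [h0]; norm_num
  have c7 : ((C45 9 7 * posI 45 7 0 : ℤ) : ℝ) = 94380 := by
    have h0 : C45 9 7 * posI 45 7 0 = 94380 := by decide +kernel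
    rw [h0]; norm_num
  have c8 : ((C45 9 8 * posI 45 8 0 : ℤ) : ℝ) = (-686400) := by
    have h0 : C45 9 8 * posI 45 8 0 = (-686400) := by decide +kernel
    rw [h0]; norm_num
  rw [c1, c3, c7, c8] at e
  linear_combination e

theorem E45_9_1 {s : Fin 12 → Fin 12 → ℝ} (h : s ∈ Sp 45) :
    s 1 9 * 0 +
    s 3 9 * 0 +
    s 7 9 * (-23595) +
    s 8 9 * 235950 = 0 := by
  have e := E cert45 h 9 1
  rw [LO.sum12] at e
  rw [Z h 9 0 (by decide), Z h 9 2 (by decide), Z h 9 4 (by decide), Z h 9 5 (by decide), Z h 9 6 (by decide), Z h 9 9 (by decide), Z h 9 10 (by decide), Z h 9 11 (by decide)] at e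
  rw [sy h 1 9, sy h 3 9, sy h 7 9, sy h 8 9] at e
  have c1 : ((C45 9 1 * posI 45 1 1 : ℤ) : ℝ) = 0 := by
    have h0 : C45 9 1 * posI 45 1 1 = 0 := by decide +kernel
    rw [h0]; norm_num
  have c3 : ((C45 9 3 * posI 45 3 1 : ℤ) : ℝ) = 0 := by
    have h0 : C45 9 3 * posI 45 3 1 = 0 := by decide +kernel
    rw [h0]; norm_num
  have c7 : ((C45 9 7 * posI 45 7 1 : ℤ) : ℝ) = (-23595) := by
    have h0 : C45 9 7 * posI 45 7 1 = (-23595) := by decide +kernel
    rw [h0]; norm_num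
  have c8 : ((C45 9 8 * posI 45 8 1 : ℤ) : ℝ) = 235950 := by
    have h0 : C45 9 8 * posI 45 8 1 = 235950 := by decide +kernel
    rw [h0]; norm_num
  rw [c1, c3, c7, c8] at e
  linear_combination e

theorem E45_9_2 {s : Fin 12 → Fin 12 → ℝ} (h : s ∈ Sp 45) :
    s 1 9 * 24024 +
    s 3 9 * (-68640) +
    s 7 9 * 4719 +
    s 8 9 * (-21450) = 0 := by
  have e := E cert45 h 9 2
  rw [LO.sum12] at e
  rw [Z h 9 0 (by decide), Z h 9 2 (by decide), Z h 9 4 (by decide), Z h 9 5 (by decide), Z h 9 6 (by decide), Z h 9 9 (by decide), Z h 9 10 (by decide), Z h 9 11 (by decide)] at e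
  rw [sy h 1 9, sy h 3 9, sy h 7 9, sy h 8 9] at e
  have c1 : ((C45 9 1 * posI 45 1 2 : ℤ) : ℝ) = 24024 := by
    have h0 : C45 9 1 * posI 45 1 2 = 24024 := by decide +kernel
    rw [h0]; norm_num
  have c3 : ((C45 9 3 * posI 45 3 2 : ℤ) : ℝ) = (-68640) := by
    have h0 : C45 9 3 * posI 45 3 2 = (-68640) := by decide +kernel
    rw [h0]; norm_num
  have c7 : ((C45 9 7 * posI 45 7 2 : ℤ) : ℝ) = 4719 := by
    have h0 : C45 9 7 * posI 45 7 2 = 4719 := by decide +kernel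
    rw [h0]; norm_num
  have c8 : ((C45 9 8 * posI 45 8 2 : ℤ) : ℝ) = (-21450) := by
    have h0 : C45 9 8 * posI 45 8 2 = (-21450) := by decide +kernel
    rw [h0]; norm_num
  rw [c1, c3, c7, c8] at e
  linear_combination e

theorem inj45 {s : Fin 12 → Fin 12 → ℝ} (h : s ∈ Sp 45) (f0 : s 8 9 = 0) :
    s = 0 := by
  have t_4_5_6 : s 4 5 + s 5 6 + s 4 6 = 0 := by
    rw [← sy h 4 6]; exact h.2.2.1 4 5 6 (by decide)
  have t_3_5_6 : s 3 5 + s 5 6 + s 3 6 = 0 := by
    rw [← sy h 3 6]; exact h.2.2.1 3 5 6 (by decide)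
  have t_1_4_6 : s 1 4 + s 4 6 + s 1 6 = 0 := by
    rw [← sy h 1 6]; exact h.2.2.1 1 4 6 (by decide)
  have t_7_8_9 : s 7 8 + s 8 9 + s 7 9 = 0 := by
    rw [← sy h 7 9]; exact h.2.2.1 7 8 9 (by decide)
  have t_3_8_9 : s 3 8 + s 8 9 + s 3 9 = 0 := by
    rw [← sy h 3 9]; exact h.2.2.1 3 8 9 (by decide)
  have t_1_7_9 : s 1 7 + s 7 9 + s 1 9 = 0 := by
    rw [← sy h 1 9]; exact h.2.2.1 1 7 9 (by decide)
  have t_2_7_8 : s 2 7 + s 7 8 + s 2 8 = 0 := by
    rw [← sy h 2 8]; exact h.2.2.1 2 7 8 (by decide)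
  have t_1_4_7 : s 1 4 + s 4 7 + s 1 7 = 0 := by
    rw [← sy h 1 7]; exact h.2.2.1 1 4 7 (by decide)
  have t_2_4_7 : s 2 4 + s 4 7 + s 2 7 = 0 := by
    rw [← sy h 2 7]; exact h.2.2.1 2 4 7 (by decide)
  have t_2_5_8 : s 2 5 + s 5 8 + s 2 8 = 0 := by
    rw [← sy h 2 8]; exact h.2.2.1 2 5 8 (by decide)
  have t_3_5_8 : s 3 5 + s 5 8 + s 3 8 = 0 := by
    rw [← sy h 3 8]; exact h.2.2.1 3 5 8 (by decide)
  have t_3_6_9 : s 3 6 + s 6 9 + s 3 9 = 0 := by
    rw [← sy h 3 9]; exact h.2.2.1 3 6 9 (by decide)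
  rw [Z h 6 9 (by decide)] at t_3_6_9
  have t_1_6_10 : s 1 6 + s 6 10 + s 1 10 = 0 := by
    rw [← sy h 1 10]; exact h.2.2.1 1 6 10 (by decide)
  rw [Z h 6 10 (by decide)] at t_1_6_10
  have t_1_10_11 : s 1 10 + s 10 11 + s 1 11 = 0 := by
    rw [← sy h 1 11]; exact h.2.2.1 1 10 11 (by decide)
  rw [Z h 10 11 (by decide)] at t_1_10_11
  have t_1_9_11 : s 1 9 + s 9 11 + s 1 11 = 0 := by
    rw [← sy h 1 11]; exact h.2.2.1 1 9 11 (by decide)
  rw [Z h 9 11 (by decide)] at t_1_9_11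
  have e_1_0 := E45_1_0 h
  have e_1_1 := E45_1_1 h
  have e_2_0 := E45_2_0 h
  have e_2_1 := E45_2_1 h
  have e_3_1 := E45_3_1 h
  have e_4_0 := E45_4_0 h
  have x_1_4 : s 1 4 = 0 := by
    linear_combination (220/3) * t_4_5_6 +
      (-220/3) * t_3_5_6 +
      (-253/4) * t_1_4_6 +
      (385/6) * t_7_8_9 +
      (-220/3) * t_3_8_9 +
      (-385/6) * t_1_7_9 +
      (-385/6) * t_2_7_8 +
      (97295/96) * t_1_4_7 +
      (-78815/96) * t_2_4_7 +
      (-220/3) * t_2_5_8 +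
      (220/3) * t_3_5_8 +
      (220/3) * t_3_6_9 +
      (-173825/132) * t_1_6_10 +
      (1846475/1056) * t_1_10_11 +
      (-14490/11) * t_1_9_11 +
      (30377/169128960) * e_1_0 +
      (-1/31711680) * e_1_1 +
      (253/503193600) * e_2_0 +
      (-1/2246400) * e_2_1 +
      (-1/2162160) * e_4_0 +
      (55/6) * f0
  have x_1_6 : s 1 6 = 0 := by
    linear_combination (20/3) * t_4_5_6 +
      (-20/3) * t_3_5_6 +
      (-23/4) * t_1_4_6 +
      (35/6) * t_7_8_9 +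
      (-20/3) * t_3_8_9 +
      (-35/6) * t_1_7_9 +
      (-35/6) * t_2_7_8 +
      (8845/96) * t_1_4_7 +
      (-7165/96) * t_2_4_7 +
      (-20/3) * t_2_5_8 +
      (20/3) * t_3_5_8 +
      (20/3) * t_3_6_9 +
      (-15775/132) * t_1_6_10 +
      (167425/1056) * t_1_10_11 +
      (-1310/11) * t_1_9_11 +
      (921/56376320) * e_1_0 +
      (1/31711680) * e_1_1 +
      (23/503193600) * e_2_0 +
      (-1/24710400) * e_2_1 +
      (-1/23783760) * e_4_0 +
      (5/6) * f0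
  have x_1_7 : s 1 7 = 0 := by
    linear_combination (-220/3) * t_4_5_6 +
      (220/3) * t_3_5_6 +
      (253/4) * t_1_4_6 +
      (-385/6) * t_7_8_9 +
      (220/3) * t_3_8_9 +
      (385/6) * t_1_7_9 +
      (385/6) * t_2_7_8 +
      (-97295/96) * t_1_4_7 +
      (78815/96) * t_2_4_7 +
      (220/3) * t_2_5_8 +
      (-220/3) * t_3_5_8 +
      (-220/3) * t_3_6_9 +
      (174017/132) * t_1_6_10 +
      (-1848491/1056) * t_1_10_11 +
      (14506/11) * t_1_9_11 +
      (-30409/169128960) * e_1_0 +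
      (1/31711680) * e_1_1 +
      (-253/503193600) * e_2_0 +
      (1/2246400) * e_2_1 +
      (1/2162160) * e_4_0 +
      (-55/6) * f0
  have x_1_9 : s 1 9 = 0 := by
    linear_combination (-20/3) * t_4_5_6 +
      (20/3) * t_3_5_6 +
      (23/4) * t_1_4_6 +
      (-35/6) * t_7_8_9 +
      (20/3) * t_3_8_9 +
      (35/6) * t_1_7_9 +
      (35/6) * t_2_7_8 +
      (-8845/96) * t_1_4_7 +
      (7165/96) * t_2_4_7 +
      (20/3) * t_2_5_8 +
      (-20/3) * t_3_5_8 +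
      (-20/3) * t_3_6_9 +
      (15907/132) * t_1_6_10 +
      (-168481/1056) * t_1_10_11 +
      (1321/11) * t_1_9_11 +
      (-921/56376320) * e_1_0 +
      (-1/31711680) * e_1_1 +
      (-23/503193600) * e_2_0 +
      (1/24710400) * e_2_1 +
      (1/23783760) * e_4_0 +
      (-5/6) * f0
  have x_1_10 : s 1 10 = 0 := by
    linear_combination (-20/3) * t_4_5_6 +
      (20/3) * t_3_5_6 +
      (23/4) * t_1_4_6 +
      (-35/6) * t_7_8_9 +
      (20/3) * t_3_8_9 +
      (35/6) * t_1_7_9 +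
      (35/6) * t_2_7_8 +
      (-8845/96) * t_1_4_7 +
      (7165/96) * t_2_4_7 +
      (20/3) * t_2_5_8 +
      (-20/3) * t_3_5_8 +
      (-20/3) * t_3_6_9 +
      (15907/132) * t_1_6_10 +
      (-167425/1056) * t_1_10_11 +
      (1310/11) * t_1_9_11 +
      (-921/56376320) * e_1_0 +
      (-1/31711680) * e_1_1 +
      (-23/503193600) * e_2_0 +
      (1/24710400) * e_2_1 +
      (1/23783760) * e_4_0 +
      (-5/6) * f0
  have x_1_11 : s 1 11 = 0 := by
    linear_combination (20/3) * t_4_5_6 +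
      (-20/3) * t_3_5_6 +
      (-23/4) * t_1_4_6 +
      (35/6) * t_7_8_9 +
      (-20/3) * t_3_8_9 +
      (-35/6) * t_1_7_9 +
      (-35/6) * t_2_7_8 +
      (8845/96) * t_1_4_7 +
      (-7165/96) * t_2_4_7 +
      (-20/3) * t_2_5_8 +
      (20/3) * t_3_5_8 +
      (20/3) * t_3_6_9 +
      (-15907/132) * t_1_6_10 +
      (168481/1056) * t_1_10_11 +
      (-1310/11) * t_1_9_11 +
      (921/56376320) * e_1_0 +
      (1/31711680) * e_1_1 +
      (23/503193600) * e_2_0 +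
      (-1/24710400) * e_2_1 +
      (-1/23783760) * e_4_0 +
      (5/6) * f0
  have x_2_4 : s 2 4 = 0 := by
    linear_combination (20) * t_4_5_6 +
      (-20) * t_3_5_6 +
      (-69/4) * t_1_4_6 +
      (69/4) * t_7_8_9 +
      (-20) * t_3_8_9 +
      (-69/4) * t_1_7_9 +
      (-69/4) * t_2_7_8 +
      (17611/64) * t_1_4_7 +
      (-14251/64) * t_2_4_7 +
      (-20) * t_2_5_8 +
      (20) * t_3_5_8 +
      (20) * t_3_6_9 +
      (-3937/11) * t_1_6_10 +
      (334503/704) * t_1_10_11 +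
      (-3937/11) * t_1_9_11 +
      (16507/338257920) * e_1_0 +
      (229/1677312000) * e_2_0 +
      (-23/192192000) * e_2_1 +
      (-1/7927920) * e_4_0 +
      (11/4) * f0
  have x_2_5 : s 2 5 = 0 := by
    linear_combination (-100) * t_4_5_6 +
      (100) * t_3_5_6 +
      (345/4) * t_1_4_6 +
      (-345/4) * t_7_8_9 +
      (100) * t_3_8_9 +
      (345/4) * t_1_7_9 +
      (345/4) * t_2_7_8 +
      (-87995/64) * t_1_4_7 +
      (71195/64) * t_2_4_7 +
      (100) * t_2_5_8 +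
      (-100) * t_3_5_8 +
      (-100) * t_3_6_9 +
      (19670/11) * t_1_6_10 +
      (-1671255/704) * t_1_10_11 +
      (19670/11) * t_1_9_11 +
      (-16495/67651584) * e_1_0 +
      (-163/239616000) * e_2_0 +
      (349/576576000) * e_2_1 +
      (1/1585584) * e_4_0 +
      (-55/4) * f0
  have x_2_7 : s 2 7 = 0 := by
    linear_combination (-20) * t_4_5_6 +
      (20) * t_3_5_6 +
      (69/4) * t_1_4_6 +
      (-69/4) * t_7_8_9 +
      (20) * t_3_8_9 +
      (69/4) * t_1_7_9 +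
      (69/4) * t_2_7_8 +
      (-17675/64) * t_1_4_7 +
      (14315/64) * t_2_4_7 +
      (20) * t_2_5_8 +
      (-20) * t_3_5_8 +
      (-20) * t_3_6_9 +
      (3953/11) * t_1_6_10 +
      (-335847/704) * t_1_10_11 +
      (3953/11) * t_1_9_11 +
      (-16571/338257920) * e_1_0 +
      (-229/1677312000) * e_2_0 +
      (23/192192000) * e_2_1 +
      (1/7927920) * e_4_0 +
      (-11/4) * f0
  have x_2_8 : s 2 8 = 0 := by
    linear_combination (100) * t_4_5_6 +
      (-100) * t_3_5_6 +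
      (-345/4) * t_1_4_6 +
      (345/4) * t_7_8_9 +
      (-100) * t_3_8_9 +
      (-345/4) * t_1_7_9 +
      (-345/4) * t_2_7_8 +
      (88435/64) * t_1_4_7 +
      (-71635/64) * t_2_4_7 +
      (-100) * t_2_5_8 +
      (100) * t_3_5_8 +
      (100) * t_3_6_9 +
      (-19780/11) * t_1_6_10 +
      (1680495/704) * t_1_10_11 +
      (-19780/11) * t_1_9_11 +
      (2369/9664512) * e_1_0 +
      (383/559104000) * e_2_0 +
      (-349/576576000) * e_2_1 +
      (-1/1585584) * e_4_0 +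
      (55/4) * f0
  have x_3_5 : s 3 5 = 0 := by
    linear_combination (-13/12) * t_3_8_9 +
      (1375/192) * t_1_4_7 +
      (-1375/192) * t_2_4_7 +
      (-25/24) * t_2_5_8 +
      (25/24) * t_3_5_8 +
      (13/24) * t_3_6_9 +
      (-125/12) * t_1_6_10 +
      (875/64) * t_1_10_11 +
      (-125/12) * t_1_9_11 +
      (25/18450432) * e_1_0 +
      (1/201277440) * e_2_0 +
      (-1/97574400) * e_3_1 +
      (13/12) * f0
  have x_3_6 : s 3 6 = 0 := by
    linear_combination (1/12) * t_3_8_9 +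
      (-55/192) * t_1_4_7 +
      (55/192) * t_2_4_7 +
      (1/24) * t_2_5_8 +
      (-1/24) * t_3_5_8 +
      (11/24) * t_3_6_9 +
      (5/12) * t_1_6_10 +
      (-35/64) * t_1_10_11 +
      (5/12) * t_1_9_11 +
      (-1/18450432) * e_1_0 +
      (-1/5031936000) * e_2_0 +
      (1/97574400) * e_3_1 +
      (-1/12) * f0
  have x_3_8 : s 3 8 = 0 := by
    linear_combination (13/12) * t_3_8_9 +
      (-55/192) * t_1_4_7 +
      (55/192) * t_2_4_7 +
      (1/24) * t_2_5_8 +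
      (-1/24) * t_3_5_8 +
      (-13/24) * t_3_6_9 +
      (5/12) * t_1_6_10 +
      (-35/64) * t_1_10_11 +
      (5/12) * t_1_9_11 +
      (-1/18450432) * e_1_0 +
      (-1/5031936000) * e_2_0 +
      (1/97574400) * e_3_1 +
      (-13/12) * f0
  have x_3_9 : s 3 9 = 0 := by
    linear_combination (-1/12) * t_3_8_9 +
      (55/192) * t_1_4_7 +
      (-55/192) * t_2_4_7 +
      (-1/24) * t_2_5_8 +
      (1/24) * t_3_5_8 +
      (13/24) * t_3_6_9 +
      (-5/12) * t_1_6_10 +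
      (35/64) * t_1_10_11 +
      (-5/12) * t_1_9_11 +
      (1/18450432) * e_1_0 +
      (1/5031936000) * e_2_0 +
      (-1/97574400) * e_3_1 +
      (1/12) * f0
  have x_4_5 : s 4 5 = 0 := by
    linear_combination (81) * t_4_5_6 +
      (-81) * t_3_5_6 +
      (-70) * t_1_4_6 +
      (70) * t_7_8_9 +
      (-81) * t_3_8_9 +
      (-70) * t_1_7_9 +
      (-70) * t_2_7_8 +
      (2225/2) * t_1_4_7 +
      (-1805/2) * t_2_4_7 +
      (-81) * t_2_5_8 +
      (81) * t_3_5_8 +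
      (81) * t_3_6_9 +
      (-15910/11) * t_1_6_10 +
      (42245/22) * t_1_10_11 +
      (-15910/11) * t_1_9_11 +
      (139/704704) * e_1_0 +
      (29/52416000) * e_2_0 +
      (-1/2059200) * e_2_1 +
      (-1/1981980) * e_4_0 +
      (11) * f0
  have x_4_6 : s 4 6 = 0 := by
    linear_combination (-80) * t_4_5_6 +
      (80) * t_3_5_6 +
      (70) * t_1_4_6 +
      (-70) * t_7_8_9 +
      (80) * t_3_8_9 +
      (70) * t_1_7_9 +
      (70) * t_2_7_8 +
      (-8845/8) * t_1_4_7 +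
      (7165/8) * t_2_4_7 +
      (80) * t_2_5_8 +
      (-80) * t_3_5_8 +
      (-80) * t_3_6_9 +
      (15800/11) * t_1_6_10 +
      (-167825/88) * t_1_10_11 +
      (15800/11) * t_1_9_11 +
      (-1657/8456448) * e_1_0 +
      (-23/41932800) * e_2_0 +
      (1/2059200) * e_2_1 +
      (1/1981980) * e_4_0 +
      (-10) * f0
  have x_4_7 : s 4 7 = 0 := by
    linear_combination (1) * t_1_4_7 +
      (-16/11) * t_1_6_10 +
      (21/11) * t_1_10_11 +
      (-16/11) * t_1_9_11 +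
      (1/5285280) * e_1_0
  have x_5_6 : s 5 6 = 0 := by
    linear_combination (1) * t_3_5_6 +
      (1) * t_3_8_9 +
      (-55/8) * t_1_4_7 +
      (55/8) * t_2_4_7 +
      (1) * t_2_5_8 +
      (-1) * t_3_5_8 +
      (-1) * t_3_6_9 +
      (10) * t_1_6_10 +
      (-105/8) * t_1_10_11 +
      (10) * t_1_9_11 +
      (-1/768768) * e_1_0 +
      (-1/209664000) * e_2_0 +
      (-1) * f0
  have x_5_8 : s 5 8 = 0 := by
    linear_combination (-55/8) * t_1_4_7 +
      (55/8) * t_2_4_7 +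
      (1) * t_2_5_8 +
      (10) * t_1_6_10 +
      (-105/8) * t_1_10_11 +
      (10) * t_1_9_11 +
      (-1/768768) * e_1_0 +
      (-1/209664000) * e_2_0
  have x_7_8 : s 7 8 = 0 := by
    linear_combination (-80) * t_4_5_6 +
      (80) * t_3_5_6 +
      (69) * t_1_4_6 +
      (-69) * t_7_8_9 +
      (80) * t_3_8_9 +
      (69) * t_1_7_9 +
      (70) * t_2_7_8 +
      (-8845/8) * t_1_4_7 +
      (7165/8) * t_2_4_7 +
      (80) * t_2_5_8 +
      (-80) * t_3_5_8 +
      (-80) * t_3_6_9 +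
      (15827/11) * t_1_6_10 +
      (-168081/88) * t_1_10_11 +
      (15827/11) * t_1_9_11 +
      (-8293/42282240) * e_1_0 +
      (-23/41932800) * e_2_0 +
      (1/2059200) * e_2_1 +
      (1/1981980) * e_4_0 +
      (-11) * f0
  have x_7_9 : s 7 9 = 0 := by
    linear_combination (80) * t_4_5_6 +
      (-80) * t_3_5_6 +
      (-69) * t_1_4_6 +
      (70) * t_7_8_9 +
      (-80) * t_3_8_9 +
      (-69) * t_1_7_9 +
      (-70) * t_2_7_8 +
      (8845/8) * t_1_4_7 +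
      (-7165/8) * t_2_4_7 +
      (-80) * t_2_5_8 +
      (80) * t_3_5_8 +
      (80) * t_3_6_9 +
      (-15827/11) * t_1_6_10 +
      (168081/88) * t_1_10_11 +
      (-15827/11) * t_1_9_11 +
      (8293/42282240) * e_1_0 +
      (23/41932800) * e_2_0 +
      (-1/2059200) * e_2_1 +
      (-1/1981980) * e_4_0 +
      (10) * f0
  apply ext0 h
  intro e he
  simp only [innL, List.mem_cons, List.not_mem_nil, or_false] at he
  rcases he with rfl | rfl | rfl | rfl | rfl | rfl | rfl | rfl | rfl | rfl | rfl | rfl | rfl | rfl | rfl | rfl | rfl | rfl | rfl | rfl | rfl | rfl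
  · exact x_1_4
  · exact x_1_6
  · exact x_1_7
  · exact x_1_9
  · exact x_1_10
  · exact x_1_11
  · exact x_2_4
  · exact x_2_5
  · exact x_2_7
  · exact x_2_8
  · exact x_3_5
  · exact x_3_6
  · exact x_3_8
  · exact x_3_9
  · exact x_4_5
  · exact x_4_6
  · exact x_4_7
  · exact x_5_6
  · exact x_5_8
  · exact x_7_8
  · exact x_7_9
  · exact f0

/-- the solution for `w = 45` -/
def B45 : Fin 12 → Fin 12 → ℤ :=
  ![![0, 0, 0, 0, 0, 0, 0, 0, 0, 0, 0, 0],
    ![0, 0, 0, 0, 110, 0, 10, -110, 0, -10, -10, 10],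
    ![0, 0, 0, 0, 33, -165, 0, -33, 165, 0, 0, 0],
    ![0, 0, 0, 0, 0, 13, -1, 0, -13, 1, 0, 0],
    ![0, 110, 33, 0, 0, 132, -120, 0, 0, 0, 0, 0],
    ![0, 0, -165, 13, 132, 0, -12, 0, 0, 0, 0, 0],
    ![0, 10, 0, -1, -120, -12, 0, 0, 0, 0, 0, 0],
    ![0, -110, -33, 0, 0, 0, 0, 0, -132, 120, 0, 0],
    ![0, 0, 165, -13, 0, 0, 0, -132, 0, 12, 0, 0],
    ![0, -10, 0, 1, 0, 0, 0, 120, 12, 0, 0, 0],
    ![0, -10, 0, 0, 0, 0, 0, 0, 0, 0, 0, 0],
    ![0, 10, 0, 0, 0, 0, 0, 0, 0, 0, 0, 0]]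

theorem B45_sym : ∀ p q, B45 p q = B45 q p := by decide +kernel

theorem B45_supp : ∀ p q, ¬ ((p, q) ∈ innL ∨ (q, p) ∈ innL) → B45 p q = 0 := by
  decide +kernel

theorem B45_tri : ∀ p q r, ({0, p, q, r} : Finset (Fin 12)) ∈ tetF → B45 p q + B45 q r + B45 r p = 0 := by
  decide +kernel

theorem B45_bal : ∀ p j, ∑ q, B45 p q * (C45 p q * posI 45 q j) = 0 := by decide +kernel

theorem B45_val : B45 8 9 = 12 := by decide +kernel

/-- the common denominator -/
def LL45 : ℤ := 396396000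

theorem B_mem : (fun p q => (B45 p q : ℝ)) ∈ Sp 45 := by
  refine ⟨fun p q => ?_, fun p q hpq => ?_, fun p q r ht => ?_, fun p => ?_⟩
  · show (B45 p q : ℝ) = (B45 q p : ℝ)
    rw [B45_sym p q]
  · show (B45 p q : ℝ) = 0
    rw [B45_supp p q fun h => hpq ((mem_inn p q).2 h), Int.cast_zero]
  · show (B45 p q : ℝ) + (B45 q r : ℝ) + (B45 r p : ℝ) = 0
    exact_mod_cast B45_tri p q r ht
  · rw [LO.VV_tetF]
    ext j
    rw [Finset.sum_apply]
    have h4 : ∀ q, (((B45 p q : ℝ) * coefG tetF 0 (fun a b c => (dI 45 a b c : ℝ)) p q) •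
        pt 45 q) j = ((B45 p q * (C45 p q * posI 45 q j) : ℤ) : ℝ) / (LL45 : ℤ) := by
      intro q
      rw [Pi.smul_apply, smul_eq_mul]
      by_cases hpq : (p, q) ∈ innL ∨ (q, p) ∈ innL
      · rw [coef_val cert45 hpq]
        unfold pt LL45
        push_cast
        ring
      · rw [B45_supp p q hpq]
        simp
    simp only [h4]
    rw [← Finset.sum_div, ← Int.cast_sum, B45_bal p j, Int.cast_zero, zero_div]
    rfl

/-- the coordinate -/
def co : Sp 45 →ₗ[ℝ] ℝ where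
  toFun s := s.1 8 9
  map_add' _ _ := rfl
  map_smul' _ _ := rfl

theorem fin45 : Module.finrank ℝ (Sp 45) = 1 := by
  have hinj : Function.Injective co := by
    rw [← LinearMap.ker_eq_bot, LinearMap.ker_eq_bot']
    intro s hs
    exact Subtype.ext (inj45 s.2 hs)
  have hsurj : Function.Surjective co := by
    intro x
    refine ⟨(x / 12) • ⟨_, B_mem⟩, ?_⟩
    rw [map_smul]
    show x / 12 * (B45 8 9 : ℝ) = x
    rw [B45_val]
    norm_num
  rw [LinearEquiv.finrank_eq (LinearEquiv.ofBijective co ⟨hinj, hsurj⟩), Module.finrank_self]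

theorem fin44 : Module.finrank ℝ (Sp 44) = 0 := by
  have h : Sp 44 = ⊥ := by
    rw [Submodule.eq_bot_iff]
    intro s hs
    exact inj44 hs
  rw [h, finrank_bot]

end LS

theorem blk_LS : Stmt_LS := ⟨LS.fin45, LS.fin44⟩

end Pool.CB
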