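import Pool.Agent.Work.CB2.Interface

open scoped BigOperators
open Finset

noncomputable section

namespace Pool.CB

/-! ### Multi-indices of small degree -/

section idx

variable {P : Type*} [DecidableEq P]

theorem s2_deg_succ {n : ℕ} {a : P →₀ ℕ} (ha : a.degree = n + 1) :
    ∃ (p : P) (a' : P →₀ ℕ), a'.degree = n ∧ a = a' + Finsupp.single p 1 := by
  have hne : a.support.Nonempty := by
    rw [Finset.nonempty_iff_ne_empty]
    intro h0
    rw [Finsupp.support_eq_empty] at h0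
    rw [h0] at ha
    simp at ha
  obtain ⟨p, hp⟩ := hne
  have h1 := (sub_single_eq_iff hp).1 (rfl : a - Finsupp.single p 1 = a - Finsupp.single p 1)
  refine ⟨p, a - Finsupp.single p 1, ?_, h1.symm⟩
  have := degree_sub_single hp
  omega

omit [DecidableEq P] in
theorem s2_deg_zero {a : P →₀ ℕ} (ha : a.degree = 0) : a = 0 := by
  rwa [Finsupp.degree_eq_zero_iff] at ha

theorem s2_deg_two {a : P →₀ ℕ} (ha : a.degree = 2) :
    (∃ p, a = Finsupp.single p 2) ∨
      ∃ p q, p ≠ q ∧ a = Finsupp.single p 1 + Finsupp.single q 1 := by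
  obtain ⟨p, a1, h1, rfl⟩ := s2_deg_succ ha
  obtain ⟨q, a2, h2, rfl⟩ := s2_deg_succ h1
  rw [s2_deg_zero h2, zero_add]
  by_cases hpq : q = p
  · subst hpq
    left
    exact ⟨q, by rw [← Finsupp.single_add]⟩
  · right
    exact ⟨q, p, hpq, rfl⟩

theorem s2_deg_three {a : P →₀ ℕ} (ha : a.degree = 3) :
    (∃ p, a = Finsupp.single p 3) ∨
      (∃ p q, p ≠ q ∧ a = Finsupp.single p 2 + Finsupp.single q 1) ∨
      ∃ p q r, p ≠ q ∧ p ≠ r ∧ q ≠ r ∧
        a = Finsupp.single p 1 + Finsupp.single q 1 + Finsupp.single r 1 := by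
  obtain ⟨r, a1, h1, rfl⟩ := s2_deg_succ ha
  rcases s2_deg_two h1 with ⟨p, rfl⟩ | ⟨p, q, hpq, rfl⟩
  · by_cases hpr : p = r
    · subst hpr
      left
      exact ⟨p, by rw [← Finsupp.single_add]⟩
    · right; left
      exact ⟨p, r, hpr, rfl⟩
  · by_cases hpr : p = r
    · subst hpr
      right; left
      refine ⟨p, q, hpq, ?_⟩
      have : (Finsupp.single p 2 : P →₀ ℕ) = Finsupp.single p 1 + Finsupp.single p 1 := by
        rw [← Finsupp.single_add]
      rw [this]; abel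
    · by_cases hqr : q = r
      · subst hqr
        right; left
        refine ⟨q, p, hpq.symm, ?_⟩
        have : (Finsupp.single q 2 : P →₀ ℕ) = Finsupp.single q 1 + Finsupp.single q 1 := by
          rw [← Finsupp.single_add]
        rw [this]; abel
      · right; right
        exact ⟨p, q, r, hpq, hpr, hqr, rfl⟩

end idx

/-! ### The link -/

section link

variable {P : Type*} [DecidableEq P] {W : Type*} [AddCommGroup W] [Module ℝ W]
variable {T : Finset (Finset P)} {v : P}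

theorem s2_mem_lk {t : Finset P} : t ∈ lk T v ↔ v ∉ t ∧ insert v t ∈ T := by
  rw [lk, Finset.mem_image]
  constructor
  · rintro ⟨s, hs, rfl⟩
    rw [Tv, Finset.mem_filter] at hs
    refine ⟨Finset.notMem_erase _ _, ?_⟩
    rw [Finset.insert_erase hs.2]
    exact hs.1
  · rintro ⟨hv, ht⟩
    refine ⟨insert v t, Finset.mem_filter.2 ⟨ht, Finset.mem_insert_self _ _⟩, ?_⟩
    rw [Finset.erase_insert hv]

theorem s2_mem_nb {s : Finset P} {x : P} :
    x ∈ nb (lk T v) s ↔ v ∉ s ∧ x ≠ v ∧ ∃ t ∈ T, v ∈ t ∧ s ⊆ t ∧ x ∈ t := by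
  rw [mem_nb]
  constructor
  · rintro ⟨t, ht, hst, hx⟩
    obtain ⟨hv, hT⟩ := s2_mem_lk.1 ht
    refine ⟨fun hh => hv (hst hh), ?_, insert v t, hT, Finset.mem_insert_self _ _,
      hst.trans (Finset.subset_insert _ _), Finset.mem_insert_of_mem hx⟩
    rintro rfl
    exact hv hx
  · rintro ⟨hv, hxv, t, ht, hvt, hst, hx⟩
    refine ⟨t.erase v, s2_mem_lk.2 ⟨Finset.notMem_erase _ _, ?_⟩, ?_, ?_⟩
    · rw [Finset.insert_erase hvt]; exact ht
    · intro y hy
      exact Finset.mem_erase.2 ⟨fun hh => hv (hh ▸ hy), hst hy⟩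
    · exact Finset.mem_erase.2 ⟨hxv, hx⟩

end link

section geo

variable (Δ : TetComplex) (v : E3)

theorem s2_hq (p : E3) : hq hc (LinearMap.snd ℝ E3 ℝ) v p = (p - v, 0) := by
  simp [hq, hc]

theorem s2_mem_Rel {s : Finset E3} {r : E3 →₀ ℝ} :
    r ∈ Rel (lk Δ.tets v) (hq hc (LinearMap.snd ℝ E3 ℝ) v) s ↔
      (∀ x, x ∉ nb (lk Δ.tets v) s → r x = 0) ∧ r.sum (fun x c => c • (x - v)) = 0 := by
  have h1 : Finsupp.linearCombination ℝ (hq hc (LinearMap.snd ℝ E3 ℝ) v) r
      = (r.sum (fun x c => c • (x - v)), 0) := by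
    rw [Finsupp.linearCombination_apply]
    simp only [s2_hq, Finsupp.sum]
    refine Prod.ext ?_ ?_
    · rw [Prod.fst_sum]; rfl
    · rw [Prod.snd_sum]; simp
  constructor
  · intro hr
    refine ⟨fun x hx => Rel_apply_eq_zero hr hx, ?_⟩
    have h2 := LinearMap.mem_ker.1 (Submodule.mem_inf.1 hr).2
    rw [h1] at h2
    exact congrArg Prod.fst h2
  · rintro ⟨hr1, hr2⟩
    refine Submodule.mem_inf.2 ⟨?_, ?_⟩
    · rw [Finsupp.mem_supported]
      intro x hx
      by_contra hn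
      exact (Finsupp.mem_support_iff.1 hx) (hr1 x hn)
    · rw [LinearMap.mem_ker, h1, hr2]
      rfl

/-- The determinant as a polynomial. -/
theorem s2_dt (x y z : E3) : dt v x y z =
    (x 0 - v 0) * ((y 1 - v 1) * (z 2 - v 2) - (y 2 - v 2) * (z 1 - v 1))
      - (x 1 - v 1) * ((y 0 - v 0) * (z 2 - v 2) - (y 2 - v 2) * (z 0 - v 0))
      + (x 2 - v 2) * ((y 0 - v 0) * (z 1 - v 1) - (y 1 - v 1) * (z 0 - v 0)) := by
  rw [dt, Matrix.det_fin_three]
  simp
  ring

theorem s2_dt_swap (x y z : E3) : dt v y x z = - dt v x y z := by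
  rw [s2_dt, s2_dt]; ring

theorem s2_dt_swap' (x y z : E3) : dt v x z y = - dt v x y z := by
  rw [s2_dt, s2_dt]; ring

theorem s2_dt_cyc (x y z : E3) : dt v y z x = dt v x y z := by
  rw [s2_dt, s2_dt]; ring

theorem s2_dt_same (x y : E3) : dt v x x y = 0 := by
  rw [s2_dt]; ring

theorem s2_dt_same' (x y : E3) : dt v x y y = 0 := by
  rw [s2_dt]; ring

/-- Four vectors in three-space. -/
theorem s2_four (x y z w : E3) :
    dt v x y w • (z - v) - dt v x y z • (w - v)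
      = dt v z y w • (x - v) - dt v z x w • (y - v) := by
  funext i
  rw [s2_dt, s2_dt, s2_dt, s2_dt]
  fin_cases i <;> simp <;> ring

theorem s2_dt_ne {p q a : E3} (ht : ({v, p, q, a} : Finset E3) ∈ Δ.tets) : dt v p q a ≠ 0 := by
  intro h0
  rw [dt] at h0
  obtain ⟨c, hc0, hc1⟩ := Matrix.exists_vecMul_eq_zero_iff.2 h0
  have h1 : c 0 • (p - v) + c 1 • (q - v) + c 2 • (a - v) = 0 := by
    funext i
    have := congrFun hc1 i
    simp [Matrix.vecMul, dotProduct, Fin.sum_univ_three] at this ⊢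
    linarith
  have h2 := four_indep (isFan Δ) ht (a := -(c 0 + c 1 + c 2)) (b := c 0) (c := c 1) (d := c 2) (by
    refine Prod.ext ?_ ?_
    · simp only [hc, Prod.smul_mk, Prod.fst_add, Prod.fst_zero]
      rw [← h1]
      module
    · simp only [hc, Prod.smul_mk, Prod.snd_add, Prod.snd_zero, smul_eq_mul]
      ring)
  apply hc0
  funext i
  fin_cases i
  · exact h2.2.1
  · exact h2.2.2.1
  · exact h2.2.2.2

theorem s2_dt_opp {p q a b : E3} (ha : ({v, p, q, a} : Finset E3) ∈ Δ.tets)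
    (hb : ({v, p, q, b} : Finset E3) ∈ Δ.tets) (hab : a ≠ b) : dt v p q a * dt v p q b < 0 := by
  obtain ⟨x, y, z, w, hh⟩ := four_span (isFan Δ) ha (hc b)
  have hw := opp_lemma (isFan Δ) ha hb hab.symm hh
  have h1 := congrArg Prod.fst hh
  have h2 := congrArg Prod.snd hh
  simp only [hc, Prod.smul_mk, Prod.fst_add, Prod.snd_add, smul_eq_mul, mul_one] at h1 h2
  have h3 : dt v p q b = w * dt v p q a := by
    have hx : x = 1 - y - z - w := by linarith
    have e : ∀ i, b i = x * v i + y * p i + z * q i + w * a i := by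
      intro i
      have := congrFun h1 i
      simpa using this
    rw [s2_dt, s2_dt, e 0, e 1, e 2, hx]
    ring
  have h4 := s2_dt_ne Δ v ha
  rw [h3]
  have : 0 < dt v p q a * dt v p q a := mul_self_pos.2 h4
  nlinarith

/-- The face `{v, p, q}` lies in two tetrahedra. -/
theorem s2_inn {p q : E3} : InnG Δ.tets {v, p, q} ↔
    ∃ a b, a ≠ b ∧ ({v, p, q, a} : Finset E3) ∈ Δ.tets ∧ ({v, p, q, b} : Finset E3) ∈ Δ.tets := by
  constructor
  · rintro ⟨hf, s, hs, t, ht, hst, hfs, hft⟩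
    have hc := (mem_FF.1 hf).2
    have h3 : v ≠ p ∧ v ≠ q ∧ p ≠ q := by
      refine ⟨?_, ?_, ?_⟩
      · rintro rfl
        have : ({v, v, q} : Finset E3).card ≤ 2 := by
          rw [Finset.insert_eq_of_mem (by simp)]; exact Finset.card_le_two
        omega
      · rintro rfl
        have : ({v, p, v} : Finset E3).card ≤ 2 := by
          rw [Finset.insert_eq_of_mem (by simp)]; exact Finset.card_le_two
        omega
      · rintro rfl
        have : ({v, p, p} : Finset E3).card ≤ 2 := by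
          rw [Finset.insert_eq_of_mem (s := {p}) (by simp)]; exact Finset.card_le_two
        omega
    obtain ⟨h1, h2, h4⟩ := h3
    have key : ∀ s ∈ Δ.tets, ({v, p, q} : Finset E3) ⊆ s → ∃ a, s = {v, p, q, a} := by
      intro s hs hfs
      have h5 : ∃ a ∈ s, a ∉ ({v, p, q} : Finset E3) := by
        by_contra hcon
        push Not at hcon
        have := Finset.card_le_card (fun x hx => hcon x hx : s ⊆ {v, p, q})
        rw [hc, (isFan Δ).card_eq s hs] at this
        omega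
      obtain ⟨a, has, ha⟩ := h5
      simp only [Finset.mem_insert, Finset.mem_singleton, not_or] at ha
      exact ⟨a, subset_eq_four (isFan Δ) hs h1 h2 (Ne.symm ha.1) h4 (Ne.symm ha.2.1)
        (Ne.symm ha.2.2) (hfs (by simp)) (hfs (by simp)) (hfs (by simp)) has⟩
    obtain ⟨a, rfl⟩ := key s hs hfs
    obtain ⟨b, rfl⟩ := key t ht hft
    exact ⟨a, b, fun hab => hst (by rw [hab]), hs, ht⟩
  · rintro ⟨a, b, hab, ha, hb⟩
    obtain ⟨h1, h2, h3, h4, h5, h6⟩ := four_ne (isFan Δ) ha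
    refine ⟨mem_FF.2 ⟨⟨_, ha, ?_⟩, ?_⟩, _, ha, _, hb, ?_, ?_, ?_⟩
    · intro x; simp only [Finset.mem_insert, Finset.mem_singleton]; tauto
    · rw [Finset.card_eq_three]; exact ⟨v, p, q, h1, h2, h4, rfl⟩
    · intro hh
      have : a ∈ ({v, p, q, b} : Finset E3) := by rw [← hh]; simp
      simp only [Finset.mem_insert, Finset.mem_singleton] at this
      rcases this with h | h | h | h
      · exact h3 h.symm
      · exact h5 h.symm
      · exact h6 h.symm
      · exact hab h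
    · intro x; simp only [Finset.mem_insert, Finset.mem_singleton]; tauto
    · intro x; simp only [Finset.mem_insert, Finset.mem_singleton]; tauto

theorem s2_third {p q a b c : E3} (hab : a ≠ b) (ha : ({v, p, q, a} : Finset E3) ∈ Δ.tets)
    (hb : ({v, p, q, b} : Finset E3) ∈ Δ.tets) (hc : ({v, p, q, c} : Finset E3) ∈ Δ.tets) :
    c = a ∨ c = b := by
  obtain ⟨h1, h2, h3, h4, h5, h6⟩ := four_ne (isFan Δ) hc
  exact third_tet (isFan Δ) ha hb hab.symm hc (by simp) (by simp) (by simp) (by simp)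
    h3.symm h5.symm h6.symm

theorem s2_mem_VV {p q a : E3} (ha : ({v, p, q, a} : Finset E3) ∈ Δ.tets) : a ∈ VV Δ.tets :=
  mem_VV.2 ⟨_, ha, by simp⟩

theorem s2_sum_two {p q a b : E3} (hab : a ≠ b) (ha : ({v, p, q, a} : Finset E3) ∈ Δ.tets)
    (hb : ({v, p, q, b} : Finset E3) ∈ Δ.tets) (f : E3 → ℝ) :
    ∑ x ∈ VV Δ.tets, (if ({v, p, q, x} : Finset E3) ∈ Δ.tets then f x else 0) = f a + f b := by
  have hsub : ({a, b} : Finset E3) ⊆ VV Δ.tets := by
    intro x hx
    simp only [Finset.mem_insert, Finset.mem_singleton] at hx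
    rcases hx with rfl | rfl
    · exact s2_mem_VV Δ v ha
    · exact s2_mem_VV Δ v hb
  rw [← Finset.sum_subset hsub, Finset.sum_pair hab, if_pos ha, if_pos hb]
  intro x _ hx
  simp only [Finset.mem_insert, Finset.mem_singleton, not_or] at hx
  rw [if_neg]
  intro hxt
  rcases s2_third Δ v hab ha hb hxt with h | h
  · exact hx.1 h
  · exact hx.2 h

/-- The coefficient. -/
def s2_C (p q : E3) : ℝ := coefG Δ.tets v (dt v) p q

theorem s2_C_eq {p q a b : E3} (hab : a ≠ b) (ha : ({v, p, q, a} : Finset E3) ∈ Δ.tets)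
    (hb : ({v, p, q, b} : Finset E3) ∈ Δ.tets) :
    s2_C Δ v p q = dt v a q b / (|dt v p q a| * dt v p q b) := by
  have h1 : s2_C Δ v p q = dt v a q b / (2 * |dt v p q a| * dt v p q b)
      + dt v b q a / (2 * |dt v p q b| * dt v p q a) := by
    rw [s2_C, coefG]
    have h2 : ∀ x ∈ VV Δ.tets, (∑ y ∈ VV Δ.tets,
        if x ≠ y ∧ ({v, p, q, x} : Finset E3) ∈ Δ.tets ∧ ({v, p, q, y} : Finset E3) ∈ Δ.tets
        then dt v x q y / (2 * |dt v p q x| * dt v p q y) else 0)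
        = if ({v, p, q, x} : Finset E3) ∈ Δ.tets then
          (if x ≠ a then dt v x q a / (2 * |dt v p q x| * dt v p q a) else 0)
          + (if x ≠ b then dt v x q b / (2 * |dt v p q x| * dt v p q b) else 0) else 0 := by
      intro x _
      rw [← s2_sum_two Δ v hab ha hb
        (fun y => if x ≠ y then dt v x q y / (2 * |dt v p q x| * dt v p q y) else 0)]
      by_cases hx : ({v, p, q, x} : Finset E3) ∈ Δ.tets
      · rw [if_pos hx]
        refine Finset.sum_congr rfl fun y _ => ?_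
        by_cases hxy : x = y
        · subst hxy; simp
        · by_cases hy : ({v, p, q, y} : Finset E3) ∈ Δ.tets
          · rw [if_pos ⟨hxy, hx, hy⟩, if_pos hy, if_pos hxy]
          · rw [if_neg (fun h => hy h.2.2), if_neg hy]
      · rw [if_neg hx]
        refine Finset.sum_eq_zero fun y _ => ?_
        rw [if_neg (fun h => hx h.2.1)]
    rw [Finset.sum_congr rfl h2, s2_sum_two Δ v hab ha hb]
    simp [hab, hab.symm]
  have h3 := s2_dt_opp Δ v ha hb hab
  have h4 := s2_dt_ne Δ v ha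
  have h5 := s2_dt_ne Δ v hb
  have h6 : |dt v p q b| * dt v p q a = -(|dt v p q a| * dt v p q b) := by
    rcases lt_or_gt_of_ne h4 with h | h
    · have h' : 0 < dt v p q b := by nlinarith
      rw [abs_of_neg h, abs_of_pos h']; ring
    · have h' : dt v p q b < 0 := by nlinarith
      rw [abs_of_pos h, abs_of_neg h']; ring
  have h7 : dt v b q a = - dt v a q b := by rw [s2_dt, s2_dt]; ring
  have h8 : |dt v p q a| ≠ 0 := abs_ne_zero.2 h4
  rw [h1, h7, mul_assoc, mul_assoc, h6]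
  field_simp
  ring

theorem s2_C_zero {p q : E3} (h : ¬ InnG Δ.tets {v, p, q}) : s2_C Δ v p q = 0 := by
  rw [s2_C, coefG]
  refine Finset.sum_eq_zero fun x _ => Finset.sum_eq_zero fun y _ => ?_
  rw [if_neg]
  rintro ⟨hxy, hx, hy⟩
  exact h ((s2_inn Δ v).2 ⟨x, y, hxy, hx, hy⟩)

theorem s2_swap_face (p q : E3) : ({v, p, q} : Finset E3) = {v, q, p} := by
  ext x; simp only [Finset.mem_insert, Finset.mem_singleton]; tauto

theorem s2_swap_tet (p q a : E3) : ({v, p, q, a} : Finset E3) = {v, q, p, a} := by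
  ext x; simp only [Finset.mem_insert, Finset.mem_singleton]; tauto

theorem s2_swap_tet' (p q a : E3) : ({v, p, q, a} : Finset E3) = {v, p, a, q} := by
  ext x; simp only [Finset.mem_insert, Finset.mem_singleton]; tauto

theorem s2_not_inn_self (p : E3) : ¬ InnG Δ.tets {v, p, p} := by
  rintro ⟨hf, -⟩
  have hc := (mem_FF.1 hf).2
  have : ({v, p, p} : Finset E3).card ≤ 2 := by
    rw [Finset.insert_eq_of_mem (s := {p}) (by simp)]; exact Finset.card_le_two
  omega

/-- The relation of an inner face. -/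
def s2_R (p q : E3) : E3 →₀ ℝ :=
  Finsupp.onFinset (insert p (insert q (VV Δ.tets)))
    (fun a => if ({v, p, q, a} : Finset E3) ∈ Δ.tets then 1 / |dt v p q a|
      else if a = p then - s2_C Δ v p q else if a = q then - s2_C Δ v q p else 0) (by
      intro a ha
      by_contra hn
      simp only [Finset.mem_insert, not_or] at hn
      apply ha
      rw [if_neg (fun h => hn.2.2 (s2_mem_VV Δ v h)), if_neg hn.1, if_neg hn.2.1])

theorem s2_R_apply (p q a : E3) : s2_R Δ v p q a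
    = if ({v, p, q, a} : Finset E3) ∈ Δ.tets then 1 / |dt v p q a|
      else if a = p then - s2_C Δ v p q else if a = q then - s2_C Δ v q p else 0 := rfl

theorem s2_R_tet {p q a : E3} (ha : ({v, p, q, a} : Finset E3) ∈ Δ.tets) :
    s2_R Δ v p q a = 1 / |dt v p q a| := by
  rw [s2_R_apply, if_pos ha]

theorem s2_R_left {p q : E3} : s2_R Δ v p q p = - s2_C Δ v p q := by
  rw [s2_R_apply, if_neg, if_pos rfl]
  intro h
  exact (four_ne (isFan Δ) h).2.2.2.2.1 rfl

theorem s2_R_right {p q : E3} (hpq : p ≠ q) : s2_R Δ v p q q = - s2_C Δ v q p := by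
  rw [s2_R_apply, if_neg, if_neg hpq.symm, if_pos rfl]
  intro h
  exact (four_ne (isFan Δ) h).2.2.2.2.2 rfl

theorem s2_R_other {p q a : E3} (hap : a ≠ p) (haq : a ≠ q)
    (ha : ({v, p, q, a} : Finset E3) ∉ Δ.tets) : s2_R Δ v p q a = 0 := by
  rw [s2_R_apply, if_neg ha, if_neg hap, if_neg haq]

theorem s2_R_swap {p q : E3} (hpq : p ≠ q) : s2_R Δ v q p = s2_R Δ v p q := by
  ext a
  by_cases ha : ({v, p, q, a} : Finset E3) ∈ Δ.tets
  · rw [s2_R_tet Δ v ha, s2_R_tet Δ v (s2_swap_tet v p q a ▸ ha), s2_dt_swap, abs_neg]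
  · by_cases hap : a = p
    · subst hap
      rw [s2_R_left, s2_R_right Δ v hpq.symm]
    · by_cases haq : a = q
      · subst haq
        rw [s2_R_left, s2_R_right Δ v hpq]
      · rw [s2_R_other Δ v hap haq ha, s2_R_other Δ v haq hap (s2_swap_tet v p q a ▸ ha)]

/-- Vertices of the star of an edge of the link. -/
theorem s2_nb_edge {p q x : E3} (hpq : p ≠ q) (hx : x ∈ nb (lk Δ.tets v) {p, q}) :
    ∃ a, ({v, p, q, a} : Finset E3) ∈ Δ.tets ∧ (x = p ∨ x = q ∨ x = a) := by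
  obtain ⟨hv, hxv, t, ht, hvt, hst, hxt⟩ := s2_mem_nb.1 hx
  simp only [Finset.mem_insert, Finset.mem_singleton, not_or] at hv
  have hc3 : ({v, p, q} : Finset E3).card = 3 := Finset.card_eq_three.2 ⟨v, p, q, hv.1, hv.2, hpq, rfl⟩
  have h5 : ∃ a ∈ t, a ∉ ({v, p, q} : Finset E3) := by
    by_contra hcon
    push Not at hcon
    have := Finset.card_le_card (fun x hx => hcon x hx : t ⊆ {v, p, q})
    rw [hc3, (isFan Δ).card_eq t ht] at this
    omega
  obtain ⟨a, hat, ha⟩ := h5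
  simp only [Finset.mem_insert, Finset.mem_singleton, not_or] at ha
  have h6 := subset_eq_four (isFan Δ) ht hv.1 hv.2 (Ne.symm ha.1) hpq (Ne.symm ha.2.1)
        (Ne.symm ha.2.2) hvt (hst (by simp)) (hst (by simp)) hat
  rw [h6] at hxt ht
  simp only [Finset.mem_insert, Finset.mem_singleton] at hxt
  exact ⟨a, ht, by tauto⟩

theorem s2_edge_nb {p q a : E3} (ha : ({v, p, q, a} : Finset E3) ∈ Δ.tets) :
    p ∈ nb (lk Δ.tets v) {p, q} ∧ q ∈ nb (lk Δ.tets v) {p, q} ∧ a ∈ nb (lk Δ.tets v) {p, q} := by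
  obtain ⟨h1, h2, h3, h4, h5, h6⟩ := four_ne (isFan Δ) ha
  have hv : v ∉ ({p, q} : Finset E3) := by simp [h1, h2]
  have hs : ({p, q} : Finset E3) ⊆ {v, p, q, a} := by
    intro x; simp only [Finset.mem_insert, Finset.mem_singleton]; tauto
  exact ⟨s2_mem_nb.2 ⟨hv, h1.symm, _, ha, by simp, hs, by simp⟩,
    s2_mem_nb.2 ⟨hv, h2.symm, _, ha, by simp, hs, by simp⟩,
    s2_mem_nb.2 ⟨hv, h3.symm, _, ha, by simp, hs, by simp⟩⟩

/-- Three vectors of a tetrahedron. -/
theorem s2_ind {p q a : E3} (ht : ({v, p, q, a} : Finset E3) ∈ Δ.tets) {x y z : ℝ}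
    (h : x • (p - v) + y • (q - v) + z • (a - v) = 0) : x = 0 ∧ y = 0 ∧ z = 0 := by
  have h2 := four_indep (isFan Δ) ht (a := -(x + y + z)) (b := x) (c := y) (d := z) (by
    refine Prod.ext ?_ ?_
    · simp only [hc, Prod.smul_mk, Prod.fst_add, Prod.fst_zero]
      rw [← h]
      module
    · simp only [hc, Prod.smul_mk, Prod.snd_add, Prod.snd_zero, smul_eq_mul]
      ring)
  exact ⟨h2.2.1, h2.2.2.1, h2.2.2.2⟩

theorem s2_rel_tri {s : Finset E3} {r : E3 →₀ ℝ}
    (hr : r ∈ Rel (lk Δ.tets v) (hq hc (LinearMap.snd ℝ E3 ℝ) v) s) {p q a : E3}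
    (ht : ({v, p, q, a} : Finset E3) ∈ Δ.tets) (hs : ∀ x, x ≠ p → x ≠ q → x ≠ a → r x = 0) :
    r = 0 := by
  obtain ⟨h1, h2, h3, h4, h5, h6⟩ := four_ne (isFan Δ) ht
  have h7 := ((s2_mem_Rel Δ v).1 hr).2
  have hsub : r.support ⊆ {p, q, a} := by
    intro x hx
    by_contra hn
    simp only [Finset.mem_insert, Finset.mem_singleton, not_or] at hn
    exact (Finsupp.mem_support_iff.1 hx) (hs x hn.1 hn.2.1 hn.2.2)
  rw [Finsupp.sum_of_support_subset r hsub _ (fun x _ => by simp),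
    Finset.sum_insert (by simp [h4, h5]), Finset.sum_pair h6, ← add_assoc] at h7
  obtain ⟨g1, g2, g3⟩ := s2_ind Δ v ht h7
  ext x
  by_cases hx1 : x = p
  · rw [hx1, g1]; rfl
  · by_cases hx2 : x = q
    · rw [hx2, g2]; rfl
    · by_cases hx3 : x = a
      · rw [hx3, g3]; rfl
      · rw [hs x hx1 hx2 hx3]; rfl

theorem s2_rel_not_inn {p q : E3} (hpq : p ≠ q) (hn : ¬ InnG Δ.tets {v, p, q}) {r : E3 →₀ ℝ}
    (hr : r ∈ Rel (lk Δ.tets v) (hq hc (LinearMap.snd ℝ E3 ℝ) v) {p, q}) : r = 0 := by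
  have h0 := ((s2_mem_Rel Δ v).1 hr).1
  by_cases hex : ∃ a, ({v, p, q, a} : Finset E3) ∈ Δ.tets
  · obtain ⟨a, ha⟩ := hex
    refine s2_rel_tri Δ v hr ha fun x hxp hxq hxa => h0 x fun hx => ?_
    obtain ⟨b, hb, hxb⟩ := s2_nb_edge Δ v hpq hx
    rcases hxb with h | h | h
    · exact hxp h
    · exact hxq h
    · subst h
      exact hn ((s2_inn Δ v).2 ⟨x, a, hxa, hb, ha⟩)
  · ext x
    refine h0 x fun hx => ?_
    obtain ⟨b, hb, -⟩ := s2_nb_edge Δ v hpq hx
    exact hex ⟨b, hb⟩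

theorem s2_R_zero {p q : E3} (hn : ¬ InnG Δ.tets {v, p, q}) : ∀ x,
    ({v, p, q, x} : Finset E3) ∉ Δ.tets → s2_R Δ v p q x = 0 := by
  intro x hx
  rw [s2_R_apply, if_neg hx, s2_C_zero Δ v hn, s2_C_zero Δ v (s2_swap_face v p q ▸ hn)]
  simp

theorem s2_R_mem {p q : E3} (hpq : p ≠ q) (hn : InnG Δ.tets {v, p, q}) :
    s2_R Δ v p q ∈ Rel (lk Δ.tets v) (hq hc (LinearMap.snd ℝ E3 ℝ) v) {p, q} := by
  obtain ⟨a, b, hab, ha, hb⟩ := (s2_inn Δ v).1 hn
  obtain ⟨h1, h2, h3, h4, h5, h6⟩ := four_ne (isFan Δ) ha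
  obtain ⟨g1, g2, g3, g4, g5, g6⟩ := four_ne (isFan Δ) hb
  obtain ⟨k1, k2, k3⟩ := s2_edge_nb Δ v ha
  obtain ⟨-, -, l3⟩ := s2_edge_nb Δ v hb
  refine (s2_mem_Rel Δ v).2 ⟨fun x hx => ?_, ?_⟩
  · refine s2_R_other Δ v ?_ ?_ ?_
    · rintro rfl; exact hx k1
    · rintro rfl; exact hx k2
    · intro hh
      exact hx (s2_edge_nb Δ v hh).2.2
  · have hsub : (s2_R Δ v p q).support ⊆ {p, q, a, b} := by
      intro x hx
      by_contra hne
      simp only [Finset.mem_insert, Finset.mem_singleton, not_or] at hne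
      refine (Finsupp.mem_support_iff.1 hx) (s2_R_other Δ v hne.1 hne.2.1 fun hh => ?_)
      rcases s2_third Δ v hab ha hb hh with h | h
      · exact hne.2.2.1 h
      · exact hne.2.2.2 h
    rw [Finsupp.sum_of_support_subset _ hsub _ (fun x _ => by simp),
      Finset.sum_insert (by simp [h4, h5, g5]), Finset.sum_insert (by simp [h6, g6]),
      Finset.sum_pair hab, s2_R_left, s2_R_right Δ v hpq, s2_R_tet Δ v ha, s2_R_tet Δ v hb,
      s2_C_eq Δ v hab ha hb, s2_C_eq Δ v hab (s2_swap_tet v p q a ▸ ha)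
        (s2_swap_tet v p q b ▸ hb), s2_dt_swap v p q a, s2_dt_swap v p q b, abs_neg]
    have e := s2_four v p q a b
    have e1 := s2_dt_ne Δ v ha
    have e2 := s2_dt_ne Δ v hb
    have e3 := s2_dt_opp Δ v ha hb hab
    have e4 : |dt v p q a| ≠ 0 := abs_ne_zero.2 e1
    have e5 : |dt v p q b| ≠ 0 := abs_ne_zero.2 e2
    have e6 : |dt v p q b| * dt v p q a = -(|dt v p q a| * dt v p q b) := by
      rcases lt_or_gt_of_ne e1 with h | h
      · have h' : 0 < dt v p q b := by nlinarith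
        rw [abs_of_neg h, abs_of_pos h']; ring
      · have h' : dt v p q b < 0 := by nlinarith
        rw [abs_of_pos h, abs_of_neg h']; ring
    have e7 : 1 / |dt v p q b| = - dt v p q a / (|dt v p q a| * dt v p q b) := by
      rw [div_eq_div_iff e5 (mul_ne_zero e4 e2)]
      linarith
    have e8 : 1 / |dt v p q a| = dt v p q b / (|dt v p q a| * dt v p q b) := by
      field_simp
    rw [e7, e8]
    have e9 : ∀ D : ℝ, -(dt v a q b / D) • (p - v) + (-(dt v a p b / -D) • (q - v)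
        + ((dt v p q b / D) • (a - v) + (- dt v p q a / D) • (b - v)))
        = (1 / D) • ((dt v p q b • (a - v) - dt v p q a • (b - v))
          - (dt v a q b • (p - v) - dt v a p b • (q - v))) := by
      intro D
      rw [div_neg]
      simp only [div_eq_mul_inv]
      module
    have e10 := e9 (|dt v p q a| * dt v p q b)
    rw [e, sub_self, smul_zero] at e10
    rw [← e10, mul_neg]

/-- The value of a relation of a face. -/
def s2_S (p q : E3) : (E3 →₀ ℝ) →ₗ[ℝ] ℝ where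
  toFun r := (1 / 2) * ∑ a ∈ VV Δ.tets,
    if ({v, p, q, a} : Finset E3) ∈ Δ.tets then r a * |dt v p q a| else 0
  map_add' := by
    intro r r'
    rw [← mul_add, ← Finset.sum_add_distrib]
    congr 1
    refine Finset.sum_congr rfl fun a _ => ?_
    split_ifs
    · rw [Finsupp.add_apply]; ring
    · simp
  map_smul' := by
    intro c r
    rw [RingHom.id_apply, smul_eq_mul, mul_left_comm]
    congr 1
    rw [Finset.mul_sum]
    refine Finset.sum_congr rfl fun a _ => ?_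
    split_ifs
    · rw [Finsupp.smul_apply, smul_eq_mul]; ring
    · simp

theorem s2_S_apply (p q : E3) (r : E3 →₀ ℝ) : s2_S Δ v p q r = (1 / 2) * ∑ a ∈ VV Δ.tets,
    if ({v, p, q, a} : Finset E3) ∈ Δ.tets then r a * |dt v p q a| else 0 := rfl

theorem s2_S_swap (p q : E3) (r : E3 →₀ ℝ) : s2_S Δ v q p r = s2_S Δ v p q r := by
  rw [s2_S_apply, s2_S_apply]
  congr 1
  refine Finset.sum_congr rfl fun a _ => ?_
  rw [s2_swap_tet v q p a, s2_dt_swap v p q a, abs_neg]

theorem s2_S_self (p : E3) (r : E3 →₀ ℝ) : s2_S Δ v p p r = 0 := by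
  rw [s2_S_apply, Finset.sum_eq_zero, mul_zero]
  intro a _
  rw [if_neg]
  intro h
  exact (four_ne (isFan Δ) h).2.2.2.1 rfl

theorem s2_S_R {p q : E3} (hn : InnG Δ.tets {v, p, q}) : s2_S Δ v p q (s2_R Δ v p q) = 1 := by
  obtain ⟨a, b, hab, ha, hb⟩ := (s2_inn Δ v).1 hn
  rw [s2_S_apply, s2_sum_two Δ v hab ha hb (fun x => s2_R Δ v p q x * |dt v p q x|),
    s2_R_tet Δ v ha, s2_R_tet Δ v hb,
    one_div_mul_cancel (abs_ne_zero.2 (s2_dt_ne Δ v ha)),
    one_div_mul_cancel (abs_ne_zero.2 (s2_dt_ne Δ v hb))]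
  norm_num

/-- Every relation of a face is a multiple of the standard one. -/
theorem s2_rel_eq {p q : E3} (hpq : p ≠ q) {r : E3 →₀ ℝ}
    (hr : r ∈ Rel (lk Δ.tets v) (hq hc (LinearMap.snd ℝ E3 ℝ) v) {p, q}) :
    r = s2_S Δ v p q r • s2_R Δ v p q := by
  by_cases hn : InnG Δ.tets {v, p, q}
  · obtain ⟨a, b, hab, ha, hb⟩ := (s2_inn Δ v).1 hn
    have hR := s2_R_mem Δ v hpq hn
    have h1 : r - (r a * |dt v p q a|) • s2_R Δ v p q = 0 := by
      have h2 := Submodule.sub_mem _ hr (Submodule.smul_mem _ (r a * |dt v p q a|) hR)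
      refine s2_rel_tri Δ v h2 hb fun x hxp hxq hxb => ?_
      by_cases hxa : x = a
      · subst hxa
        rw [Finsupp.sub_apply, Finsupp.smul_apply, s2_R_tet Δ v ha, smul_eq_mul, mul_assoc,
          mul_one_div_cancel (abs_ne_zero.2 (s2_dt_ne Δ v ha)), mul_one, sub_self]
      · refine ((s2_mem_Rel Δ v).1 h2).1 x fun hx => ?_
        obtain ⟨c, hc, hxc⟩ := s2_nb_edge Δ v hpq hx
        rcases hxc with h | h | h
        · exact hxp h
        · exact hxq h
        · subst h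
          rcases s2_third Δ v hab ha hb hc with h | h
          · exact hxa h
          · exact hxb h
    rw [sub_eq_zero] at h1
    have h3 : s2_S Δ v p q r = r a * |dt v p q a| := by
      conv_lhs => rw [h1]
      rw [map_smul, s2_S_R Δ v hn, smul_eq_mul, mul_one]
    rw [h3]
    exact h1
  · have h1 := s2_rel_not_inn Δ v hpq hn hr
    rw [h1, map_zero, zero_smul]

theorem s2_S_not_inn {p q : E3} (hn : ¬ InnG Δ.tets {v, p, q}) {r : E3 →₀ ℝ}
    (hr : p ≠ q → r ∈ Rel (lk Δ.tets v) (hq hc (LinearMap.snd ℝ E3 ℝ) v) {p, q}) :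
    s2_S Δ v p q r = 0 := by
  by_cases hpq : p = q
  · subst hpq
    exact s2_S_self Δ v p r
  · rw [s2_rel_not_inn Δ v hpq hn (hr hpq), map_zero]

/-! ### The degree two space -/

theorem s2_supp1 (p : E3) {m : ℕ} (hm : m ≠ 0) :
    (Finsupp.single p m : E3 →₀ ℕ).support = {p} := by
  ext x
  simp only [Finsupp.mem_support_iff, Finsupp.single_apply, Finset.mem_singleton]
  by_cases h : p = x
  · subst h; simp [hm]
  · simp [h, Ne.symm h]

theorem s2_supp {p q : E3} (_hpq : p ≠ q) {m n : ℕ} (hm : m ≠ 0) (hn : n ≠ 0) :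
    (Finsupp.single p m + Finsupp.single q n : E3 →₀ ℕ).support = {p, q} := by
  ext x
  simp only [Finsupp.mem_support_iff, Finsupp.add_apply, Finsupp.single_apply,
    Finset.mem_insert, Finset.mem_singleton]
  by_cases h1 : p = x
  · subst h1; simp [hm]
  · by_cases h2 : q = x
    · subst h2; simp [hn]
    · simp [h1, h2, Ne.symm h1, Ne.symm h2]

theorem s2_supp3 {p q r : E3} {l m n : ℕ} (hl : l ≠ 0) (hm : m ≠ 0) (hn : n ≠ 0) :
    (Finsupp.single p l + Finsupp.single q m + Finsupp.single r n : E3 →₀ ℕ).support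
      = {p, q, r} := by
  ext x
  simp only [Finsupp.mem_support_iff, Finsupp.add_apply, Finsupp.single_apply,
    Finset.mem_insert, Finset.mem_singleton]
  by_cases h1 : p = x
  · subst h1; simp [hl]
  · by_cases h2 : q = x
    · subst h2; simp [hm]
    · by_cases h3 : r = x
      · subst h3; simp [hn]
      · simp [h1, h2, h3, Ne.symm h1, Ne.symm h2, Ne.symm h3]

/-- The balanced relation of a vertex. -/
def s2_Q (s : E3 → E3 → ℝ) (p : E3) : E3 →₀ ℝ :=
  Finsupp.onFinset (VV Δ.tets) (fun q => if q ∈ VV Δ.tets then s p q * s2_C Δ v p q else 0) (by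
    intro q hq
    by_contra hn
    exact hq (if_neg hn))

theorem s2_Q_apply (s : E3 → E3 → ℝ) (p q : E3) : s2_Q Δ v s p q
    = if q ∈ VV Δ.tets then s p q * s2_C Δ v p q else 0 := rfl

theorem s2_inn_VV {p q : E3} (hn : InnG Δ.tets {v, p, q}) : q ∈ VV Δ.tets := by
  obtain ⟨a, b, hab, ha, hb⟩ := (s2_inn Δ v).1 hn
  exact mem_VV.2 ⟨_, ha, by simp⟩

theorem s2_Q_apply' {s : E3 → E3 → ℝ} (hs : ∀ p q, ¬ InnG Δ.tets {v, p, q} → s p q = 0)
    (p q : E3) : s2_Q Δ v s p q = s p q * s2_C Δ v p q := by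
  rw [s2_Q_apply]
  split_ifs with h
  · rfl
  · rw [hs p q (fun hn => h (s2_inn_VV Δ v hn)), zero_mul]

theorem s2_Q_mem {s : E3 → E3 → ℝ} (hs : ∀ p q, ¬ InnG Δ.tets {v, p, q} → s p q = 0)
    (hs' : ∀ p, ∑ q ∈ VV Δ.tets, (s p q * coefG Δ.tets v (dt v) p q) • (q - v) = 0) (p : E3) :
    s2_Q Δ v s p ∈ Rel (lk Δ.tets v) (hq hc (LinearMap.snd ℝ E3 ℝ) v) {p} := by
  refine (s2_mem_Rel Δ v).2 ⟨fun x hx => ?_, ?_⟩
  · rw [s2_Q_apply' Δ v hs, hs p x, zero_mul]
    intro hn
    obtain ⟨a, b, hab, ha, hb⟩ := (s2_inn Δ v).1 hn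
    obtain ⟨h1, h2, h3, h4, h5, h6⟩ := four_ne (isFan Δ) ha
    exact hx (s2_mem_nb.2 ⟨by simpa using h1, h2.symm, _, ha, by simp, by simp, by simp⟩)
  · have hsub : (s2_Q Δ v s p).support ⊆ VV Δ.tets := Finsupp.support_onFinset_subset
    rw [Finsupp.sum_of_support_subset _ hsub _ (fun x _ => by simp)]
    rw [← hs' p]
    refine Finset.sum_congr rfl fun q _ => ?_
    rw [s2_Q_apply' Δ v hs]
    rfl

theorem s2_Q_sum {s : E3 → E3 → ℝ} {p : E3} {r : E3 →₀ ℝ}
    (hr : r ∈ Rel (lk Δ.tets v) (hq hc (LinearMap.snd ℝ E3 ℝ) v) {p})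
    (hs : ∀ q, r q = s p q * coefG Δ.tets v (dt v) p q) :
    ∑ q ∈ VV Δ.tets, (s p q * coefG Δ.tets v (dt v) p q) • (q - v) = 0 := by
  obtain ⟨h1, h2⟩ := (s2_mem_Rel Δ v).1 hr
  have hsub : r.support ⊆ VV Δ.tets := by
    intro x hx
    by_contra hn
    refine (Finsupp.mem_support_iff.1 hx) (h1 x fun hx' => hn ?_)
    obtain ⟨_, _, t, ht, _, _, hxt⟩ := s2_mem_nb.1 hx'
    exact mem_VV.2 ⟨t, ht, hxt⟩
  rw [Finsupp.sum_of_support_subset r hsub _ (fun x _ => by simp)] at h2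
  rw [← h2]
  exact Finset.sum_congr rfl fun q _ => by rw [hs q]

/-- Relations outside of the link vanish. -/
theorem s2_rel_out {a : E3 →₀ ℕ} (k : ℕ) (hk : a.degree = k) (ha : a ∉ DD (lk Δ.tets v) k)
    {r : E3 →₀ ℝ} (hr : r ∈ Rel (lk Δ.tets v) (hq hc (LinearMap.snd ℝ E3 ℝ) v) a.support) :
    r = 0 := by
  ext x
  refine ((s2_mem_Rel Δ v).1 hr).1 x fun hx => ha ?_
  obtain ⟨t, ht, hst, _⟩ := mem_nb.1 hx
  exact mem_DD.2 ⟨⟨t, ht, hst⟩, hk⟩

theorem s2_Rel_R {p q : E3} (hpq : p ≠ q) {c : ℝ} (h : ¬ InnG Δ.tets {v, p, q} → c = 0) :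
    c • s2_R Δ v p q ∈ Rel (lk Δ.tets v) (hq hc (LinearMap.snd ℝ E3 ℝ) v) {p, q} := by
  by_cases hn : InnG Δ.tets {v, p, q}
  · exact Submodule.smul_mem _ _ (s2_R_mem Δ v hpq hn)
  · rw [h hn, zero_smul]; exact Submodule.zero_mem _

/-- The stress of a weight. -/
def s2_rho (s : E3 → E3 → ℝ) (a : E3 →₀ ℕ) : E3 →₀ ℝ :=
  if a.degree = 2 then
    (if a.support.card = 2 then
      ∑ p ∈ a.support, ∑ q ∈ a.support.erase p, (s p q / 2) • s2_R Δ v p q
    else ∑ p ∈ a.support, s2_Q Δ v s p) else 0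

theorem s2_rho_pq {s : E3 → E3 → ℝ} (hs : ∀ p q, s p q = s q p) {p q : E3} (hpq : p ≠ q) :
    s2_rho Δ v s (Finsupp.single p 1 + Finsupp.single q 1) = s p q • s2_R Δ v p q := by
  rw [s2_rho, if_pos (by simp), s2_supp hpq one_ne_zero one_ne_zero,
    if_pos (Finset.card_pair hpq), Finset.sum_pair hpq]
  have h1 : ({p, q} : Finset E3).erase p = {q} := by
    ext x; simp only [Finset.mem_erase, Finset.mem_insert, Finset.mem_singleton]
    constructor
    · rintro ⟨h, h' | h'⟩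
      · exact absurd h' h
      · exact h'
    · rintro rfl; exact ⟨hpq.symm, Or.inr rfl⟩
  have h2 : ({p, q} : Finset E3).erase q = {p} := by
    ext x; simp only [Finset.mem_erase, Finset.mem_insert, Finset.mem_singleton]
    constructor
    · rintro ⟨h, h' | h'⟩
      · exact h'
      · exact absurd h' h
    · rintro rfl; exact ⟨hpq, Or.inl rfl⟩
  rw [h1, h2, Finset.sum_singleton, Finset.sum_singleton, s2_R_swap Δ v hpq, hs q p, ← add_smul]
  congr 1
  ring

theorem s2_rho_pp (s : E3 → E3 → ℝ) (p : E3) :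
    s2_rho Δ v s (Finsupp.single p 2) = s2_Q Δ v s p := by
  rw [s2_rho, if_pos (by simp), s2_supp1 p two_ne_zero, if_neg (by simp),
    Finset.sum_singleton]

theorem s2_rho_deg (s : E3 → E3 → ℝ) {a : E3 →₀ ℕ} (ha : a.degree ≠ 2) :
    s2_rho Δ v s a = 0 := by
  rw [s2_rho, if_neg ha]

theorem s2_sub1 (a : E3 →₀ ℕ) (p : E3) : a + Finsupp.single p 1 - Finsupp.single p 1 = a := by
  ext x; simp

theorem s2_two (p : E3) : (Finsupp.single p 2 : E3 →₀ ℕ)
    = Finsupp.single p 1 + Finsupp.single p 1 := by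
  rw [← Finsupp.single_add]

theorem s2_three (p : E3) : (Finsupp.single p 3 : E3 →₀ ℕ)
    = Finsupp.single p 2 + Finsupp.single p 1 := by
  rw [← Finsupp.single_add]

theorem s2_rho_mem {s : E3 → E3 → ℝ} (hs : s ∈ SigmaG Δ.tets v (dt v) (fun q => q - v)) :
    s2_rho Δ v s ∈ StressT (lk Δ.tets v) (hq hc (LinearMap.snd ℝ E3 ℝ) v) 2 := by
  obtain ⟨h1, h2, h3, h4⟩ := hs
  have hrel : ∀ a, s2_rho Δ v s a
      ∈ Rel (lk Δ.tets v) (hq hc (LinearMap.snd ℝ E3 ℝ) v) a.support := by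
    intro a
    by_cases ha : a.degree = 2
    · rcases s2_deg_two ha with ⟨p, rfl⟩ | ⟨p, q, hpq, rfl⟩
      · rw [s2_rho_pp, s2_supp1 p two_ne_zero]
        exact s2_Q_mem Δ v h2 h4 p
      · rw [s2_rho_pq Δ v h1 hpq, s2_supp hpq one_ne_zero one_ne_zero]
        exact s2_Rel_R Δ v hpq (h2 p q)
    · rw [s2_rho_deg Δ v s ha]; exact Submodule.zero_mem _
  refine mem_StressT.2 ⟨hrel, fun a ha => ?_, fun b => ?_⟩
  · by_cases hd : a.degree = 2
    · exact s2_rel_out Δ v 2 hd ha (hrel a)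
    · exact s2_rho_deg Δ v s hd
  · by_cases hb : b.degree = 3
    · rcases s2_deg_three hb with ⟨p, rfl⟩ | ⟨p, q, hpq, rfl⟩ | ⟨p, q, r, hpq, hpr, hqr, rfl⟩
      · rw [s2_supp1 p three_ne_zero, Finset.sum_singleton, s2_three,
          s2_sub1, s2_rho_pp, s2_Q_apply' Δ v h2, h2 p p (s2_not_inn_self Δ v p), zero_mul]
      · rw [s2_supp hpq two_ne_zero one_ne_zero, Finset.sum_pair hpq, s2_sub1, s2_rho_pp]
        have e1 : (Finsupp.single p 2 + Finsupp.single q 1 - Finsupp.single p 1 : E3 →₀ ℕ)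
            = Finsupp.single p 1 + Finsupp.single q 1 := by
          rw [s2_two, add_right_comm, s2_sub1]
        rw [e1, s2_rho_pq Δ v h1 hpq, Finsupp.smul_apply, s2_R_left, s2_Q_apply' Δ v h2,
          smul_eq_mul]
        ring
      · rw [s2_supp3 one_ne_zero one_ne_zero one_ne_zero,
          Finset.sum_insert (by simp [hpq, hpr]), Finset.sum_pair hqr, s2_sub1]
        have e1 : (Finsupp.single p 1 + Finsupp.single q 1 + Finsupp.single r 1
            - Finsupp.single p 1 : E3 →₀ ℕ) = Finsupp.single q 1 + Finsupp.single r 1 := by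
          rw [add_assoc, add_comm, s2_sub1]
        have e2 : (Finsupp.single p 1 + Finsupp.single q 1 + Finsupp.single r 1
            - Finsupp.single q 1 : E3 →₀ ℕ) = Finsupp.single p 1 + Finsupp.single r 1 := by
          rw [add_right_comm, s2_sub1]
        rw [e1, e2, s2_rho_pq Δ v h1 hqr, s2_rho_pq Δ v h1 hpr, s2_rho_pq Δ v h1 hpq]
        simp only [Finsupp.smul_apply, smul_eq_mul]
        by_cases ht : ({v, p, q, r} : Finset E3) ∈ Δ.tets
        · have t1 : ({v, q, r, p} : Finset E3) ∈ Δ.tets := by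
            have : ({v, q, r, p} : Finset E3) = {v, p, q, r} := by
              ext x; simp only [Finset.mem_insert, Finset.mem_singleton]; tauto
            rw [this]; exact ht
          have t2 : ({v, p, r, q} : Finset E3) ∈ Δ.tets := by
            rw [← s2_swap_tet']; exact ht
          rw [s2_R_tet Δ v ht, s2_R_tet Δ v t1, s2_R_tet Δ v t2, s2_dt_cyc v p q r,
            s2_dt_swap' v p q r, abs_neg]
          have := h3 p q r ht
          rw [h1 r p] at this
          linear_combination (1 / |dt v p q r|) * this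
        · have t1 : ({v, q, r, p} : Finset E3) ∉ Δ.tets := by
            have : ({v, q, r, p} : Finset E3) = {v, p, q, r} := by
              ext x; simp only [Finset.mem_insert, Finset.mem_singleton]; tauto
            rw [this]; exact ht
          have t2 : ({v, p, r, q} : Finset E3) ∉ Δ.tets := by
            rw [← s2_swap_tet']; exact ht
          rw [s2_R_other Δ v hpr.symm hqr.symm ht, s2_R_other Δ v hpq hpr t1,
            s2_R_other Δ v hpq.symm hqr t2]
          ring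
    · refine Finset.sum_eq_zero fun p hp => ?_
      have := degree_sub_single hp
      rw [s2_rho_deg Δ v s (by omega)]
      rfl

/-- The weight of a stress. -/
def s2_F : ((E3 →₀ ℕ) → (E3 →₀ ℝ)) →ₗ[ℝ] (E3 → E3 → ℝ) where
  toFun ρ p q := s2_S Δ v p q (ρ (Finsupp.single p 1 + Finsupp.single q 1))
  map_add' ρ ρ' := by
    funext p q
    simp only [Pi.add_apply, map_add]
  map_smul' c ρ := by
    funext p q
    simp only [Pi.smul_apply, map_smul, RingHom.id_apply]

theorem s2_F_apply (ρ : (E3 →₀ ℕ) → (E3 →₀ ℝ)) (p q : E3) :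
    s2_F Δ v ρ p q = s2_S Δ v p q (ρ (Finsupp.single p 1 + Finsupp.single q 1)) := rfl

theorem s2_F_eq {ρ : (E3 →₀ ℕ) → (E3 →₀ ℝ)}
    (hρ : ρ ∈ StressT (lk Δ.tets v) (hq hc (LinearMap.snd ℝ E3 ℝ) v) 2) {p q : E3}
    (hpq : p ≠ q) : ρ (Finsupp.single p 1 + Finsupp.single q 1)
      = s2_F Δ v ρ p q • s2_R Δ v p q := by
  refine s2_rel_eq Δ v hpq ?_
  have := (mem_StressT.1 hρ).1 (Finsupp.single p 1 + Finsupp.single q 1)
  rwa [s2_supp hpq one_ne_zero one_ne_zero] at this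

theorem s2_F_two {ρ : (E3 →₀ ℕ) → (E3 →₀ ℝ)}
    (hρ : ρ ∈ StressT (lk Δ.tets v) (hq hc (LinearMap.snd ℝ E3 ℝ) v) 2) (p q : E3) :
    ρ (Finsupp.single p 2) q = s2_F Δ v ρ p q * s2_C Δ v p q := by
  by_cases hpq : p = q
  · subst hpq
    have h1 := (mem_StressT.1 hρ).2.2 (Finsupp.single p 3)
    rw [s2_supp1 p three_ne_zero, Finset.sum_singleton, s2_three,
      s2_sub1] at h1
    rw [h1, s2_F_apply, s2_S_self, zero_mul]
  · have h1 := (mem_StressT.1 hρ).2.2 (Finsupp.single p 2 + Finsupp.single q 1)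
    have e1 : (Finsupp.single p 2 + Finsupp.single q 1 - Finsupp.single p 1 : E3 →₀ ℕ)
        = Finsupp.single p 1 + Finsupp.single q 1 := by
      rw [s2_two, add_right_comm, s2_sub1]
    rw [s2_supp hpq two_ne_zero one_ne_zero, Finset.sum_pair hpq, s2_sub1, e1,
      s2_F_eq Δ v hρ hpq, Finsupp.smul_apply, s2_R_left, smul_eq_mul] at h1
    linarith

theorem s2_F_mem {ρ : (E3 →₀ ℕ) → (E3 →₀ ℝ)}
    (hρ : ρ ∈ StressT (lk Δ.tets v) (hq hc (LinearMap.snd ℝ E3 ℝ) v) 2) :
    s2_F Δ v ρ ∈ SigmaG Δ.tets v (dt v) (fun q => q - v) := by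
  have hsym : ∀ p q, s2_F Δ v ρ p q = s2_F Δ v ρ q p := by
    intro p q
    rw [s2_F_apply, s2_F_apply, s2_S_swap, add_comm]
  refine ⟨hsym, fun p q hn => ?_, fun p q r ht => ?_, fun p => ?_⟩
  · rw [s2_F_apply]
    refine s2_S_not_inn Δ v hn fun hpq => ?_
    have := (mem_StressT.1 hρ).1 (Finsupp.single p 1 + Finsupp.single q 1)
    rwa [s2_supp hpq one_ne_zero one_ne_zero] at this
  · obtain ⟨_, _, _, hpq, hpr, hqr⟩ := four_ne (isFan Δ) ht
    have h1 := (mem_StressT.1 hρ).2.2 (Finsupp.single p 1 + Finsupp.single q 1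
      + Finsupp.single r 1)
    rw [s2_supp3 one_ne_zero one_ne_zero one_ne_zero,
          Finset.sum_insert (by simp [hpq, hpr]), Finset.sum_pair hqr, s2_sub1] at h1
    have e1 : (Finsupp.single p 1 + Finsupp.single q 1 + Finsupp.single r 1
        - Finsupp.single p 1 : E3 →₀ ℕ) = Finsupp.single q 1 + Finsupp.single r 1 := by
      rw [add_assoc, add_comm, s2_sub1]
    have e2 : (Finsupp.single p 1 + Finsupp.single q 1 + Finsupp.single r 1
        - Finsupp.single q 1 : E3 →₀ ℕ) = Finsupp.single p 1 + Finsupp.single r 1 := by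
      rw [add_right_comm, s2_sub1]
    rw [e1, e2, s2_F_eq Δ v hρ hqr, s2_F_eq Δ v hρ hpr, s2_F_eq Δ v hρ hpq] at h1
    simp only [Finsupp.smul_apply, smul_eq_mul] at h1
    have t1 : ({v, q, r, p} : Finset E3) ∈ Δ.tets := by
      have : ({v, q, r, p} : Finset E3) = {v, p, q, r} := by
        ext x; simp only [Finset.mem_insert, Finset.mem_singleton]; tauto
      rw [this]; exact ht
    have t2 : ({v, p, r, q} : Finset E3) ∈ Δ.tets := by
      rw [← s2_swap_tet']; exact ht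
    rw [s2_R_tet Δ v ht, s2_R_tet Δ v t1, s2_R_tet Δ v t2, s2_dt_cyc v p q r,
      s2_dt_swap' v p q r, abs_neg] at h1
    have h2 : |dt v p q r| ≠ 0 := abs_ne_zero.2 (s2_dt_ne Δ v ht)
    field_simp at h1
    rw [hsym r p]
    linarith
  · refine s2_Q_sum Δ v (r := ρ (Finsupp.single p 2)) ?_ (fun q => s2_F_two Δ v hρ p q)
    have := (mem_StressT.1 hρ).1 (Finsupp.single p 2)
    rwa [s2_supp1 p two_ne_zero] at this

end geo

theorem blk_S2 : Stmt_S2 := by
  intro Δ v
  have hmaps : ∀ ρ ∈ StressT (lk Δ.tets v) (hq hc (LinearMap.snd ℝ E3 ℝ) v) 2,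
      s2_F Δ v ρ ∈ SigmaG Δ.tets v (dt v) (fun q => q - v) := fun ρ hρ => s2_F_mem Δ v hρ
  refine (LinearEquiv.ofBijective ((s2_F Δ v).restrict hmaps) ⟨?_, ?_⟩).finrank_eq
  · refine (injective_iff_map_eq_zero _).2 ?_
    rintro ⟨ρ, hρ⟩ h0
    have h1 : s2_F Δ v ρ = 0 := congrArg Subtype.val h0
    refine Subtype.ext ?_
    change ρ = 0
    funext a
    by_cases ha : a.degree = 2
    · rcases s2_deg_two ha with ⟨p, rfl⟩ | ⟨p, q, hpq, rfl⟩
      · ext q
        rw [s2_F_two Δ v hρ, h1]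
        simp
      · rw [s2_F_eq Δ v hρ hpq, h1]
        simp
    · exact (mem_StressT.1 hρ).2.1 a fun hd => ha (mem_DD.1 hd).2
  · rintro ⟨s, hs⟩
    refine ⟨⟨s2_rho Δ v s, s2_rho_mem Δ v hs⟩, Subtype.ext ?_⟩
    change s2_F Δ v (s2_rho Δ v s) = s
    obtain ⟨h1, h2, h3, h4⟩ := hs
    funext p q
    rw [s2_F_apply]
    by_cases hpq : p = q
    · subst hpq
      rw [s2_S_self, h2 p p (s2_not_inn_self Δ v p)]
    · rw [s2_rho_pq Δ v h1 hpq, map_smul, smul_eq_mul]
      by_cases hn : InnG Δ.tets {v, p, q}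
      · rw [s2_S_R Δ v hn, mul_one]
      · rw [h2 p q hn, zero_mul]

end Pool.CB
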