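import Pool.Agent.Work.CB2.S2

/-!
# The degree three stresses of the link
-/

open scoped BigOperators
open Finset

noncomputable section

namespace Pool.CB

theorem s3_deg_four {P : Type*} [DecidableEq P] {a : P →₀ ℕ} (ha : a.degree = 4) :
    (∃ p, a = Finsupp.single p 4) ∨
      (∃ p q, p ≠ q ∧ a = Finsupp.single p 3 + Finsupp.single q 1) ∨
      (∃ p q, p ≠ q ∧ a = Finsupp.single p 2 + Finsupp.single q 2) ∨
      (∃ p q r, p ≠ q ∧ p ≠ r ∧ q ≠ r ∧
        a = Finsupp.single p 2 + Finsupp.single q 1 + Finsupp.single r 1) ∨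
      ∃ p q r s, p ≠ q ∧ p ≠ r ∧ p ≠ s ∧ q ≠ r ∧ q ≠ s ∧ r ≠ s ∧
        a = Finsupp.single p 1 + Finsupp.single q 1 + Finsupp.single r 1
          + Finsupp.single s 1 := by
  have e2 : ∀ x : P, (Finsupp.single x 2 : P →₀ ℕ) = Finsupp.single x 1 + Finsupp.single x 1 :=
    fun x => by rw [← Finsupp.single_add]
  have e3 : ∀ x : P, (Finsupp.single x 3 : P →₀ ℕ) = Finsupp.single x 2 + Finsupp.single x 1 :=
    fun x => by rw [← Finsupp.single_add]
  have e4 : ∀ x : P, (Finsupp.single x 4 : P →₀ ℕ) = Finsupp.single x 3 + Finsupp.single x 1 :=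
    fun x => by rw [← Finsupp.single_add]
  obtain ⟨x, a1, h1, rfl⟩ := s2_deg_succ ha
  rcases s2_deg_three h1 with ⟨p, rfl⟩ | ⟨p, q, hpq, rfl⟩ | ⟨p, q, r, hpq, hpr, hqr, rfl⟩
  · by_cases hpx : p = x
    · subst hpx
      exact Or.inl ⟨p, (e4 p).symm⟩
    · exact Or.inr (Or.inl ⟨p, x, hpx, rfl⟩)
  · by_cases hpx : p = x
    · subst hpx
      refine Or.inr (Or.inl ⟨p, q, hpq, ?_⟩)
      rw [e3, add_right_comm]
    · by_cases hqx : q = x
      · subst hqx
        refine Or.inr (Or.inr (Or.inl ⟨p, q, hpq, ?_⟩))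
        rw [add_assoc, ← e2]
      · exact Or.inr (Or.inr (Or.inr (Or.inl ⟨p, q, x, hpq, hpx, hqx, rfl⟩)))
  · by_cases hpx : p = x
    · subst hpx
      refine Or.inr (Or.inr (Or.inr (Or.inl ⟨p, q, r, hpq, hpr, hqr, ?_⟩)))
      rw [e2]; abel
    · by_cases hqx : q = x
      · subst hqx
        refine Or.inr (Or.inr (Or.inr (Or.inl ⟨q, p, r, hpq.symm, hqr, hpr, ?_⟩)))
        rw [e2]; abel
      · by_cases hrx : r = x
        · subst hrx
          refine Or.inr (Or.inr (Or.inr (Or.inl ⟨r, p, q, hpr.symm, hqr.symm, hpq, ?_⟩)))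
          rw [e2]; abel
        · exact Or.inr (Or.inr (Or.inr (Or.inr ⟨p, q, r, x, hpq, hpr, hpx, hqr, hqx, hrx, rfl⟩)))

section geo

variable (Δ : TetComplex) (v : E3)

/-- A relation of a triangle of the link vanishes. -/
theorem s3_rel_tri {p q a : E3} (hpq : p ≠ q) (hpa : p ≠ a) (hqa : q ≠ a) {r : E3 →₀ ℝ}
    (hr : r ∈ Rel (lk Δ.tets v) (hq hc (LinearMap.snd ℝ E3 ℝ) v) {p, q, a}) : r = 0 := by
  have h0 := ((s2_mem_Rel Δ v).1 hr).1
  have key : ∀ x ∈ nb (lk Δ.tets v) {p, q, a}, ({v, p, q, a} : Finset E3) ∈ Δ.tets ∧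
      (x = p ∨ x = q ∨ x = a) := by
    intro x hx
    obtain ⟨hv, hxv, t, ht, hvt, hst, hxt⟩ := s2_mem_nb.1 hx
    simp only [Finset.mem_insert, Finset.mem_singleton, not_or] at hv
    have h6 := subset_eq_four (isFan Δ) ht hv.1 hv.2.1 hv.2.2 hpq hpa hqa hvt
      (hst (by simp)) (hst (by simp)) (hst (by simp))
    rw [h6] at hxt ht
    simp only [Finset.mem_insert, Finset.mem_singleton] at hxt
    exact ⟨ht, by tauto⟩
  by_cases ht : ({v, p, q, a} : Finset E3) ∈ Δ.tets
  · refine s2_rel_tri Δ v hr ht fun x hxp hxq hxa => h0 x fun hx => ?_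
    have := (key x hx).2
    tauto
  · ext x
    exact h0 x fun hx => ht (key x hx).1

/-- The stress of a weight. -/
def s3_rho (s : E3 → E3 → ℝ) (a : E3 →₀ ℕ) : E3 →₀ ℝ :=
  if a.degree = 3 then
    (if a.support.card = 2 then
      ∑ p ∈ a.support.filter (fun p => a p = 2), ∑ q ∈ a.support.erase p, s p q • s2_R Δ v p q
    else if a.support.card = 1 then ∑ p ∈ a.support, s2_Q Δ v s p else 0) else 0

theorem s3_rho_pq (s : E3 → E3 → ℝ) {p q : E3} (hpq : p ≠ q) :
    s3_rho Δ v s (Finsupp.single p 2 + Finsupp.single q 1) = s p q • s2_R Δ v p q := by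
  rw [s3_rho, if_pos (by simp), s2_supp hpq two_ne_zero one_ne_zero,
    if_pos (Finset.card_pair hpq)]
  have h1 : ({p, q} : Finset E3).erase p = {q} := by
    ext x; simp only [Finset.mem_erase, Finset.mem_insert, Finset.mem_singleton]
    constructor
    · rintro ⟨h, h' | h'⟩
      · exact absurd h' h
      · exact h'
    · rintro rfl; exact ⟨hpq.symm, Or.inr rfl⟩
  have h2 : ({p, q} : Finset E3).filter
      (fun x => (Finsupp.single p 2 + Finsupp.single q 1 : E3 →₀ ℕ) x = 2) = {p} := by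
    ext x
    simp only [Finset.mem_filter, Finset.mem_insert, Finset.mem_singleton, Finsupp.add_apply,
      Finsupp.single_apply]
    constructor
    · rintro ⟨h | h, h'⟩
      · exact h
      · subst h
        simp [hpq] at h'
    · rintro rfl
      simp [hpq.symm]
  rw [h2, Finset.sum_singleton, h1, Finset.sum_singleton]

theorem s3_rho_ppp (s : E3 → E3 → ℝ) (p : E3) :
    s3_rho Δ v s (Finsupp.single p 3) = s2_Q Δ v s p := by
  rw [s3_rho, if_pos (by simp), s2_supp1 p three_ne_zero, if_neg (by simp), if_pos (by simp),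
    Finset.sum_singleton]

theorem s3_rho_pqr (s : E3 → E3 → ℝ) {p q r : E3} (hpq : p ≠ q) (hpr : p ≠ r) (hqr : q ≠ r) :
    s3_rho Δ v s (Finsupp.single p 1 + Finsupp.single q 1 + Finsupp.single r 1) = 0 := by
  have h3 : ({p, q, r} : Finset E3).card = 3 :=
    Finset.card_eq_three.2 ⟨p, q, r, hpq, hpr, hqr, rfl⟩
  rw [s3_rho, s2_supp3 one_ne_zero one_ne_zero one_ne_zero, h3]
  simp

theorem s3_rho_deg (s : E3 → E3 → ℝ) {a : E3 →₀ ℕ} (ha : a.degree ≠ 3) :
    s3_rho Δ v s a = 0 := by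
  rw [s3_rho, if_neg ha]

theorem s3_four (p : E3) : (Finsupp.single p 4 : E3 →₀ ℕ)
    = Finsupp.single p 3 + Finsupp.single p 1 := by
  rw [← Finsupp.single_add]

theorem s3_tet {p q r : E3} (ht : ({v, p, q, r} : Finset E3) ∈ Δ.tets) :
    ({v, p, r, q} : Finset E3) ∈ Δ.tets := by
  rw [← s2_swap_tet']; exact ht

theorem s3_rho_mem {s : E3 → E3 → ℝ} (hs : s ∈ ThetaG Δ.tets v (dt v) (fun q => q - v)) :
    s3_rho Δ v s ∈ StressT (lk Δ.tets v) (hq hc (LinearMap.snd ℝ E3 ℝ) v) 3 := by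
  obtain ⟨h2, h3, h1, h4⟩ := hs
  have hrel : ∀ a, s3_rho Δ v s a
      ∈ Rel (lk Δ.tets v) (hq hc (LinearMap.snd ℝ E3 ℝ) v) a.support := by
    intro a
    by_cases ha : a.degree = 3
    · rcases s2_deg_three ha with ⟨p, rfl⟩ | ⟨p, q, hpq, rfl⟩ | ⟨p, q, r, hpq, hpr, hqr, rfl⟩
      · rw [s3_rho_ppp, s2_supp1 p three_ne_zero]
        exact s2_Q_mem Δ v h2 h4 p
      · rw [s3_rho_pq Δ v s hpq, s2_supp hpq two_ne_zero one_ne_zero]
        exact s2_Rel_R Δ v hpq (h2 p q)
      · rw [s3_rho_pqr Δ v s hpq hpr hqr]; exact Submodule.zero_mem _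
    · rw [s3_rho_deg Δ v s ha]; exact Submodule.zero_mem _
  refine mem_StressT.2 ⟨hrel, fun a ha => ?_, fun b => ?_⟩
  · by_cases hd : a.degree = 3
    · exact s2_rel_out Δ v 3 hd ha (hrel a)
    · exact s3_rho_deg Δ v s hd
  · by_cases hb : b.degree = 4
    · rcases s3_deg_four hb with ⟨p, rfl⟩ | ⟨p, q, hpq, rfl⟩ | ⟨p, q, hpq, rfl⟩ |
        ⟨p, q, r, hpq, hpr, hqr, rfl⟩ | ⟨p, q, r, x, hpq, hpr, hpx, hqr, hqx, hrx, rfl⟩
      · rw [s2_supp1 p four_ne_zero, Finset.sum_singleton, s3_four, s2_sub1, s3_rho_ppp,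
          s2_Q_apply' Δ v h2, h2 p p (s2_not_inn_self Δ v p), zero_mul]
      · rw [s2_supp hpq three_ne_zero one_ne_zero, Finset.sum_pair hpq, s2_sub1, s3_rho_ppp]
        have e1 : (Finsupp.single p 3 + Finsupp.single q 1 - Finsupp.single p 1 : E3 →₀ ℕ)
            = Finsupp.single p 2 + Finsupp.single q 1 := by
          rw [s2_three, add_right_comm, s2_sub1]
        rw [e1, s3_rho_pq Δ v s hpq, Finsupp.smul_apply, s2_R_left, s2_Q_apply' Δ v h2,
          smul_eq_mul]
        ring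
      · rw [s2_supp hpq two_ne_zero two_ne_zero, Finset.sum_pair hpq]
        have e1 : (Finsupp.single p 2 + Finsupp.single q 2 - Finsupp.single p 1 : E3 →₀ ℕ)
            = Finsupp.single q 2 + Finsupp.single p 1 := by
          rw [s2_two p, add_right_comm, s2_sub1, add_comm]
        have e2 : (Finsupp.single p 2 + Finsupp.single q 2 - Finsupp.single q 1 : E3 →₀ ℕ)
            = Finsupp.single p 2 + Finsupp.single q 1 := by
          rw [s2_two q, ← add_assoc, s2_sub1]
        rw [e1, e2, s3_rho_pq Δ v s hpq, s3_rho_pq Δ v s hpq.symm, Finsupp.smul_apply,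
          Finsupp.smul_apply, s2_R_right Δ v hpq, s2_R_right Δ v hpq.symm, smul_eq_mul,
          smul_eq_mul]
        have := h1 p q
        change s2_C Δ v q p * s p q + s2_C Δ v p q * s q p = 0 at this
        linarith
      · rw [s2_supp3 two_ne_zero one_ne_zero one_ne_zero,
          Finset.sum_insert (by simp [hpq, hpr]), Finset.sum_pair hqr, s2_sub1]
        have e1 : (Finsupp.single p 2 + Finsupp.single q 1 + Finsupp.single r 1
            - Finsupp.single p 1 : E3 →₀ ℕ)
            = Finsupp.single p 1 + Finsupp.single q 1 + Finsupp.single r 1 := by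
          have : (Finsupp.single p 2 + Finsupp.single q 1 + Finsupp.single r 1 : E3 →₀ ℕ)
              = Finsupp.single p 1 + Finsupp.single q 1 + Finsupp.single r 1
                + Finsupp.single p 1 := by rw [s2_two]; abel
          rw [this, s2_sub1]
        have e2 : (Finsupp.single p 2 + Finsupp.single q 1 + Finsupp.single r 1
            - Finsupp.single q 1 : E3 →₀ ℕ) = Finsupp.single p 2 + Finsupp.single r 1 := by
          rw [add_right_comm, s2_sub1]
        rw [e1, e2, s3_rho_pqr Δ v s hpq hpr hqr, s3_rho_pq Δ v s hpr, s3_rho_pq Δ v s hpq]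
        simp only [Finsupp.smul_apply, smul_eq_mul, Finsupp.zero_apply, zero_add]
        by_cases ht : ({v, p, q, r} : Finset E3) ∈ Δ.tets
        · rw [s2_R_tet Δ v ht, s2_R_tet Δ v (s3_tet Δ v ht), s2_dt_swap' v p q r, abs_neg]
          have := h3 p q r ht
          linear_combination (1 / |dt v p q r|) * this
        · rw [s2_R_other Δ v hpr.symm hqr.symm ht,
            s2_R_other Δ v hpq.symm hqr (fun h => ht (s3_tet Δ v h))]
          ring
      · refine Finset.sum_eq_zero fun y hy => ?_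
        have h5 : (Finsupp.single p 1 + Finsupp.single q 1 + Finsupp.single r 1
          + Finsupp.single x 1 : E3 →₀ ℕ).support = {p, q, r, x} := by
          ext z
          simp only [Finsupp.mem_support_iff, Finsupp.add_apply, Finsupp.single_apply,
            Finset.mem_insert, Finset.mem_singleton]
          constructor
          · intro h
            by_contra hn
            simp only [not_or] at hn
            apply h
            rw [if_neg (Ne.symm hn.1), if_neg (Ne.symm hn.2.1), if_neg (Ne.symm hn.2.2.1),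
              if_neg (Ne.symm hn.2.2.2)]
            rfl
          · rintro (rfl | rfl | rfl | rfl) <;> simp
        rw [h5] at hy
        simp only [Finset.mem_insert, Finset.mem_singleton] at hy
        rcases hy with rfl | rfl | rfl | rfl
        · have : (Finsupp.single y 1 + Finsupp.single q 1 + Finsupp.single r 1
              + Finsupp.single x 1 : E3 →₀ ℕ)
              = Finsupp.single q 1 + Finsupp.single r 1 + Finsupp.single x 1
                + Finsupp.single y 1 := by abel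
          rw [this, s2_sub1, s3_rho_pqr Δ v s hqr hqx hrx]; rfl
        · have : (Finsupp.single p 1 + Finsupp.single y 1 + Finsupp.single r 1
              + Finsupp.single x 1 : E3 →₀ ℕ)
              = Finsupp.single p 1 + Finsupp.single r 1 + Finsupp.single x 1
                + Finsupp.single y 1 := by abel
          rw [this, s2_sub1, s3_rho_pqr Δ v s hpr hpx hrx]; rfl
        · have : (Finsupp.single p 1 + Finsupp.single q 1 + Finsupp.single y 1
              + Finsupp.single x 1 : E3 →₀ ℕ)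
              = Finsupp.single p 1 + Finsupp.single q 1 + Finsupp.single x 1
                + Finsupp.single y 1 := by abel
          rw [this, s2_sub1, s3_rho_pqr Δ v s hpq hpx hqx]; rfl
        · rw [s2_sub1, s3_rho_pqr Δ v s hpq hpr hqr]; rfl
    · refine Finset.sum_eq_zero fun p hp => ?_
      have := degree_sub_single hp
      rw [s3_rho_deg Δ v s (by omega)]
      rfl

/-- The weight of a stress. -/
def s3_F : ((E3 →₀ ℕ) → (E3 →₀ ℝ)) →ₗ[ℝ] (E3 → E3 → ℝ) where
  toFun ρ p q := s2_S Δ v p q (ρ (Finsupp.single p 2 + Finsupp.single q 1))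
  map_add' ρ ρ' := by
    funext p q
    simp only [Pi.add_apply, map_add]
  map_smul' c ρ := by
    funext p q
    simp only [Pi.smul_apply, map_smul, RingHom.id_apply]

theorem s3_F_apply (ρ : (E3 →₀ ℕ) → (E3 →₀ ℝ)) (p q : E3) :
    s3_F Δ v ρ p q = s2_S Δ v p q (ρ (Finsupp.single p 2 + Finsupp.single q 1)) := rfl

variable {Δ v} {ρ : (E3 →₀ ℕ) → (E3 →₀ ℝ)}
  (hρ : ρ ∈ StressT (lk Δ.tets v) (hq hc (LinearMap.snd ℝ E3 ℝ) v) 3)

include hρ

theorem s3_F_eq {p q : E3} (hpq : p ≠ q) : ρ (Finsupp.single p 2 + Finsupp.single q 1)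
      = s3_F Δ v ρ p q • s2_R Δ v p q := by
  refine s2_rel_eq Δ v hpq ?_
  have := (mem_StressT.1 hρ).1 (Finsupp.single p 2 + Finsupp.single q 1)
  rwa [s2_supp hpq two_ne_zero one_ne_zero] at this

theorem s3_F_pqr {p q r : E3} (hpq : p ≠ q) (hpr : p ≠ r) (hqr : q ≠ r) :
    ρ (Finsupp.single p 1 + Finsupp.single q 1 + Finsupp.single r 1) = 0 := by
  refine s3_rel_tri Δ v hpq hpr hqr ?_
  have := (mem_StressT.1 hρ).1 (Finsupp.single p 1 + Finsupp.single q 1 + Finsupp.single r 1)
  rwa [s2_supp3 one_ne_zero one_ne_zero one_ne_zero] at this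

theorem s3_F_three (p q : E3) :
    ρ (Finsupp.single p 3) q = s3_F Δ v ρ p q * s2_C Δ v p q := by
  by_cases hpq : p = q
  · subst hpq
    have h1 := (mem_StressT.1 hρ).2.2 (Finsupp.single p 4)
    rw [s2_supp1 p four_ne_zero, Finset.sum_singleton, s3_four, s2_sub1] at h1
    rw [h1, s3_F_apply, s2_S_self, zero_mul]
  · have h1 := (mem_StressT.1 hρ).2.2 (Finsupp.single p 3 + Finsupp.single q 1)
    have e1 : (Finsupp.single p 3 + Finsupp.single q 1 - Finsupp.single p 1 : E3 →₀ ℕ)
        = Finsupp.single p 2 + Finsupp.single q 1 := by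
      rw [s2_three, add_right_comm, s2_sub1]
    rw [s2_supp hpq three_ne_zero one_ne_zero, Finset.sum_pair hpq, s2_sub1, e1,
      s3_F_eq hρ hpq, Finsupp.smul_apply, s2_R_left, smul_eq_mul] at h1
    linarith

theorem s3_F_mem : s3_F Δ v ρ ∈ ThetaG Δ.tets v (dt v) (fun q => q - v) := by
  have hn' : ∀ p q, ¬ InnG Δ.tets {v, p, q} → s3_F Δ v ρ p q = 0 := by
    intro p q hn
    rw [s3_F_apply]
    refine s2_S_not_inn Δ v hn fun hpq => ?_
    have := (mem_StressT.1 hρ).1 (Finsupp.single p 2 + Finsupp.single q 1)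
    rwa [s2_supp hpq two_ne_zero one_ne_zero] at this
  refine ⟨hn', fun p q r ht => ?_, fun p q => ?_, fun p => ?_⟩
  · obtain ⟨_, _, _, hpq, hpr, hqr⟩ := four_ne (isFan Δ) ht
    have h1 := (mem_StressT.1 hρ).2.2 (Finsupp.single p 2 + Finsupp.single q 1
      + Finsupp.single r 1)
    rw [s2_supp3 two_ne_zero one_ne_zero one_ne_zero,
          Finset.sum_insert (by simp [hpq, hpr]), Finset.sum_pair hqr, s2_sub1] at h1
    have e1 : (Finsupp.single p 2 + Finsupp.single q 1 + Finsupp.single r 1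
        - Finsupp.single p 1 : E3 →₀ ℕ)
        = Finsupp.single p 1 + Finsupp.single q 1 + Finsupp.single r 1 := by
      have : (Finsupp.single p 2 + Finsupp.single q 1 + Finsupp.single r 1 : E3 →₀ ℕ)
          = Finsupp.single p 1 + Finsupp.single q 1 + Finsupp.single r 1
            + Finsupp.single p 1 := by rw [s2_two]; abel
      rw [this, s2_sub1]
    have e2 : (Finsupp.single p 2 + Finsupp.single q 1 + Finsupp.single r 1
        - Finsupp.single q 1 : E3 →₀ ℕ) = Finsupp.single p 2 + Finsupp.single r 1 := by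
      rw [add_right_comm, s2_sub1]
    rw [e1, e2, s3_F_pqr hρ hpq hpr hqr, s3_F_eq hρ hpr, s3_F_eq hρ hpq] at h1
    simp only [Finsupp.smul_apply, smul_eq_mul, Finsupp.zero_apply, zero_add] at h1
    rw [s2_R_tet Δ v ht, s2_R_tet Δ v (s3_tet Δ v ht), s2_dt_swap' v p q r, abs_neg] at h1
    have h2 : |dt v p q r| ≠ 0 := abs_ne_zero.2 (s2_dt_ne Δ v ht)
    field_simp at h1
    linarith
  · by_cases hpq : p = q
    · subst hpq
      rw [hn' p p (s2_not_inn_self Δ v p)]
      ring
    · have h1 := (mem_StressT.1 hρ).2.2 (Finsupp.single p 2 + Finsupp.single q 2)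
      have e1 : (Finsupp.single p 2 + Finsupp.single q 2 - Finsupp.single p 1 : E3 →₀ ℕ)
          = Finsupp.single q 2 + Finsupp.single p 1 := by
        rw [s2_two p, add_right_comm, s2_sub1, add_comm]
      have e2 : (Finsupp.single p 2 + Finsupp.single q 2 - Finsupp.single q 1 : E3 →₀ ℕ)
          = Finsupp.single p 2 + Finsupp.single q 1 := by
        rw [s2_two q, ← add_assoc, s2_sub1]
      rw [s2_supp hpq two_ne_zero two_ne_zero, Finset.sum_pair hpq, e1, e2, s3_F_eq hρ hpq,
        s3_F_eq hρ (Ne.symm hpq), Finsupp.smul_apply,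
        Finsupp.smul_apply, s2_R_right Δ v hpq, s2_R_right Δ v (Ne.symm hpq), smul_eq_mul,
        smul_eq_mul] at h1
      change s2_C Δ v q p * s3_F Δ v ρ p q + s2_C Δ v p q * s3_F Δ v ρ q p = 0
      linarith
  · refine s2_Q_sum Δ v (r := ρ (Finsupp.single p 3)) ?_ (fun q => s3_F_three hρ p q)
    have := (mem_StressT.1 hρ).1 (Finsupp.single p 3)
    rwa [s2_supp1 p three_ne_zero] at this

end geo

theorem blk_S3 : Stmt_S3 := by
  intro Δ v
  have hmaps : ∀ ρ ∈ StressT (lk Δ.tets v) (hq hc (LinearMap.snd ℝ E3 ℝ) v) 3,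
      s3_F Δ v ρ ∈ ThetaG Δ.tets v (dt v) (fun q => q - v) := fun ρ hρ => s3_F_mem hρ
  refine (LinearEquiv.ofBijective ((s3_F Δ v).restrict hmaps) ⟨?_, ?_⟩).finrank_eq
  · refine (injective_iff_map_eq_zero _).2 ?_
    rintro ⟨ρ, hρ⟩ h0
    have h1 : s3_F Δ v ρ = 0 := congrArg Subtype.val h0
    refine Subtype.ext ?_
    change ρ = 0
    funext a
    by_cases ha : a.degree = 3
    · rcases s2_deg_three ha with ⟨p, rfl⟩ | ⟨p, q, hpq, rfl⟩ | ⟨p, q, r, hpq, hpr, hqr, rfl⟩
      · ext q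
        rw [s3_F_three hρ, h1]
        simp
      · rw [s3_F_eq hρ hpq, h1]
        simp
      · rw [s3_F_pqr hρ hpq hpr hqr]; rfl
    · exact (mem_StressT.1 hρ).2.1 a fun hd => ha (mem_DD.1 hd).2
  · rintro ⟨s, hs⟩
    refine ⟨⟨s3_rho Δ v s, s3_rho_mem Δ v hs⟩, Subtype.ext ?_⟩
    change s3_F Δ v (s3_rho Δ v s) = s
    obtain ⟨h2, h3, h1, h4⟩ := hs
    funext p q
    rw [s3_F_apply]
    by_cases hpq : p = q
    · subst hpq
      rw [s2_S_self, h2 p p (s2_not_inn_self Δ v p)]
    · rw [s3_rho_pq Δ v s hpq, map_smul, smul_eq_mul]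
      by_cases hn : InnG Δ.tets {v, p, q}
      · rw [s2_S_R Δ v hn, mul_one]
      · rw [h2 p q hn, zero_mul]

end Pool.CB
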