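import Pool.Agent.Work.CB2.Interface

/-!
# Moving the vertices along the rays from `v`
-/

open scoped BigOperators
open Finset

noncomputable section

namespace Pool.CB

section d1

open MvPolynomial

variable {P : Type*} [DecidableEq P] {W : Type*} [AddCommGroup W] [Module ℝ W]

/-- The substitution. -/
def d1_sub (v : P) (τ : P → ℝ) : MvPolynomial P ℝ →ₐ[ℝ] MvPolynomial P ℝ :=
  MvPolynomial.aeval (fun p => X p + C (τ p) * X v)

omit [DecidableEq P] in
theorem d1_sub_X (v : P) (τ : P → ℝ) (p : P) : d1_sub v τ (X p) = X p + C (τ p) * X v := by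
  simp [d1_sub]

omit [DecidableEq P] in
theorem d1_sub_sub (v : P) (τ : P → ℝ) (hτ : τ v = 0) (f : MvPolynomial P ℝ) :
    d1_sub v (-τ) (d1_sub v τ f) = f := by
  have h1 : (d1_sub v (-τ)).comp (d1_sub v τ) = AlgHom.id ℝ (MvPolynomial P ℝ) := by
    refine MvPolynomial.algHom_ext fun p => ?_
    rw [AlgHom.comp_apply, d1_sub_X, map_add, map_mul, d1_sub_X, d1_sub_X]
    have h2 : d1_sub v (-τ) (C (τ p)) = C (τ p) := by
      rw [← MvPolynomial.algebraMap_eq]
      exact AlgHom.commutes _ _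
    rw [h2, Pi.neg_apply, Pi.neg_apply, hτ]
    simp
  exact DFunLike.congr_fun h1 f

/-- The induced map of relations. -/
def d1_sh (v : P) (τ : P → ℝ) : (P →₀ ℝ) →ₗ[ℝ] (P →₀ ℝ) :=
  LinearMap.id + (Finsupp.linearCombination ℝ τ).smulRight (Finsupp.single v 1)

omit [DecidableEq P] in
theorem d1_sh_apply (v : P) (τ : P → ℝ) (r : P →₀ ℝ) :
    d1_sh v τ r = r + Finsupp.linearCombination ℝ τ r • Finsupp.single v 1 := rfl

omit [DecidableEq P] in
theorem d1_sh_sh (v : P) (τ : P → ℝ) (hτ : τ v = 0) (r : P →₀ ℝ) :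
    d1_sh v (-τ) (d1_sh v τ r) = r := by
  have h1 : Finsupp.linearCombination ℝ (-τ) r = - Finsupp.linearCombination ℝ τ r := by
    simp [Finsupp.linearCombination_apply, Finsupp.sum]
  rw [d1_sh_apply, d1_sh_apply, map_add, map_smul, Finsupp.linearCombination_single, Pi.neg_apply,
    hτ, h1]
  simp

omit [DecidableEq P] in
theorem d1_sh_rel (v : P) (τ : P → ℝ) (hτ : τ v = 0) (h : P → W) (r : P →₀ ℝ) :
    Finsupp.linearCombination ℝ (fun p => h p - τ p • h v) (d1_sh v τ r)
      = Finsupp.linearCombination ℝ h r := by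
  rw [d1_sh_apply, map_add, map_smul, Finsupp.linearCombination_single, hτ]
  simp only [Finsupp.linearCombination_apply, Finsupp.sum, smul_sub, Finset.sum_sub_distrib,
    smul_smul, zero_smul, sub_zero, one_smul, smul_eq_mul, Finset.sum_smul]
  simp

omit [DecidableEq P] in
theorem d1_sh_X (v : P) (τ : P → ℝ) (r : P →₀ ℝ) :
    Finsupp.linearCombination ℝ (X : P → MvPolynomial P ℝ) (d1_sh v τ r)
      = d1_sub v τ (Finsupp.linearCombination ℝ X r) := by
  rw [d1_sh_apply, map_add, map_smul, Finsupp.linearCombination_single]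
  simp only [Finsupp.linearCombination_apply, Finsupp.sum, map_sum, map_smul, d1_sub_X, smul_add,
    Finset.sum_add_distrib, one_smul, Finset.sum_smul]
  congr 1
  refine Finset.sum_congr rfl fun p _ => ?_
  rw [MvPolynomial.smul_eq_C_mul, MvPolynomial.smul_eq_C_mul, smul_eq_mul, map_mul, mul_assoc]

theorem d1_coeffL (G : MvPolynomial P ℝ) (r : P →₀ ℝ) (b : P →₀ ℕ) :
    coeff b (G * Finsupp.linearCombination ℝ (X : P → MvPolynomial P ℝ) r)
      = ∑ p ∈ b.support, coeff (b - Finsupp.single p 1) G * r p := by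
  rw [Finsupp.linearCombination_apply, Finsupp.sum, Finset.mul_sum, coeff_sum]
  have h1 : ∀ p ∈ r.support, coeff b (G * (r p • X p))
      = if p ∈ b.support then coeff (b - Finsupp.single p 1) G * r p else 0 := by
    intro p _
    rw [mul_smul_comm, coeff_smul, coeff_mul_X', smul_eq_mul]
    split_ifs
    · ring
    · ring
  rw [Finset.sum_congr rfl h1, ← Finset.sum_filter]
  have h2 : r.support.filter (fun p => p ∈ b.support) = b.support.filter (fun p => p ∈ r.support) := by
    ext p; simp only [Finset.mem_filter]; tauto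
  rw [h2, Finset.sum_filter]
  refine Finset.sum_congr rfl fun p _ => ?_
  split_ifs with h3
  · rfl
  · rw [Finsupp.notMem_support_iff.1 h3, mul_zero]

theorem d1_nb_mono (T : Finset (Finset P)) {s s' : Finset P} (hs : s ⊆ s') : nb T s' ⊆ nb T s := by
  intro p hp
  obtain ⟨t, ht, hst, hpt⟩ := mem_nb.1 hp
  exact mem_nb.2 ⟨t, ht, hs.trans hst, hpt⟩

theorem d1_Rel_mono (T : Finset (Finset P)) (h : P → W) {s s' : Finset P} (hs : s ⊆ s') :
    Rel T h s' ≤ Rel T h s := by
  refine inf_le_inf_right _ (Finsupp.supported_mono ?_)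
  exact_mod_cast d1_nb_mono T hs

theorem d1_nb_ins {T : Finset (Finset P)} {v : P} (hv : ∀ t ∈ T, v ∈ t) (s : Finset P) :
    nb T (insert v s) = nb T s := by
  refine Finset.Subset.antisymm (d1_nb_mono T (Finset.subset_insert _ _)) fun p hp => ?_
  obtain ⟨t, ht, hst, hpt⟩ := mem_nb.1 hp
  exact mem_nb.2 ⟨t, ht, Finset.insert_subset (hv t ht) hst, hpt⟩

theorem d1_sh_mem {T : Finset (Finset P)} {h : P → W} {v : P} (hv : ∀ t ∈ T, v ∈ t) {τ : P → ℝ}
    (hτ : τ v = 0) {s : Finset P} {r : P →₀ ℝ} (hr : r ∈ Rel T h s) :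
    d1_sh v τ r ∈ Rel T (fun p => h p - τ p • h v) s := by
  obtain ⟨h1, h2⟩ := Submodule.mem_inf.1 hr
  refine Submodule.mem_inf.2 ⟨?_, ?_⟩
  · by_cases hr0 : r = 0
    · rw [hr0, map_zero]; exact Submodule.zero_mem _
    · rw [d1_sh_apply]
      refine Submodule.add_mem _ h1 (Submodule.smul_mem _ _ ?_)
      refine Finsupp.single_mem_supported ℝ 1 ?_
      rw [Finset.mem_coe]
      obtain ⟨p, hp⟩ := Finsupp.ne_iff.1 hr0
      have hp' : p ∈ nb T s := by
        have := (Finsupp.mem_supported ℝ r).1 h1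
        exact_mod_cast this (Finsupp.mem_support_iff.2 hp)
      obtain ⟨t, ht, hst, _⟩ := mem_nb.1 hp'
      exact mem_nb.2 ⟨t, ht, hst, hv t ht⟩
  · rw [LinearMap.mem_ker, d1_sh_rel v τ hτ]
    exact LinearMap.mem_ker.1 h2

omit [DecidableEq P] in
theorem d1_mon (v : P) (τ : P → ℝ) (c : P →₀ ℕ) :
    d1_sub v τ (monomial c 1) = ∏ p ∈ c.support, (X p + C (τ p) * X v) ^ c p := by
  rw [d1_sub, aeval_monomial, map_one, one_mul, Finsupp.prod]

theorem d1_supp {v : P} {τ : P → ℝ} {a c : P →₀ ℕ} (ha : coeff a (d1_sub v τ (monomial c 1)) ≠ 0) :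
    a.support ⊆ insert v c.support := by
  have h1 : d1_sub v τ (monomial c 1) ∈ supported ℝ ((insert v c.support : Finset P) : Set P) := by
    rw [d1_mon]
    refine Subalgebra.prod_mem _ fun p hp => Subalgebra.pow_mem _ (Subalgebra.add_mem _ ?_ ?_) _
    · exact X_mem_supported.2 (by simp only [Finset.coe_insert]; exact Or.inr hp)
    · refine Subalgebra.mul_mem _ ?_ (X_mem_supported.2 (by simp))
      rw [← algebraMap_eq]
      exact Subalgebra.algebraMap_mem _ _
  rw [mem_supported] at h1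
  intro p hp
  have h2 : p ∈ (d1_sub v τ (monomial c 1)).vars :=
    (mem_vars_iff_mem_support p).2 ⟨a, mem_support_iff.2 ha, hp⟩
  exact_mod_cast h1 h2

theorem d1_deg {v : P} {τ : P → ℝ} {a c : P →₀ ℕ} (ha : coeff a (d1_sub v τ (monomial c 1)) ≠ 0) :
    a.degree = c.degree := by
  have h1 : (d1_sub v τ (monomial c 1)).IsHomogeneous c.degree := by
    rw [d1_mon, Finsupp.degree_apply]
    refine IsHomogeneous.prod _ _ _ fun p _ => ?_
    have h2 : (X p + C (τ p) * X v : MvPolynomial P ℝ).IsHomogeneous 1 := by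
      refine (isHomogeneous_X ℝ p).add ?_
      have := (isHomogeneous_C P (τ p)).mul (isHomogeneous_X ℝ v)
      rwa [zero_add] at this
    have h3 := h2.pow (c p)
    rwa [one_mul] at h3
  by_contra hne
  exact ha (h1.coeff_eq_zero hne)

/-- The map of families. -/
def d1_fun (T : Finset (Finset P)) (v : P) (τ : P → ℝ) (k : ℕ) (ρ : (P →₀ ℕ) → (P →₀ ℝ))
    (a : P →₀ ℕ) : P →₀ ℝ :=
  ∑ c ∈ DD T k, coeff a (d1_sub v τ (monomial c 1)) • d1_sh v τ (ρ c)

theorem d1_fun_mem {T : Finset (Finset P)} {h : P → W} {v : P} (hv : ∀ t ∈ T, v ∈ t) {τ : P → ℝ}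
    (hτ : τ v = 0) {k : ℕ} {ρ : (P →₀ ℕ) → (P →₀ ℝ)} (hρ : ρ ∈ StressT T h k) :
    d1_fun T v τ k ρ ∈ StressT T (fun p => h p - τ p • h v) k := by
  obtain ⟨h1, h2, h3⟩ := mem_StressT.1 hρ
  refine mem_StressT.2 ⟨fun a => ?_, fun a ha => ?_, fun b => ?_⟩
  · refine Submodule.sum_mem _ fun c hc => ?_
    by_cases h0 : coeff a (d1_sub v τ (monomial c 1)) = 0
    · rw [h0, zero_smul]; exact Submodule.zero_mem _
    · refine Submodule.smul_mem _ _ ?_
      refine d1_Rel_mono T _ (d1_supp h0) ?_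
      have h4 := d1_sh_mem hv hτ (h1 c)
      obtain ⟨h5, h6⟩ := Submodule.mem_inf.1 h4
      exact Submodule.mem_inf.2 ⟨by rw [d1_nb_ins hv]; exact h5, h6⟩
  · refine Finset.sum_eq_zero fun c hc => ?_
    by_cases h0 : coeff a (d1_sub v τ (monomial c 1)) = 0
    · rw [h0, zero_smul]
    · exfalso
      apply ha
      obtain ⟨⟨t, ht, hst⟩, hk⟩ := mem_DD.1 hc
      exact mem_DD.2 ⟨⟨t, ht, (d1_supp h0).trans (Finset.insert_subset (hv t ht) hst)⟩,
        (d1_deg h0).trans hk⟩
  · have h4 : ∑ c ∈ DD T k, (monomial c (1 : ℝ)) * Finsupp.linearCombination ℝ X (ρ c) = 0 := by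
      ext b'
      rw [coeff_sum, coeff_zero, ← h3 b']
      rw [Finset.sum_congr rfl (fun c _ => d1_coeffL _ _ _), Finset.sum_comm]
      refine Finset.sum_congr rfl fun p _ => ?_
      by_cases hD : b' - Finsupp.single p 1 ∈ DD T k
      · rw [Finset.sum_eq_single_of_mem _ hD]
        · rw [coeff_monomial, if_pos rfl, one_mul]
        · intro c _ hc
          rw [coeff_monomial, if_neg hc, zero_mul]
      · rw [h2 _ hD, Finsupp.zero_apply]
        refine Finset.sum_eq_zero fun c hc => ?_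
        rw [coeff_monomial, if_neg, zero_mul]
        rintro rfl
        exact hD hc
    have h5 := congrArg (fun f => coeff b (d1_sub v τ f)) h4
    simp only [map_zero, coeff_zero, map_sum, coeff_sum, map_mul, ← d1_sh_X, d1_coeffL] at h5
    rw [Finset.sum_comm] at h5
    rw [← h5]
    refine Finset.sum_congr rfl fun p _ => ?_
    rw [d1_fun, Finsupp.finsetSum_apply]
    refine Finset.sum_congr rfl fun c _ => ?_
    rw [Finsupp.smul_apply, smul_eq_mul]

/-- The linear map. -/
def d1_map {T : Finset (Finset P)} (h : P → W) {v : P} (hv : ∀ t ∈ T, v ∈ t) {τ : P → ℝ}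
    (hτ : τ v = 0) (k : ℕ) :
    StressT T h k →ₗ[ℝ] StressT T (fun p => h p - τ p • h v) k where
  toFun ρ := ⟨d1_fun T v τ k ρ.1, d1_fun_mem hv hτ ρ.2⟩
  map_add' ρ ρ' := by
    apply Subtype.ext
    funext a
    simp only [Submodule.coe_add, Pi.add_apply, d1_fun, map_add, smul_add, Finset.sum_add_distrib]
  map_smul' x ρ := by
    apply Subtype.ext
    funext a
    simp only [Submodule.coe_smul, Pi.smul_apply, d1_fun, map_smul, RingHom.id_apply,
      Finset.smul_sum]
    exact Finset.sum_congr rfl fun c _ => smul_comm _ _ _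

theorem d1_inj {T : Finset (Finset P)} (h : P → W) {v : P} (hv : ∀ t ∈ T, v ∈ t) {τ : P → ℝ}
    (hτ : τ v = 0) (k : ℕ) : Function.Injective (d1_map h hv hτ k) := by
  rw [injective_iff_map_eq_zero]
  intro ρ hρ
  apply Subtype.ext
  have h0 : ∀ a, d1_fun T v τ k ρ.1 a = 0 := fun a => congrFun (congrArg Subtype.val hρ) a
  have h1 : ∀ p, ∑ c ∈ DD T k, monomial c (d1_sh v τ (ρ.1 c) p) = 0 := by
    intro p
    rw [← d1_sub_sub v τ hτ (∑ c ∈ DD T k, monomial c (d1_sh v τ (ρ.1 c) p))]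
    have h2 : d1_sub v τ (∑ c ∈ DD T k, monomial c (d1_sh v τ (ρ.1 c) p)) = 0 := by
      ext a
      rw [map_sum, coeff_sum, coeff_zero]
      have h3 := DFunLike.congr_fun (h0 a) p
      rw [d1_fun, Finsupp.finsetSum_apply, Finsupp.zero_apply] at h3
      rw [← h3]
      refine Finset.sum_congr rfl fun c _ => ?_
      have h4 : (monomial c (d1_sh v τ (ρ.1 c) p) : MvPolynomial P ℝ)
          = d1_sh v τ (ρ.1 c) p • monomial c 1 := by
        rw [smul_monomial, smul_eq_mul, mul_one]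
      rw [h4, map_smul, coeff_smul, Finsupp.smul_apply, smul_eq_mul, smul_eq_mul, mul_comm]
    rw [h2, map_zero]
  funext c
  by_cases hc : c ∈ DD T k
  swap
  · exact (mem_StressT.1 ρ.2).2.1 c hc
  have h5 : d1_sh v τ (ρ.1 c) = 0 := by
    ext p
    have h6 := congrArg (coeff c) (h1 p)
    rw [coeff_sum, coeff_zero, Finset.sum_eq_single_of_mem c hc] at h6
    · rwa [coeff_monomial, if_pos rfl] at h6
    · intro c' _ hne
      rw [coeff_monomial, if_neg hne]
  rw [← d1_sh_sh v τ hτ (ρ.1 c), h5, map_zero]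
  rfl

theorem d1_main {T : Finset (Finset P)} (h : P → W) {v : P} (hv : ∀ t ∈ T, v ∈ t) {τ : P → ℝ}
    (hτ : τ v = 0) (k : ℕ) : Module.finrank ℝ (StressT T h k)
      = Module.finrank ℝ (StressT T (fun p => h p - τ p • h v) k) := by
  apply le_antisymm
  · exact LinearMap.finrank_le_finrank_of_injective (d1_inj h hv hτ k)
  · have hτ' : (-τ) v = 0 := by rw [Pi.neg_apply, hτ, neg_zero]
    have h1 := LinearMap.finrank_le_finrank_of_injective
      (d1_inj (fun p => h p - τ p • h v) hv hτ' k)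
    have h2 : (fun p => h p - τ p • h v - (-τ) p • (h v - τ v • h v)) = h := by
      funext p
      rw [hτ, Pi.neg_apply, zero_smul, sub_zero, neg_smul, sub_neg_eq_add, sub_add_cancel]
    rw [h2] at h1
    exact h1

end d1

theorem blk_D1 : Stmt_D1 := by
  intro P W _ _ _ T h v hv τ hτ k
  exact d1_main h hv hτ k

end Pool.CB
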