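import Pool.Agent.Work.CB2.D1

/-!
# The levels of the stresses on a star
-/

open scoped BigOperators
open Finset

noncomputable section

namespace Pool.CB

section d2

variable {P : Type*} [DecidableEq P] {W : Type*} [AddCommGroup W] [Module ℝ W]
variable {T : Finset (Finset P)} {h : P → W} {v : P} {φ : W →ₗ[ℝ] ℝ}

theorem mem_lk {s : Finset P} : s ∈ lk T v ↔ ∃ t ∈ T, v ∈ t ∧ t.erase v = s := by
  unfold lk
  rw [Finset.mem_image]
  constructor
  · rintro ⟨t, ht, rfl⟩
    exact ⟨t, (mem_Tv.1 ht).1, (mem_Tv.1 ht).2, rfl⟩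
  · rintro ⟨t, ht, hvt, rfl⟩
    exact ⟨t, mem_Tv.2 ⟨ht, hvt⟩, rfl⟩

theorem d2_nb {s : Finset P} (hs : v ∉ s) {p : P} :
    p ∈ nb (lk T v) s ↔ p ∈ nb (Tv T v) s ∧ p ≠ v := by
  constructor
  · intro hp
    obtain ⟨t', ht', hst, hpt⟩ := mem_nb.1 hp
    obtain ⟨t, ht, hvt, rfl⟩ := mem_lk.1 ht'
    rw [Finset.mem_erase] at hpt
    exact ⟨mem_nb.2 ⟨t, mem_Tv.2 ⟨ht, hvt⟩, hst.trans (Finset.erase_subset _ _), hpt.2⟩, hpt.1⟩
  · rintro ⟨hp, hpv⟩
    obtain ⟨t, ht, hst, hpt⟩ := mem_nb.1 hp
    refine mem_nb.2 ⟨t.erase v, mem_lk.2 ⟨t, (mem_Tv.1 ht).1, (mem_Tv.1 ht).2, rfl⟩, ?_,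
      Finset.mem_erase.2 ⟨hpv, hpt⟩⟩
    intro x hx
    rw [Finset.mem_erase]
    exact ⟨fun hh => hs (hh ▸ hx), hst hx⟩

omit [DecidableEq P] in
theorem d2_lin (r : P →₀ ℝ) : Finsupp.linearCombination ℝ (hq h φ v) r
    = Finsupp.linearCombination ℝ h r - φ (Finsupp.linearCombination ℝ h r) • h v := by
  simp only [Finsupp.linearCombination_apply, Finsupp.sum, hq, smul_sub, Finset.sum_sub_distrib,
    map_sum, map_smul, smul_eq_mul, Finset.sum_smul, smul_smul]

theorem d2_phi (hφ1 : φ (h v) = 1) (hφ0 : ∀ p, p ≠ v → φ (h p) = 0) (r : P →₀ ℝ) :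
    φ (Finsupp.linearCombination ℝ h r) = r v := by
  rw [Finsupp.linearCombination_apply, Finsupp.sum, map_sum]
  have h1 : ∀ p ∈ r.support, φ (r p • h p) = if p = v then r v else 0 := by
    intro p _
    rw [map_smul, smul_eq_mul]
    split_ifs with hp
    · rw [hp, hφ1, mul_one]
    · rw [hφ0 p hp, mul_zero]
  rw [Finset.sum_congr rfl h1, Finset.sum_ite_eq']
  split_ifs with h2
  · rfl
  · exact (Finsupp.notMem_support_iff.1 h2).symm

theorem d2_rel_v (hφ1 : φ (h v) = 1) (hφ0 : ∀ p, p ≠ v → φ (h p) = 0) {s : Finset P} {r : P →₀ ℝ}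
    (hr : r ∈ Rel T h s) : r v = 0 := by
  have h1 := LinearMap.mem_ker.1 (Submodule.mem_inf.1 hr).2
  rw [← d2_phi hφ1 hφ0 r, h1, map_zero]

theorem d2_rel_lk {s : Finset P} {r : P →₀ ℝ}
    (hr : r ∈ Rel (lk T v) (hq h φ v) s) : r v = 0 := by
  apply Rel_apply_eq_zero hr
  intro hh
  obtain ⟨t', ht', _, hpt⟩ := mem_nb.1 hh
  obtain ⟨t, _, _, rfl⟩ := mem_lk.1 ht'
  exact (Finset.notMem_erase v t) hpt

theorem d2_Rel (hv : ∀ t ∈ T, v ∈ t) (hφ1 : φ (h v) = 1) (hφ0 : ∀ p, p ≠ v → φ (h p) = 0)
    {s : Finset P} (hs : v ∉ s) {r : P →₀ ℝ} :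
    r ∈ Rel (lk T v) (hq h φ v) s ↔ r ∈ Rel T h s := by
  have hTv : Tv T v = T := Tv_eq hv
  constructor
  · intro hr
    have hrv := d2_rel_lk hr
    obtain ⟨h1, h2⟩ := Submodule.mem_inf.1 hr
    rw [LinearMap.mem_ker, d2_lin, d2_phi hφ1 hφ0, hrv, zero_smul, sub_zero] at h2
    refine Submodule.mem_inf.2 ⟨?_, LinearMap.mem_ker.2 h2⟩
    rw [Finsupp.mem_supported] at h1 ⊢
    intro p hp
    have h3 : p ∈ nb (lk T v) s := by exact_mod_cast h1 hp
    have h4 := ((d2_nb hs).1 h3).1
    rw [hTv] at h4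
    exact_mod_cast h4
  · intro hr
    have hrv := d2_rel_v hφ1 hφ0 hr
    obtain ⟨h1, h2⟩ := Submodule.mem_inf.1 hr
    refine Submodule.mem_inf.2 ⟨?_, ?_⟩
    · rw [Finsupp.mem_supported] at h1 ⊢
      intro p hp
      have h3 : p ∈ nb T s := by exact_mod_cast h1 hp
      have h4 : p ∈ nb (lk T v) s := by
        refine (d2_nb hs).2 ⟨by rw [hTv]; exact h3, ?_⟩
        rintro rfl
        exact (Finsupp.mem_support_iff.1 (Finset.mem_coe.1 hp)) hrv
      exact_mod_cast h4
    · rw [LinearMap.mem_ker] at h2 ⊢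
      rw [d2_lin, h2, map_zero, zero_smul, sub_zero]

/-- The level with `j` factors different from `v`. -/
def d2_lev (v : P) (k j : ℕ) (ρ : (P →₀ ℕ) → (P →₀ ℝ)) (a : P →₀ ℕ) : P →₀ ℝ :=
  if a v = 0 then ρ (a + Finsupp.single v (k - j)) else 0

theorem d2_lev_mem (hv : ∀ t ∈ T, v ∈ t) (hφ1 : φ (h v) = 1) (hφ0 : ∀ p, p ≠ v → φ (h p) = 0)
    {k j : ℕ} (hj : j ≤ k) {ρ : (P →₀ ℕ) → (P →₀ ℝ)} (hρ : ρ ∈ StressT T h k) :
    d2_lev v k j ρ ∈ StressT (lk T v) (hq h φ v) j := by
  obtain ⟨h1, h2, h3⟩ := mem_StressT.1 hρ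
  refine mem_StressT.2 ⟨fun a => ?_, fun a ha => ?_, fun b => ?_⟩
  · unfold d2_lev
    split_ifs with hav
    · have hva : v ∉ a.support := Finsupp.notMem_support_iff.2 hav
      rw [d2_Rel hv hφ1 hφ0 hva]
      refine d1_Rel_mono T h ?_ (h1 _)
      intro x hx
      rw [Finsupp.mem_support_iff] at hx ⊢
      rw [Finsupp.add_apply]
      omega
    · exact Submodule.zero_mem _
  · unfold d2_lev
    split_ifs with hav
    · by_contra hne
      apply ha
      have hD : a + Finsupp.single v (k - j) ∈ DD T k := by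
        by_contra hD
        exact hne (h2 _ hD)
      obtain ⟨⟨t, ht, hst⟩, hk⟩ := mem_DD.1 hD
      refine mem_DD.2 ⟨⟨t.erase v, mem_lk.2 ⟨t, ht, hv t ht, rfl⟩, ?_⟩, ?_⟩
      · intro x hx
        rw [Finset.mem_erase]
        refine ⟨?_, hst ?_⟩
        · rintro rfl
          exact (Finsupp.mem_support_iff.1 hx) hav
        · rw [Finsupp.mem_support_iff] at hx ⊢
          rw [Finsupp.add_apply]
          omega
      · rw [map_add, Finsupp.degree_single] at hk
        omega
    · rfl
  · by_cases hbv : b v = 0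
    · have h4 := h3 (b + Finsupp.single v (k - j))
      rw [← h4]
      have hsub : b.support ⊆ (b + Finsupp.single v (k - j)).support := by
        intro x hx
        rw [Finsupp.mem_support_iff] at hx ⊢
        rw [Finsupp.add_apply]
        omega
      rw [← Finset.sum_subset hsub]
      · refine Finset.sum_congr rfl fun p hp => ?_
        have hpv : p ≠ v := by
          rintro rfl
          exact (Finsupp.mem_support_iff.1 hp) hbv
        have h5 : (b - Finsupp.single p 1 : P →₀ ℕ) v = 0 := by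
          rw [Finsupp.tsub_apply, hbv, zero_tsub]
        unfold d2_lev
        rw [if_pos h5]
        congr 2
        have hbp := Finsupp.mem_support_iff.1 hp
        ext x
        simp only [Finsupp.add_apply, Finsupp.tsub_apply, Finsupp.single_apply]
        split_ifs with hx1 hx2 <;> (try omega)
        subst hx1; omega
      · intro p hp hpn
        have hpv : p = v := by
          by_contra hne
          apply hpn
          rw [Finsupp.mem_support_iff] at hp ⊢
          rw [Finsupp.add_apply, Finsupp.single_apply, if_neg (Ne.symm hne), add_zero] at hp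
          exact hp
        rw [hpv]
        exact d2_rel_v hφ1 hφ0 (h1 _)
    · refine Finset.sum_eq_zero fun p _ => ?_
      unfold d2_lev
      split_ifs with h5
      · by_cases hpv : p = v
        · rw [hpv]
          exact d2_rel_v hφ1 hφ0 (h1 _)
        · exfalso
          rw [Finsupp.tsub_apply, Finsupp.single_apply, if_neg hpv] at h5
          omega
      · rfl

/-- Assembling the levels. -/
def d2_asm (v : P) (k : ℕ) (σ : Fin (k + 1) → (P →₀ ℕ) → (P →₀ ℝ)) (a : P →₀ ℕ) : P →₀ ℝ :=
  ∑ j : Fin (k + 1), if a v + (j : ℕ) = k then σ j (a.erase v) else 0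

theorem d2_asm_mem (hv : ∀ t ∈ T, v ∈ t) (hφ1 : φ (h v) = 1) (hφ0 : ∀ p, p ≠ v → φ (h p) = 0)
    {k : ℕ} {σ : Fin (k + 1) → (P →₀ ℕ) → (P →₀ ℝ)}
    (hσ : ∀ j : Fin (k + 1), σ j ∈ StressT (lk T v) (hq h φ v) j) :
    d2_asm v k σ ∈ StressT T h k := by
  refine mem_StressT.2 ⟨fun a => ?_, fun a ha => ?_, fun b => ?_⟩
  · refine Submodule.sum_mem _ fun j _ => ?_
    split_ifs with hj
    · have h1 := (mem_StressT.1 (hσ j)).1 (a.erase v)
      rw [d2_Rel hv hφ1 hφ0 (by simp)] at h1
      rw [← Rel_ins hv] at h1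
      refine d1_Rel_mono T h ?_ h1
      intro x hx
      rw [Finsupp.support_erase, Finset.mem_insert, Finset.mem_erase]
      tauto
    · exact Submodule.zero_mem _
  · refine Finset.sum_eq_zero fun j _ => ?_
    split_ifs with hj
    · by_contra hne
      apply ha
      have hD : a.erase v ∈ DD (lk T v) j := by
        by_contra hD
        exact hne ((mem_StressT.1 (hσ j)).2.1 _ hD)
      obtain ⟨⟨t', ht', hst⟩, hk⟩ := mem_DD.1 hD
      obtain ⟨t, ht, hvt, rfl⟩ := mem_lk.1 ht'
      refine mem_DD.2 ⟨⟨t, ht, ?_⟩, ?_⟩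
      · intro x hx
        by_cases hxv : x = v
        · rw [hxv]; exact hvt
        · refine Finset.erase_subset _ _ (hst ?_)
          rw [Finsupp.support_erase, Finset.mem_erase]
          exact ⟨hxv, hx⟩
      · have h6 : a = Finsupp.single v (a v) + a.erase v := (Finsupp.single_add_erase v a).symm
        rw [h6, map_add, Finsupp.degree_single, hk]
        exact hj
    · rfl
  · have h7 : ∑ p ∈ b.support, d2_asm v k σ (b - Finsupp.single p 1) p
        = ∑ p ∈ (b.erase v).support, d2_asm v k σ (b - Finsupp.single p 1) p := by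
      symm
      refine Finset.sum_subset ?_ ?_
      · rw [Finsupp.support_erase]
        exact Finset.erase_subset _ _
      · intro p hp hpn
        have hpv : p = v := by
          by_contra hne
          apply hpn
          rw [Finsupp.support_erase, Finset.mem_erase]
          exact ⟨hne, hp⟩
        rw [hpv, d2_asm, Finsupp.finsetSum_apply]
        refine Finset.sum_eq_zero fun j _ => ?_
        split_ifs
        · exact d2_rel_lk ((mem_StressT.1 (hσ j)).1 _)
        · rfl
    rw [h7]
    have h8 : ∀ p ∈ (b.erase v).support, d2_asm v k σ (b - Finsupp.single p 1) p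
        = ∑ j : Fin (k + 1), if b v + (j : ℕ) = k then
            σ j (b.erase v - Finsupp.single p 1) p else 0 := by
      intro p hp
      rw [Finsupp.support_erase, Finset.mem_erase] at hp
      rw [d2_asm, Finsupp.finsetSum_apply]
      refine Finset.sum_congr rfl fun j _ => ?_
      have e1 : (b - Finsupp.single p 1 : P →₀ ℕ) v = b v := by
        rw [Finsupp.tsub_apply, Finsupp.single_apply, if_neg hp.1, tsub_zero]
      have e2 : (b - Finsupp.single p 1).erase v = b.erase v - Finsupp.single p 1 := by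
        ext x
        by_cases hx : x = v
        · subst hx
          rw [Finsupp.erase_same, Finsupp.tsub_apply, Finsupp.erase_same, zero_tsub]
        · rw [Finsupp.erase_ne hx, Finsupp.tsub_apply, Finsupp.tsub_apply, Finsupp.erase_ne hx]
      rw [e1, e2]
      split_ifs
      · rfl
      · rfl
    rw [Finset.sum_congr rfl h8, Finset.sum_comm]
    refine Finset.sum_eq_zero fun j _ => ?_
    by_cases hj : b v + (j : ℕ) = k
    · simp only [if_pos hj]
      exact (mem_StressT.1 (hσ j)).2.2 (b.erase v)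
    · simp only [if_neg hj, Finset.sum_const_zero]

/-- The equivalence. -/
def d2_equiv (hv : ∀ t ∈ T, v ∈ t) (hφ1 : φ (h v) = 1) (hφ0 : ∀ p, p ≠ v → φ (h p) = 0) (k : ℕ) :
    StressT T h k ≃ₗ[ℝ] ((j : Fin (k + 1)) → StressT (lk T v) (hq h φ v) j) where
  toFun ρ j := ⟨d2_lev v k j ρ.1, d2_lev_mem hv hφ1 hφ0 (by omega) ρ.2⟩
  map_add' ρ ρ' := by
    funext j
    apply Subtype.ext
    funext a
    simp only [Submodule.coe_add, Pi.add_apply, d2_lev]
    split_ifs <;> simp
  map_smul' x ρ := by
    funext j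
    apply Subtype.ext
    funext a
    simp only [Submodule.coe_smul, Pi.smul_apply, d2_lev, RingHom.id_apply]
    split_ifs <;> simp
  invFun σ := ⟨d2_asm v k (fun j => (σ j).1), d2_asm_mem hv hφ1 hφ0 fun j => (σ j).2⟩
  left_inv ρ := by
    apply Subtype.ext
    funext a
    show d2_asm v k (fun j => d2_lev v k j ρ.1) a = ρ.1 a
    unfold d2_asm
    by_cases hav : a v ≤ k
    · rw [Finset.sum_eq_single (⟨k - a v, by omega⟩ : Fin (k + 1))]
      · rw [if_pos (by simp only; omega)]
        show d2_lev v k (k - a v) ρ.1 (a.erase v) = ρ.1 a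
        unfold d2_lev
        rw [if_pos (by rw [Finsupp.erase_same])]
        have : k - (k - a v) = a v := by omega
        rw [this, Finsupp.erase_add_single v a]
      · intro j _ hj
        rw [if_neg]
        intro hh
        apply hj
        ext
        simp only
        omega
      · intro hn; exact absurd (Finset.mem_univ _) hn
    · have h0 : ρ.1 a = 0 := by
        apply (mem_StressT.1 ρ.2).2.1
        intro hD
        have hk := (mem_DD.1 hD).2
        have h6 : a = Finsupp.single v (a v) + a.erase v := (Finsupp.single_add_erase v a).symm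
        rw [h6, map_add, Finsupp.degree_single] at hk
        omega
      rw [h0]
      refine Finset.sum_eq_zero fun j _ => ?_
      rw [if_neg]
      omega
  right_inv σ := by
    funext j
    apply Subtype.ext
    funext a
    show d2_lev v k j (d2_asm v k (fun j => (σ j).1)) a = (σ j).1 a
    unfold d2_lev
    split_ifs with hav
    · unfold d2_asm
      have e1 : (a + Finsupp.single v (k - (j : ℕ))) v = k - j := by
        rw [Finsupp.add_apply, Finsupp.single_eq_same, hav, zero_add]
      have e2 : (a + Finsupp.single v (k - (j : ℕ))).erase v = a := by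
        ext x
        by_cases hx : x = v
        · subst hx
          rw [Finsupp.erase_same, hav]
        · rw [Finsupp.erase_ne hx, Finsupp.add_apply, Finsupp.single_apply, if_neg (Ne.symm hx),
            add_zero]
      rw [e1, e2, Finset.sum_eq_single j]
      · rw [if_pos (by omega)]
      · intro j' _ hj'
        rw [if_neg]
        intro hh
        apply hj'
        ext
        omega
      · intro hn; exact absurd (Finset.mem_univ _) hn
    · symm
      apply (mem_StressT.1 (σ j).2).2.1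
      intro hD
      obtain ⟨⟨t', ht', hst⟩, _⟩ := mem_DD.1 hD
      obtain ⟨t, _, _, rfl⟩ := mem_lk.1 ht'
      exact (Finset.notMem_erase v t) (hst (Finsupp.mem_support_iff.2 hav))

end d2

theorem blk_D2 : Stmt_D2 := by
  intro P W _ _ _ T h v hv φ hφ1 hφ0 k
  rw [LinearEquiv.finrank_eq (d2_equiv hv hφ1 hφ0 k)]
  have h1 : ∀ j : Fin (k + 1), Module.Free ℝ (StressT (lk T v) (hq h φ v) (j : ℕ)) :=
    fun j => Module.Free.of_divisionRing ℝ (StressT (lk T v) (hq h φ v) (j : ℕ))
  rw [Module.finrank_pi_fintype, Finset.sum_range]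

theorem blk_D : Stmt_D := by
  intro P W _ _ _ T h v φ hφ1 k
  have hv : ∀ t ∈ Tv T v, v ∈ t := fun t ht => (mem_Tv.1 ht).2
  set τ : P → ℝ := fun p => if p = v then 0 else φ (h p) with hτdef
  have hτ : τ v = 0 := by simp [hτdef]
  rw [blk_D1 P W (Tv T v) h v hv τ hτ k]
  have e1 : φ ((fun p => h p - τ p • h v) v) = 1 := by
    simp only [hτ, zero_smul, sub_zero]
    exact hφ1
  have e2 : ∀ p, p ≠ v → φ ((fun p => h p - τ p • h v) p) = 0 := by
    intro p hp
    simp only [hτdef, if_neg hp, map_sub, map_smul, hφ1, smul_eq_mul, mul_one, sub_self]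
  rw [blk_D2 P W (Tv T v) (fun p => h p - τ p • h v) v hv φ e1 e2 k]
  have e3 : lk (Tv T v) v = lk T v := by
    unfold lk
    rw [Tv_eq hv]
  have e4 : hq (fun p => h p - τ p • h v) φ v = hq h φ v := by
    funext p
    unfold hq
    by_cases hp : p = v
    · subst hp
      simp only [hτ, zero_smul, sub_zero]
    · rw [e2 p hp]
      simp only [hτ, zero_smul, sub_zero]
      simp only [hτdef, if_neg hp]
  rw [e3, e4]

end Pool.CB
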