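import Pool.Agent.Work.CB.Defs

/-!
# The local linear systems
-/

open scoped BigOperators
open Finset

noncomputable section

namespace Pool.CB

/-- The determinant `[x y z]` of `x - v`, `y - v`, `z - v`. -/
def dt (v x y z : E3) : ℝ := Matrix.det (Matrix.of ![x - v, y - v, z - v])

namespace TetComplex

variable (Δ : TetComplex)

/-- Inner triangles: those which lie in two tetrahedra. -/
def IsInner (f : Finset E3) : Prop :=
  f ∈ Δ.faces 3 ∧ ∃ s ∈ Δ.tets, ∃ t ∈ Δ.tets, s ≠ t ∧ f ⊆ s ∧ f ⊆ t

/-- The number `g (v; p, q)`: if the triangle `v p q` lies in the two tetrahedra `v p q a` and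
`v p q b`, it is `[a q b] / (|[p q a]| [p q b])`, where `[x y z] = dt v x y z` is the determinant
of `x - v`, `y - v`, `z - v` (exchanging `a` and `b` does not change it); it is zero for all other
`p`, `q`. In other words, `(a - v) / |[p q a]| + (b - v) / |[p q b]|
= g (v; p, q) (p - v) + g (v; q, p) (q - v)`. -/
def gcoef (v p q : E3) : ℝ :=
  ∑ a ∈ Δ.vertices, ∑ b ∈ Δ.vertices,
    if a ≠ b ∧ ({v, p, q, a} : Finset E3) ∈ Δ.tets ∧ ({v, p, q, b} : Finset E3) ∈ Δ.tets
    then dt v a q b / (2 * |dt v p q a| * dt v p q b) else 0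

/-- The quadratic system at `v`: `w p q = - w q p`, `w p q = 0` unless `v p q` is a triangle, and
`∑_q w p q (q - v) = 0` for all `p`. -/
def quadS (v : E3) : Submodule ℝ (E3 → E3 → ℝ) where
  carrier := {w | (∀ p q, w p q + w q p = 0) ∧
    (∀ p q, ({v, p, q} : Finset E3) ∉ Δ.faces 3 → w p q = 0) ∧
    ∀ p, ∑ q ∈ Δ.vertices, w p q • (q - v) = 0}
  add_mem' := by
    rintro w w' ⟨h1, h2, h3⟩ ⟨h1', h2', h3'⟩
    refine ⟨fun p q => ?_, fun p q hpq => ?_, fun p => ?_⟩
    · have := h1 p q
      have := h1' p q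
      simp only [Pi.add_apply]
      linarith
    · simp [h2 p q hpq, h2' p q hpq]
    · simp only [Pi.add_apply, add_smul, Finset.sum_add_distrib, h3 p, h3' p, add_zero]
  zero_mem' := ⟨fun p q => by simp, fun p q _ => rfl, fun p => by simp⟩
  smul_mem' := by
    rintro c w ⟨h1, h2, h3⟩
    refine ⟨fun p q => ?_, fun p q hpq => ?_, fun p => ?_⟩
    · simp only [Pi.smul_apply, smul_eq_mul, ← mul_add, h1 p q, mul_zero]
    · simp [h2 p q hpq]
    · simp only [Pi.smul_apply, smul_eq_mul, mul_smul, ← Finset.smul_sum, h3 p, smul_zero]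

/-- The cubic system at `v`: `s p q = s q p`, `s p q = 0` unless `v p q` is an inner triangle,
`s p q + s q r + s r p = 0` for all tetrahedra `v p q r`, and
`∑_q s p q g (v; p, q) (q - v) = 0` for all `p`. -/
def cubicS (v : E3) : Submodule ℝ (E3 → E3 → ℝ) where
  carrier := {s | (∀ p q, s p q = s q p) ∧
    (∀ p q, ¬ Δ.IsInner {v, p, q} → s p q = 0) ∧
    (∀ p q r, ({v, p, q, r} : Finset E3) ∈ Δ.tets → s p q + s q r + s r p = 0) ∧
    ∀ p, ∑ q ∈ Δ.vertices, (s p q * Δ.gcoef v p q) • (q - v) = 0}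
  add_mem' := by
    rintro w w' ⟨h1, h2, h3, h4⟩ ⟨h1', h2', h3', h4'⟩
    refine ⟨fun p q => ?_, fun p q hpq => ?_, fun p q r ht => ?_, fun p => ?_⟩
    · simp only [Pi.add_apply, h1 p q, h1' p q]
    · simp [h2 p q hpq, h2' p q hpq]
    · have := h3 p q r ht
      have := h3' p q r ht
      simp only [Pi.add_apply]
      linarith
    · simp only [Pi.add_apply, add_mul, add_smul, Finset.sum_add_distrib, h4 p, h4' p, add_zero]
  zero_mem' := ⟨fun p q => rfl, fun p q _ => rfl, fun p q r _ => by simp, fun p => by simp⟩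
  smul_mem' := by
    rintro c w ⟨h1, h2, h3, h4⟩
    refine ⟨fun p q => ?_, fun p q hpq => ?_, fun p q r ht => ?_, fun p => ?_⟩
    · simp only [Pi.smul_apply, h1 p q]
    · simp [h2 p q hpq]
    · simp only [Pi.smul_apply, smul_eq_mul, ← mul_add, h3 p q r ht, mul_zero]
    · simp only [Pi.smul_apply, smul_eq_mul, mul_assoc, mul_smul c, ← Finset.smul_sum, h4 p,
        smul_zero]

/-- The quartic system at `v`: `θ p q = 0` unless `v p q` is an inner triangle,
`θ p q + θ p r = 0` for all tetrahedra `v p q r`,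
`g (v; q, p) θ p q + g (v; p, q) θ q p = 0`, and
`∑_q θ p q g (v; p, q) (q - v) = 0` for all `p`. -/
def quarticS (v : E3) : Submodule ℝ (E3 → E3 → ℝ) where
  carrier := {s | (∀ p q, ¬ Δ.IsInner {v, p, q} → s p q = 0) ∧
    (∀ p q r, ({v, p, q, r} : Finset E3) ∈ Δ.tets → s p q + s p r = 0) ∧
    (∀ p q, Δ.gcoef v q p * s p q + Δ.gcoef v p q * s q p = 0) ∧
    ∀ p, ∑ q ∈ Δ.vertices, (s p q * Δ.gcoef v p q) • (q - v) = 0}
  add_mem' := by
    rintro w w' ⟨h2, h3, h1, h4⟩ ⟨h2', h3', h1', h4'⟩
    refine ⟨fun p q hpq => ?_, fun p q r ht => ?_, fun p q => ?_, fun p => ?_⟩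
    · simp [h2 p q hpq, h2' p q hpq]
    · have := h3 p q r ht
      have := h3' p q r ht
      simp only [Pi.add_apply]
      linarith
    · have := h1 p q
      have := h1' p q
      simp only [Pi.add_apply]
      linarith
    · simp only [Pi.add_apply, add_mul, add_smul, Finset.sum_add_distrib, h4 p, h4' p, add_zero]
  zero_mem' := ⟨fun p q _ => rfl, fun p q r _ => by simp, fun p q => by simp, fun p => by simp⟩
  smul_mem' := by
    rintro c w ⟨h2, h3, h1, h4⟩
    refine ⟨fun p q hpq => ?_, fun p q r ht => ?_, fun p q => ?_, fun p => ?_⟩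
    · simp [h2 p q hpq]
    · simp only [Pi.smul_apply, smul_eq_mul, ← mul_add, h3 p q r ht, mul_zero]
    · have := h1 p q
      simp only [Pi.smul_apply, smul_eq_mul]
      linear_combination c * this
    · simp only [Pi.smul_apply, smul_eq_mul, mul_assoc, mul_smul c, ← Finset.smul_sum, h4 p,
        smul_zero]

/-- The dimension `q_v` of the space of solutions of the quadratic system at `v`. -/
def qDim (v : E3) : ℕ := Module.finrank ℝ (Δ.quadS v)

/-- The dimension `c_v` of the space of solutions of the cubic system at `v`. -/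
def cDim (v : E3) : ℕ := Module.finrank ℝ (Δ.cubicS v)

/-- The dimension `h_v` of the space of solutions of the quartic system at `v`. -/
def hDim (v : E3) : ℕ := Module.finrank ℝ (Δ.quarticS v)

/-- The difference between the dimension of `S_j^1` and `N_j` for the star of `v`. -/
def starExcess (j : ℕ) (v : E3) : ℚ :=
  Module.finrank ℝ ((Δ.star v).splines j) - (Δ.star v).count j

end TetComplex

end Pool.CB
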