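import Pool.Agent.Work.CB2.Interface

/-!
# The edges at the apex are not singular
-/

open scoped BigOperators
open Finset

noncomputable section

namespace Pool.CB

theorem ns_pos_inj44 : ∀ i j : Fin 12, posI 44 i = posI 44 j → i = j := by decide +kernel

theorem ns_pos_inj45 : ∀ i j : Fin 12, posI 45 i = posI 45 j → i = j := by decide +kernel

theorem ns_inj {w : ℤ} (hw : w = 44 ∨ w = 45) : Function.Injective (pt w) := by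
  intro i j hij
  have h1 : posI w i = posI w j := by
    funext x
    have h2 := congrFun hij x
    simp only [pt] at h2
    exact_mod_cast h2
  rcases hw with rfl | rfl
  · exact ns_pos_inj44 i j h1
  · exact ns_pos_inj45 i j h1

/-- A functional which vanishes at four independent points. -/
theorem ns_zero {w : ℤ} {i a b : Fin 12} (hd : dI w i a b ≠ 0) {φ : (E3 × ℝ) →ₗ[ℝ] ℝ}
    (h0 : φ (hc (pt w 0)) = 0) (hi : φ (hc (pt w i)) = 0) (ha : φ (hc (pt w a)) = 0)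
    (hb : φ (hc (pt w b)) = 0) : φ = 0 := by
  have hexp : ∀ x : E3, ∀ r : ℝ, φ (x, r) = ∑ i, φ (Pi.single i 1, 0) * x i + r * φ (0, 1) := by
    intro x r
    have h1 : ((x, r) : E3 × ℝ) = ∑ i, x i • ((Pi.single i (1 : ℝ), (0 : ℝ)) : E3 × ℝ)
        + r • ((0 : E3), (1 : ℝ)) := by
      refine Prod.ext ?_ ?_
      · funext j
        simp [Prod.fst_sum, Pi.single_apply]
      · simp [Prod.snd_sum]
    rw [h1, map_add, map_sum]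
    simp only [map_smul, smul_eq_mul]
    congr 1
    exact Finset.sum_congr rfl fun i _ => by ring
  have hpt0 : pt w 0 = 0 := by
    funext j
    fin_cases j <;> simp [pt, posI]
  have h01 : φ (0, 1) = 0 := by
    have : hc (pt w 0) = ((0 : E3), (1 : ℝ)) := by rw [hpt0]; rfl
    rw [← this]; exact h0
  have key : ∀ j : Fin 12, φ (hc (pt w j)) = 0 →
      φ (Pi.single 0 1, 0) * (posI w j 0 : ℝ) + φ (Pi.single 1 1, 0) * (posI w j 1 : ℝ)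
        + φ (Pi.single 2 1, 0) * (posI w j 2 : ℝ) = 0 := by
    intro j hj
    have h1 : φ (hc (pt w j)) = φ (pt w j, 1) := rfl
    rw [h1, hexp, h01, mul_zero, add_zero, Fin.sum_univ_three] at hj
    exact hj
  have k1 := key i hi
  have k2 := key a ha
  have k3 := key b hb
  have hd' : (dI w i a b : ℝ) ≠ 0 := by exact_mod_cast hd
  have e0 : φ (Pi.single 0 1, 0) = 0 := by
    have : (dI w i a b : ℝ) * φ (Pi.single 0 1, 0) = 0 := by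
      unfold dI
      push_cast
      linear_combination ((posI w a 1 : ℝ) * posI w b 2 - posI w a 2 * posI w b 1) * k1
        - ((posI w i 1 : ℝ) * posI w b 2 - posI w i 2 * posI w b 1) * k2
        + ((posI w i 1 : ℝ) * posI w a 2 - posI w i 2 * posI w a 1) * k3
    exact (mul_eq_zero.1 this).resolve_left hd'
  have e1 : φ (Pi.single 1 1, 0) = 0 := by
    have : (dI w i a b : ℝ) * φ (Pi.single 1 1, 0) = 0 := by
      unfold dI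
      push_cast
      linear_combination -((posI w a 0 : ℝ) * posI w b 2 - posI w a 2 * posI w b 0) * k1
        + ((posI w i 0 : ℝ) * posI w b 2 - posI w i 2 * posI w b 0) * k2
        - ((posI w i 0 : ℝ) * posI w a 2 - posI w i 2 * posI w a 0) * k3
    exact (mul_eq_zero.1 this).resolve_left hd'
  have e2 : φ (Pi.single 2 1, 0) = 0 := by
    have : (dI w i a b : ℝ) * φ (Pi.single 2 1, 0) = 0 := by
      unfold dI
      push_cast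
      linear_combination ((posI w a 0 : ℝ) * posI w b 1 - posI w a 1 * posI w b 0) * k1
        - ((posI w i 0 : ℝ) * posI w b 1 - posI w i 1 * posI w b 0) * k2
        + ((posI w i 0 : ℝ) * posI w a 1 - posI w i 1 * posI w a 0) * k3
    exact (mul_eq_zero.1 this).resolve_left hd'
  refine LinearMap.ext fun x => ?_
  have := hexp x.1 x.2
  rw [h01, Fin.sum_univ_three, e0, e1, e2] at this
  simpa using this

/-- The combinatorial facts. -/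
def NsCond (w : ℤ) (i : Fin 12) : Prop :=
  (∃ t1 ∈ tetF, 0 ∈ t1 ∧ i ∈ t1 ∧ ∃ z ∈ t1, z ≠ 0 ∧ z ≠ i ∧
    ∀ t2 ∈ tetF, z ∈ t2 → 0 ∈ t2 → i ∈ t2 → t2 = t1) ∨
  (∃ a b c : Fin 12, a ≠ 0 ∧ a ≠ i ∧ b ≠ 0 ∧ b ≠ i ∧ c ≠ 0 ∧ c ≠ i ∧
    (∃ t ∈ tetF, 0 ∈ t ∧ i ∈ t ∧ a ∈ t) ∧ (∃ t ∈ tetF, 0 ∈ t ∧ i ∈ t ∧ b ∈ t) ∧
    (∃ t ∈ tetF, 0 ∈ t ∧ i ∈ t ∧ c ∈ t) ∧ dI w i a b ≠ 0 ∧ dI w i a c ≠ 0 ∧ dI w i b c ≠ 0)

/-- A simplex at a boundary vertex. -/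
def nsT1 : Fin 12 → Finset (Fin 12) :=
  ![∅, ∅, ∅, ∅, ∅, ∅, {0, 1, 6, 10}, ∅, ∅, {0, 1, 9, 11}, {0, 1, 6, 10}, {0, 1, 9, 11}]

/-- Its boundary neighbour. -/
def nsZ : Fin 12 → Fin 12 := ![0, 0, 0, 0, 0, 0, 10, 0, 0, 11, 6, 9]

/-- First neighbour. -/
def nsA : Fin 12 → Fin 12 := ![0, 4, 4, 5, 5, 4, 0, 8, 7, 0, 0, 0]

/-- Second neighbour. -/
def nsB : Fin 12 → Fin 12 := ![0, 6, 5, 6, 6, 6, 0, 9, 9, 0, 0, 0]

/-- Third neighbour. -/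
def nsC : Fin 12 → Fin 12 := ![0, 7, 7, 8, 7, 8, 0, 4, 5, 0, 0, 0]

theorem ns_mem {t : Finset (Fin 12)} : t ∈ tetF ↔ t = {0, 4, 5, 6} ∨ t = {0, 3, 5, 6} ∨
    t = {0, 1, 4, 6} ∨ t = {0, 2, 4, 5} ∨ t = {0, 7, 8, 9} ∨ t = {0, 3, 8, 9} ∨
    t = {0, 1, 7, 9} ∨ t = {0, 2, 7, 8} ∨ t = {0, 1, 4, 7} ∨ t = {0, 2, 4, 7} ∨
    t = {0, 2, 5, 8} ∨ t = {0, 3, 5, 8} ∨ t = {0, 3, 6, 9} ∨ t = {0, 1, 6, 10} ∨
    t = {0, 1, 10, 11} ∨ t = {0, 1, 9, 11} := by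
  simp only [tetF, Finset.mem_insert, Finset.mem_singleton]

theorem ns_bd1 : ∀ i : Fin 12, i = 6 ∨ i = 9 ∨ i = 10 ∨ i = 11 →
    0 ∈ nsT1 i ∧ i ∈ nsT1 i ∧ nsZ i ∈ nsT1 i ∧ nsZ i ≠ 0 ∧ nsZ i ≠ i := by
  decide +kernel

theorem ns_bd2 {i : Fin 12} (hi : i = 6 ∨ i = 9 ∨ i = 10 ∨ i = 11) : nsT1 i ∈ tetF := by
  rw [ns_mem]
  rcases hi with rfl | rfl | rfl | rfl <;> decide

theorem ns_bd3 {i : Fin 12} (hi : i = 6 ∨ i = 9 ∨ i = 10 ∨ i = 11) {t : Finset (Fin 12)}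
    (ht : t ∈ tetF) : nsZ i ∈ t → 0 ∈ t → i ∈ t → t = nsT1 i := by
  rw [ns_mem] at ht
  rcases ht with rfl | rfl | rfl | rfl | rfl | rfl | rfl | rfl | rfl | rfl | rfl | rfl | rfl | rfl | rfl | rfl <;> rcases hi with rfl | rfl | rfl | rfl <;>
    decide

theorem ns_bd : ∀ i : Fin 12, i = 6 ∨ i = 9 ∨ i = 10 ∨ i = 11 →
    nsT1 i ∈ tetF ∧ 0 ∈ nsT1 i ∧ i ∈ nsT1 i ∧ nsZ i ∈ nsT1 i ∧ nsZ i ≠ 0 ∧ nsZ i ≠ i ∧
      ∀ t2 ∈ tetF, nsZ i ∈ t2 → 0 ∈ t2 → i ∈ t2 → t2 = nsT1 i := by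
  intro i hi
  obtain ⟨a, b, c, d, e⟩ := ns_bd1 i hi
  exact ⟨ns_bd2 hi, a, b, c, d, e, fun t2 ht2 => ns_bd3 hi ht2⟩

theorem ns_int1 : ∀ i : Fin 12, i = 1 ∨ i = 2 ∨ i = 3 ∨ i = 4 ∨ i = 5 ∨ i = 7 ∨ i = 8 →
    nsA i ≠ 0 ∧ nsA i ≠ i ∧ nsB i ≠ 0 ∧ nsB i ≠ i ∧ nsC i ≠ 0 ∧ nsC i ≠ i := by
  decide +kernel

theorem ns_int2 : ∀ i : Fin 12, i = 1 ∨ i = 2 ∨ i = 3 ∨ i = 4 ∨ i = 5 ∨ i = 7 ∨ i = 8 →
    (∃ t ∈ tetF, 0 ∈ t ∧ i ∈ t ∧ nsA i ∈ t) ∧ (∃ t ∈ tetF, 0 ∈ t ∧ i ∈ t ∧ nsB i ∈ t) ∧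
      (∃ t ∈ tetF, 0 ∈ t ∧ i ∈ t ∧ nsC i ∈ t) := by
  decide +kernel

theorem ns_int3 : ∀ i : Fin 12, i = 1 ∨ i = 2 ∨ i = 3 ∨ i = 4 ∨ i = 5 ∨ i = 7 ∨ i = 8 →
    dI 44 i (nsA i) (nsB i) ≠ 0 ∧ dI 44 i (nsA i) (nsC i) ≠ 0 ∧ dI 44 i (nsB i) (nsC i) ≠ 0 := by
  decide +kernel

theorem ns_int4 : ∀ i : Fin 12, i = 1 ∨ i = 2 ∨ i = 3 ∨ i = 4 ∨ i = 5 ∨ i = 7 ∨ i = 8 →
    dI 45 i (nsA i) (nsB i) ≠ 0 ∧ dI 45 i (nsA i) (nsC i) ≠ 0 ∧ dI 45 i (nsB i) (nsC i) ≠ 0 := by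
  decide +kernel

theorem ns_all : ∀ i : Fin 12, i ≠ 0 → (i = 6 ∨ i = 9 ∨ i = 10 ∨ i = 11) ∨
    (i = 1 ∨ i = 2 ∨ i = 3 ∨ i = 4 ∨ i = 5 ∨ i = 7 ∨ i = 8) := by
  decide

theorem ns_cond {w : ℤ} (hw : w = 44 ∨ w = 45) (i : Fin 12) (hi : i ≠ 0) : NsCond w i := by
  rcases ns_all i hi with h | h
  · obtain ⟨a, b, c, d, e, f, g⟩ := ns_bd i h
    exact Or.inl ⟨nsT1 i, a, b, c, nsZ i, d, e, f, g⟩
  · obtain ⟨a, b, c, d, e, f⟩ := ns_int1 i h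
    obtain ⟨k, l, m⟩ := ns_int2 i h
    refine Or.inr ⟨nsA i, nsB i, nsC i, a, b, c, d, e, f, k, l, m, ?_⟩
    rcases hw with rfl | rfl
    · exact ns_int3 i h
    · exact ns_int4 i h

theorem blk_NS : Stmt_NS := by
  intro w hw Δ hΔ i hi0 hS
  have hinj := ns_inj hw
  have hcond : NsCond w i := ns_cond hw i hi0
  rw [Finset.pair_comm, singAbs_Tv, Finset.pair_comm] at hS
  obtain ⟨hS1, φ, ψ, hφ, hψ, hS2⟩ := hS
  have hmem : ∀ t1 ∈ tetF, t1.image (pt w) ∈ Δ.tets := by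
    intro t1 ht1
    rw [hΔ]
    exact Finset.mem_image_of_mem _ ht1
  have hsub : ∀ t1 : Finset (Fin 12), 0 ∈ t1 → i ∈ t1 →
      ({pt w 0, pt w i} : Finset E3) ⊆ t1.image (pt w) := by
    intro t1 h0 h1 x hx
    simp only [Finset.mem_insert, Finset.mem_singleton] at hx
    rcases hx with rfl | rfl
    · exact Finset.mem_image_of_mem _ h0
    · exact Finset.mem_image_of_mem _ h1
  have hnot : ∀ z : Fin 12, z ≠ 0 → z ≠ i → pt w z ∉ ({pt w 0, pt w i} : Finset E3) := by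
    intro z hz0 hzi hz
    simp only [Finset.mem_insert, Finset.mem_singleton] at hz
    rcases hz with hz | hz
    · exact hz0 (hinj hz)
    · exact hzi (hinj hz)
  rcases hcond with ⟨t1, ht1, h0, h1, z, hz, hz0, hzi, huniq⟩ |
    ⟨a, b, c, ha0, hai, hb0, hbi, hc0, hci, ⟨ta, hta, a1, a2, a3⟩, ⟨tb, htb, b1, b2, b3⟩,
      ⟨tc, htc, c1, c2, c3⟩, hab, hac, hbc⟩
  · obtain ⟨t', ht', hne, hst⟩ := hS1 _ (hmem t1 ht1) (hsub t1 h0 h1) (pt w z)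
      (Finset.mem_image_of_mem _ hz) (hnot z hz0 hzi)
    rw [hΔ] at ht'
    obtain ⟨t2, ht2, rfl⟩ := Finset.mem_image.1 ht'
    have hin : ∀ j : Fin 12, pt w j ∈ t2.image (pt w) → j ∈ t2 := by
      intro j hj
      obtain ⟨j', hj', he⟩ := Finset.mem_image.1 hj
      rwa [← hinj he]
    have := huniq t2 ht2 (hin z (hst (by simp))) (hin 0 (hst (by simp))) (hin i (hst (by simp)))
    exact hne (by rw [this])
  · have kA := hS2 _ (hmem ta hta) (hsub ta a1 a2) (pt w a) (Finset.mem_image_of_mem _ a3)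
      (hnot a ha0 hai)
    have kB := hS2 _ (hmem tb htb) (hsub tb b1 b2) (pt w b) (Finset.mem_image_of_mem _ b3)
      (hnot b hb0 hbi)
    have kC := hS2 _ (hmem tc htc) (hsub tc c1 c2) (pt w c) (Finset.mem_image_of_mem _ c3)
      (hnot c hc0 hci)
    have fin : ∀ (χ : (E3 × ℝ) →ₗ[ℝ] ℝ) (x y : Fin 12), dI w i x y ≠ 0 →
        (∀ z ∈ (insert (pt w x) {pt w 0, pt w i} : Finset E3), χ (hc z) = 0) →
        (∀ z ∈ (insert (pt w y) {pt w 0, pt w i} : Finset E3), χ (hc z) = 0) → χ = 0 := by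
      intro χ x y hd hx hy
      exact ns_zero hd (hx _ (by simp)) (hx _ (by simp)) (hx _ (by simp)) (hy _ (by simp))
    rcases kA with kA | kA <;> rcases kB with kB | kB <;> rcases kC with kC | kC
    · exact hφ (fin φ a b hab kA kB)
    · exact hφ (fin φ a b hab kA kB)
    · exact hφ (fin φ a c hac kA kC)
    · exact hψ (fin ψ b c hbc kB kC)
    · exact hφ (fin φ b c hbc kB kC)
    · exact hψ (fin ψ a c hac kA kC)
    · exact hψ (fin ψ a b hab kA kB)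
    · exact hψ (fin ψ a b hab kA kB)

end Pool.CB
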