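import Pool.Agent.Work.CB2.Interface

/-!
# The orientations of the quadruples
-/

open scoped BigOperators
open Finset

noncomputable section

namespace Pool.CB

theorem dt_eq (v x y z : E3) : dt v x y z
    = (x 0 - v 0) * ((y 1 - v 1) * (z 2 - v 2) - (y 2 - v 2) * (z 1 - v 1))
      - (x 1 - v 1) * ((y 0 - v 0) * (z 2 - v 2) - (y 2 - v 2) * (z 0 - v 0))
      + (x 2 - v 2) * ((y 0 - v 0) * (z 1 - v 1) - (y 1 - v 1) * (z 0 - v 0)) := by
  unfold dt
  rw [Matrix.det_fin_three]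
  show (x 0 - v 0) * (y 1 - v 1) * (z 2 - v 2) - (x 0 - v 0) * (y 2 - v 2) * (z 1 - v 1)
    - (x 1 - v 1) * (y 0 - v 0) * (z 2 - v 2) + (x 1 - v 1) * (y 2 - v 2) * (z 0 - v 0)
    + (x 2 - v 2) * (y 0 - v 0) * (z 1 - v 1) - (x 2 - v 2) * (y 1 - v 1) * (z 0 - v 0) = _
  ring

/-- The integer determinant. -/
def o_det (w : ℤ) (i j k l : Fin 12) : ℤ :=
  (posI w j 0 - posI w i 0) * ((posI w k 1 - posI w i 1) * (posI w l 2 - posI w i 2)
    - (posI w k 2 - posI w i 2) * (posI w l 1 - posI w i 1))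
  - (posI w j 1 - posI w i 1) * ((posI w k 0 - posI w i 0) * (posI w l 2 - posI w i 2)
    - (posI w k 2 - posI w i 2) * (posI w l 0 - posI w i 0))
  + (posI w j 2 - posI w i 2) * ((posI w k 0 - posI w i 0) * (posI w l 1 - posI w i 1)
    - (posI w k 1 - posI w i 1) * (posI w l 0 - posI w i 0))

theorem o_dt (w : ℤ) (i j k l : Fin 12) :
    dt (pt w i) (pt w j) (pt w k) (pt w l) = (o_det w i j k l : ℝ) := by
  rw [dt_eq]
  unfold o_det pt
  push_cast
  ring

theorem o_int : ∀ i j k l : Fin 12,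
    SignType.sign (o_det 44 i j k l) = SignType.sign (o_det 45 i j k l) := by
  decide +kernel

theorem o_sign (n : ℤ) : SignType.sign (n : ℝ) = SignType.sign n := by
  rcases lt_trichotomy n 0 with h | h | h
  · rw [sign_neg h, sign_neg (by exact_mod_cast h)]
  · rw [h, Int.cast_zero, sign_zero, sign_zero]
  · rw [sign_pos h, sign_pos (by exact_mod_cast h)]

theorem blk_O : Stmt_O := by
  intro i j k l
  rw [o_dt, o_dt, o_sign, o_sign]
  exact o_int i j k l

end Pool.CB
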