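import Pool.Agent.Work.CB2.Interface

/-!
# Transport along an injective map
-/

open scoped BigOperators
open Finset

noncomputable section

namespace Pool.CB

section tr

variable {Q P W : Type*} [DecidableEq Q] [DecidableEq P] [AddCommGroup W] [Module ℝ W]
variable {f : Q → P} (hf : Function.Injective f) {T : Finset (Finset Q)}

include hf

theorem tr_mem {s : Finset Q} : s.image f ∈ T.image (fun t => t.image f) ↔ s ∈ T := by
  rw [Finset.mem_image]
  constructor
  · rintro ⟨t, ht, he⟩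
    rwa [← Finset.image_injective hf he]
  · intro hs
    exact ⟨s, hs, rfl⟩

theorem tr_mem4 {a b c d : Q} : ({f a, f b, f c, f d} : Finset P) ∈ T.image (fun t => t.image f)
    ↔ ({a, b, c, d} : Finset Q) ∈ T := by
  rw [← tr_mem hf]
  have : ({a, b, c, d} : Finset Q).image f = {f a, f b, f c, f d} := by
    simp only [Finset.image_insert, Finset.image_singleton]
  rw [this]

theorem tr_VV : VV (T.image (fun t => t.image f)) = (VV T).image f := by
  ext p
  rw [mem_VV, Finset.mem_image]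
  constructor
  · rintro ⟨t', ht', hp⟩
    obtain ⟨t, ht, rfl⟩ := Finset.mem_image.1 ht'
    obtain ⟨i, hi, rfl⟩ := Finset.mem_image.1 hp
    exact ⟨i, mem_VV.2 ⟨t, ht, hi⟩, rfl⟩
  · rintro ⟨i, hi, rfl⟩
    obtain ⟨t, ht, hit⟩ := mem_VV.1 hi
    exact ⟨t.image f, Finset.mem_image_of_mem _ ht, Finset.mem_image_of_mem _ hit⟩

theorem tr_sum {M : Type*} [AddCommMonoid M] (g : P → M) :
    ∑ q ∈ VV (T.image (fun t => t.image f)), g q = ∑ i ∈ VV T, g (f i) := by
  rw [tr_VV hf, Finset.sum_image fun a _ b _ hab => hf hab]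

theorem tr_sub {s t : Finset Q} : s.image f ⊆ t.image f ↔ s ⊆ t :=
  Finset.image_subset_image_iff hf

theorem tr_FF {s : Finset Q} {j : ℕ} :
    s.image f ∈ FF (T.image (fun t => t.image f)) j ↔ s ∈ FF T j := by
  rw [mem_FF, mem_FF, Finset.card_image_of_injective _ hf]
  constructor
  · rintro ⟨⟨t', ht', hs⟩, hc⟩
    obtain ⟨t, ht, rfl⟩ := Finset.mem_image.1 ht'
    exact ⟨⟨t, ht, (tr_sub hf).1 hs⟩, hc⟩
  · rintro ⟨⟨t, ht, hs⟩, hc⟩
    exact ⟨⟨t.image f, Finset.mem_image_of_mem _ ht, (tr_sub hf).2 hs⟩, hc⟩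

theorem tr_three {a b c : Q} : ({f a, f b, f c} : Finset P) = ({a, b, c} : Finset Q).image f := by
  simp only [Finset.image_insert, Finset.image_singleton]

theorem tr_Inn {s : Finset Q} : InnG (T.image (fun t => t.image f)) (s.image f) ↔ InnG T s := by
  unfold InnG
  rw [tr_FF hf]
  constructor
  · rintro ⟨h1, s', hs', t', ht', hne, h2, h3⟩
    obtain ⟨s1, hs1, rfl⟩ := Finset.mem_image.1 hs'
    obtain ⟨t1, ht1, rfl⟩ := Finset.mem_image.1 ht'
    exact ⟨h1, s1, hs1, t1, ht1, fun hh => hne (by rw [hh]), (tr_sub hf).1 h2, (tr_sub hf).1 h3⟩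
  · rintro ⟨h1, s1, hs1, t1, ht1, hne, h2, h3⟩
    exact ⟨h1, s1.image f, Finset.mem_image_of_mem _ hs1, t1.image f,
      Finset.mem_image_of_mem _ ht1, fun hh => hne (Finset.image_injective hf hh),
      (tr_sub hf).2 h2, (tr_sub hf).2 h3⟩

theorem tr_coef (v : Q) (d : P → P → P → ℝ) (p q : Q) :
    coefG (T.image (fun t => t.image f)) (f v) d (f p) (f q)
      = coefG T v (fun a b c => d (f a) (f b) (f c)) p q := by
  unfold coefG
  rw [tr_sum hf]
  refine Finset.sum_congr rfl fun a _ => ?_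
  rw [tr_sum hf]
  refine Finset.sum_congr rfl fun b _ => ?_
  have h1 : (f a ≠ f b ∧ ({f v, f p, f q, f a} : Finset P) ∈ T.image (fun t => t.image f) ∧
      ({f v, f p, f q, f b} : Finset P) ∈ T.image (fun t => t.image f))
      ↔ (a ≠ b ∧ ({v, p, q, a} : Finset Q) ∈ T ∧ ({v, p, q, b} : Finset Q) ∈ T) := by
    rw [tr_mem4 hf, tr_mem4 hf, hf.ne_iff]
  by_cases h2 : a ≠ b ∧ ({v, p, q, a} : Finset Q) ∈ T ∧ ({v, p, q, b} : Finset Q) ∈ T
  · rw [if_pos h2, if_pos (h1.2 h2)]
  · rw [if_neg h2, if_neg (fun hh => h2 (h1.1 hh))]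

omit hf in
/-- A face is in the range. -/
theorem tr_range {s : Finset P} {j : ℕ} (hs : s ∈ FF (T.image (fun t => t.image f)) j) {p : P}
    (hp : p ∈ s) : ∃ i, f i = p := by
  obtain ⟨⟨t', ht', hst⟩, _⟩ := mem_FF.1 hs
  obtain ⟨t, _, rfl⟩ := Finset.mem_image.1 ht'
  obtain ⟨i, _, hi⟩ := Finset.mem_image.1 (hst hp)
  exact ⟨i, hi⟩

omit hf in
theorem tr_range' {s : Finset P} (hs : s ∈ T.image (fun t => t.image f)) {p : P}
    (hp : p ∈ s) : ∃ i, f i = p := by
  obtain ⟨t, _, rfl⟩ := Finset.mem_image.1 hs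
  obtain ⟨i, _, hi⟩ := Finset.mem_image.1 hp
  exact ⟨i, hi⟩

omit hf [DecidableEq Q] [DecidableEq P] in
open Classical in
/-- Extension by zero. -/
theorem tr_ext (hf : Function.Injective f) [Nonempty Q] (x : Q → Q → ℝ) :
    ∃ w : P → P → ℝ, (∀ i j, w (f i) (f j) = x i j) ∧
      ∀ p q, ¬ ((∃ i, f i = p) ∧ ∃ j, f j = q) → w p q = 0 := by
  refine ⟨fun p q => if (∃ i, f i = p) ∧ ∃ j, f j = q then x (Function.invFun f p)
    (Function.invFun f q) else 0, fun i j => ?_, fun p q hpq => ?_⟩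
  · simp only
    rw [if_pos ⟨⟨i, rfl⟩, ⟨j, rfl⟩⟩, Function.leftInverse_invFun hf i,
      Function.leftInverse_invFun hf j]
  · simp only
    rw [if_neg hpq]

theorem tr_omega (v : Q) (u : P → W) :
    Module.finrank ℝ (OmegaG (T.image (fun t => t.image f)) (f v) u)
      = Module.finrank ℝ (OmegaG T v (fun q => u (f q))) := by
  have hne : Nonempty Q := ⟨v⟩
  let A : OmegaG (T.image (fun t => t.image f)) (f v) u →ₗ[ℝ] OmegaG T v (fun q => u (f q)) :=
    { toFun := fun w => ⟨fun i j => w.1 (f i) (f j), fun i j => w.2.1 _ _, fun i j hij => by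
          apply w.2.2.1
          rw [tr_three hf, tr_FF hf]
          exact hij, fun i => by
          have h1 := w.2.2.2 (f i)
          rw [tr_sum hf] at h1
          exact h1⟩
      map_add' := fun _ _ => rfl
      map_smul' := fun _ _ => rfl }
  refine LinearEquiv.finrank_eq (LinearEquiv.ofBijective A ⟨?_, ?_⟩)
  · rw [injective_iff_map_eq_zero]
    intro w hw
    apply Subtype.ext
    funext p q
    show w.1 p q = 0
    by_contra hn
    have h1 : ({f v, p, q} : Finset P) ∈ FF (T.image (fun t => t.image f)) 3 := by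
      by_contra h2
      exact hn (w.2.2.1 p q h2)
    obtain ⟨i, rfl⟩ := tr_range h1 (p := p) (by simp)
    obtain ⟨j, rfl⟩ := tr_range h1 (p := q) (by simp)
    exact hn (congrFun (congrFun (congrArg Subtype.val hw) i) j)
  · intro x
    obtain ⟨w, hw1, hw2⟩ := tr_ext hf x.1
    refine ⟨⟨w, fun p q => ?_, fun p q hpq => ?_, fun p => ?_⟩, ?_⟩
    · by_cases h1 : (∃ i, f i = p) ∧ ∃ j, f j = q
      · obtain ⟨⟨i, rfl⟩, ⟨j, rfl⟩⟩ := h1
        rw [hw1, hw1]
        exact x.2.1 i j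
      · rw [hw2 p q h1, hw2 q p (fun hh => h1 hh.symm), add_zero]
    · by_cases h1 : (∃ i, f i = p) ∧ ∃ j, f j = q
      · obtain ⟨⟨i, rfl⟩, ⟨j, rfl⟩⟩ := h1
        rw [hw1]
        apply x.2.2.1
        rw [tr_three hf, tr_FF hf] at hpq
        exact hpq
      · exact hw2 p q h1
    · by_cases h1 : ∃ i, f i = p
      · obtain ⟨i, rfl⟩ := h1
        rw [tr_sum hf]
        simp only [hw1]
        exact x.2.2.2 i
      · refine Finset.sum_eq_zero fun q _ => ?_
        rw [hw2 p q (fun hh => h1 hh.1), zero_smul]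
    · apply Subtype.ext
      funext i j
      exact hw1 i j

theorem tr_sigma (v : Q) (d : P → P → P → ℝ) (u : P → W) :
    Module.finrank ℝ (SigmaG (T.image (fun t => t.image f)) (f v) d u)
      = Module.finrank ℝ (SigmaG T v (fun a b c => d (f a) (f b) (f c)) (fun q => u (f q))) := by
  have hne : Nonempty Q := ⟨v⟩
  let A : SigmaG (T.image (fun t => t.image f)) (f v) d u
      →ₗ[ℝ] SigmaG T v (fun a b c => d (f a) (f b) (f c)) (fun q => u (f q)) :=
    { toFun := fun w => ⟨fun i j => w.1 (f i) (f j), fun i j => w.2.1 _ _, fun i j hij => by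
          apply w.2.2.1
          rw [tr_three hf, tr_Inn hf]
          exact hij, fun i j k hijk => w.2.2.2.1 _ _ _ ((tr_mem4 hf).2 hijk), fun i => by
          have h1 := w.2.2.2.2 (f i)
          rw [tr_sum hf] at h1
          simp only [tr_coef hf] at h1
          exact h1⟩
      map_add' := fun _ _ => rfl
      map_smul' := fun _ _ => rfl }
  refine LinearEquiv.finrank_eq (LinearEquiv.ofBijective A ⟨?_, ?_⟩)
  · rw [injective_iff_map_eq_zero]
    intro w hw
    apply Subtype.ext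
    funext p q
    show w.1 p q = 0
    by_contra hn
    have h1 : InnG (T.image (fun t => t.image f)) ({f v, p, q} : Finset P) := by
      by_contra h2
      exact hn (w.2.2.1 p q h2)
    obtain ⟨i, rfl⟩ := tr_range h1.1 (p := p) (by simp)
    obtain ⟨j, rfl⟩ := tr_range h1.1 (p := q) (by simp)
    exact hn (congrFun (congrFun (congrArg Subtype.val hw) i) j)
  · intro x
    obtain ⟨w, hw1, hw2⟩ := tr_ext hf x.1
    refine ⟨⟨w, fun p q => ?_, fun p q hpq => ?_, fun p q r hpqr => ?_, fun p => ?_⟩, ?_⟩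
    · by_cases h1 : (∃ i, f i = p) ∧ ∃ j, f j = q
      · obtain ⟨⟨i, rfl⟩, ⟨j, rfl⟩⟩ := h1
        rw [hw1, hw1]
        exact x.2.1 i j
      · rw [hw2 p q h1, hw2 q p (fun hh => h1 hh.symm)]
    · by_cases h1 : (∃ i, f i = p) ∧ ∃ j, f j = q
      · obtain ⟨⟨i, rfl⟩, ⟨j, rfl⟩⟩ := h1
        rw [hw1]
        apply x.2.2.1
        rw [tr_three hf, tr_Inn hf] at hpq
        exact hpq
      · exact hw2 p q h1
    · obtain ⟨i, rfl⟩ := tr_range' hpqr (p := p) (by simp)
      obtain ⟨j, rfl⟩ := tr_range' hpqr (p := q) (by simp)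
      obtain ⟨k, rfl⟩ := tr_range' hpqr (p := r) (by simp)
      rw [hw1, hw1, hw1]
      exact x.2.2.2.1 i j k ((tr_mem4 hf).1 hpqr)
    · by_cases h1 : ∃ i, f i = p
      · obtain ⟨i, rfl⟩ := h1
        rw [tr_sum hf]
        simp only [hw1, tr_coef hf]
        exact x.2.2.2.2 i
      · refine Finset.sum_eq_zero fun q _ => ?_
        rw [hw2 p q (fun hh => h1 hh.1), zero_mul, zero_smul]
    · apply Subtype.ext
      funext i j
      exact hw1 i j

end tr

theorem blk_TR : Stmt_TR := by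
  intro Q P W _ _ _ _ f hf T v d u
  exact ⟨tr_omega hf v u, tr_sigma hf v d u⟩

end Pool.CB
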