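import Pool.Agent.Work.CB2.Final
import Pool.Agent.Work.CB2.TR
import Pool.Agent.Work.CB2.O
import Pool.Agent.Work.CB2.NS

/-!
# Two pyramids
-/

open scoped BigOperators
open Finset

noncomputable section

namespace Pool.CB

section gen

variable {Q P : Type*} [DecidableEq Q] [DecidableEq P] {f : Q → P} (hf : Function.Injective f)
variable {T : Finset (Finset Q)}

include hf

theorem ex_FF (j : ℕ) : (FF (T.image (fun t => t.image f)) j).card = (FF T j).card := by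
  have h1 : FF (T.image (fun t => t.image f)) j = (FF T j).image (fun t => t.image f) := by
    ext s
    constructor
    · intro hs
      obtain ⟨⟨t', ht', hst⟩, hc⟩ := mem_FF.1 hs
      obtain ⟨t, ht, rfl⟩ := Finset.mem_image.1 ht'
      obtain ⟨s', hs', rfl⟩ := Finset.subset_image_iff.1 hst
      rw [Finset.mem_image]
      refine ⟨s', ?_, rfl⟩
      rw [← tr_FF hf]
      exact hs
    · intro hs
      obtain ⟨s', hs', rfl⟩ := Finset.mem_image.1 hs
      rw [tr_FF hf]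
      exact hs'
  rw [h1, Finset.card_image_of_injective _ (Finset.image_injective hf)]

theorem ex_GG (k : ℕ) : GG (T.image (fun t => t.image f)) k = GG T k := by
  unfold GG
  rw [ex_FF hf, ex_FF hf, ex_FF hf, ex_FF hf]

theorem ex_Tv (v : Q) : Tv (T.image (fun t => t.image f)) (f v)
    = (Tv T v).image (fun t => t.image f) := by
  ext s
  rw [mem_Tv, Finset.mem_image, Finset.mem_image]
  constructor
  · rintro ⟨⟨t, ht, rfl⟩, hv⟩
    refine ⟨t, mem_Tv.2 ⟨ht, ?_⟩, rfl⟩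
    obtain ⟨x, hx, hxv⟩ := Finset.mem_image.1 hv
    rwa [← hf hxv]
  · rintro ⟨t, ht, rfl⟩
    exact ⟨⟨t, (mem_Tv.1 ht).1, rfl⟩, Finset.mem_image_of_mem _ (mem_Tv.1 ht).2⟩

end gen

theorem ex_zero_mem {t : Finset (Fin 12)} (ht : t ∈ tetF) : 0 ∈ t := by
  rw [ns_mem] at ht
  rcases ht with rfl | rfl | rfl | rfl | rfl | rfl | rfl | rfl | rfl | rfl | rfl | rfl | rfl | rfl |
    rfl | rfl <;> decide

attribute [local irreducible] tetF

theorem ex_pt0 (w : ℤ) : pt w 0 = 0 := by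
  funext j
  fin_cases j <;> simp [pt, posI]

theorem ex_ptz (w : ℤ) {i : Fin 12} (hi : i ≠ 0) : pt w i 2 = 1 := by
  have h1 : ∀ i : Fin 12, i ≠ 0 → posI w i 2 = 1 := by
    intro i hi
    fin_cases i
    · exact absurd rfl hi
    all_goals rfl
  unfold pt
  rw [h1 i hi, Int.cast_one]

theorem ex_dt (w : ℤ) (a b c : Fin 12) :
    dt (pt w 0) (pt w a) (pt w b) (pt w c) = (dI w a b c : ℝ) := by
  rw [dt_eq, ex_pt0]
  unfold dI pt
  push_cast
  simp only [Pi.zero_apply]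
  ring

section ex

variable {w : ℤ} (hw : w = 44 ∨ w = 45) {Δ : TetComplex}
  (hΔ : Δ.tets = tetF.image (fun t => t.image (pt w)))

include hΔ in
theorem ex_vert {p : E3} : p ∈ Δ.vertices ↔ ∃ i, pt w i = p ∧ i ∈ VV tetF := by
  have h1 : Δ.vertices = VV Δ.tets := rfl
  rw [h1, hΔ]
  constructor
  · intro hp
    obtain ⟨t', ht', hpt⟩ := mem_VV.1 hp
    obtain ⟨t, ht, rfl⟩ := Finset.mem_image.1 ht'
    obtain ⟨i, hi, rfl⟩ := Finset.mem_image.1 hpt
    exact ⟨i, rfl, mem_VV.2 ⟨t, ht, hi⟩⟩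
  · rintro ⟨i, rfl, hi⟩
    obtain ⟨t, ht, hit⟩ := mem_VV.1 hi
    exact mem_VV.2 ⟨t.image (pt w), Finset.mem_image_of_mem _ ht, Finset.mem_image_of_mem _ hit⟩

include hw hΔ

/-- The stars of the base vertices. -/
theorem ex_base {i : Fin 12} (hi : i ≠ 0) (k : ℕ) :
    Module.finrank ℝ (StressT (Tv Δ.tets (pt w i)) hc k) = 0 := by
  have hinj := ns_inj hw
  refine blk_N E3 (E3 × ℝ) (Tv Δ.tets (pt w i)) hc (pt w 0) (pt w i) ((isFan Δ).filter _)
    (fun hh => hi (hinj hh).symm) (fun t ht => (mem_Tv.1 ht).2) (fun t ht => ?_)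
    (blk_NS w hw Δ hΔ i hi) k
  have ht1 := (mem_Tv.1 ht).1
  rw [hΔ] at ht1
  obtain ⟨t1, ht2, rfl⟩ := Finset.mem_image.1 ht1
  exact Finset.mem_image_of_mem _ (ex_zero_mem ht2)

theorem ex_sing (e : Finset E3) : ¬ Δ.IsSingular e := by
  classical
  have hinj := ns_inj hw
  intro he
  obtain ⟨he2, hS⟩ := (isSingular_iff Δ e).1 he
  obtain ⟨⟨t, ht, het⟩, hc2⟩ := mem_FF.1 he2
  have hex : ∃ i : Fin 12, i ≠ 0 ∧ pt w i ∈ e := by
    rw [hΔ] at ht
    obtain ⟨t1, ht1, rfl⟩ := Finset.mem_image.1 ht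
    obtain ⟨a, b, hab, rfl⟩ := Finset.card_eq_two.1 hc2
    obtain ⟨i, _, hi⟩ := Finset.mem_image.1 (het (show a ∈ ({a, b} : Finset E3) by simp))
    obtain ⟨j, _, hj⟩ := Finset.mem_image.1 (het (show b ∈ ({a, b} : Finset E3) by simp))
    by_cases hi0 : i = 0
    · refine ⟨j, ?_, by rw [hj]; simp⟩
      rintro rfl
      rw [← hi, ← hj, hi0] at hab
      exact hab rfl
    · exact ⟨i, hi0, by rw [hi]; simp⟩
  obtain ⟨i, hi, hie⟩ := hex
  have h1 := local_ge (v := pt w i) (isFan Δ)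
  rw [ex_base hw hΔ hi, ex_base hw hΔ hi] at h1
  have h2 : sg Δ.tets hc (pt w i) = 0 := by omega
  unfold sg at h2
  rw [Finset.card_eq_zero, Finset.filter_eq_empty_iff] at h2
  exact h2 he2 ⟨hS, hie⟩

theorem ex_notExc : ¬ ExcAbs Δ.tets hc (pt w 0) := by
  rintro ⟨p, q1, q2, q3, q4, h1, h2, h3, h4, h5, h6, h7, a, c, hc0, h8⟩
  have hT := isFan Δ
  obtain ⟨e1, e2, e3, e4, e5, e6⟩ := four_ne hT h1
  obtain ⟨f1, f2, f3, f4, f5, f6⟩ := four_ne hT h2
  have hz : ∀ q : E3, q ≠ pt w 0 → q ∈ Δ.vertices → q 2 = 1 := by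
    intro q hq hqv
    obtain ⟨i, rfl, _⟩ := (ex_vert hΔ).1 hqv
    exact ex_ptz w (fun hh => hq (by rw [hh]))
  have hq1 : q1 2 = 1 := hz q1 (Ne.symm e2) (mem_VV.2 ⟨_, h1, by simp⟩)
  have hq3 : q3 2 = 1 := hz q3 (Ne.symm f3) (mem_VV.2 ⟨_, h2, by simp⟩)
  have g1 : q3 = a • pt w 0 - c • q1 := by simpa [hc] using congrArg Prod.fst h8
  rw [ex_pt0, smul_zero, zero_sub] at g1
  have g2 := congrFun g1 2
  rw [Pi.neg_apply, Pi.smul_apply, smul_eq_mul, hq1, hq3] at g2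
  linarith

theorem ex_quad : Module.finrank ℝ (Δ.quadS (pt w 0))
    = Module.finrank ℝ (OmegaG tetF 0 (pt w)) := by
  rw [quadS_eq, hΔ, (blk_TR (Fin 12) E3 E3 (pt w) (ns_inj hw) tetF 0 (dt (pt w 0)) _).1]
  have h1 : (fun q => pt w q - pt w 0) = pt w := by
    funext q
    rw [ex_pt0, sub_zero]
  rw [h1]

theorem ex_cubic : Module.finrank ℝ (Δ.cubicS (pt w 0))
    = Module.finrank ℝ (SigmaG tetF 0 (fun a b c => (dI w a b c : ℝ)) (pt w)) := by
  rw [cubicS_eq, hΔ, (blk_TR (Fin 12) E3 E3 (pt w) (ns_inj hw) tetF 0 (dt (pt w 0)) _).2]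
  have h1 : (fun q => pt w q - pt w 0) = pt w := by
    funext q
    rw [ex_pt0, sub_zero]
  have h2 : (fun a b c => dt (pt w 0) (pt w a) (pt w b) (pt w c))
      = fun a b c => (dI w a b c : ℝ) := by
    funext a b c
    exact ex_dt w a b c
  rw [h1, h2]

/-- The dimension. -/
theorem ex_dim (h2 : Stmt_S2) {k : ℕ} (hk : 9 ≤ k) :
    (Module.finrank ℝ (Δ.splines k) : ℚ) = GG tetF k
      + (Module.finrank ℝ (OmegaG tetF 0 (pt w))
        + Module.finrank ℝ (SigmaG tetF 0 (fun a b c => (dI w a b c : ℝ)) (pt w)) : ℕ) := by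
  classical
  have hinj := ns_inj hw
  have hs : {e | Δ.IsSingular e} = ∅ := by
    ext e
    simp only [Set.mem_ofPred_eq, Set.mem_empty_iff_false, iff_false]
    exact ex_sing hw hΔ e
  have h0 : pt w 0 ∈ Δ.vertices :=
    (ex_vert hΔ).2 ⟨0, rfl, mem_VV.2 ⟨{0, 4, 5, 6}, by rw [ns_mem]; simp, by simp⟩⟩
  rw [dim_splines Δ hk, hs, Set.ncard_empty, count_eq, Finset.sum_eq_single_of_mem _ h0]
  · rw [star_four, local_eq (isFan Δ) h0 (ex_notExc hw hΔ), level2 Δ h2, ex_quad hw hΔ,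
      ex_cubic hw hΔ]
    have h3 : sg Δ.tets hc (pt w 0) = 0 := by
      unfold sg
      rw [Finset.card_eq_zero, Finset.filter_eq_empty_iff]
      rintro e he ⟨hS, _⟩
      exact ex_sing hw hΔ e ((isSingular_iff Δ e).2 ⟨he, hS⟩)
    rw [h3, hΔ, ex_GG hinj]
    push_cast
    ring
  · intro v hv hv0
    obtain ⟨i, rfl, _⟩ := (ex_vert hΔ).1 hv
    rw [star_four, ex_base hw hΔ (fun hh => hv0 (by rw [hh]))]
    rfl

theorem ex_all : Tv Δ.tets (pt w 0) = Δ.tets := by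
  refine Tv_eq fun t ht => ?_
  rw [hΔ] at ht
  obtain ⟨t1, ht1, rfl⟩ := Finset.mem_image.1 ht
  exact Finset.mem_image_of_mem _ (ex_zero_mem ht1)

/-- The dimension in all degrees at least three. -/
theorem ex_dim3 (h2 : Stmt_S2) {k : ℕ} (hk : 3 ≤ k) :
    (Module.finrank ℝ (Δ.splines k) : ℚ) = GG tetF k
      + (Module.finrank ℝ (OmegaG tetF 0 (pt w))
        + Module.finrank ℝ (SigmaG tetF 0 (fun a b c => (dI w a b c : ℝ)) (pt w)) : ℕ) := by
  have hinj := ns_inj hw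
  have hG : ∀ j, GG Δ.tets j = GG tetF j := fun j => by rw [hΔ, ex_GG hinj]
  have hlev : ∀ n : ℕ, Module.finrank ℝ (StressT Δ.tets hc n) = ∑ j ∈ Finset.range (n + 1),
      Module.finrank ℝ (StressT (lk Δ.tets (pt w 0)) (hq hc (LinearMap.snd ℝ E3 ℝ) (pt w 0)) j) := by
    intro n
    have h1 := levels Δ (pt w 0) n
    rw [ex_all hw hΔ] at h1
    exact h1
  have hmono : ∀ m n : ℕ, m ≤ n → Module.finrank ℝ (StressT Δ.tets hc m)
      ≤ Module.finrank ℝ (StressT Δ.tets hc n) := by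
    intro m n hmn
    rw [hlev, hlev]
    refine Finset.sum_le_sum_of_subset (Finset.range_subset_range.2 (by omega))
  have hnet : ∀ n : ℕ, (Module.finrank ℝ (Δ.splines (n + 2)) : ℚ)
      = GG tetF (n + 2) + Module.finrank ℝ (StressT Δ.tets hc (n + 1)) := by
    intro n
    rw [finrank_splines Δ (n := n + 1) (by omega), net_count (isFan Δ) n, hG]
  have hlow : Module.finrank ℝ (StressT Δ.tets hc 2)
      = Module.finrank ℝ (OmegaG tetF 0 (pt w))
        + Module.finrank ℝ (SigmaG tetF 0 (fun a b c => (dI w a b c : ℝ)) (pt w)) := by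
    have h1 := level2 Δ h2 (pt w 0)
    rw [ex_all hw hΔ, ex_quad hw hΔ, ex_cubic hw hΔ] at h1
    exact h1
  obtain ⟨n, rfl⟩ : ∃ n, k = n + 2 := ⟨k - 2, by omega⟩
  have h9 := ex_dim hw hΔ h2 (k := n + 2 + 9) (by omega)
  rw [show n + 2 + 9 = (n + 9) + 2 by omega, hnet] at h9
  have h9' : Module.finrank ℝ (StressT Δ.tets hc (n + 9 + 1))
      = Module.finrank ℝ (OmegaG tetF 0 (pt w))
        + Module.finrank ℝ (SigmaG tetF 0 (fun a b c => (dI w a b c : ℝ)) (pt w)) := by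
    have := add_left_cancel h9
    exact_mod_cast this
  rw [hnet]
  have e1 := hmono 2 (n + 1) (by omega)
  have e2 := hmono (n + 1) (n + 9 + 1) (by omega)
  have e3 : Module.finrank ℝ (StressT Δ.tets hc (n + 1))
      = Module.finrank ℝ (OmegaG tetF 0 (pt w))
        + Module.finrank ℝ (SigmaG tetF 0 (fun a b c => (dI w a b c : ℝ)) (pt w)) := by omega
  rw [e3]

/-- The quadratic splines on the stars. -/
theorem ex_two (i : Fin 12) :
    (Module.finrank ℝ ((Δ.star (pt w i)).splines 2) : ℚ) = GG (Tv tetF i) 2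
      + (if i = 0 then Module.finrank ℝ (OmegaG tetF 0 (pt w)) else 0 : ℕ) := by
  have hinj := ns_inj hw
  have h1 := star_two Δ (pt w i)
  have h2 : (Δ.star (pt w i)).count 2 = GG (Tv tetF i) 2 := by
    rw [count_eq]
    show GG (Tv Δ.tets (pt w i)) 2 = _
    rw [hΔ, ex_Tv hinj, ex_GG hinj]
  rw [h2] at h1
  split_ifs with hi
  · subst hi
    rw [level1, ex_quad hw hΔ] at h1
    linarith
  · rw [ex_base hw hΔ hi] at h1
    push_cast at h1 ⊢
    linarith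

end ex

/-- The map which moves one vertex. -/
def exF (p : E3) : E3 := if p = pt 45 3 then pt 44 3 else p

theorem exF_pt (i : Fin 12) : exF (pt 45 i) = pt 44 i := by
  have hinj := ns_inj (w := 45) (Or.inr rfl)
  unfold exF
  by_cases hi : i = 3
  · rw [hi, if_pos rfl]
  · rw [if_neg (fun hh => hi (hinj hh))]
    funext j
    have : ∀ i : Fin 12, i ≠ 3 → ∀ j, posI 45 i j = posI 44 i j := by decide +kernel
    unfold pt
    rw [this i hi j]

/-- Two pyramids. -/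
theorem ex_main (hG : Stmt_G) (h2 : Stmt_S2) (hLO : Stmt_LO) (hLS : Stmt_LS) :
    ∃ (Δ Δ' : TetComplex) (f : E3 → E3),
      Δ.tets.card = 16 ∧ Convex ℝ Δ.space ∧ Convex ℝ Δ'.space ∧ Δ.EulerBall ∧ Δ'.EulerBall ∧
      Set.InjOn f Δ.vertices ∧ (∃ p, ∀ v, v ≠ p → f v = v) ∧
      Δ'.tets = Δ.tets.image (fun t => t.image f) ∧
      (∀ a ∈ Δ.vertices, ∀ b ∈ Δ.vertices, ∀ c ∈ Δ.vertices, ∀ d ∈ Δ.vertices,
        SignType.sign (dt (f a) (f b) (f c) (f d)) = SignType.sign (dt a b c d)) ∧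
      (∀ e, ¬ Δ.IsSingular e) ∧ (∀ e, ¬ Δ'.IsSingular e) ∧
      (∀ v ∈ Δ.vertices, Module.finrank ℝ ((Δ'.star (f v)).splines 2)
        = Module.finrank ℝ ((Δ.star v).splines 2)) ∧
      ∀ k : ℕ, 3 ≤ k →
        Module.finrank ℝ (Δ.splines k) = Module.finrank ℝ (Δ'.splines k) + 1 := by
  obtain ⟨hi', Δ', hΔ', hconv', hE'⟩ := hG 44 (Or.inl rfl)
  obtain ⟨hi, Δ, hΔ, hconv, hE⟩ := hG 45 (Or.inr rfl)
  refine ⟨Δ, Δ', exF, ?_, hconv, hconv', hE, hE', ?_, ⟨pt 45 3, fun v hv => if_neg hv⟩, ?_, ?_,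
    ex_sing (Or.inr rfl) hΔ, ex_sing (Or.inl rfl) hΔ', ?_, ?_⟩
  · rw [hΔ, Finset.card_image_of_injective _ (Finset.image_injective hi)]
    decide +kernel
  · intro x hx y hy hxy
    obtain ⟨i, rfl, _⟩ := (ex_vert hΔ).1 hx
    obtain ⟨j, rfl, _⟩ := (ex_vert hΔ).1 hy
    rw [exF_pt, exF_pt] at hxy
    rw [hi' hxy]
  · rw [hΔ', hΔ, Finset.image_image]
    refine Finset.image_congr fun t _ => ?_
    simp only [Function.comp, Finset.image_image]
    refine Finset.image_congr fun i _ => ?_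
    exact (exF_pt i).symm
  · intro a ha b hb c hc' d hd
    obtain ⟨i, rfl, _⟩ := (ex_vert hΔ).1 ha
    obtain ⟨j, rfl, _⟩ := (ex_vert hΔ).1 hb
    obtain ⟨k, rfl, _⟩ := (ex_vert hΔ).1 hc'
    obtain ⟨l, rfl, _⟩ := (ex_vert hΔ).1 hd
    rw [exF_pt, exF_pt, exF_pt, exF_pt]
    exact blk_O i j k l
  · intro v hv
    obtain ⟨i, rfl, _⟩ := (ex_vert hΔ).1 hv
    rw [exF_pt]
    have e1 := ex_two (Or.inl rfl) hΔ' i
    have e2 := ex_two (Or.inr rfl) hΔ i
    rw [hLO 44 (Or.inl rfl)] at e1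
    rw [hLO 45 (Or.inr rfl)] at e2
    exact_mod_cast e1.trans e2.symm
  · intro k hk
    have e1 := ex_dim3 (Or.inl rfl) hΔ' h2 hk
    have e2 := ex_dim3 (Or.inr rfl) hΔ h2 hk
    rw [hLO 44 (Or.inl rfl), hLS.2] at e1
    rw [hLO 45 (Or.inr rfl), hLS.1] at e2
    have e3 : (Module.finrank ℝ (Δ.splines k) : ℚ) = Module.finrank ℝ (Δ'.splines k) + 1 := by
      rw [e1, e2]
      push_cast
      ring
    exact_mod_cast e3

end Pool.CB
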