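import Pool.Agent.Work.CB2.D2

/-!
# The stresses of degree one of the link
-/

open scoped BigOperators
open Finset

noncomputable section

namespace Pool.CB

section s1

variable {Δ : TetComplex} {v : E3}

omit Δ in
theorem s1_hq (p : E3) : hq hc (LinearMap.snd ℝ E3 ℝ) v p = (p - v, (0 : ℝ)) := by
  unfold hq
  refine Prod.ext ?_ ?_
  · simp [hc]
  · simp [hc]

omit Δ in
theorem s1_lin (r : E3 →₀ ℝ) (S : Finset E3) (hS : r.support ⊆ S) :
    Finsupp.linearCombination ℝ (hq hc (LinearMap.snd ℝ E3 ℝ) v) r = 0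
      ↔ ∑ q ∈ S, r q • (q - v) = 0 := by
  rw [Finsupp.linearCombination_apply, Finsupp.sum_of_support_subset r hS _ (by simp)]
  simp only [s1_hq]
  constructor
  · intro hh
    have h1 := congrArg Prod.fst hh
    rw [Prod.fst_sum] at h1
    simpa using h1
  · intro hh
    refine Prod.ext ?_ ?_
    · rw [Prod.fst_sum]
      simpa using hh
    · rw [Prod.snd_sum]
      simp

theorem s1_nb {s : Finset E3} {p : E3} (hp : p ∈ nb (lk Δ.tets v) s) :
    ∃ t ∈ Δ.tets, v ∈ t ∧ s ⊆ t ∧ p ∈ t ∧ p ≠ v ∧ v ∉ s := by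
  obtain ⟨t', ht', hst, hpt⟩ := mem_nb.1 hp
  obtain ⟨t, ht, hvt, rfl⟩ := mem_lk.1 ht'
  rw [Finset.mem_erase] at hpt
  exact ⟨t, ht, hvt, hst.trans (Finset.erase_subset _ _), hpt.2, hpt.1,
    fun hh => (Finset.notMem_erase v t) (hst hh)⟩

theorem s1_nb' {s t : Finset E3} {p : E3} (ht : t ∈ Δ.tets) (hvt : v ∈ t) (hst : s ⊆ t)
    (hpt : p ∈ t) (hpv : p ≠ v) (hvs : v ∉ s) : p ∈ nb (lk Δ.tets v) s := by
  refine mem_nb.2 ⟨t.erase v, mem_lk.2 ⟨t, ht, hvt, rfl⟩, ?_, Finset.mem_erase.2 ⟨hpv, hpt⟩⟩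
  intro x hx
  exact Finset.mem_erase.2 ⟨fun hh => hvs (hh ▸ hx), hst hx⟩

theorem s1_rel {s : Finset E3} {r : E3 →₀ ℝ} :
    r ∈ Rel (lk Δ.tets v) (hq hc (LinearMap.snd ℝ E3 ℝ) v) s
      ↔ (∀ p, p ∉ nb (lk Δ.tets v) s → r p = 0) ∧ ∑ q ∈ VV Δ.tets, r q • (q - v) = 0 := by
  have hsub : (∀ p, p ∉ nb (lk Δ.tets v) s → r p = 0) → r.support ⊆ VV Δ.tets := by
    intro h1 p hp
    by_contra hn
    refine (Finsupp.mem_support_iff.1 hp) (h1 p fun hh => hn ?_)
    obtain ⟨t, ht, _, _, hpt, _, _⟩ := s1_nb hh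
    exact mem_VV.2 ⟨t, ht, hpt⟩
  constructor
  · intro hr
    have h1 : ∀ p, p ∉ nb (lk Δ.tets v) s → r p = 0 := fun p hp => Rel_apply_eq_zero hr hp
    refine ⟨h1, ?_⟩
    rw [← s1_lin r _ (hsub h1)]
    exact LinearMap.mem_ker.1 (Submodule.mem_inf.1 hr).2
  · rintro ⟨h1, h2⟩
    refine Submodule.mem_inf.2 ⟨?_, ?_⟩
    · rw [Finsupp.mem_supported]
      intro p hp
      by_contra hn
      exact (Finsupp.mem_support_iff.1 (Finset.mem_coe.1 hp)) (h1 p (by exact_mod_cast hn))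
    · rw [LinearMap.mem_ker, s1_lin r _ (hsub h1)]
      exact h2

omit Δ v in
theorem s1_deg_one {a : E3 →₀ ℕ} (ha : a.degree = 1) : ∃ p, a = Finsupp.single p 1 := by
  rw [Finsupp.degree_apply] at ha
  have hne : a.support.Nonempty := by
    rw [Finset.nonempty_iff_ne_empty]
    intro h0
    rw [h0, Finset.sum_empty] at ha
    omega
  obtain ⟨p, hp⟩ := hne
  have h1 : a p + ∑ q ∈ a.support.erase p, a q = 1 := by
    rw [Finset.add_sum_erase _ _ hp, ha]
  have h2 : 1 ≤ a p := Nat.one_le_iff_ne_zero.2 (Finsupp.mem_support_iff.1 hp)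
  have h3 : ∑ q ∈ a.support.erase p, a q = 0 := by omega
  rw [Finset.sum_eq_zero_iff] at h3
  refine ⟨p, ?_⟩
  ext x
  rw [Finsupp.single_apply]
  split_ifs with hx
  · rw [← hx]; omega
  · by_contra hxa
    exact hxa (h3 x (Finset.mem_erase.2 ⟨Ne.symm hx, Finsupp.mem_support_iff.2 hxa⟩))

theorem s1_fwd {ρ : (E3 →₀ ℕ) → (E3 →₀ ℝ)}
    (hρ : ρ ∈ StressT (lk Δ.tets v) (hq hc (LinearMap.snd ℝ E3 ℝ) v) 1) :
    (fun p q => ρ (Finsupp.single p 1) q) ∈ OmegaG Δ.tets v (fun q => q - v) := by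
  obtain ⟨h1, h2, h3⟩ := mem_StressT.1 hρ
  have hpp : ∀ p, ρ (Finsupp.single p 1) p = 0 := by
    intro p
    have h4 := h3 (Finsupp.single p 2)
    rw [Finsupp.support_single _ (by norm_num), Finset.sum_singleton, ← Finsupp.single_tsub] at h4
    exact h4
  have hrel : ∀ p, ρ (Finsupp.single p 1)
      ∈ Rel (lk Δ.tets v) (hq hc (LinearMap.snd ℝ E3 ℝ) v) {p} := by
    intro p
    have := h1 (Finsupp.single p 1)
    rwa [Finsupp.support_single _ one_ne_zero] at this
  refine ⟨fun p q => ?_, fun p q hpq => ?_, fun p => (s1_rel.1 (hrel p)).2⟩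
  · by_cases hpq : p = q
    · subst hpq
      show ρ (Finsupp.single p 1) p + ρ (Finsupp.single p 1) p = 0
      rw [hpp, add_zero]
    · have h4 := h3 (Finsupp.single p 1 + Finsupp.single q 1)
      rw [support_add_single, Finsupp.support_single _ one_ne_zero, Finset.sum_pair (Ne.symm hpq),
        add_tsub_cancel_right, add_tsub_cancel_left] at h4
      exact h4
  · show ρ (Finsupp.single p 1) q = 0
    by_contra hne
    apply hpq
    have hq : q ∈ nb (lk Δ.tets v) {p} := by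
      by_contra hn
      exact hne ((s1_rel.1 (hrel p)).1 q hn)
    obtain ⟨t, ht, hvt, hpt, hqt, hqv, hvp⟩ := s1_nb hq
    rw [Finset.singleton_subset_iff] at hpt
    rw [Finset.mem_singleton] at hvp
    have hqp : p ≠ q := by
      rintro rfl
      exact hne (hpp p)
    refine mem_FF.2 ⟨⟨t, ht, ?_⟩, Finset.card_eq_three.2 ⟨v, p, q, hvp, hqv.symm, hqp, rfl⟩⟩
    intro x hx
    simp only [Finset.mem_insert, Finset.mem_singleton] at hx
    rcases hx with rfl | rfl | rfl <;> assumption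

/-- The stress of a weight. -/
def s1_bwd (Δ : TetComplex) (w : E3 → E3 → ℝ) (a : E3 →₀ ℕ) : E3 →₀ ℝ :=
  if a.degree = 1 then ∑ p ∈ a.support, ∑ q ∈ VV Δ.tets, Finsupp.single q (w p q) else 0

theorem s1_bwd_one (w : E3 → E3 → ℝ) (p : E3) : s1_bwd Δ w (Finsupp.single p 1)
    = ∑ q ∈ VV Δ.tets, Finsupp.single q (w p q) := by
  unfold s1_bwd
  rw [if_pos (Finsupp.degree_single _ _), Finsupp.support_single _ one_ne_zero,
    Finset.sum_singleton]

theorem s1_face {w : E3 → E3 → ℝ} (hw : w ∈ OmegaG Δ.tets v (fun q => q - v)) {p q : E3}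
    (hne : w p q ≠ 0) : ∃ t ∈ Δ.tets, v ∈ t ∧ p ∈ t ∧ q ∈ t ∧ v ≠ p ∧ v ≠ q ∧ p ≠ q := by
  have h1 : ({v, p, q} : Finset E3) ∈ FF Δ.tets 3 := by
    by_contra hn
    exact hne (hw.2.1 p q hn)
  obtain ⟨⟨t, ht, hst⟩, hc⟩ := mem_FF.1 h1
  have e1 : v ≠ p := by
    rintro rfl
    rw [Finset.insert_idem] at hc
    have := Finset.card_le_two (a := v) (b := q)
    omega
  have e2 : v ≠ q := by
    rintro rfl
    have h5 : ({v, p, v} : Finset E3) = {p, v} := by ext x; simp
    rw [h5] at hc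
    have := Finset.card_le_two (a := p) (b := v)
    omega
  have e3 : p ≠ q := by
    rintro rfl
    have h5 : ({v, p, p} : Finset E3) = {v, p} := by ext x; simp
    rw [h5] at hc
    have := Finset.card_le_two (a := v) (b := p)
    omega
  exact ⟨t, ht, hst (by simp), hst (by simp), hst (by simp), e1, e2, e3⟩

theorem s1_bwd_apply {w : E3 → E3 → ℝ} (hw : w ∈ OmegaG Δ.tets v (fun q => q - v)) (p q : E3) :
    s1_bwd Δ w (Finsupp.single p 1) q = w p q := by
  rw [s1_bwd_one, Finsupp.finsetSum_apply]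
  by_cases hq : q ∈ VV Δ.tets
  · rw [Finset.sum_eq_single_of_mem q hq]
    · rw [Finsupp.single_eq_same]
    · intro x _ hx
      rw [Finsupp.single_apply, if_neg hx]
  · have h0 : w p q = 0 := by
      by_contra hne
      obtain ⟨t, ht, _, _, hqt, _⟩ := s1_face hw hne
      exact hq (mem_VV.2 ⟨t, ht, hqt⟩)
    rw [h0]
    refine Finset.sum_eq_zero fun x hx => ?_
    rw [Finsupp.single_apply, if_neg]
    rintro rfl
    exact hq hx

theorem s1_bwd_mem {w : E3 → E3 → ℝ} (hw : w ∈ OmegaG Δ.tets v (fun q => q - v)) :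
    s1_bwd Δ w ∈ StressT (lk Δ.tets v) (hq hc (LinearMap.snd ℝ E3 ℝ) v) 1 := by
  refine mem_StressT.2 ⟨fun a => ?_, fun a ha => ?_, fun b => ?_⟩
  · by_cases hd : a.degree = 1
    · obtain ⟨p, rfl⟩ := s1_deg_one hd
      rw [Finsupp.support_single _ one_ne_zero, s1_rel]
      refine ⟨fun q hq => ?_, ?_⟩
      · rw [s1_bwd_apply hw]
        by_contra hne
        obtain ⟨t, ht, hvt, hpt, hqt, e1, e2, _⟩ := s1_face hw hne
        exact hq (s1_nb' ht hvt (by simpa using hpt) hqt e2.symm (by simpa using e1))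
      · simp only [s1_bwd_apply hw]
        exact hw.2.2 p
    · unfold s1_bwd
      rw [if_neg hd]
      exact Submodule.zero_mem _
  · by_cases hd : a.degree = 1
    · obtain ⟨p, rfl⟩ := s1_deg_one hd
      ext q
      rw [s1_bwd_apply hw, Finsupp.zero_apply]
      by_contra hne
      apply ha
      obtain ⟨t, ht, hvt, hpt, hqt, e1, e2, _⟩ := s1_face hw hne
      refine mem_DD.2 ⟨⟨t.erase v, mem_lk.2 ⟨t, ht, hvt, rfl⟩, ?_⟩, Finsupp.degree_single _ _⟩
      rw [Finsupp.support_single _ one_ne_zero, Finset.singleton_subset_iff, Finset.mem_erase]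
      exact ⟨e1.symm, hpt⟩
    · unfold s1_bwd
      rw [if_neg hd]
  · by_cases hd : b.degree = 2
    · have hpp : ∀ p, w p p = 0 := fun p => by
        have := hw.1 p p
        linarith
      by_cases hc1 : ∃ p q, p ≠ q ∧ b = Finsupp.single p 1 + Finsupp.single q 1
      · obtain ⟨p, q, hpq, rfl⟩ := hc1
        rw [support_add_single, Finsupp.support_single _ one_ne_zero, Finset.sum_pair (Ne.symm hpq),
          add_tsub_cancel_right, add_tsub_cancel_left, s1_bwd_apply hw, s1_bwd_apply hw]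
        exact hw.1 p q
      · refine Finset.sum_eq_zero fun p hp => ?_
        have h5 := degree_sub_single hp
        obtain ⟨q, hq⟩ := s1_deg_one (a := b - Finsupp.single p 1) (by omega)
        have h6 : b = Finsupp.single q 1 + Finsupp.single p 1 := ((sub_single_eq_iff hp).1 hq).symm
        have h7 : q = p := by
          by_contra hne
          exact hc1 ⟨q, p, hne, h6⟩
        rw [hq, h7, s1_bwd_apply hw, hpp]
    · refine Finset.sum_eq_zero fun p hp => ?_
      have h5 := degree_sub_single hp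
      unfold s1_bwd
      rw [if_neg (by omega)]
      rfl

end s1

theorem blk_S1 : Stmt_S1 := by
  intro Δ v
  let A : StressT (lk Δ.tets v) (hq hc (LinearMap.snd ℝ E3 ℝ) v) 1
      →ₗ[ℝ] OmegaG Δ.tets v (fun q => q - v) :=
    { toFun := fun ρ => ⟨fun p q => ρ.1 (Finsupp.single p 1) q, s1_fwd ρ.2⟩
      map_add' := fun _ _ => rfl
      map_smul' := fun _ _ => rfl }
  have hA : Function.Injective A := by
    rw [injective_iff_map_eq_zero]
    intro ρ hρ
    apply Subtype.ext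
    funext a
    by_cases ha : a ∈ DD (lk Δ.tets v) 1
    · obtain ⟨p, rfl⟩ := s1_deg_one (mem_DD.1 ha).2
      ext q
      exact congrFun (congrFun (congrArg Subtype.val hρ) p) q
    · exact (mem_StressT.1 ρ.2).2.1 a ha
  have hS : Function.Surjective A := by
    intro w
    refine ⟨⟨s1_bwd Δ w.1, s1_bwd_mem w.2⟩, ?_⟩
    apply Subtype.ext
    funext p q
    exact s1_bwd_apply w.2 p q
  exact LinearEquiv.finrank_eq (LinearEquiv.ofBijective A ⟨hA, hS⟩)

end Pool.CB
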