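import Pool.Agent.Work.CB2.N
import Pool.Agent.Work.CB2.S1

/-!
# The explicit dimension formula
-/

open scoped BigOperators
open Finset

noncomputable section

namespace Pool.CB

variable (Δ : TetComplex)

theorem quadS_eq (v : E3) : Δ.quadS v = OmegaG Δ.tets v (fun q => q - v) := by
  ext w
  have h1 : ∀ f : Finset E3, f ∈ Δ.faces 3 ↔ f ∈ FF Δ.tets 3 := fun f => by
    rw [faces_eq, Finset.mem_coe]
  constructor
  · rintro ⟨a, b, c⟩
    exact ⟨a, fun p q hpq => b p q (fun hh => hpq ((h1 _).1 hh)), c⟩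
  · rintro ⟨a, b, c⟩
    exact ⟨a, fun p q hpq => b p q (fun hh => hpq ((h1 _).2 hh)), c⟩

theorem isInner_iff (f : Finset E3) : Δ.IsInner f ↔ InnG Δ.tets f := by
  unfold TetComplex.IsInner InnG
  rw [faces_eq, Finset.mem_coe]

theorem cubicS_eq (v : E3) : Δ.cubicS v = SigmaG Δ.tets v (dt v) (fun q => q - v) := by
  ext w
  constructor
  · rintro ⟨a, b, c⟩
    exact ⟨a, fun p q hpq => b p q (fun hh => hpq ((isInner_iff Δ _).1 hh)), c⟩
  · rintro ⟨a, b, c⟩
    exact ⟨a, fun p q hpq => b p q (fun hh => hpq ((isInner_iff Δ _).2 hh)), c⟩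

theorem quarticS_eq (v : E3) : Δ.quarticS v = ThetaG Δ.tets v (dt v) (fun q => q - v) := by
  ext w
  constructor
  · rintro ⟨b, c⟩
    exact ⟨fun p q hpq => b p q (fun hh => hpq ((isInner_iff Δ _).1 hh)), c⟩
  · rintro ⟨b, c⟩
    exact ⟨fun p q hpq => b p q (fun hh => hpq ((isInner_iff Δ _).2 hh)), c⟩

theorem levels (v : E3) (k : ℕ) : Module.finrank ℝ (StressT (Tv Δ.tets v) hc k)
    = ∑ j ∈ Finset.range (k + 1),
      Module.finrank ℝ (StressT (lk Δ.tets v) (hq hc (LinearMap.snd ℝ E3 ℝ) v) j) :=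
  blk_D E3 (E3 × ℝ) Δ.tets hc v (LinearMap.snd ℝ E3 ℝ) rfl k

theorem level1 (v : E3) : Module.finrank ℝ (StressT (Tv Δ.tets v) hc 1)
    = Module.finrank ℝ (Δ.quadS v) := by
  rw [levels, Finset.sum_range_succ, Finset.sum_range_succ, Finset.sum_range_zero,
    blk_S0 E3 (E3 × ℝ), blk_S1, quadS_eq]
  omega

theorem level2 (h2 : Stmt_S2) (v : E3) : Module.finrank ℝ (StressT (Tv Δ.tets v) hc 2)
    = Module.finrank ℝ (Δ.quadS v) + Module.finrank ℝ (Δ.cubicS v) := by
  rw [levels, Finset.sum_range_succ, Finset.sum_range_succ, Finset.sum_range_succ,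
    Finset.sum_range_zero, blk_S0 E3 (E3 × ℝ), blk_S1, quadS_eq, h2, cubicS_eq]
  omega

theorem level3 (h2 : Stmt_S2) (h3 : Stmt_S3) (v : E3) :
    Module.finrank ℝ (StressT (Tv Δ.tets v) hc 3)
      = Module.finrank ℝ (Δ.quadS v) + Module.finrank ℝ (Δ.cubicS v)
        + Module.finrank ℝ (Δ.quarticS v) := by
  rw [levels, Finset.sum_range_succ, Finset.sum_range_succ, Finset.sum_range_succ,
    Finset.sum_range_succ, Finset.sum_range_zero, blk_S0 E3 (E3 × ℝ), blk_S1, quadS_eq, h2,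
    cubicS_eq, h3, quarticS_eq]
  omega

theorem star_two (v : E3) :
    (Module.finrank ℝ ((Δ.star v).splines 2) : ℚ) - (Δ.star v).count 2
      = Module.finrank ℝ (StressT (Tv Δ.tets v) hc 1) := by
  have h2 : Module.finrank ℝ ((Δ.star v).splines 2)
      = Module.finrank ℝ (Net (Tv Δ.tets v) hc 1) := finrank_splines (Δ.star v) (n := 1) le_rfl
  have h5 : (Module.finrank ℝ (Net (Tv Δ.tets v) hc 1) : ℚ)
      = GG (Tv Δ.tets v) 2 + Module.finrank ℝ (StressT (Tv Δ.tets v) hc 1) :=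
    net_count ((isFan Δ).filter _) 0
  rw [h2, count_eq, h5]
  show GG (Tv Δ.tets v) 2 + _ - GG (Tv Δ.tets v) 2 = _
  ring

/-- The explicit formula. -/
theorem dim_explicit (h2 : Stmt_S2) (h3 : Stmt_S3) {k : ℕ} (hk : 9 ≤ k) :
    (Module.finrank ℝ (Δ.splines k) : ℚ)
      = Δ.count k + (k - 7) * {e | Δ.IsSingular e}.ncard
        + ∑ v ∈ Δ.vertices, ((Module.finrank ℝ (Δ.quadS v) : ℚ)
          + Module.finrank ℝ (Δ.cubicS v) + Module.finrank ℝ (Δ.quarticS v)) := by
  rw [dim_splines Δ hk]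
  congr 1
  refine Finset.sum_congr rfl fun v _ => ?_
  rw [star_four, level3 Δ h2 h3]
  push_cast
  ring

/-- The quartic term. -/
theorem quartic_ge (h2 : Stmt_S2) (h3 : Stmt_S3) (v : E3) :
    Δ.singularAt v ≤ Module.finrank ℝ (Δ.quarticS v) := by
  have h1 := (local_bounds Δ v).2
  rw [star_three, star_four, level2 Δ h2, level3 Δ h2 h3] at h1
  push_cast at h1
  have h4 : (Δ.singularAt v : ℚ) ≤ Module.finrank ℝ (Δ.quarticS v) := by linarith
  exact_mod_cast h4

theorem quartic_eq (h2 : Stmt_S2) (h3 : Stmt_S3) {v : E3} (hv : v ∈ Δ.vertices)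
    (hE : ¬ Δ.IsExceptional v) : Module.finrank ℝ (Δ.quarticS v) = Δ.singularAt v := by
  have h1 := local_exact Δ hv hE
  rw [star_three, star_four, level2 Δ h2, level3 Δ h2 h3] at h1
  push_cast at h1
  have h4 : (Module.finrank ℝ (Δ.quarticS v) : ℚ) = Δ.singularAt v := by linarith
  exact_mod_cast h4

/-- The splines of low degree on the stars. -/
theorem star_all (h2 : Stmt_S2) (h3 : Stmt_S3) (v : E3) :
    (Module.finrank ℝ ((Δ.star v).splines 2) : ℚ)
      = (Δ.star v).count 2 + Module.finrank ℝ (Δ.quadS v) ∧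
    (Module.finrank ℝ ((Δ.star v).splines 3) : ℚ)
      = (Δ.star v).count 3 + Module.finrank ℝ (Δ.quadS v) + Module.finrank ℝ (Δ.cubicS v) ∧
    (Module.finrank ℝ ((Δ.star v).splines 4) : ℚ)
      = (Δ.star v).count 4 + Module.finrank ℝ (Δ.quadS v) + Module.finrank ℝ (Δ.cubicS v)
        + Module.finrank ℝ (Δ.quarticS v) := by
  refine ⟨?_, ?_, ?_⟩
  · have h := star_two Δ v
    rw [level1] at h
    linarith
  · have h := star_three Δ v
    rw [level2 Δ h2] at h
    push_cast at h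
    linarith
  · have h := star_four Δ v
    rw [level3 Δ h2 h3] at h
    push_cast at h
    linarith

end Pool.CB
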