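import Pool.Agent.Work.CB.Main2
import Pool.Agent.Work.CB2.Defs

/-!
# The explicit formula and the example: interface
-/

open scoped BigOperators
open Finset

noncomputable section

namespace Pool.CB

section abs

variable {P : Type*} [DecidableEq P] {W : Type*} [AddCommGroup W] [Module ℝ W]

/-- The link of `v`. -/
def lk (T : Finset (Finset P)) (v : P) : Finset (Finset P) := (Tv T v).image (fun t => t.erase v)

/-- The vectors projected along `h v`. -/
def hq (h : P → W) (φ : W →ₗ[ℝ] ℝ) (v : P) : P → W := fun p => h p - φ (h p) • h v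

/-- Faces with three vertices which lie in two different simplices. -/
def InnG (T : Finset (Finset P)) (f : Finset P) : Prop :=
  f ∈ FF T 3 ∧ ∃ s ∈ T, ∃ t ∈ T, s ≠ t ∧ f ⊆ s ∧ f ⊆ t

/-- The coefficient of `p` in the relation of the inner face `{v, p, q}`. -/
def coefG (T : Finset (Finset P)) (v : P) (d : P → P → P → ℝ) (p q : P) : ℝ :=
  ∑ a ∈ VV T, ∑ b ∈ VV T,
    if a ≠ b ∧ ({v, p, q, a} : Finset P) ∈ T ∧ ({v, p, q, b} : Finset P) ∈ T
    then d a q b / (2 * |d p q a| * d p q b) else 0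

/-- Antisymmetric weights on the faces `{v, p, q}`, balanced at all `p`. -/
def OmegaG (T : Finset (Finset P)) (v : P) (u : P → W) : Submodule ℝ (P → P → ℝ) where
  carrier := {w | (∀ p q, w p q + w q p = 0) ∧ (∀ p q, ({v, p, q} : Finset P) ∉ FF T 3 → w p q = 0) ∧
    ∀ p, ∑ q ∈ VV T, w p q • u q = 0}
  add_mem' := by
    rintro w w' ⟨h1, h2, h3⟩ ⟨h1', h2', h3'⟩
    refine ⟨fun p q => ?_, fun p q hpq => ?_, fun p => ?_⟩
    · have := h1 p q
      have := h1' p q
      simp only [Pi.add_apply]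
      linarith
    · simp [h2 p q hpq, h2' p q hpq]
    · simp only [Pi.add_apply, add_smul, Finset.sum_add_distrib, h3 p, h3' p, add_zero]
  zero_mem' := ⟨fun p q => by simp, fun p q _ => rfl, fun p => by simp⟩
  smul_mem' := by
    rintro c w ⟨h1, h2, h3⟩
    refine ⟨fun p q => ?_, fun p q hpq => ?_, fun p => ?_⟩
    · simp only [Pi.smul_apply, smul_eq_mul, ← mul_add, h1 p q, mul_zero]
    · simp [h2 p q hpq]
    · simp only [Pi.smul_apply, smul_eq_mul, mul_smul, ← Finset.smul_sum, h3 p, smul_zero]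

/-- Symmetric weights on the inner faces `{v, p, q}` with sum zero on all simplices. -/
def SigmaG (T : Finset (Finset P)) (v : P) (d : P → P → P → ℝ) (u : P → W) :
    Submodule ℝ (P → P → ℝ) where
  carrier := {s | (∀ p q, s p q = s q p) ∧ (∀ p q, ¬ InnG T {v, p, q} → s p q = 0) ∧
    (∀ p q r, ({v, p, q, r} : Finset P) ∈ T → s p q + s q r + s r p = 0) ∧
    ∀ p, ∑ q ∈ VV T, (s p q * coefG T v d p q) • u q = 0}
  add_mem' := by
    rintro w w' ⟨h1, h2, h3, h4⟩ ⟨h1', h2', h3', h4'⟩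
    refine ⟨fun p q => ?_, fun p q hpq => ?_, fun p q r ht => ?_, fun p => ?_⟩
    · simp only [Pi.add_apply, h1 p q, h1' p q]
    · simp [h2 p q hpq, h2' p q hpq]
    · have := h3 p q r ht
      have := h3' p q r ht
      simp only [Pi.add_apply]
      linarith
    · simp only [Pi.add_apply, add_mul, add_smul, Finset.sum_add_distrib, h4 p, h4' p, add_zero]
  zero_mem' := ⟨fun p q => rfl, fun p q _ => rfl, fun p q r _ => by simp, fun p => by simp⟩
  smul_mem' := by
    rintro c w ⟨h1, h2, h3, h4⟩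
    refine ⟨fun p q => ?_, fun p q hpq => ?_, fun p q r ht => ?_, fun p => ?_⟩
    · simp only [Pi.smul_apply, h1 p q]
    · simp [h2 p q hpq]
    · simp only [Pi.smul_apply, smul_eq_mul, ← mul_add, h3 p q r ht, mul_zero]
    · simp only [Pi.smul_apply, smul_eq_mul, mul_assoc, mul_smul c, ← Finset.smul_sum, h4 p,
        smul_zero]

/-- Weights `θ p q` on the inner faces `{v, p, q}`, alternating around each edge `{v, p}`. -/
def ThetaG (T : Finset (Finset P)) (v : P) (d : P → P → P → ℝ) (u : P → W) :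
    Submodule ℝ (P → P → ℝ) where
  carrier := {s | (∀ p q, ¬ InnG T {v, p, q} → s p q = 0) ∧
    (∀ p q r, ({v, p, q, r} : Finset P) ∈ T → s p q + s p r = 0) ∧
    (∀ p q, coefG T v d q p * s p q + coefG T v d p q * s q p = 0) ∧
    ∀ p, ∑ q ∈ VV T, (s p q * coefG T v d p q) • u q = 0}
  add_mem' := by
    rintro w w' ⟨h2, h3, h1, h4⟩ ⟨h2', h3', h1', h4'⟩
    refine ⟨fun p q hpq => ?_, fun p q r ht => ?_, fun p q => ?_, fun p => ?_⟩
    · simp [h2 p q hpq, h2' p q hpq]
    · have := h3 p q r ht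
      have := h3' p q r ht
      simp only [Pi.add_apply]
      linarith
    · have := h1 p q
      have := h1' p q
      simp only [Pi.add_apply]
      linarith
    · simp only [Pi.add_apply, add_mul, add_smul, Finset.sum_add_distrib, h4 p, h4' p, add_zero]
  zero_mem' := ⟨fun p q _ => rfl, fun p q r _ => by simp, fun p q => by simp, fun p => by simp⟩
  smul_mem' := by
    rintro c w ⟨h2, h3, h1, h4⟩
    refine ⟨fun p q hpq => ?_, fun p q r ht => ?_, fun p q => ?_, fun p => ?_⟩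
    · simp [h2 p q hpq]
    · simp only [Pi.smul_apply, smul_eq_mul, ← mul_add, h3 p q r ht, mul_zero]
    · have := h1 p q
      simp only [Pi.smul_apply, smul_eq_mul]
      linear_combination c * this
    · simp only [Pi.smul_apply, smul_eq_mul, mul_assoc, mul_smul c, ← Finset.smul_sum, h4 p,
        smul_zero]

end abs

/-! ### The algebra -/

/-- D1 (helper64): moving the vertices along the rays from `v`. -/
def Stmt_D1 : Prop := ∀ (P W : Type) [DecidableEq P] [AddCommGroup W] [Module ℝ W]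
  (T : Finset (Finset P)) (h : P → W) (v : P), (∀ t ∈ T, v ∈ t) →
  ∀ τ : P → ℝ, τ v = 0 → ∀ k : ℕ,
  Module.finrank ℝ (StressT T h k) = Module.finrank ℝ (StressT T (fun p => h p - τ p • h v) k)

/-- D2 (helper64): the levels. -/
def Stmt_D2 : Prop := ∀ (P W : Type) [DecidableEq P] [AddCommGroup W] [Module ℝ W]
  (T : Finset (Finset P)) (h : P → W) (v : P), (∀ t ∈ T, v ∈ t) →
  ∀ φ : W →ₗ[ℝ] ℝ, φ (h v) = 1 → (∀ p, p ≠ v → φ (h p) = 0) → ∀ k : ℕ,
  Module.finrank ℝ (StressT T h k)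
    = ∑ j ∈ Finset.range (k + 1), Module.finrank ℝ (StressT (lk T v) (hq h φ v) j)

/-- D (helper64). -/
def Stmt_D : Prop := ∀ (P W : Type) [DecidableEq P] [AddCommGroup W] [Module ℝ W]
  (T : Finset (Finset P)) (h : P → W) (v : P) (φ : W →ₗ[ℝ] ℝ), φ (h v) = 1 → ∀ k : ℕ,
  Module.finrank ℝ (StressT (Tv T v) h k)
    = ∑ j ∈ Finset.range (k + 1), Module.finrank ℝ (StressT (lk T v) (hq h φ v) j)

/-- S0. -/
def Stmt_S0 : Prop := ∀ (P W : Type) [DecidableEq P] [AddCommGroup W] [Module ℝ W]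
  (T : Finset (Finset P)) (h : P → W), Module.finrank ℝ (StressT T h 0) = 0

/-- S1: `ρ (e_p) (q) = w p q`. -/
def Stmt_S1 : Prop := ∀ (Δ : TetComplex) (v : E3),
  Module.finrank ℝ (StressT (lk Δ.tets v) (hq hc (LinearMap.snd ℝ E3 ℝ) v) 1)
    = Module.finrank ℝ (OmegaG Δ.tets v (fun q => q - v))

/-- S2: `ρ (e_p + e_q) (a) = s p q / |dt v p q a|`, and `ρ (2 e_p) (q) = s p q * coef p q`. -/
def Stmt_S2 : Prop := ∀ (Δ : TetComplex) (v : E3),
  Module.finrank ℝ (StressT (lk Δ.tets v) (hq hc (LinearMap.snd ℝ E3 ℝ) v) 2)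
    = Module.finrank ℝ (SigmaG Δ.tets v (dt v) (fun q => q - v))

/-- S3: `ρ (2 e_p + e_q) (a) = θ p q / |dt v p q a|`, and `ρ (3 e_p) (q) = θ p q * coef p q`. -/
def Stmt_S3 : Prop := ∀ (Δ : TetComplex) (v : E3),
  Module.finrank ℝ (StressT (lk Δ.tets v) (hq hc (LinearMap.snd ℝ E3 ℝ) v) 3)
    = Module.finrank ℝ (ThetaG Δ.tets v (dt v) (fun q => q - v))

/-- N: the stars of edges which are not singular carry no stress. -/
def Stmt_N : Prop := ∀ (P W : Type) [DecidableEq P] [AddCommGroup W] [Module ℝ W]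
  (T : Finset (Finset P)) (h : P → W) (u v : P), IsFan T h → u ≠ v → (∀ t ∈ T, v ∈ t) →
  (∀ t ∈ T, u ∈ t) → ¬ SingAbs T h {u, v} → ∀ k : ℕ, Module.finrank ℝ (StressT T h k) = 0

/-! ### The example -/

/-- The points of the example: `O`, `A`, `w₁`, `w₂`, `v₁`, `v₂`, `z`, `v₁'`, `v₂'`, `z'`, `y`,
`y'`. -/
def posI (w : ℤ) : Fin 12 → Fin 3 → ℤ :=
  ![![0, 0, 0], ![0, 0, 1], ![21, 0, 1], ![w, 0, 1], ![20, 5, 1], ![32, 11, 1], ![60, 165, 1],
    ![20, -5, 1], ![32, -11, 1], ![60, -165, 1], ![-60, 165, 1], ![-60, -165, 1]]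

/-- The points of the example in three-space. -/
def pt (w : ℤ) (i : Fin 12) : E3 := fun j => (posI w i j : ℝ)

/-- The sixteen tetrahedra of the example. -/
def tetF : Finset (Finset (Fin 12)) :=
  {{0, 4, 5, 6}, {0, 3, 5, 6}, {0, 1, 4, 6}, {0, 2, 4, 5}, {0, 7, 8, 9}, {0, 3, 8, 9},
    {0, 1, 7, 9}, {0, 2, 7, 8}, {0, 1, 4, 7}, {0, 2, 4, 7}, {0, 2, 5, 8}, {0, 3, 5, 8},
    {0, 3, 6, 9}, {0, 1, 6, 10}, {0, 1, 10, 11}, {0, 1, 9, 11}}

/-- G: the example is a tetrahedral complex whose union is convex. -/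
def Stmt_G : Prop := ∀ w : ℤ, w = 44 ∨ w = 45 → Function.Injective (pt w) ∧
  ∃ Δ : TetComplex, Δ.tets = tetF.image (fun t => t.image (pt w)) ∧ Convex ℝ Δ.space ∧ Δ.EulerBall

/-- O: the orientations of all quadruples agree. -/
def Stmt_O : Prop := ∀ i j k l : Fin 12,
  SignType.sign (dt (pt 44 i) (pt 44 j) (pt 44 k) (pt 44 l))
    = SignType.sign (dt (pt 45 i) (pt 45 j) (pt 45 k) (pt 45 l))

/-- NS: the edges at the apex are not singular. -/
def Stmt_NS : Prop := ∀ w : ℤ, w = 44 ∨ w = 45 →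
  ∀ Δ : TetComplex, Δ.tets = tetF.image (fun t => t.image (pt w)) →
  ∀ i : Fin 12, i ≠ 0 → ¬ SingAbs (Tv Δ.tets (pt w i)) hc {pt w 0, pt w i}

/-- TR: transport along an injective map. -/
def Stmt_TR : Prop := ∀ (Q P W : Type) [DecidableEq Q] [DecidableEq P] [AddCommGroup W]
  [Module ℝ W] (f : Q → P), Function.Injective f → ∀ (T : Finset (Finset Q)) (v : Q)
  (d : P → P → P → ℝ) (u : P → W),
  Module.finrank ℝ (OmegaG (T.image (fun t => t.image f)) (f v) u)
    = Module.finrank ℝ (OmegaG T v (fun q => u (f q))) ∧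
  Module.finrank ℝ (SigmaG (T.image (fun t => t.image f)) (f v) d u)
    = Module.finrank ℝ (SigmaG T v (fun a b c => d (f a) (f b) (f c)) (fun q => u (f q)))

/-- The determinants of the example. -/
def dI (w : ℤ) (a b c : Fin 12) : ℤ :=
  posI w a 0 * (posI w b 1 * posI w c 2 - posI w b 2 * posI w c 1)
    - posI w a 1 * (posI w b 0 * posI w c 2 - posI w b 2 * posI w c 0)
    + posI w a 2 * (posI w b 0 * posI w c 1 - posI w b 1 * posI w c 0)

/-- LO: three quadratic stresses at the apex. -/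
def Stmt_LO : Prop := ∀ w : ℤ, w = 44 ∨ w = 45 →
  Module.finrank ℝ (OmegaG tetF 0 (pt w)) = 3

/-- LS: one cubic stress at the apex for `w = 45`, none for `w = 44`. -/
def Stmt_LS : Prop :=
  Module.finrank ℝ (SigmaG tetF 0 (fun a b c => (dI 45 a b c : ℝ)) (pt 45)) = 1 ∧
  Module.finrank ℝ (SigmaG tetF 0 (fun a b c => (dI 44 a b c : ℝ)) (pt 44)) = 0

end Pool.CB
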