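import Pool.Agent.Work.CB2.Interface

/-! # Block LO: the stresses of degree one in the link of the apex (generated certificates) -/

open scoped BigOperators
open Finset

noncomputable section

namespace Pool.CB

namespace LO

/-- the edges of the link of the apex -/
def edgeL : List (Fin 12 × Fin 12) :=
  [(1, 4), (1, 6), (1, 7), (1, 9), (1, 10), (1, 11), (2, 4), (2, 5), (2, 7), (2, 8), (3, 5), (3, 6), (3, 8), (3, 9), (4, 5), (4, 6), (4, 7), (5, 6), (5, 8), (6, 9), (6, 10), (7, 8), (7, 9), (8, 9), (9, 11), (10, 11)]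

theorem VV_tetF : VV tetF = Finset.univ := by decide +kernel

theorem mem_face (p q : Fin 12) :
    ({0, p, q} : Finset (Fin 12)) ∈ FF tetF 3 ↔ ((p, q) ∈ edgeL ∨ (q, p) ∈ edgeL) := by
  rw [mem_FF]
  revert p q
  decide +kernel

theorem sum12 (f : Fin 12 → ℝ) : ∑ q, f q = f 0 + (f 1 + (f 2 + (f 3 + (f 4 + (f 5 + (f 6 + (f 7 +
    (f 8 + (f 9 + (f 10 + (f 11 + 0))))))))))) := rfl

theorem Z {w : ℤ} {ω : Fin 12 → Fin 12 → ℝ} (h : ω ∈ OmegaG tetF 0 (pt w)) (p q : Fin 12)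
    (hpq : ¬ ((p, q) ∈ edgeL ∨ (q, p) ∈ edgeL)) : ω p q = 0 :=
  h.2.1 p q fun hm => hpq ((mem_face p q).1 hm)

theorem anti {w : ℤ} {ω : Fin 12 → Fin 12 → ℝ} (h : ω ∈ OmegaG tetF 0 (pt w)) (p q : Fin 12) :
    ω q p = - ω p q := by
  have := h.1 p q
  linarith

theorem E {w : ℤ} {ω : Fin 12 → Fin 12 → ℝ} (h : ω ∈ OmegaG tetF 0 (pt w)) (p : Fin 12)
    (j : Fin 3) : ∑ q, ω p q * (posI w q j : ℝ) = 0 := by
  have h1 := congrFun (h.2.2 p) j
  rw [VV_tetF, Finset.sum_apply] at h1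
  exact h1

theorem ext0 {w : ℤ} {ω : Fin 12 → Fin 12 → ℝ} (h : ω ∈ OmegaG tetF 0 (pt w))
    (h0 : ∀ e ∈ edgeL, ω e.1 e.2 = 0) : ω = 0 := by
  ext p q
  by_cases hpq : (p, q) ∈ edgeL ∨ (q, p) ∈ edgeL
  · rcases hpq with hpq | hpq
    · exact h0 _ hpq
    · have h1 : ω q p = 0 := h0 _ hpq
      rw [anti h q p, h1, neg_zero]
      rfl
  · exact Z h p q hpq

theorem p_1_0 (w : ℤ) : ((posI w 1 0 : ℤ) : ℝ) = 0 := by
  have h : posI w 1 0 = 0 := rfl
  rw [h]; norm_num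

theorem p_1_1 (w : ℤ) : ((posI w 1 1 : ℤ) : ℝ) = 0 := by
  have h : posI w 1 1 = 0 := rfl
  rw [h]; norm_num

theorem p_1_2 (w : ℤ) : ((posI w 1 2 : ℤ) : ℝ) = 1 := by
  have h : posI w 1 2 = 1 := rfl
  rw [h]; norm_num

theorem p_2_0 (w : ℤ) : ((posI w 2 0 : ℤ) : ℝ) = 21 := by
  have h : posI w 2 0 = 21 := rfl
  rw [h]; norm_num

theorem p_2_1 (w : ℤ) : ((posI w 2 1 : ℤ) : ℝ) = 0 := by
  have h : posI w 2 1 = 0 := rfl
  rw [h]; norm_num

theorem p_2_2 (w : ℤ) : ((posI w 2 2 : ℤ) : ℝ) = 1 := by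
  have h : posI w 2 2 = 1 := rfl
  rw [h]; norm_num

theorem p_3_0 (w : ℤ) : ((posI w 3 0 : ℤ) : ℝ) = (w : ℝ) := rfl

theorem p_3_1 (w : ℤ) : ((posI w 3 1 : ℤ) : ℝ) = 0 := by
  have h : posI w 3 1 = 0 := rfl
  rw [h]; norm_num

theorem p_3_2 (w : ℤ) : ((posI w 3 2 : ℤ) : ℝ) = 1 := by
  have h : posI w 3 2 = 1 := rfl
  rw [h]; norm_num

theorem p_4_0 (w : ℤ) : ((posI w 4 0 : ℤ) : ℝ) = 20 := by
  have h : posI w 4 0 = 20 := rfl
  rw [h]; norm_num

theorem p_4_1 (w : ℤ) : ((posI w 4 1 : ℤ) : ℝ) = 5 := by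
  have h : posI w 4 1 = 5 := rfl
  rw [h]; norm_num

theorem p_4_2 (w : ℤ) : ((posI w 4 2 : ℤ) : ℝ) = 1 := by
  have h : posI w 4 2 = 1 := rfl
  rw [h]; norm_num

theorem p_5_0 (w : ℤ) : ((posI w 5 0 : ℤ) : ℝ) = 32 := by
  have h : posI w 5 0 = 32 := rfl
  rw [h]; norm_num

theorem p_5_1 (w : ℤ) : ((posI w 5 1 : ℤ) : ℝ) = 11 := by
  have h : posI w 5 1 = 11 := rfl
  rw [h]; norm_num

theorem p_5_2 (w : ℤ) : ((posI w 5 2 : ℤ) : ℝ) = 1 := by
  have h : posI w 5 2 = 1 := rfl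
  rw [h]; norm_num

theorem p_6_0 (w : ℤ) : ((posI w 6 0 : ℤ) : ℝ) = 60 := by
  have h : posI w 6 0 = 60 := rfl
  rw [h]; norm_num

theorem p_6_1 (w : ℤ) : ((posI w 6 1 : ℤ) : ℝ) = 165 := by
  have h : posI w 6 1 = 165 := rfl
  rw [h]; norm_num

theorem p_6_2 (w : ℤ) : ((posI w 6 2 : ℤ) : ℝ) = 1 := by
  have h : posI w 6 2 = 1 := rfl
  rw [h]; norm_num

theorem p_7_0 (w : ℤ) : ((posI w 7 0 : ℤ) : ℝ) = 20 := by
  have h : posI w 7 0 = 20 := rfl
  rw [h]; norm_num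

theorem p_7_1 (w : ℤ) : ((posI w 7 1 : ℤ) : ℝ) = (-5) := by
  have h : posI w 7 1 = (-5) := rfl
  rw [h]; norm_num

theorem p_7_2 (w : ℤ) : ((posI w 7 2 : ℤ) : ℝ) = 1 := by
  have h : posI w 7 2 = 1 := rfl
  rw [h]; norm_num

theorem p_8_0 (w : ℤ) : ((posI w 8 0 : ℤ) : ℝ) = 32 := by
  have h : posI w 8 0 = 32 := rfl
  rw [h]; norm_num

theorem p_8_1 (w : ℤ) : ((posI w 8 1 : ℤ) : ℝ) = (-11) := by
  have h : posI w 8 1 = (-11) := rfl
  rw [h]; norm_num

theorem p_8_2 (w : ℤ) : ((posI w 8 2 : ℤ) : ℝ) = 1 := by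
  have h : posI w 8 2 = 1 := rfl
  rw [h]; norm_num

theorem p_9_0 (w : ℤ) : ((posI w 9 0 : ℤ) : ℝ) = 60 := by
  have h : posI w 9 0 = 60 := rfl
  rw [h]; norm_num

theorem p_9_1 (w : ℤ) : ((posI w 9 1 : ℤ) : ℝ) = (-165) := by
  have h : posI w 9 1 = (-165) := rfl
  rw [h]; norm_num

theorem p_9_2 (w : ℤ) : ((posI w 9 2 : ℤ) : ℝ) = 1 := by
  have h : posI w 9 2 = 1 := rfl
  rw [h]; norm_num

theorem p_10_0 (w : ℤ) : ((posI w 10 0 : ℤ) : ℝ) = (-60) := by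
  have h : posI w 10 0 = (-60) := rfl
  rw [h]; norm_num

theorem p_10_1 (w : ℤ) : ((posI w 10 1 : ℤ) : ℝ) = 165 := by
  have h : posI w 10 1 = 165 := rfl
  rw [h]; norm_num

theorem p_10_2 (w : ℤ) : ((posI w 10 2 : ℤ) : ℝ) = 1 := by
  have h : posI w 10 2 = 1 := rfl
  rw [h]; norm_num

theorem p_11_0 (w : ℤ) : ((posI w 11 0 : ℤ) : ℝ) = (-60) := by
  have h : posI w 11 0 = (-60) := rfl
  rw [h]; norm_num

theorem p_11_1 (w : ℤ) : ((posI w 11 1 : ℤ) : ℝ) = (-165) := by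
  have h : posI w 11 1 = (-165) := rfl
  rw [h]; norm_num

theorem p_11_2 (w : ℤ) : ((posI w 11 2 : ℤ) : ℝ) = 1 := by
  have h : posI w 11 2 = 1 := rfl
  rw [h]; norm_num

theorem E_1 {w : ℤ} {ω : Fin 12 → Fin 12 → ℝ} (h : ω ∈ OmegaG tetF 0 (pt w)) (j : Fin 3) :
    ω 1 4 * (posI w 4 j : ℝ) +
    ω 1 6 * (posI w 6 j : ℝ) +
    ω 1 7 * (posI w 7 j : ℝ) +
    ω 1 9 * (posI w 9 j : ℝ) +
    ω 1 10 * (posI w 10 j : ℝ) +
    ω 1 11 * (posI w 11 j : ℝ) = 0 := by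
  have e := E h 1 j
  rw [sum12] at e
  rw [Z h 1 0 (by decide), Z h 1 1 (by decide), Z h 1 2 (by decide), Z h 1 3 (by decide), Z h 1 5 (by decide), Z h 1 8 (by decide)] at e
  linear_combination e

theorem E_2 {w : ℤ} {ω : Fin 12 → Fin 12 → ℝ} (h : ω ∈ OmegaG tetF 0 (pt w)) (j : Fin 3) :
    ω 2 4 * (posI w 4 j : ℝ) +
    ω 2 5 * (posI w 5 j : ℝ) +
    ω 2 7 * (posI w 7 j : ℝ) +
    ω 2 8 * (posI w 8 j : ℝ) = 0 := by
  have e := E h 2 j
  rw [sum12] at e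
  rw [Z h 2 0 (by decide), Z h 2 1 (by decide), Z h 2 2 (by decide), Z h 2 3 (by decide), Z h 2 6 (by decide), Z h 2 9 (by decide), Z h 2 10 (by decide), Z h 2 11 (by decide)] at e
  linear_combination e

theorem E_3 {w : ℤ} {ω : Fin 12 → Fin 12 → ℝ} (h : ω ∈ OmegaG tetF 0 (pt w)) (j : Fin 3) :
    ω 3 5 * (posI w 5 j : ℝ) +
    ω 3 6 * (posI w 6 j : ℝ) +
    ω 3 8 * (posI w 8 j : ℝ) +
    ω 3 9 * (posI w 9 j : ℝ) = 0 := by
  have e := E h 3 j
  rw [sum12] at e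
  rw [Z h 3 0 (by decide), Z h 3 1 (by decide), Z h 3 2 (by decide), Z h 3 3 (by decide), Z h 3 4 (by decide), Z h 3 7 (by decide), Z h 3 10 (by decide), Z h 3 11 (by decide)] at e
  linear_combination e

theorem E_4 {w : ℤ} {ω : Fin 12 → Fin 12 → ℝ} (h : ω ∈ OmegaG tetF 0 (pt w)) (j : Fin 3) :
    (- ω 1 4) * (posI w 1 j : ℝ) +
    (- ω 2 4) * (posI w 2 j : ℝ) +
    ω 4 5 * (posI w 5 j : ℝ) +
    ω 4 6 * (posI w 6 j : ℝ) +
    ω 4 7 * (posI w 7 j : ℝ) = 0 := by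
  have e := E h 4 j
  rw [sum12] at e
  rw [Z h 4 0 (by decide), Z h 4 3 (by decide), Z h 4 4 (by decide), Z h 4 8 (by decide), Z h 4 9 (by decide), Z h 4 10 (by decide), Z h 4 11 (by decide)] at e
  rw [anti h 1 4, anti h 2 4] at e
  linear_combination e

theorem E_5 {w : ℤ} {ω : Fin 12 → Fin 12 → ℝ} (h : ω ∈ OmegaG tetF 0 (pt w)) (j : Fin 3) :
    (- ω 2 5) * (posI w 2 j : ℝ) +
    (- ω 3 5) * (posI w 3 j : ℝ) +
    (- ω 4 5) * (posI w 4 j : ℝ) +
    ω 5 6 * (posI w 6 j : ℝ) +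
    ω 5 8 * (posI w 8 j : ℝ) = 0 := by
  have e := E h 5 j
  rw [sum12] at e
  rw [Z h 5 0 (by decide), Z h 5 1 (by decide), Z h 5 5 (by decide), Z h 5 7 (by decide), Z h 5 9 (by decide), Z h 5 10 (by decide), Z h 5 11 (by decide)] at e
  rw [anti h 2 5, anti h 3 5, anti h 4 5] at e
  linear_combination e

theorem E_6 {w : ℤ} {ω : Fin 12 → Fin 12 → ℝ} (h : ω ∈ OmegaG tetF 0 (pt w)) (j : Fin 3) :
    (- ω 1 6) * (posI w 1 j : ℝ) +
    (- ω 3 6) * (posI w 3 j : ℝ) +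
    (- ω 4 6) * (posI w 4 j : ℝ) +
    (- ω 5 6) * (posI w 5 j : ℝ) +
    ω 6 9 * (posI w 9 j : ℝ) +
    ω 6 10 * (posI w 10 j : ℝ) = 0 := by
  have e := E h 6 j
  rw [sum12] at e
  rw [Z h 6 0 (by decide), Z h 6 2 (by decide), Z h 6 6 (by decide), Z h 6 7 (by decide), Z h 6 8 (by decide), Z h 6 11 (by decide)] at e
  rw [anti h 1 6, anti h 3 6, anti h 4 6, anti h 5 6] at e
  linear_combination e

theorem E_7 {w : ℤ} {ω : Fin 12 → Fin 12 → ℝ} (h : ω ∈ OmegaG tetF 0 (pt w)) (j : Fin 3) :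
    (- ω 1 7) * (posI w 1 j : ℝ) +
    (- ω 2 7) * (posI w 2 j : ℝ) +
    (- ω 4 7) * (posI w 4 j : ℝ) +
    ω 7 8 * (posI w 8 j : ℝ) +
    ω 7 9 * (posI w 9 j : ℝ) = 0 := by
  have e := E h 7 j
  rw [sum12] at e
  rw [Z h 7 0 (by decide), Z h 7 3 (by decide), Z h 7 5 (by decide), Z h 7 6 (by decide), Z h 7 7 (by decide), Z h 7 10 (by decide), Z h 7 11 (by decide)] at e
  rw [anti h 1 7, anti h 2 7, anti h 4 7] at e
  linear_combination e

theorem E_8 {w : ℤ} {ω : Fin 12 → Fin 12 → ℝ} (h : ω ∈ OmegaG tetF 0 (pt w)) (j : Fin 3) :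
    (- ω 2 8) * (posI w 2 j : ℝ) +
    (- ω 3 8) * (posI w 3 j : ℝ) +
    (- ω 5 8) * (posI w 5 j : ℝ) +
    (- ω 7 8) * (posI w 7 j : ℝ) +
    ω 8 9 * (posI w 9 j : ℝ) = 0 := by
  have e := E h 8 j
  rw [sum12] at e
  rw [Z h 8 0 (by decide), Z h 8 1 (by decide), Z h 8 4 (by decide), Z h 8 6 (by decide), Z h 8 8 (by decide), Z h 8 10 (by decide), Z h 8 11 (by decide)] at e
  rw [anti h 2 8, anti h 3 8, anti h 5 8, anti h 7 8] at e
  linear_combination e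

theorem E_9 {w : ℤ} {ω : Fin 12 → Fin 12 → ℝ} (h : ω ∈ OmegaG tetF 0 (pt w)) (j : Fin 3) :
    (- ω 1 9) * (posI w 1 j : ℝ) +
    (- ω 3 9) * (posI w 3 j : ℝ) +
    (- ω 6 9) * (posI w 6 j : ℝ) +
    (- ω 7 9) * (posI w 7 j : ℝ) +
    (- ω 8 9) * (posI w 8 j : ℝ) +
    ω 9 11 * (posI w 11 j : ℝ) = 0 := by
  have e := E h 9 j
  rw [sum12] at e
  rw [Z h 9 0 (by decide), Z h 9 2 (by decide), Z h 9 4 (by decide), Z h 9 5 (by decide), Z h 9 9 (by decide), Z h 9 10 (by decide)] at e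
  rw [anti h 1 9, anti h 3 9, anti h 6 9, anti h 7 9, anti h 8 9] at e
  linear_combination e

theorem E_10 {w : ℤ} {ω : Fin 12 → Fin 12 → ℝ} (h : ω ∈ OmegaG tetF 0 (pt w)) (j : Fin 3) :
    (- ω 1 10) * (posI w 1 j : ℝ) +
    (- ω 6 10) * (posI w 6 j : ℝ) +
    ω 10 11 * (posI w 11 j : ℝ) = 0 := by
  have e := E h 10 j
  rw [sum12] at e
  rw [Z h 10 0 (by decide), Z h 10 2 (by decide), Z h 10 3 (by decide), Z h 10 4 (by decide), Z h 10 5 (by decide), Z h 10 7 (by decide), Z h 10 8 (by decide), Z h 10 9 (by decide), Z h 10 10 (by decide)] at e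
  rw [anti h 1 10, anti h 6 10] at e
  linear_combination e

theorem E_11 {w : ℤ} {ω : Fin 12 → Fin 12 → ℝ} (h : ω ∈ OmegaG tetF 0 (pt w)) (j : Fin 3) :
    (- ω 1 11) * (posI w 1 j : ℝ) +
    (- ω 9 11) * (posI w 9 j : ℝ) +
    (- ω 10 11) * (posI w 10 j : ℝ) = 0 := by
  have e := E h 11 j
  rw [sum12] at e
  rw [Z h 11 0 (by decide), Z h 11 2 (by decide), Z h 11 3 (by decide), Z h 11 4 (by decide), Z h 11 5 (by decide), Z h 11 6 (by decide), Z h 11 7 (by decide), Z h 11 8 (by decide), Z h 11 11 (by decide)] at e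
  rw [anti h 1 11, anti h 9 11, anti h 10 11] at e
  linear_combination e

theorem inj44 {ω : Fin 12 → Fin 12 → ℝ} (h : ω ∈ OmegaG tetF 0 (pt 44)) (f0 : ω 7 9 = 0) (f1 : ω 8 9 = 0) (f2 : ω 10 11 = 0) :
    ω = 0 := by
  have e_1_0 := E_1 h 0
  have e_1_1 := E_1 h 1
  have e_1_2 := E_1 h 2
  have e_2_0 := E_2 h 0
  have e_2_1 := E_2 h 1
  have e_2_2 := E_2 h 2
  have e_3_0 := E_3 h 0
  have e_3_1 := E_3 h 1
  have e_3_2 := E_3 h 2
  have e_4_0 := E_4 h 0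
  have e_4_1 := E_4 h 1
  have e_4_2 := E_4 h 2
  have e_5_0 := E_5 h 0
  have e_5_1 := E_5 h 1
  have e_5_2 := E_5 h 2
  have e_6_0 := E_6 h 0
  have e_6_1 := E_6 h 1
  have e_6_2 := E_6 h 2
  have e_7_0 := E_7 h 0
  have e_7_1 := E_7 h 1
  have e_7_2 := E_7 h 2
  have e_8_0 := E_8 h 0
  have e_8_1 := E_8 h 1
  have e_8_2 := E_8 h 2
  have e_9_0 := E_9 h 0
  have e_9_1 := E_9 h 1
  have e_9_2 := E_9 h 2
  have e_10_0 := E_10 h 0
  have e_10_1 := E_10 h 1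
  have e_10_2 := E_10 h 2
  have e_11_0 := E_11 h 0
  have e_11_1 := E_11 h 1
  have e_11_2 := E_11 h 2
  simp only [p_1_0, p_1_1, p_1_2, p_2_0, p_2_1, p_2_2, p_3_0, p_3_1, p_3_2, p_4_0, p_4_1, p_4_2, p_5_0, p_5_1, p_5_2, p_6_0, p_6_1, p_6_2, p_7_0, p_7_1, p_7_2, p_8_0, p_8_1, p_8_2, p_9_0, p_9_1, p_9_2, p_10_0, p_10_1, p_10_2, p_11_0, p_11_1, p_11_2] at e_1_0 e_1_1 e_1_2 e_2_0 e_2_1 e_2_2 e_3_0 e_3_1 e_3_2 e_4_0 e_4_1 e_4_2 e_5_0 e_5_1 e_5_2 e_6_0 e_6_1 e_6_2 e_7_0 e_7_1 e_7_2 e_8_0 e_8_1 e_8_2 e_9_0 e_9_1 e_9_2 e_10_0 e_10_1 e_10_2 e_11_0 e_11_1 e_11_2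
  push_cast at e_5_0 e_6_0 e_8_0 e_9_0
  have x_1_4 : ω 1 4 = 0 := by
    linear_combination (-1/40) * e_2_0 +
      (-367/1100) * e_2_1 +
      (-121/35) * e_3_0 +
      (-619/1050) * e_3_1 +
      (7711/70) * e_3_2 +
      (-257/4620) * e_4_0 +
      (-7094/12705) * e_4_1 +
      (-1) * e_4_2 +
      (-227/2100) * e_5_0 +
      (-5267/5775) * e_5_1 +
      (-11/5) * e_5_2 +
      (-619/140) * e_6_0 +
      (-619/385) * e_6_1 +
      (257/4620) * e_7_0 +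
      (-367/4235) * e_7_1 +
      (41/300) * e_8_0 +
      (-194/11) * f0 +
      (-41/5) * f1
  have x_1_6 : ω 1 6 = 0 := by
    linear_combination (1/1320) * e_2_0 +
      (367/36300) * e_2_1 +
      (31/252) * e_3_0 +
      (367/17325) * e_3_1 +
      (-136/35) * e_3_2 +
      (53/16940) * e_4_0 +
      (6973/419265) * e_4_1 +
      (149/23100) * e_5_0 +
      (5872/190575) * e_5_1 +
      (839/4620) * e_6_0 +
      (254/4235) * e_6_1 +
      (-1) * e_6_2 +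
      (-257/152460) * e_7_0 +
      (367/139755) * e_7_1 +
      (-41/9900) * e_8_0 +
      (-1/30) * e_10_0 +
      (194/363) * f0 +
      (41/165) * f1 +
      (-2) * f2
  have x_1_7 : ω 1 7 = 0 := by
    linear_combination (-3/100) * e_2_0 +
      (191/1100) * e_2_1 +
      (121/75) * e_3_0 +
      (89/350) * e_3_1 +
      (-3839/70) * e_3_2 +
      (59/4620) * e_4_0 +
      (629/2541) * e_4_1 +
      (-5/84) * e_5_0 +
      (817/1925) * e_5_1 +
      (11/5) * e_5_2 +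
      (267/140) * e_6_0 +
      (267/385) * e_6_1 +
      (-103/4620) * e_7_0 +
      (1178/12705) * e_7_1 +
      (-1) * e_7_2 +
      (-41/300) * e_8_0 +
      (194/11) * f0 +
      (41/5) * f1
  have x_1_9 : ω 1 9 = 0 := by
    linear_combination (1/120) * e_1_0 +
      (1/2) * e_1_2 +
      (79/2200) * e_2_0 +
      (701/7260) * e_2_1 +
      (2323/2100) * e_3_0 +
      (701/3465) * e_3_1 +
      (-3464/105) * e_3_2 +
      (431/16940) * e_4_0 +
      (761/3993) * e_4_1 +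
      (2/3) * e_4_2 +
      (7297/69300) * e_5_0 +
      (11216/38115) * e_5_1 +
      (1381/924) * e_6_0 +
      (6982/12705) * e_6_1 +
      (1) * e_6_2 +
      (-3131/152460) * e_7_0 +
      (-559/83853) * e_7_1 +
      (2/3) * e_7_2 +
      (41/9900) * e_8_0 +
      (1/30) * e_10_0 +
      (-194/363) * f0 +
      (-41/165) * f1 +
      (2) * f2
  have x_1_10 : ω 1 10 = 0 := by
    linear_combination (1/330) * e_1_1 +
      (1/2) * e_1_2 +
      (2/75) * e_2_0 +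
      (64/825) * e_2_1 +
      (613/700) * e_3_0 +
      (613/3850) * e_3_1 +
      (-1839/70) * e_3_2 +
      (67/3465) * e_4_0 +
      (1151/7623) * e_4_1 +
      (17/33) * e_4_2 +
      (41/525) * e_5_0 +
      (449/1925) * e_5_1 +
      (1/15) * e_5_2 +
      (41/35) * e_6_0 +
      (499/1155) * e_6_1 +
      (1) * e_6_2 +
      (-8/495) * e_7_0 +
      (-16/5445) * e_7_1 +
      (16/33) * e_7_2 +
      (1/30) * e_10_0 +
      (2) * f2
  have x_1_11 : ω 1 11 = 0 := by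
    linear_combination (-1/120) * e_1_0 +
      (-1/330) * e_1_1 +
      (-1/120) * e_2_0 +
      (-4/165) * e_2_1 +
      (-47/180) * e_3_0 +
      (-47/990) * e_3_1 +
      (47/6) * e_3_2 +
      (-1/198) * e_4_0 +
      (-86/1815) * e_4_1 +
      (-2/11) * e_4_2 +
      (-1/45) * e_5_0 +
      (-7/99) * e_5_1 +
      (-1/15) * e_5_2 +
      (-1/3) * e_6_0 +
      (-7/55) * e_6_1 +
      (-1) * e_6_2 +
      (1/198) * e_7_0 +
      (1/1089) * e_7_1 +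
      (-5/33) * e_7_2 +
      (-1/30) * e_10_0 +
      (-2) * f2
  have x_2_4 : ω 2 4 = 0 := by
    linear_combination (-5/66) * e_2_0 +
      (14759/7260) * e_2_1 +
      (1265/63) * e_3_0 +
      (22963/6930) * e_3_1 +
      (-27637/42) * e_3_2 +
      (11107/30492) * e_4_0 +
      (264449/83853) * e_4_1 +
      (619/13860) * e_5_0 +
      (201659/38115) * e_5_1 +
      (19) * e_5_2 +
      (22963/924) * e_6_0 +
      (22963/2541) * e_6_1 +
      (-5653/10164) * e_7_0 +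
      (14759/27951) * e_7_1 +
      (-779/660) * e_8_0 +
      (14580/121) * f0 +
      (779/11) * f1
  have x_2_5 : ω 2 5 = 0 := by
    linear_combination (25/726) * e_2_0 +
      (-14759/15972) * e_2_1 +
      (-608/63) * e_3_0 +
      (-24415/15246) * e_3_1 +
      (145445/462) * e_3_2 +
      (-62795/335412) * e_4_0 +
      (-1402105/922383) * e_4_1 +
      (-2071/30492) * e_5_0 +
      (-213275/83853) * e_5_1 +
      (-95/11) * e_5_2 +
      (-122075/10164) * e_6_0 +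
      (-122075/27951) * e_6_1 +
      (28265/111804) * e_7_0 +
      (-73795/307461) * e_7_1 +
      (779/1452) * e_8_0 +
      (-72900/1331) * f0 +
      (-3895/121) * f1
  have x_2_7 : ω 2 7 = 0 := by
    linear_combination (57/220) * e_2_0 +
      (-3629/2420) * e_2_1 +
      (-209/15) * e_3_0 +
      (-1691/770) * e_3_1 +
      (6631/14) * e_3_2 +
      (-1121/10164) * e_4_0 +
      (-59755/27951) * e_4_1 +
      (475/924) * e_5_0 +
      (-15523/4235) * e_5_1 +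
      (-19) * e_5_2 +
      (-5073/308) * e_6_0 +
      (-5073/847) * e_6_1 +
      (5653/10164) * e_7_0 +
      (-14759/27951) * e_7_1 +
      (779/660) * e_8_0 +
      (-14580/121) * f0 +
      (-779/11) * f1
  have x_2_8 : ω 2 8 = 0 := by
    linear_combination (-57/484) * e_2_0 +
      (3145/5324) * e_2_1 +
      (122/21) * e_3_0 +
      (4589/5082) * e_3_1 +
      (-30735/154) * e_3_2 +
      (455/15972) * e_4_0 +
      (272155/307461) * e_4_1 +
      (-953/3388) * e_5_0 +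
      (42697/27951) * e_5_1 +
      (95/11) * e_5_2 +
      (22945/3388) * e_6_0 +
      (22945/9317) * e_6_1 +
      (-28265/111804) * e_7_0 +
      (73795/307461) * e_7_1 +
      (-779/1452) * e_8_0 +
      (72900/1331) * f0 +
      (3895/121) * f1
  have x_3_5 : ω 3 5 = 0 := by
    linear_combination (3/22) * e_2_0 +
      (3/484) * e_2_1 +
      (9/154) * e_3_1 +
      (135/14) * e_3_2 +
      (445/3388) * e_4_0 +
      (95/9317) * e_4_1 +
      (65/308) * e_5_0 +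
      (16/847) * e_5_1 +
      (135/308) * e_6_0 +
      (135/847) * e_6_1 +
      (435/3388) * e_7_0 +
      (15/9317) * e_7_1 +
      (9/44) * e_8_0 +
      (-900/121) * f0 +
      (-135/11) * f1
  have x_3_6 : ω 3 6 = 0 := by
    linear_combination (-1/110) * e_2_0 +
      (-1/2420) * e_2_1 +
      (1/60) * e_3_0 +
      (-1/1155) * e_3_1 +
      (-8/7) * e_3_2 +
      (-89/10164) * e_4_0 +
      (-19/27951) * e_4_1 +
      (-13/924) * e_5_0 +
      (-16/12705) * e_5_1 +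
      (-9/308) * e_6_0 +
      (-9/847) * e_6_1 +
      (-29/3388) * e_7_0 +
      (-1/9317) * e_7_1 +
      (-3/220) * e_8_0 +
      (60/121) * f0 +
      (9/11) * f1
  have x_3_8 : ω 3 8 = 0 := by
    linear_combination (-3/22) * e_2_0 +
      (-3/484) * e_2_1 +
      (-1/28) * e_3_0 +
      (-9/154) * e_3_1 +
      (-15/2) * e_3_2 +
      (-445/3388) * e_4_0 +
      (-95/9317) * e_4_1 +
      (-65/308) * e_5_0 +
      (-16/847) * e_5_1 +
      (-135/308) * e_6_0 +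
      (-135/847) * e_6_1 +
      (-435/3388) * e_7_0 +
      (-15/9317) * e_7_1 +
      (-9/44) * e_8_0 +
      (900/121) * f0 +
      (135/11) * f1
  have x_3_9 : ω 3 9 = 0 := by
    linear_combination (1/110) * e_2_0 +
      (1/2420) * e_2_1 +
      (2/105) * e_3_0 +
      (1/1155) * e_3_1 +
      (89/10164) * e_4_0 +
      (19/27951) * e_4_1 +
      (13/924) * e_5_0 +
      (16/12705) * e_5_1 +
      (9/308) * e_6_0 +
      (9/847) * e_6_1 +
      (29/3388) * e_7_0 +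
      (1/9317) * e_7_1 +
      (3/220) * e_8_0 +
      (-60/121) * f0 +
      (-9/11) * f1
  have x_4_5 : ω 4 5 = 0 := by
    linear_combination (29/440) * e_2_0 +
      (7883/9680) * e_2_1 +
      (3553/420) * e_3_0 +
      (13351/9240) * e_3_1 +
      (-15073/56) * e_3_2 +
      (10435/40656) * e_4_0 +
      (149777/111804) * e_4_1 +
      (5119/18480) * e_5_0 +
      (113423/50820) * e_5_1 +
      (21/4) * e_5_2 +
      (13351/1232) * e_6_0 +
      (13351/3388) * e_6_1 +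
      (-1777/13552) * e_7_0 +
      (7883/37268) * e_7_1 +
      (-287/880) * e_8_0 +
      (5175/121) * f0 +
      (861/44) * f1
  have x_4_6 : ω 4 6 = 0 := by
    linear_combination (-11/1200) * e_2_0 +
      (-2/75) * e_2_1 +
      (-484/1575) * e_3_0 +
      (-88/1575) * e_3_1 +
      (968/105) * e_3_2 +
      (-19/1260) * e_4_0 +
      (-152/3465) * e_4_1 +
      (-44/1575) * e_5_0 +
      (-128/1575) * e_5_1 +
      (-44/105) * e_6_0 +
      (-16/105) * e_6_1 +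
      (-1/420) * e_7_0 +
      (-8/1155) * e_7_1 +
      (-1) * f0
  have x_4_7 : ω 4 7 = 0 := by
    linear_combination (-63/400) * e_2_0 +
      (4011/4400) * e_2_1 +
      (847/100) * e_3_0 +
      (267/200) * e_3_1 +
      (-11517/40) * e_3_2 +
      (59/880) * e_4_0 +
      (629/484) * e_4_1 +
      (-5/16) * e_5_0 +
      (2451/1100) * e_5_1 +
      (231/20) * e_5_2 +
      (801/80) * e_6_0 +
      (801/220) * e_6_1 +
      (-323/880) * e_7_0 +
      (573/2420) * e_7_1 +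
      (-287/400) * e_8_0 +
      (672/11) * f0 +
      (861/20) * f1
  have x_5_6 : ω 5 6 = 0 := by
    linear_combination (1/60) * e_2_0 +
      (1/60) * e_2_1 +
      (209/1260) * e_3_0 +
      (11/315) * e_3_1 +
      (-88/21) * e_3_2 +
      (5/252) * e_4_0 +
      (19/693) * e_4_1 +
      (43/1260) * e_5_0 +
      (16/315) * e_5_1 +
      (11/42) * e_6_0 +
      (2/21) * e_6_1 +
      (1/84) * e_7_0 +
      (1/231) * e_7_1 +
      (1/60) * e_8_0 +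
      (-1) * f1
  have x_5_8 : ω 5 8 = 0 := by
    linear_combination (213/968) * e_2_0 +
      (-2559/21296) * e_2_1 +
      (-19/14) * e_3_0 +
      (-901/6776) * e_3_1 +
      (5235/88) * e_3_2 +
      (26975/149072) * e_4_0 +
      (-81035/409948) * e_4_1 +
      (5231/13552) * e_5_0 +
      (-12801/37268) * e_5_1 +
      (-105/44) * e_5_2 +
      (-13515/13552) * e_6_0 +
      (-13515/37268) * e_6_1 +
      (35505/149072) * e_7_0 +
      (-12795/409948) * e_7_1 +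
      (771/1936) * e_8_0 +
      (-25875/1331) * f0 +
      (-11565/484) * f1
  have x_6_9 : ω 6 9 = 0 := by
    linear_combination (-1/1200) * e_2_0 +
      (-1/3300) * e_2_1 +
      (-11/6300) * e_3_0 +
      (-1/1575) * e_3_1 +
      (-1/1155) * e_4_0 +
      (-19/38115) * e_4_1 +
      (-1/700) * e_5_0 +
      (-16/17325) * e_5_1 +
      (-1/210) * e_6_0 +
      (-3/385) * e_6_1 +
      (-1/1386) * e_7_0 +
      (-1/12705) * e_7_1 +
      (-1/900) * e_8_0 +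
      (-1/60) * e_10_0 +
      (1/33) * f0 +
      (1/15) * f1 +
      (-1) * f2
  have x_6_10 : ω 6 10 = 0 := by
    linear_combination (-1/60) * e_10_0 +
      (-1) * f2
  have x_7_8 : ω 7 8 = 0 := by
    linear_combination (63/880) * e_2_0 +
      (-4011/9680) * e_2_1 +
      (-77/20) * e_3_0 +
      (-267/440) * e_3_1 +
      (1047/8) * e_3_2 +
      (-59/1936) * e_4_0 +
      (-3145/5324) * e_4_1 +
      (25/176) * e_5_0 +
      (-2451/2420) * e_5_1 +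
      (-21/4) * e_5_2 +
      (-801/176) * e_6_0 +
      (-801/484) * e_6_1 +
      (323/1936) * e_7_0 +
      (-1057/5324) * e_7_1 +
      (287/880) * e_8_0 +
      (-5175/121) * f0 +
      (-861/44) * f1
  have x_9_11 : ω 9 11 = 0 := by
    linear_combination (-7/1200) * e_2_0 +
      (-11/900) * e_3_0 +
      (-1/180) * e_4_0 +
      (-2/225) * e_5_0 +
      (-1/60) * e_6_0 +
      (-1/180) * e_7_0 +
      (-2/225) * e_8_0 +
      (-1/60) * e_9_0 +
      (1/60) * e_10_0 +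
      (1) * f2
  apply ext0 h
  intro e he
  simp only [edgeL, List.mem_cons, List.not_mem_nil, or_false] at he
  rcases he with rfl | rfl | rfl | rfl | rfl | rfl | rfl | rfl | rfl | rfl | rfl | rfl | rfl | rfl | rfl | rfl | rfl | rfl | rfl | rfl | rfl | rfl | rfl | rfl | rfl | rfl
  · exact x_1_4
  · exact x_1_6
  · exact x_1_7
  · exact x_1_9
  · exact x_1_10
  · exact x_1_11
  · exact x_2_4
  · exact x_2_5
  · exact x_2_7
  · exact x_2_8
  · exact x_3_5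
  · exact x_3_6
  · exact x_3_8
  · exact x_3_9
  · exact x_4_5
  · exact x_4_6
  · exact x_4_7
  · exact x_5_6
  · exact x_5_8
  · exact x_6_9
  · exact x_6_10
  · exact x_7_8
  · exact f0
  · exact f1
  · exact x_9_11
  · exact f2

/-- the basis for `w = 44` -/
def B44 : Fin 3 → Fin 12 → Fin 12 → ℤ :=
  ![![![0, 0, 0, 0, 0, 0, 0, 0, 0, 0, 0, 0],
      ![0, 0, 0, 0, -70422, 0, 2134, 70422, 0, -2134, 0, 0],
      ![0, 0, 0, 0, 481140, -218700, 0, -481140, 218700, 0, 0, 0],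
      ![0, 0, 0, 0, 0, -29700, 1980, 0, 29700, -1980, 0, 0],
      ![0, 70422, -481140, 0, 0, 170775, -3993, 243936, 0, 0, 0, 0],
      ![0, 0, 218700, 29700, -170775, 0, 0, 0, -77625, 0, 0, 0],
      ![0, -2134, 0, -1980, 3993, 0, 0, 0, 0, 121, 0, 0],
      ![0, -70422, 481140, 0, -243936, 0, 0, 0, -170775, 3993, 0, 0],
      ![0, 0, -218700, -29700, 0, 77625, 0, 170775, 0, 0, 0, 0],
      ![0, 2134, 0, 1980, 0, 0, -121, -3993, 0, 0, 0, 0],
      ![0, 0, 0, 0, 0, 0, 0, 0, 0, 0, 0, 0],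
      ![0, 0, 0, 0, 0, 0, 0, 0, 0, 0, 0, 0]],
    ![![0, 0, 0, 0, 0, 0, 0, 0, 0, 0, 0, 0],
      ![0, 0, 0, 0, -59532, 0, 1804, 59532, 0, -1804, 0, 0],
      ![0, 0, 0, 0, 514140, -233700, 0, -514140, 233700, 0, 0, 0],
      ![0, 0, 0, 0, 0, -89100, 5940, 0, 89100, -5940, 0, 0],
      ![0, 59532, -514140, 0, 0, 142065, 0, 312543, 0, 0, 0, 0],
      ![0, 0, 233700, 89100, -142065, 0, -7260, 0, -173475, 0, 0, 0],
      ![0, -1804, 0, -5940, 0, 7260, 0, 0, 0, 484, 0, 0],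
      ![0, -59532, 514140, 0, -312543, 0, 0, 0, -142065, 0, 0, 0],
      ![0, 0, -233700, -89100, 0, 173475, 0, 142065, 0, 7260, 0, 0],
      ![0, 1804, 0, 5940, 0, 0, -484, 0, -7260, 0, 0, 0],
      ![0, 0, 0, 0, 0, 0, 0, 0, 0, 0, 0, 0],
      ![0, 0, 0, 0, 0, 0, 0, 0, 0, 0, 0, 0]],
    ![![0, 0, 0, 0, 0, 0, 0, 0, 0, 0, 0, 0],
      ![0, 0, 0, 0, 0, 0, -2, 0, 0, 2, 2, -2],
      ![0, 0, 0, 0, 0, 0, 0, 0, 0, 0, 0, 0],
      ![0, 0, 0, 0, 0, 0, 0, 0, 0, 0, 0, 0],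
      ![0, 0, 0, 0, 0, 0, 0, 0, 0, 0, 0, 0],
      ![0, 0, 0, 0, 0, 0, 0, 0, 0, 0, 0, 0],
      ![0, 2, 0, 0, 0, 0, 0, 0, 0, -1, -1, 0],
      ![0, 0, 0, 0, 0, 0, 0, 0, 0, 0, 0, 0],
      ![0, 0, 0, 0, 0, 0, 0, 0, 0, 0, 0, 0],
      ![0, -2, 0, 0, 0, 0, 1, 0, 0, 0, 0, 1],
      ![0, -2, 0, 0, 0, 0, 1, 0, 0, 0, 0, 1],
      ![0, 2, 0, 0, 0, 0, 0, 0, 0, -1, -1, 0]]]

/-- the denominators for `w = 44` -/
def D44 : Fin 3 → ℤ := ![3993, 7260, 1]

theorem B44_anti : ∀ i p q, B44 i p q + B44 i q p = 0 := by decide +kernel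

theorem B44_supp : ∀ i p q, ¬ ((p, q) ∈ edgeL ∨ (q, p) ∈ edgeL) → B44 i p q = 0 := by
  decide +kernel

theorem B44_bal : ∀ i p j, ∑ q, B44 i p q * posI 44 q j = 0 := by decide +kernel

theorem B44_val : ∀ i k, ![B44 i 7 9, B44 i 8 9, B44 i 10 11] k = if i = k then D44 i else 0 := by
  decide +kernel

theorem inj45 {ω : Fin 12 → Fin 12 → ℝ} (h : ω ∈ OmegaG tetF 0 (pt 45)) (f0 : ω 7 9 = 0) (f1 : ω 8 9 = 0) (f2 : ω 10 11 = 0) :
    ω = 0 := by
  have e_1_0 := E_1 h 0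
  have e_1_1 := E_1 h 1
  have e_1_2 := E_1 h 2
  have e_2_0 := E_2 h 0
  have e_2_1 := E_2 h 1
  have e_2_2 := E_2 h 2
  have e_3_0 := E_3 h 0
  have e_3_1 := E_3 h 1
  have e_3_2 := E_3 h 2
  have e_4_0 := E_4 h 0
  have e_4_1 := E_4 h 1
  have e_4_2 := E_4 h 2
  have e_5_0 := E_5 h 0
  have e_5_1 := E_5 h 1
  have e_5_2 := E_5 h 2
  have e_6_0 := E_6 h 0
  have e_6_1 := E_6 h 1
  have e_6_2 := E_6 h 2
  have e_7_0 := E_7 h 0
  have e_7_1 := E_7 h 1
  have e_7_2 := E_7 h 2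
  have e_8_0 := E_8 h 0
  have e_8_1 := E_8 h 1
  have e_8_2 := E_8 h 2
  have e_9_0 := E_9 h 0
  have e_9_1 := E_9 h 1
  have e_9_2 := E_9 h 2
  have e_10_0 := E_10 h 0
  have e_10_1 := E_10 h 1
  have e_10_2 := E_10 h 2
  have e_11_0 := E_11 h 0
  have e_11_1 := E_11 h 1
  have e_11_2 := E_11 h 2
  simp only [p_1_0, p_1_1, p_1_2, p_2_0, p_2_1, p_2_2, p_3_0, p_3_1, p_3_2, p_4_0, p_4_1, p_4_2, p_5_0, p_5_1, p_5_2, p_6_0, p_6_1, p_6_2, p_7_0, p_7_1, p_7_2, p_8_0, p_8_1, p_8_2, p_9_0, p_9_1, p_9_2, p_10_0, p_10_1, p_10_2, p_11_0, p_11_1, p_11_2] at e_1_0 e_1_1 e_1_2 e_2_0 e_2_1 e_2_2 e_3_0 e_3_1 e_3_2 e_4_0 e_4_1 e_4_2 e_5_0 e_5_1 e_5_2 e_6_0 e_6_1 e_6_2 e_7_0 e_7_1 e_7_2 e_8_0 e_8_1 e_8_2 e_9_0 e_9_1 e_9_2 e_10_0 e_10_1 e_10_2 e_11_0 e_11_1 e_11_2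
  push_cast at e_5_0 e_6_0 e_8_0 e_9_0
  have x_1_4 : ω 1 4 = 0 := by
    linear_combination (-11/600) * e_2_0 +
      (-1/3) * e_2_1 +
      (-99/28) * e_3_0 +
      (-3/5) * e_3_1 +
      (792/7) * e_3_2 +
      (-31/630) * e_4_0 +
      (-1933/3465) * e_4_1 +
      (-1) * e_4_2 +
      (-22/225) * e_5_0 +
      (-41/45) * e_5_1 +
      (-11/5) * e_5_2 +
      (-22/5) * e_6_0 +
      (-8/5) * e_6_1 +
      (13/210) * e_7_0 +
      (-20/231) * e_7_1 +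
      (11/75) * e_8_0 +
      (-18) * f0 +
      (-44/5) * f1
  have x_1_6 : ω 1 6 = 0 := by
    linear_combination (1/1800) * e_2_0 +
      (1/99) * e_2_1 +
      (53/420) * e_3_0 +
      (5/231) * e_3_1 +
      (-4) * e_3_2 +
      (61/20790) * e_4_0 +
      (380/22869) * e_4_1 +
      (29/4725) * e_5_0 +
      (64/2079) * e_5_1 +
      (19/105) * e_6_0 +
      (23/385) * e_6_1 +
      (-1) * e_6_2 +
      (-13/6930) * e_7_0 +
      (20/7623) * e_7_1 +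
      (-1/225) * e_8_0 +
      (-1/30) * e_10_0 +
      (6/11) * f0 +
      (4/15) * f1 +
      (-2) * f2
  have x_1_7 : ω 1 7 = 0 := by
    linear_combination (-11/300) * e_2_0 +
      (13/75) * e_2_1 +
      (33/20) * e_3_0 +
      (9/35) * e_3_1 +
      (-396/7) * e_3_2 +
      (2/315) * e_4_0 +
      (856/3465) * e_4_1 +
      (-22/315) * e_5_0 +
      (667/1575) * e_5_1 +
      (11/5) * e_5_2 +
      (66/35) * e_6_0 +
      (24/35) * e_6_1 +
      (-1/35) * e_7_0 +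
      (107/1155) * e_7_1 +
      (-1) * e_7_2 +
      (-11/75) * e_8_0 +
      (18) * f0 +
      (44/5) * f1
  have x_1_9 : ω 1 9 = 0 := by
    linear_combination (1/120) * e_1_0 +
      (1/2) * e_1_2 +
      (13/360) * e_2_0 +
      (239/2475) * e_2_1 +
      (95/84) * e_3_0 +
      (239/1155) * e_3_1 +
      (-236/7) * e_3_2 +
      (533/20790) * e_4_0 +
      (21794/114345) * e_4_1 +
      (2/3) * e_4_2 +
      (499/4725) * e_5_0 +
      (15296/51975) * e_5_1 +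
      (157/105) * e_6_0 +
      (127/231) * e_6_1 +
      (1) * e_6_2 +
      (-47/2310) * e_7_0 +
      (-254/38115) * e_7_1 +
      (2/3) * e_7_2 +
      (1/225) * e_8_0 +
      (1/30) * e_10_0 +
      (-6/11) * f0 +
      (-4/15) * f1 +
      (2) * f2
  have x_1_10 : ω 1 10 = 0 := by
    linear_combination (1/330) * e_1_1 +
      (1/2) * e_1_2 +
      (2/75) * e_2_0 +
      (64/825) * e_2_1 +
      (94/105) * e_3_0 +
      (188/1155) * e_3_1 +
      (-188/7) * e_3_2 +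
      (67/3465) * e_4_0 +
      (1151/7623) * e_4_1 +
      (17/33) * e_4_2 +
      (41/525) * e_5_0 +
      (449/1925) * e_5_1 +
      (1/15) * e_5_2 +
      (41/35) * e_6_0 +
      (499/1155) * e_6_1 +
      (1) * e_6_2 +
      (-8/495) * e_7_0 +
      (-16/5445) * e_7_1 +
      (16/33) * e_7_2 +
      (1/30) * e_10_0 +
      (2) * f2
  have x_1_11 : ω 1 11 = 0 := by
    linear_combination (-1/120) * e_1_0 +
      (-1/330) * e_1_1 +
      (-1/120) * e_2_0 +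
      (-4/165) * e_2_1 +
      (-4/15) * e_3_0 +
      (-8/165) * e_3_1 +
      (8) * e_3_2 +
      (-1/198) * e_4_0 +
      (-86/1815) * e_4_1 +
      (-2/11) * e_4_2 +
      (-1/45) * e_5_0 +
      (-7/99) * e_5_1 +
      (-1/15) * e_5_2 +
      (-1/3) * e_6_0 +
      (-7/55) * e_6_1 +
      (-1) * e_6_2 +
      (1/198) * e_7_0 +
      (1/1089) * e_7_1 +
      (-5/33) * e_7_2 +
      (-1/30) * e_10_0 +
      (-2) * f2
  have x_2_4 : ω 2 4 = 0 := by
    linear_combination (-2/15) * e_2_0 +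
      (67/33) * e_2_1 +
      (575/28) * e_3_0 +
      (37/11) * e_3_1 +
      (-4740/7) * e_3_2 +
      (214/693) * e_4_0 +
      (24008/7623) * e_4_1 +
      (-2/45) * e_5_0 +
      (523/99) * e_5_1 +
      (19) * e_5_2 +
      (74/3) * e_6_0 +
      (296/33) * e_6_1 +
      (-47/77) * e_7_0 +
      (1340/2541) * e_7_1 +
      (-19/15) * e_8_0 +
      (1360/11) * f0 +
      (76) * f1
  have x_2_5 : ω 2 5 = 0 := by
    linear_combination (2/33) * e_2_0 +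
      (-335/363) * e_2_1 +
      (-760/77) * e_3_0 +
      (-2755/1694) * e_3_1 +
      (7125/22) * e_3_2 +
      (-1235/7623) * e_4_0 +
      (-127300/83853) * e_4_1 +
      (-19/693) * e_5_0 +
      (-19361/7623) * e_5_1 +
      (-95/11) * e_5_2 +
      (-2755/231) * e_6_0 +
      (-11020/2541) * e_6_1 +
      (235/847) * e_7_0 +
      (-6700/27951) * e_7_1 +
      (19/33) * e_8_0 +
      (-6800/121) * f0 +
      (-380/11) * f1
  have x_2_7 : ω 2 7 = 0 := by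
    linear_combination (19/60) * e_2_0 +
      (-247/165) * e_2_1 +
      (-57/4) * e_3_0 +
      (-171/77) * e_3_1 +
      (3420/7) * e_3_2 +
      (-38/693) * e_4_0 +
      (-16264/7623) * e_4_1 +
      (38/63) * e_5_0 +
      (-12673/3465) * e_5_1 +
      (-19) * e_5_2 +
      (-114/7) * e_6_0 +
      (-456/77) * e_6_1 +
      (47/77) * e_7_0 +
      (-1340/2541) * e_7_1 +
      (19/15) * e_8_0 +
      (-1360/11) * f0 +
      (-76) * f1
  have x_2_8 : ω 2 8 = 0 := by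
    linear_combination (-19/132) * e_2_0 +
      (214/363) * e_2_1 +
      (915/154) * e_3_0 +
      (1545/1694) * e_3_1 +
      (-31725/154) * e_3_2 +
      (25/7623) * e_4_0 +
      (10580/11979) * e_4_1 +
      (-223/693) * e_5_0 +
      (11617/7623) * e_5_1 +
      (95/11) * e_5_2 +
      (515/77) * e_6_0 +
      (2060/847) * e_6_1 +
      (-235/847) * e_7_0 +
      (6700/27951) * e_7_1 +
      (-19/33) * e_8_0 +
      (6800/121) * f0 +
      (380/11) * f1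
  have x_3_5 : ω 3 5 = 0 := by
    linear_combination (2/15) * e_2_0 +
      (1/165) * e_2_1 +
      (9/154) * e_3_1 +
      (135/14) * e_3_2 +
      (89/693) * e_4_0 +
      (76/7623) * e_4_1 +
      (13/63) * e_5_0 +
      (64/3465) * e_5_1 +
      (3/7) * e_6_0 +
      (12/77) * e_6_1 +
      (29/231) * e_7_0 +
      (4/2541) * e_7_1 +
      (1/5) * e_8_0 +
      (-80/11) * f0 +
      (-12) * f1
  have x_3_6 : ω 3 6 = 0 := by
    linear_combination (-2/225) * e_2_0 +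
      (-1/2475) * e_2_1 +
      (1/60) * e_3_0 +
      (-1/1155) * e_3_1 +
      (-8/7) * e_3_2 +
      (-89/10395) * e_4_0 +
      (-76/114345) * e_4_1 +
      (-13/945) * e_5_0 +
      (-64/51975) * e_5_1 +
      (-1/35) * e_6_0 +
      (-4/385) * e_6_1 +
      (-29/3465) * e_7_0 +
      (-4/38115) * e_7_1 +
      (-1/75) * e_8_0 +
      (16/33) * f0 +
      (4/5) * f1
  have x_3_8 : ω 3 8 = 0 := by
    linear_combination (-2/15) * e_2_0 +
      (-1/165) * e_2_1 +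
      (-1/28) * e_3_0 +
      (-9/154) * e_3_1 +
      (-15/2) * e_3_2 +
      (-89/693) * e_4_0 +
      (-76/7623) * e_4_1 +
      (-13/63) * e_5_0 +
      (-64/3465) * e_5_1 +
      (-3/7) * e_6_0 +
      (-12/77) * e_6_1 +
      (-29/231) * e_7_0 +
      (-4/2541) * e_7_1 +
      (-1/5) * e_8_0 +
      (80/11) * f0 +
      (12) * f1
  have x_3_9 : ω 3 9 = 0 := by
    linear_combination (2/225) * e_2_0 +
      (1/2475) * e_2_1 +
      (2/105) * e_3_0 +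
      (1/1155) * e_3_1 +
      (89/10395) * e_4_0 +
      (76/114345) * e_4_1 +
      (13/945) * e_5_0 +
      (64/51975) * e_5_1 +
      (1/35) * e_6_0 +
      (4/385) * e_6_1 +
      (29/3465) * e_7_0 +
      (4/38115) * e_7_1 +
      (1/75) * e_8_0 +
      (-16/33) * f0 +
      (-4/5) * f1
  have x_4_5 : ω 4 5 = 0 := by
    linear_combination (1/20) * e_2_0 +
      (179/220) * e_2_1 +
      (969/112) * e_3_0 +
      (453/308) * e_3_1 +
      (-1935/7) * e_3_2 +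
      (223/924) * e_4_0 +
      (3401/2541) * e_4_1 +
      (53/210) * e_5_0 +
      (10301/4620) * e_5_1 +
      (21/4) * e_5_2 +
      (151/14) * e_6_0 +
      (302/77) * e_6_1 +
      (-45/308) * e_7_0 +
      (179/847) * e_7_1 +
      (-7/20) * e_8_0 +
      (480/11) * f0 +
      (21) * f1
  have x_4_6 : ω 4 6 = 0 := by
    linear_combination (-11/1200) * e_2_0 +
      (-2/75) * e_2_1 +
      (-11/35) * e_3_0 +
      (-2/35) * e_3_1 +
      (66/7) * e_3_2 +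
      (-19/1260) * e_4_0 +
      (-152/3465) * e_4_1 +
      (-44/1575) * e_5_0 +
      (-128/1575) * e_5_1 +
      (-44/105) * e_6_0 +
      (-16/105) * e_6_1 +
      (-1/420) * e_7_0 +
      (-8/1155) * e_7_1 +
      (-1) * f0
  have x_4_7 : ω 4 7 = 0 := by
    linear_combination (-77/400) * e_2_0 +
      (91/100) * e_2_1 +
      (693/80) * e_3_0 +
      (27/20) * e_3_1 +
      (-297) * e_3_2 +
      (1/30) * e_4_0 +
      (214/165) * e_4_1 +
      (-11/30) * e_5_0 +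
      (667/300) * e_5_1 +
      (231/20) * e_5_2 +
      (99/10) * e_6_0 +
      (18/5) * e_6_1 +
      (-2/5) * e_7_0 +
      (13/55) * e_7_1 +
      (-77/100) * e_8_0 +
      (63) * f0 +
      (231/5) * f1
  have x_5_6 : ω 5 6 = 0 := by
    linear_combination (1/60) * e_2_0 +
      (1/60) * e_2_1 +
      (19/112) * e_3_0 +
      (1/28) * e_3_1 +
      (-30/7) * e_3_2 +
      (5/252) * e_4_0 +
      (19/693) * e_4_1 +
      (43/1260) * e_5_0 +
      (16/315) * e_5_1 +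
      (11/42) * e_6_0 +
      (2/21) * e_6_1 +
      (1/84) * e_7_0 +
      (1/231) * e_7_1 +
      (1/60) * e_8_0 +
      (-1) * f1
  have x_5_8 : ω 5 8 = 0 := by
    linear_combination (5/22) * e_2_0 +
      (-29/242) * e_2_1 +
      (-855/616) * e_3_0 +
      (-225/1694) * e_3_1 +
      (675/11) * e_3_2 +
      (955/5082) * e_4_0 +
      (-5510/27951) * e_4_1 +
      (367/924) * e_5_0 +
      (-3481/10164) * e_5_1 +
      (-105/44) * e_5_2 +
      (-75/77) * e_6_0 +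
      (-300/847) * e_6_1 +
      (415/1694) * e_7_0 +
      (-290/9317) * e_7_1 +
      (9/22) * e_8_0 +
      (-2400/121) * f0 +
      (-270/11) * f1
  have x_6_9 : ω 6 9 = 0 := by
    linear_combination (-1/1200) * e_2_0 +
      (-1/3300) * e_2_1 +
      (-1/560) * e_3_0 +
      (-1/1540) * e_3_1 +
      (-1/1155) * e_4_0 +
      (-19/38115) * e_4_1 +
      (-1/700) * e_5_0 +
      (-16/17325) * e_5_1 +
      (-1/210) * e_6_0 +
      (-3/385) * e_6_1 +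
      (-1/1386) * e_7_0 +
      (-1/12705) * e_7_1 +
      (-1/900) * e_8_0 +
      (-1/60) * e_10_0 +
      (1/33) * f0 +
      (1/15) * f1 +
      (-1) * f2
  have x_6_10 : ω 6 10 = 0 := by
    linear_combination (-1/60) * e_10_0 +
      (-1) * f2
  have x_7_8 : ω 7 8 = 0 := by
    linear_combination (7/80) * e_2_0 +
      (-91/220) * e_2_1 +
      (-63/16) * e_3_0 +
      (-27/44) * e_3_1 +
      (135) * e_3_2 +
      (-1/66) * e_4_0 +
      (-214/363) * e_4_1 +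
      (1/6) * e_5_0 +
      (-667/660) * e_5_1 +
      (-21/4) * e_5_2 +
      (-9/2) * e_6_0 +
      (-18/11) * e_6_1 +
      (2/11) * e_7_0 +
      (-24/121) * e_7_1 +
      (7/20) * e_8_0 +
      (-480/11) * f0 +
      (-21) * f1
  have x_9_11 : ω 9 11 = 0 := by
    linear_combination (-7/1200) * e_2_0 +
      (-1/80) * e_3_0 +
      (-1/180) * e_4_0 +
      (-2/225) * e_5_0 +
      (-1/60) * e_6_0 +
      (-1/180) * e_7_0 +
      (-2/225) * e_8_0 +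
      (-1/60) * e_9_0 +
      (1/60) * e_10_0 +
      (1) * f2
  apply ext0 h
  intro e he
  simp only [edgeL, List.mem_cons, List.not_mem_nil, or_false] at he
  rcases he with rfl | rfl | rfl | rfl | rfl | rfl | rfl | rfl | rfl | rfl | rfl | rfl | rfl | rfl | rfl | rfl | rfl | rfl | rfl | rfl | rfl | rfl | rfl | rfl | rfl | rfl
  · exact x_1_4
  · exact x_1_6
  · exact x_1_7
  · exact x_1_9
  · exact x_1_10
  · exact x_1_11
  · exact x_2_4
  · exact x_2_5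
  · exact x_2_7
  · exact x_2_8
  · exact x_3_5
  · exact x_3_6
  · exact x_3_8
  · exact x_3_9
  · exact x_4_5
  · exact x_4_6
  · exact x_4_7
  · exact x_5_6
  · exact x_5_8
  · exact x_6_9
  · exact x_6_10
  · exact x_7_8
  · exact f0
  · exact f1
  · exact x_9_11
  · exact f2

/-- the basis for `w = 45` -/
def B45 : Fin 3 → Fin 12 → Fin 12 → ℤ :=
  ![![![0, 0, 0, 0, 0, 0, 0, 0, 0, 0, 0, 0],
      ![0, 0, 0, 0, -6534, 0, 198, 6534, 0, -198, 0, 0],
      ![0, 0, 0, 0, 44880, -20400, 0, -44880, 20400, 0, 0, 0],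
      ![0, 0, 0, 0, 0, -2640, 176, 0, 2640, -176, 0, 0],
      ![0, 6534, -44880, 0, 0, 15840, -363, 22869, 0, 0, 0, 0],
      ![0, 0, 20400, 2640, -15840, 0, 0, 0, -7200, 0, 0, 0],
      ![0, -198, 0, -176, 363, 0, 0, 0, 0, 11, 0, 0],
      ![0, -6534, 44880, 0, -22869, 0, 0, 0, -15840, 363, 0, 0],
      ![0, 0, -20400, -2640, 0, 7200, 0, 15840, 0, 0, 0, 0],
      ![0, 198, 0, 176, 0, 0, -11, -363, 0, 0, 0, 0],
      ![0, 0, 0, 0, 0, 0, 0, 0, 0, 0, 0, 0],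
      ![0, 0, 0, 0, 0, 0, 0, 0, 0, 0, 0, 0]],
    ![![0, 0, 0, 0, 0, 0, 0, 0, 0, 0, 0, 0],
      ![0, 0, 0, 0, -1452, 0, 44, 1452, 0, -44, 0, 0],
      ![0, 0, 0, 0, 12540, -5700, 0, -12540, 5700, 0, 0, 0],
      ![0, 0, 0, 0, 0, -1980, 132, 0, 1980, -132, 0, 0],
      ![0, 1452, -12540, 0, 0, 3465, 0, 7623, 0, 0, 0, 0],
      ![0, 0, 5700, 1980, -3465, 0, -165, 0, -4050, 0, 0, 0],
      ![0, -44, 0, -132, 0, 165, 0, 0, 0, 11, 0, 0],
      ![0, -1452, 12540, 0, -7623, 0, 0, 0, -3465, 0, 0, 0],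
      ![0, 0, -5700, -1980, 0, 4050, 0, 3465, 0, 165, 0, 0],
      ![0, 44, 0, 132, 0, 0, -11, 0, -165, 0, 0, 0],
      ![0, 0, 0, 0, 0, 0, 0, 0, 0, 0, 0, 0],
      ![0, 0, 0, 0, 0, 0, 0, 0, 0, 0, 0, 0]],
    ![![0, 0, 0, 0, 0, 0, 0, 0, 0, 0, 0, 0],
      ![0, 0, 0, 0, 0, 0, -2, 0, 0, 2, 2, -2],
      ![0, 0, 0, 0, 0, 0, 0, 0, 0, 0, 0, 0],
      ![0, 0, 0, 0, 0, 0, 0, 0, 0, 0, 0, 0],
      ![0, 0, 0, 0, 0, 0, 0, 0, 0, 0, 0, 0],
      ![0, 0, 0, 0, 0, 0, 0, 0, 0, 0, 0, 0],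
      ![0, 2, 0, 0, 0, 0, 0, 0, 0, -1, -1, 0],
      ![0, 0, 0, 0, 0, 0, 0, 0, 0, 0, 0, 0],
      ![0, 0, 0, 0, 0, 0, 0, 0, 0, 0, 0, 0],
      ![0, -2, 0, 0, 0, 0, 1, 0, 0, 0, 0, 1],
      ![0, -2, 0, 0, 0, 0, 1, 0, 0, 0, 0, 1],
      ![0, 2, 0, 0, 0, 0, 0, 0, 0, -1, -1, 0]]]

/-- the denominators for `w = 45` -/
def D45 : Fin 3 → ℤ := ![363, 165, 1]

theorem B45_anti : ∀ i p q, B45 i p q + B45 i q p = 0 := by decide +kernel

theorem B45_supp : ∀ i p q, ¬ ((p, q) ∈ edgeL ∨ (q, p) ∈ edgeL) → B45 i p q = 0 := by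
  decide +kernel

theorem B45_bal : ∀ i p j, ∑ q, B45 i p q * posI 45 q j = 0 := by decide +kernel

theorem B45_val : ∀ i k, ![B45 i 7 9, B45 i 8 9, B45 i 10 11] k = if i = k then D45 i else 0 := by
  decide +kernel

theorem comb_mem {w : ℤ} {B : Fin 3 → Fin 12 → Fin 12 → ℤ}
    (h1 : ∀ i p q, B i p q + B i q p = 0)
    (h2 : ∀ i p q, ¬ ((p, q) ∈ edgeL ∨ (q, p) ∈ edgeL) → B i p q = 0)
    (h3 : ∀ i p j, ∑ q, B i p q * posI w q j = 0) (c : Fin 3 → ℝ) :
    (fun p q => ∑ i, c i * (B i p q : ℝ)) ∈ OmegaG tetF 0 (pt w) := by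
  refine ⟨fun p q => ?_, fun p q hpq => ?_, fun p => ?_⟩
  · rw [← Finset.sum_add_distrib]
    refine Finset.sum_eq_zero fun i _ => ?_
    have := h1 i p q
    rw [← mul_add, ← Int.cast_add, this, Int.cast_zero, mul_zero]
  · refine Finset.sum_eq_zero fun i _ => ?_
    rw [h2 i p q fun h => hpq ((mem_face p q).2 h), Int.cast_zero, mul_zero]
  · rw [VV_tetF]
    ext j
    rw [Finset.sum_apply]
    have h4 : ∀ q, ((∑ i, c i * (B i p q : ℝ)) • pt w q) j
        = ∑ i, c i * ((B i p q * posI w q j : ℤ) : ℝ) := by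
      intro q
      rw [Pi.smul_apply, smul_eq_mul, Finset.sum_mul]
      refine Finset.sum_congr rfl fun i _ => ?_
      unfold pt
      push_cast
      ring
    simp only [h4]
    rw [Finset.sum_comm]
    refine Finset.sum_eq_zero fun i _ => ?_
    rw [← Finset.mul_sum, ← Int.cast_sum, h3 i p j, Int.cast_zero, mul_zero]

/-- the coordinates -/
def co (w : ℤ) (a b c : Fin 12 × Fin 12) : OmegaG tetF 0 (pt w) →ₗ[ℝ] (Fin 3 → ℝ) where
  toFun ω := ![ω.1 a.1 a.2, ω.1 b.1 b.2, ω.1 c.1 c.2]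
  map_add' ω ω' := by
    ext i
    fin_cases i <;> rfl
  map_smul' r ω := by
    ext i
    fin_cases i <;> rfl

theorem main {w : ℤ} {a b c : Fin 12 × Fin 12} {B : Fin 3 → Fin 12 → Fin 12 → ℤ} {D : Fin 3 → ℤ}
    (h1 : ∀ i p q, B i p q + B i q p = 0)
    (h2 : ∀ i p q, ¬ ((p, q) ∈ edgeL ∨ (q, p) ∈ edgeL) → B i p q = 0)
    (h3 : ∀ i p j, ∑ q, B i p q * posI w q j = 0)
    (h4 : ∀ i k, ![B i a.1 a.2, B i b.1 b.2, B i c.1 c.2] k = if i = k then D i else 0)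
    (hD : ∀ i, D i ≠ 0)
    (hi : ∀ ω ∈ OmegaG tetF 0 (pt w), ω a.1 a.2 = 0 → ω b.1 b.2 = 0 → ω c.1 c.2 = 0 → ω = 0) :
    Module.finrank ℝ (OmegaG tetF 0 (pt w)) = 3 := by
  have hinj : Function.Injective (co w a b c) := by
    rw [← LinearMap.ker_eq_bot, LinearMap.ker_eq_bot']
    intro ω hω
    have e0 : ω.1 a.1 a.2 = 0 := congrFun hω 0
    have e1 : ω.1 b.1 b.2 = 0 := congrFun hω 1
    have e2 : ω.1 c.1 c.2 = 0 := congrFun hω 2
    exact Subtype.ext (hi ω.1 ω.2 e0 e1 e2)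
  have hsurj : Function.Surjective (co w a b c) := by
    intro x
    refine ⟨⟨_, comb_mem h1 h2 h3 (fun i => x i / D i)⟩, ?_⟩
    have key : ∀ k, ∑ i, x i / D i * ((![B i a.1 a.2, B i b.1 b.2, B i c.1 c.2] k : ℤ) : ℝ)
        = x k := by
      intro k
      rw [Finset.sum_eq_single k]
      · rw [h4, if_pos rfl, div_mul_cancel₀]
        exact_mod_cast hD k
      · intro i _ hik
        rw [h4, if_neg hik, Int.cast_zero, mul_zero]
      · intro hk
        exact absurd (Finset.mem_univ k) hk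
    ext k
    rw [← key k]
    fin_cases k <;> rfl
  have e := LinearEquiv.finrank_eq (LinearEquiv.ofBijective (co w a b c) ⟨hinj, hsurj⟩)
  rw [e, Module.finrank_fin_fun]

end LO

open LO in
theorem blk_LO : Stmt_LO := by
  intro w hw
  rcases hw with rfl | rfl
  · exact LO.main (a := (7, 9)) (b := (8, 9)) (c := (10, 11)) (D := D44) B44_anti B44_supp B44_bal
      B44_val (by decide) (fun ω h f0 f1 f2 => inj44 h f0 f1 f2)
  · exact LO.main (a := (7, 9)) (b := (8, 9)) (c := (10, 11)) (D := D45) B45_anti B45_supp B45_bal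
      B45_val (by decide) (fun ω h f0 f1 f2 => inj45 h f0 f1 f2)

end Pool.CB
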