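import Pool.Agent.Work.CB2.Interface

/-!
# Stresses of degree zero
-/

open scoped BigOperators
open Finset

noncomputable section

namespace Pool.CB

theorem s0_zero {P W : Type*} [DecidableEq P] [AddCommGroup W] [Module ℝ W]
    {T : Finset (Finset P)} {h : P → W} {ρ : (P →₀ ℕ) → (P →₀ ℝ)} (hρ : ρ ∈ StressT T h 0) :
    ρ = 0 := by
  obtain ⟨h1, h2, h3⟩ := mem_StressT.1 hρ
  funext a
  by_cases ha : a ∈ DD T 0
  · have hd := (mem_DD.1 ha).2
    rw [Finsupp.degree_eq_zero_iff] at hd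
    subst hd
    ext p
    have h4 := h3 (Finsupp.single p 1)
    rw [Finsupp.support_single _ one_ne_zero, Finset.sum_singleton, tsub_self] at h4
    exact h4
  · exact h2 a ha

theorem finrank_zero_of {P : Type*} [DecidableEq P] {N : Submodule ℝ ((P →₀ ℕ) → (P →₀ ℝ))}
    (hN : ∀ ρ ∈ N, ρ = 0) : Module.finrank ℝ N = 0 := by
  have : N = ⊥ := (Submodule.eq_bot_iff N).2 hN
  rw [this, finrank_bot]

theorem blk_S0 : Stmt_S0 := by
  intro P W _ _ _ T h
  exact finrank_zero_of fun ρ hρ => s0_zero hρ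

end Pool.CB
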