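import Pool.Agent.Work.CB2.D2
import Pool.Agent.Work.CB2.S0

/-!
# The stars of edges which are not singular
-/

open scoped BigOperators
open Finset

noncomputable section

namespace Pool.CB

section n

variable {P : Type*} [DecidableEq P] {W : Type*} [AddCommGroup W] [Module ℝ W]
variable {T : Finset (Finset P)} {h : P → W} {u v : P}

theorem n_mem_lk2 {s : Finset P} (huv : u ≠ v) (hv : ∀ t ∈ T, v ∈ t) (hu : ∀ t ∈ T, u ∈ t) :
    s ∈ lk (lk T v) u ↔ u ∉ s ∧ v ∉ s ∧ insert u (insert v s) ∈ T := by
  constructor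
  · intro hs
    obtain ⟨t', ht', hut, rfl⟩ := mem_lk.1 hs
    obtain ⟨t, ht, hvt, rfl⟩ := mem_lk.1 ht'
    refine ⟨by simp, by simp, ?_⟩
    have : insert u (insert v ((t.erase v).erase u)) = t := by
      ext x
      simp only [Finset.mem_insert, Finset.mem_erase]
      constructor
      · rintro (rfl | rfl | hx)
        · exact hu t ht
        · exact hvt
        · exact hx.2.2
      · intro hx
        by_cases h1 : x = u
        · exact Or.inl h1
        · by_cases h2 : x = v
          · exact Or.inr (Or.inl h2)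
          · exact Or.inr (Or.inr ⟨h1, h2, hx⟩)
    rw [this]
    exact ht
  · rintro ⟨h1, h2, h3⟩
    refine mem_lk.2 ⟨(insert u (insert v s)).erase v, mem_lk.2 ⟨_, h3, by simp, rfl⟩, ?_, ?_⟩
    · rw [Finset.mem_erase]; exact ⟨huv, by simp⟩
    · ext x
      simp only [Finset.mem_insert, Finset.mem_erase]
      constructor
      · rintro ⟨a, b, (c | c | c)⟩
        · exact absurd c a
        · exact absurd c b
        · exact c
      · intro hx
        exact ⟨fun hh => h1 (hh ▸ hx), fun hh => h2 (hh ▸ hx), Or.inr (Or.inr hx)⟩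

omit [DecidableEq P] in
/-- A relation modulo two vectors lifts. -/
theorem n_lift {φ φ' : W →ₗ[ℝ] ℝ} {r : P →₀ ℝ}
    (hr : Finsupp.linearCombination ℝ (hq (hq h φ v) φ' u) r = 0) :
    ∃ α β : ℝ, Finsupp.linearCombination ℝ h r = α • h u + β • h v := by
  rw [d2_lin, d2_lin] at hr
  set x := Finsupp.linearCombination ℝ h r
  refine ⟨φ' (x - φ x • h v), φ x - φ' (x - φ x • h v) * φ (h u), ?_⟩
  have h1 : hq h φ v u = h u - φ (h u) • h v := rfl
  rw [h1] at hr
  rw [← sub_eq_zero]
  refine Eq.trans ?_ hr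
  module

theorem n_main (hT : IsFan T h) (huv : u ≠ v) (hv : ∀ t ∈ T, v ∈ t) (hu : ∀ t ∈ T, u ∈ t)
    (hS : ¬ SingAbs T h {u, v}) {t0 : Finset P} (ht0 : t0 ∈ T) {φ φ' : W →ₗ[ℝ] ℝ}
    {k : ℕ} {ρ : (P →₀ ℕ) → (P →₀ ℝ)}
    (hρ : ρ ∈ StressT (lk (lk T v) u) (hq (hq h φ v) φ' u) k) : ρ = 0 := by
  rcases Nat.eq_zero_or_pos k with rfl | hk0
  · exact s0_zero hρ
  obtain ⟨h1, h2, h3⟩ := mem_StressT.1 hρ
  set T2 := lk (lk T v) u with hT2
  set h' := hq (hq h φ v) φ' u with hh'
  have hmem : ∀ {s : Finset P}, s ∈ T2 ↔ u ∉ s ∧ v ∉ s ∧ insert u (insert v s) ∈ T :=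
    fun {s} => n_mem_lk2 huv hv hu
  -- neighbours
  have hnb : ∀ {s : Finset P} {p : P}, p ∈ nb T2 s → p ≠ u ∧ p ≠ v := by
    intro s p hp
    obtain ⟨t, ht, _, hpt⟩ := mem_nb.1 hp
    obtain ⟨g1, g2, _⟩ := hmem.1 ht
    exact ⟨fun hh => g1 (hh ▸ hpt), fun hh => g2 (hh ▸ hpt)⟩
  -- lifting a relation
  have hlift : ∀ (s : Finset P) (r : P →₀ ℝ), r ∈ Rel T2 h' s → ∃ α β : ℝ,
      r - (α • Finsupp.single u 1 + β • Finsupp.single v 1) ∈ Rel T h (insert u (insert v s)) := by
    intro s r hr
    obtain ⟨g1, g2⟩ := Submodule.mem_inf.1 hr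
    obtain ⟨α, β, hαβ⟩ := n_lift (LinearMap.mem_ker.1 g2)
    by_cases hr0 : r = 0
    · exact ⟨0, 0, by simp [hr0]⟩
    refine ⟨α, β, Submodule.mem_inf.2 ⟨?_, ?_⟩⟩
    · obtain ⟨p, hp⟩ := Finsupp.ne_iff.1 hr0
      have hp' : p ∈ nb T2 s := by
        have := (Finsupp.mem_supported ℝ r).1 g1
        exact_mod_cast this (Finsupp.mem_support_iff.2 hp)
      obtain ⟨t, ht, hst, _⟩ := mem_nb.1 hp'
      obtain ⟨e1, e2, e3⟩ := hmem.1 ht
      have hsub : insert u (insert v s) ⊆ insert u (insert v t) :=
        Finset.insert_subset_insert _ (Finset.insert_subset_insert _ hst)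
      refine Submodule.sub_mem _ ?_ (Submodule.add_mem _ (Submodule.smul_mem _ _ ?_)
        (Submodule.smul_mem _ _ ?_))
      · refine Finsupp.supported_mono ?_ g1
        intro x hx
        have hx' : x ∈ nb T2 s := by exact_mod_cast hx
        obtain ⟨t', ht', hst', hxt'⟩ := mem_nb.1 hx'
        have : x ∈ nb T (insert u (insert v s)) :=
          mem_nb.2 ⟨_, (hmem.1 ht').2.2, Finset.insert_subset_insert _
            (Finset.insert_subset_insert _ hst'), by simp [hxt']⟩
        exact_mod_cast this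
      · refine Finsupp.single_mem_supported ℝ 1 ?_
        rw [Finset.mem_coe]
        exact mem_nb.2 ⟨_, e3, hsub, by simp⟩
      · refine Finsupp.single_mem_supported ℝ 1 ?_
        rw [Finset.mem_coe]
        exact mem_nb.2 ⟨_, e3, hsub, by simp⟩
    · rw [LinearMap.mem_ker, map_sub, map_add, map_smul, map_smul, Finsupp.linearCombination_single,
        Finsupp.linearCombination_single, one_smul, one_smul, hαβ, sub_self]
  -- edges carry no relation
  have hedge : ∀ s : Finset P, 2 ≤ s.card → ∀ r ∈ Rel T2 h' s, r = 0 := by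
    intro s hs r hr
    obtain ⟨α, β, hαβ⟩ := hlift s r hr
    by_cases hex : ∃ t ∈ T2, s ⊆ t
    · obtain ⟨t, ht, hst⟩ := hex
      obtain ⟨e1, e2, e3⟩ := hmem.1 ht
      have hcard : (insert u (insert v s)).card = s.card + 2 := by
        rw [Finset.card_insert_of_notMem, Finset.card_insert_of_notMem]
        · exact fun hh => e2 (hst hh)
        · rw [Finset.mem_insert]
          rintro (hh | hh)
          · exact huv hh
          · exact e1 (hst hh)
      have h4 := rel_eq_zero_of_card hT (by omega) hαβ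
      rw [sub_eq_zero] at h4
      ext p
      by_cases hp : p ∈ nb T2 s
      · obtain ⟨hp1, hp2⟩ := hnb hp
        rw [h4]
        simp [Finsupp.single_apply, Ne.symm hp1, Ne.symm hp2]
      · rw [Rel_apply_eq_zero hr hp, Finsupp.zero_apply]
    · ext p
      apply Rel_apply_eq_zero hr
      intro hp
      obtain ⟨t, ht, hst, _⟩ := mem_nb.1 hp
      exact hex ⟨t, ht, hst⟩
  have hzero : ∀ a : P →₀ ℕ, 2 ≤ a.support.card → ρ a = 0 := fun a ha => hedge _ ha _ (h1 a)
  -- multiples of a vertex
  have hone : ∀ (p : P) (i : ℕ), 1 ≤ i → ρ (Finsupp.single p i) p = 0 := by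
    intro p i _
    have h4 := h3 (Finsupp.single p (i + 1))
    rw [Finsupp.support_single _ (by omega), Finset.sum_singleton, ← Finsupp.single_tsub,
      Nat.add_sub_cancel] at h4
    exact h4
  have htwo : ∀ (p q : P) (i : ℕ), 1 ≤ i → p ≠ q → ρ (Finsupp.single p i) q
      + ρ (Finsupp.single p (i - 1) + Finsupp.single q 1) p = 0 := by
    intro p q i hi hpq
    have h4 := h3 (Finsupp.single p i + Finsupp.single q 1)
    rw [support_add_single, Finsupp.support_single _ (by omega), Finset.sum_pair hpq.symm,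
      add_tsub_cancel_right] at h4
    have e1 : Finsupp.single p i + Finsupp.single q 1 - Finsupp.single p 1
        = Finsupp.single p (i - 1) + Finsupp.single q 1 := by
      have : (Finsupp.single p i : P →₀ ℕ) = Finsupp.single p (i - 1) + Finsupp.single p 1 := by
        rw [← Finsupp.single_add]; congr 1; omega
      rw [this, add_right_comm, add_tsub_cancel_right]
    rw [e1] at h4
    exact h4
  -- degree at least two
  have hhigh : 2 ≤ k → ∀ p, ρ (Finsupp.single p k) = 0 := by
    intro hk p
    ext q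
    by_cases hpq : p = q
    · subst hpq; exact hone p k hk0
    · have h4 := htwo p q k hk0 hpq
      have h5 : ρ (Finsupp.single p (k - 1) + Finsupp.single q 1) = 0 := by
        apply hzero
        rw [support_add_single, Finsupp.support_single _ (by omega),
          Finset.card_pair (Ne.symm hpq)]
      rw [h5, Finsupp.zero_apply, add_zero] at h4
      exact h4
  -- degree one
  have hlow : k = 1 → ∀ p, ρ (Finsupp.single p 1) = 0 := by
    intro hk
    have hanti : ∀ p q, p ≠ q → ρ (Finsupp.single p 1) q + ρ (Finsupp.single q 1) p = 0 := by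
      intro p q hpq
      have h4 := htwo p q 1 le_rfl hpq
      rwa [Nat.sub_self, Finsupp.single_zero, zero_add] at h4
    have hcl : ∀ p, ∃ α β : ℝ, (p ≠ u ∧ p ≠ v → ρ (Finsupp.single p 1)
        - (α • Finsupp.single u 1 + β • Finsupp.single v 1) ∈ Rel T h (insert p {u, v})) := by
      intro p
      obtain ⟨α, β, hαβ⟩ := hlift {p} (ρ (Finsupp.single p 1)) (by
        have := h1 (Finsupp.single p 1)
        rwa [Finsupp.support_single _ one_ne_zero] at this)
      refine ⟨α, β, fun _ => ?_⟩
      have h5 : (insert u (insert v {p}) : Finset P) = insert p {u, v} := by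
        ext x; simp only [Finset.mem_insert, Finset.mem_singleton]; tauto
      rwa [h5] at hαβ
    choose α β hαβ using hcl
    set κ : P → (P →₀ ℝ) := fun p => if p = u ∨ p = v then 0 else ρ (Finsupp.single p 1)
        - (α p • Finsupp.single u 1 + β p • Finsupp.single v 1) with hκ
    have hκS : κ ∈ Sig T h {u, v} := by
      refine mem_Sig.2 ⟨fun w => ?_, fun w hw => ?_, fun w x hw hx => ?_⟩
      · simp only [hκ]
        split_ifs with hc
        · exact Submodule.zero_mem _
        · simp only [not_or] at hc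
          exact hαβ w hc
      · simp only [Finset.mem_insert, Finset.mem_singleton] at hw
        simp only [hκ, if_pos hw]
      · simp only [Finset.mem_insert, Finset.mem_singleton] at hw hx
        simp only [hκ, if_neg hw, if_neg hx]
        simp only [not_or] at hw hx
        have e1 : ∀ (y z : P), z ≠ u → z ≠ v → (ρ (Finsupp.single y 1)
            - (α y • Finsupp.single u 1 + β y • Finsupp.single v 1) : P →₀ ℝ) z
              = ρ (Finsupp.single y 1) z := by
          intro y z hz1 hz2
          simp [Finsupp.single_apply, Ne.symm hz1, Ne.symm hz2]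
        rw [e1 w x hx.1 hx.2, e1 x w hw.1 hw.2]
        by_cases hwx : w = x
        · subst hwx
          rw [hone w 1 le_rfl, add_zero]
        · exact hanti w x hwx
    have hbot : Sig T h {u, v} = ⊥ := by
      classical
      have h6 := finrank_Sig hT (Finset.card_pair huv) ht0
        (by
          intro x hx
          simp only [Finset.mem_insert, Finset.mem_singleton] at hx
          rcases hx with rfl | rfl
          · exact hu t0 ht0
          · exact hv t0 ht0)
      rw [if_neg hS] at h6
      by_contra hne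
      obtain ⟨κ', hκ', hne'⟩ := Submodule.exists_mem_ne_zero_of_ne_bot hne
      obtain ⟨w, y, w', y', hC⟩ := sig_cross hT huv hκ' hne'
      obtain ⟨hs, ψ, ψ', hψ, hψ', _, hk⟩ := cross_singAbs hT hC
      exact hS ⟨hs, ψ, ψ', hψ, hψ', hk⟩
    intro p
    rw [hbot, Submodule.mem_bot] at hκS
    ext q
    by_cases hq : q ∈ nb T2 {p}
    · obtain ⟨hq1, hq2⟩ := hnb hq
      obtain ⟨t, ht, hpt, hqt⟩ := mem_nb.1 hq
      have hp : p ∈ nb T2 {p} := mem_nb.2 ⟨t, ht, hpt, hpt (Finset.mem_singleton_self p)⟩
      obtain ⟨hp1, hp2⟩ := hnb hp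
      have h7 := DFunLike.congr_fun (congrFun hκS p) q
      simp only [hκ, hp1, hp2, or_self, if_false] at h7
      simpa [Finsupp.single_apply, Ne.symm hq1, Ne.symm hq2] using h7
    · refine Rel_apply_eq_zero (h := h') (s := {p}) ?_ hq
      have := h1 (Finsupp.single p 1)
      rwa [Finsupp.support_single _ one_ne_zero] at this
  funext a
  by_cases ha : a ∈ DD T2 k
  · obtain ⟨_, hdeg⟩ := mem_DD.1 ha
    by_cases hc : 2 ≤ a.support.card
    · exact hzero a hc
    · have hc1 : a.support.card = 1 := by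
        have : a.support.card ≠ 0 := by
          intro h0
          rw [Finset.card_eq_zero] at h0
          rw [Finsupp.degree_apply, h0, Finset.sum_empty] at hdeg
          omega
        omega
      obtain ⟨p, hp⟩ := Finset.card_eq_one.1 hc1
      have hap : a = Finsupp.single p k := by
        rw [Finsupp.degree_apply, hp, Finset.sum_singleton] at hdeg
        ext x
        rw [Finsupp.single_apply]
        split_ifs with hx
        · rw [← hx, hdeg]
        · have : x ∉ a.support := by rw [hp]; simp [Ne.symm hx]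
          exact Finsupp.notMem_support_iff.1 this
      rw [hap]
      by_cases hk1 : k = 1
      · subst hk1
        exact hlow rfl p
      · exact hhigh (by omega) p
  · exact h2 a ha

end n

theorem blk_N : Stmt_N := by
  intro P W _ _ _ T h u v hT huv hv hu hS k
  by_cases hTne : T.Nonempty
  swap
  · rw [Finset.not_nonempty_iff_eq_empty] at hTne
    refine finrank_zero_of fun ρ hρ => ?_
    funext a
    apply (mem_StressT.1 hρ).2.1
    intro hD
    obtain ⟨⟨t, ht, _⟩, _⟩ := mem_DD.1 hD
    rw [hTne] at ht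
    exact absurd ht (Finset.notMem_empty _)
  obtain ⟨t0, ht0⟩ := hTne
  have hind := hT.indep t0 ht0
  have hv0 : h v ≠ 0 := hind.ne_zero (Finset.mem_coe.2 (hv t0 ht0))
  have hdual : ∀ w : W, w ≠ 0 → ∃ φ : W →ₗ[ℝ] ℝ, φ w = 1 := by
    intro w hw
    have h1 : ¬ ∀ φ : Module.Dual ℝ W, φ w = 0 := fun hh =>
      hw ((Module.forall_dual_apply_eq_zero_iff ℝ w).1 hh)
    push Not at h1
    obtain ⟨φ, hφ⟩ := h1
    refine ⟨(φ w)⁻¹ • φ, ?_⟩
    rw [LinearMap.smul_apply, smul_eq_mul, inv_mul_cancel₀ hφ]
  obtain ⟨φ, hφ⟩ := hdual _ hv0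
  have hu0 : hq h φ v u ≠ 0 := by
    intro h0
    have h1 := linearIndepOn_iff.1 hind (Finsupp.single u 1 - Finsupp.single v (φ (h u))) ?_ ?_
    · have h2 := DFunLike.congr_fun h1 u
      simp [Finsupp.single_apply, huv.symm] at h2
    · refine Submodule.sub_mem _ (Finsupp.single_mem_supported ℝ _ ?_)
        (Finsupp.single_mem_supported ℝ _ ?_)
      · exact Finset.mem_coe.2 (hu t0 ht0)
      · exact Finset.mem_coe.2 (hv t0 ht0)
    · rw [map_sub, Finsupp.linearCombination_single, Finsupp.linearCombination_single, one_smul]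
      exact h0
  obtain ⟨φ', hφ'⟩ := hdual _ hu0
  have h1 := blk_D P W T h v φ hφ k
  rw [Tv_eq hv] at h1
  rw [h1]
  refine Finset.sum_eq_zero fun j _ => ?_
  have hu' : ∀ t ∈ lk T v, u ∈ t := by
    intro t' ht'
    obtain ⟨t, ht, _, rfl⟩ := mem_lk.1 ht'
    exact Finset.mem_erase.2 ⟨huv, hu t ht⟩
  have h2 := blk_D P W (lk T v) (hq h φ v) u φ' hφ' j
  rw [Tv_eq hu'] at h2
  rw [h2]
  refine Finset.sum_eq_zero fun i _ => ?_
  exact finrank_zero_of fun ρ hρ => n_main hT huv hv hu hS ht0 hρ

end Pool.CB
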